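import Pool.Agent.Lib.MP_8f66f0_al_TQ.Ker
import Pool.Agent.Lib.MP_8f66f0_al_WaldL.GrDefs
import Pool.Agent.Lib.MP_8f66f0_al_Tree.SpecD

/-!
# Theorem Q: products of trees with permuted factors (definitions)

`G` acts on a tree with vertex set `V`; `Γ` acts on the finite set `Q`, with a cocycle
`c : Γ → Q → G`. A point is a function `x : Q → Option V` (`none` is the point at infinity), and
`(g • x) (g • q) = c g q • x q`. The level of `x` is the number of the finite coordinates.

Kernels are row and column finite matrices on the points with entries in the group algebra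
`R[Γ]`; row = target `y`, column = source `x`, and `cf T g y x` is the coefficient of `g`.
Regular kernels (`Rk`) are sums of tensor products of local kernels which are equal to a multiple of
the graph of `c g q` outside a finite set. Rectangular matrices `Matrix n' n (Kr D V R)` of kernels
act on points with a block index.
-/

set_option autoImplicit false

namespace Pool.Agent.QT

open scoped Pointwise
open Pool.Agent.TQ Pool.Agent.Wald

/-- A tree with vertex set `V` and base vertex `root`, given by the parent function and the depth.
The group `G` maps the edges `{v, par v}` to edges. -/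
structure Tr (G V : Type) [Group G] [MulAction G V] where
  root : V
  par : V → V
  dep : V → ℕ
  par_root : par root = root
  dep_root : dep root = 0
  dep_par : ∀ v, v ≠ root → dep v = dep (par v) + 1
  adj : ∀ (g : G) (v : V), v ≠ root →
    (g • v ≠ root ∧ par (g • v) = g • par v) ∨ (g • par v ≠ root ∧ par (g • par v) = g • v)

/-- A cocycle of the action of `Γ` on `Q` with values in `G`. -/
structure Coc (Γ G Q : Type) [Group Γ] [Group G] [MulAction Γ Q] where
  c : Γ → Q → G
  c_one : ∀ q, c 1 q = 1
  c_mul : ∀ g h q, c (g * h) q = c g (h • q) * c h q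

/-- Partial functions on `Q` with values in the `G`-set `W`, with the twisted action of `Γ`. -/
def Tw {Γ G Q : Type} [Group Γ] [Group G] [MulAction Γ Q] (_ : Coc Γ G Q) (W : Type) : Type :=
  Q → Option W

section Act

variable {Γ G Q W : Type} [Group Γ] [Group G] [MulAction Γ Q] {D : Coc Γ G Q} [MulAction G W]

instance : MulAction Γ (Tw D W) where
  smul g x := fun q => (x (g⁻¹ • q)).map (D.c g (g⁻¹ • q) • ·)
  one_smul x := by
    funext q
    change (x ((1 : Γ)⁻¹ • q)).map (D.c 1 ((1 : Γ)⁻¹ • q) • ·) = x q
    rw [inv_one, one_smul, D.c_one]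
    cases x q <;> simp
  mul_smul g h x := by
    funext q
    change (x ((g * h)⁻¹ • q)).map (D.c (g * h) ((g * h)⁻¹ • q) • ·) =
      ((x (h⁻¹ • g⁻¹ • q)).map (D.c h (h⁻¹ • g⁻¹ • q) • ·)).map (D.c g (g⁻¹ • q) • ·)
    rw [D.c_mul, mul_inv_rev, mul_smul, smul_inv_smul, Option.map_map]
    congr 1
    funext v
    exact mul_smul _ _ _

theorem tw_smul (g : Γ) (x : Tw D W) (q : Q) : (g • x) (g • q) = (x q).map (D.c g q • ·) := by
  change (x (g⁻¹ • g • q)).map (D.c g (g⁻¹ • g • q) • ·) = _
  rw [inv_smul_smul]

theorem tw_eq_iff (g : Γ) (x y : Tw D W) :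
    y = g • x ↔ ∀ q, y (g • q) = (x q).map (D.c g q • ·) := by
  constructor
  · rintro rfl q
    exact tw_smul g x q
  · intro h
    funext q
    have h1 := h (g⁻¹ • q)
    rw [smul_inv_smul] at h1
    rw [h1]
    rfl

end Act

section Pts

variable {Γ G Q V : Type} [Group Γ] [Group G] [MulAction Γ Q] [MulAction G V] {D : Coc Γ G Q}

/-- The level: the number of the finite coordinates. -/
def lev [Fintype Q] (x : Tw D V) : ℕ := (Finset.univ.filter fun q => (x q).isSome = true).card

/-- The point at infinity. -/
def inf : Tw D V := fun _ => none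

/-- The coordinate `q` is moved to infinity. -/
def cut [DecidableEq Q] (q : Q) (x : Tw D V) : Tw D V := Function.update x q none

open Classical in
/-- The coordinates outside the finite set `B` are moved to infinity. -/
noncomputable def near (B : Finset V) (x : Tw D V) : Tw D V :=
  fun q => (x q).filter (fun v => decide (v ∈ B))

/-- `x` extends the partial function `l`. -/
def Exts (l x : Tw D V) : Prop := ∀ q, l q ≠ none → x q = l q

/-- A set of points is regular if membership depends only on the coordinates in a finite set. -/
def RS (E : Set (Tw D V)) : Prop := ∃ B : Finset V, ∀ x, x ∈ E ↔ near B x ∈ E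

variable (T : Tr G V)

/-- The parents of the coordinates. -/
def pr (x : Tw D V) : Tw D V := fun q => (x q).map T.par

/-- The point with all coordinates `root`. -/
def rt : Tw D V := fun _ => some T.root

open Classical in
/-- The number of the coordinates `root`. -/
noncomputable def rr [Fintype Q] (x : Tw D V) : ℕ :=
  (Finset.univ.filter fun q => x q = some T.root).card

open Classical in
/-- The edge label: at the coordinates `v ≠ root` the edge `{v, par v}`, at the coordinates `root`
the empty set, at infinity nothing. -/
noncomputable def ed (x : Tw D V) : Tw D (Set V) :=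
  fun q => (x q).map fun v => if v = T.root then ∅ else {v, T.par v}

/-- No coordinate is the base vertex. -/
def NR (x : Tw D V) : Prop := ∀ q, x q ≠ some T.root

end Pts

section General

variable {Ω A B : Type} [Ring A] [Ring B]

open Classical in
/-- The matrix with one entry. -/
noncomputable def sk (w v : Ω) (a : A) : RCF Ω A :=
  mkK (fun y x => if y = w ∧ x = v then a else 0)
    (fun y => (Set.finite_singleton v).subset fun x hx => by
      by_contra h
      exact hx (if_neg fun h' => h (by rw [h'.2]; rfl)))
    (fun x => (Set.finite_singleton w).subset fun y hy => by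
      by_contra h
      exact hy (if_neg fun h' => h (by rw [h'.1]; rfl)))

theorem ent_sk_eq (w v : Ω) (a : A) : ent (sk w v a) w v = a := by
  rw [sk, ent_mkK, if_pos ⟨rfl, rfl⟩]

theorem ent_sk_ne {w v y x : Ω} (h : ¬ (y = w ∧ x = v)) (a : A) : ent (sk w v a) y x = 0 := by
  rw [sk, ent_mkK, if_neg h]

private theorem mapK_row (f : A →+* B) (T : RCF Ω A) (y : Ω) :
    {x | f (ent T y x) ≠ 0}.Finite :=
  (ent_row T y).subset fun x hx h => hx (by rw [h, map_zero])

private theorem mapK_col (f : A →+* B) (T : RCF Ω A) (x : Ω) :
    {y | f (ent T y x) ≠ 0}.Finite :=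
  (ent_col T x).subset fun y hy h => hy (by rw [h, map_zero])

/-- Entrywise application of a ring homomorphism. -/
noncomputable def mapK (f : A →+* B) : RCF Ω A →+* RCF Ω B where
  toFun T := mkK (fun y x => f (ent T y x)) (mapK_row f T) (mapK_col f T)
  map_zero' := ent_ext fun y x => by rw [ent_mkK, ent_zero, map_zero, ent_zero]
  map_one' := by
    classical
    refine ent_ext fun y x => ?_
    rw [ent_mkK, ent_one, ent_one]
    split
    · rw [map_one]
    · rw [map_zero]
  map_add' T U := ent_ext fun y x => by
    rw [ent_add, ent_mkK, ent_mkK, ent_mkK, ent_add, map_add]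
  map_mul' T U := by
    refine ent_ext fun y x => ?_
    rw [ent_mkK, ent_mul_col T U y x (ent_col U x).toFinset fun v hv => by
      rw [Set.Finite.mem_toFinset]; exact hv]
    rw [ent_mul_col _ _ y x (ent_col U x).toFinset fun v hv => by
      rw [Set.Finite.mem_toFinset]
      intro h
      exact hv (by rw [ent_mkK, h, map_zero]), map_sum]
    simp only [ent_mkK, map_mul]

theorem ent_mapK (f : A →+* B) (T : RCF Ω A) (y x : Ω) : ent (mapK f T) y x = f (ent T y x) :=
  ent_mkK _ (mapK_row f T) (mapK_col f T) y x

end General

section Kern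

variable {Γ G Q V : Type} [Group Γ] [Group G] [MulAction Γ Q] [MulAction G V] (D : Coc Γ G Q)

/-- The kernels on the points. -/
abbrev Kr (V R : Type) [CommRing R] : Type := RCF (Tw D V) (MonoidAlgebra R Γ)

variable {D} {R : Type} [CommRing R]

/-- Local kernels which are equal to a multiple of the graph of `a` outside a finite set. -/
def Lr (a : G) (m : RCF (Option V) R) : Prop :=
  ∃ B : Finset V, ∀ w v : Option V, ((∀ b ∈ B, w ≠ some b) ∨ (∀ b ∈ B, v ≠ some b)) →
    (w = v.map (a • ·) → ent m w v = ent m none none) ∧
    (w ≠ v.map (a • ·) → ent m w v = 0)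

open Classical in
/-- The diagonal kernel of a set of points. -/
noncomputable def ind (E : Set (Tw D V)) : Kr D V R :=
  mkK (fun y x => if y = x ∧ x ∈ E then 1 else 0)
    (fun y => (Set.finite_singleton y).subset fun x hx => by
      by_contra h
      exact hx (if_neg fun h' => h (by rw [h'.1]; rfl)))
    (fun x => (Set.finite_singleton x).subset fun y hy => by
      by_contra h
      exact hy (if_neg fun h' => h (by rw [h'.1]; rfl)))

/-- The diagonal matrix of a family of sets of points. -/
noncomputable def dg {n : Type} [DecidableEq n] (E : n → Set (Tw D V)) : Matrix n n (Kr D V R) :=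
  Matrix.diagonal fun a => ind (E a)

variable [Fintype Q]

/-- The tensor product of local kernels, times `r g`. -/
noncomputable def ten (r : R) (g : Γ) (m : Q → RCF (Option V) R) : Kr D V R :=
  mkK (fun y x => MonoidAlgebra.single g (r * ∏ q, ent (m q) (y (g • q)) (x q)))
    (fun y => (Set.Finite.pi' fun q => ent_row (m q) (y (g • q))).subset fun x hx q => by
      intro h
      refine hx ?_
      rw [Finset.prod_eq_zero (Finset.mem_univ q) h, mul_zero, MonoidAlgebra.single_zero])
    (fun x => (Set.Finite.pi' fun q => ent_col (m (g⁻¹ • q)) (x (g⁻¹ • q))).subset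
      fun y hy q => by
      intro h
      refine hy ?_
      rw [Finset.prod_eq_zero (Finset.mem_univ (g⁻¹ • q)), mul_zero, MonoidAlgebra.single_zero]
      rw [smul_inv_smul]
      exact h)

/-- Regular kernels. -/
def Rk (T : Kr D V R) : Prop :=
  T ∈ AddSubgroup.closure {T : Kr D V R | ∃ (r : R) (g : Γ) (m : Q → RCF (Option V) R),
    (∀ q, Lr (D.c g q) (m q)) ∧ T = ten r g m}

/-- Two matrices of kernels agree below level `k`. -/
def EqB {n' n : Type} (k : ℕ) (S U : Matrix n' n (Kr D V R)) : Prop :=
  ∀ a' a y x, lev x < k → ent (S a' a) y x = ent (U a' a) y x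

/-- The isomorphisms between idempotents `e`, `e'`. -/
structure IsoM {n' n : Type} [Fintype n] [Fintype n'] {S : Type} [Ring S] (e : Matrix n n S)
    (e' : Matrix n' n' S) (f : Matrix n' n S) (f' : Matrix n n' S) : Prop where
  h1 : f' * f = e
  h2 : f * f' = e'
  h3 : f * e = f
  h4 : e' * f = f
  h5 : f' * e' = f'
  h6 : e * f' = f'

/-- The far match of target and source at the part `g`: the coordinates outside `B` correspond, and the
edges to the parents are respected. -/
def FM (T : Tr G V) (B : Finset V) (g : Γ) (y x : Tw D V) : Prop :=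
  ∀ q, near B x q = none → near B y (g • q) = none ∧ y (g • q) = (x q).map (D.c g q • ·) ∧
    pr T y (g • q) = (pr T x q).map (D.c g q • ·)

/-- The group elements which occur in a kernel are in a finite set. -/
def Fing (S : Kr D V R) : Prop := ∃ s : Finset Γ, ∀ g y x, cf S g y x ≠ 0 → g ∈ s

/-- Finite coordinates go to finite coordinates. -/
def Jc (S : Kr D V R) : Prop := ∀ g y x, cf S g y x ≠ 0 → ∀ q, y (g • q) = none ↔ x q = none

/-- Regularity at one coordinate: a coordinate outside `B` can be moved to infinity. -/
def Rg [DecidableEq Q] (S : Kr D V R) : Prop :=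
  ∃ B : Finset V, ∀ g y x q,
    ((∃ v, v ∉ B ∧ x q = some v) ∨ (∃ w, w ∉ B ∧ y (g • q) = some w)) →
    (y (g • q) = (x q).map (D.c g q • ·) → cf S g y x = cf S g (cut (g • q) y) (cut q x)) ∧
    (y (g • q) ≠ (x q).map (D.c g q • ·) → cf S g y x = 0)

/-- `S'` is the far lift of the level `k` part of `S`: the coefficient at `y`, `x` is that of `S` at
the near parts of `y`, `x`, if the far parts match and the level of the near part of `x` is `k`. -/
def IsFl (T : Tr G V) (B : Finset V) (k : ℕ) (S S' : Kr D V R) : Prop :=
  ∀ g y x, (FM T B g y x ∧ lev (near B x) = k → cf S' g y x = cf S g (near B y) (near B x)) ∧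
    (¬ (FM T B g y x ∧ lev (near B x) = k) → cf S' g y x = 0)

/-- The element `a` goes from points with the finite coordinates of `l` to points with the finite
coordinates of `l'`. -/
def JS (l' l : Tw D V) (a : MonoidAlgebra R Γ) : Prop :=
  ∀ g : Γ, a.coeff g ≠ 0 → ∀ q, l' (g • q) = none ↔ l q = none

open Classical in
/-- The full extension of the entry `a` at `l'`, `l`: in the coordinates at infinity of `l` the local
kernels `φ (c g q)`. -/
noncomputable def xt (φ : G → RCF (Option V) R) (l' l : Tw D V) (a : MonoidAlgebra R Γ) : Kr D V R :=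
  ∑ g ∈ a.coeff.support, ten (a.coeff g) g fun q =>
    if l q = none then φ (D.c g q) else sk (l' (g • q)) (l q) 1

end Kern

section Str

variable {Γ G Q V : Type} [Group Γ] [Group G] [MulAction Γ Q] [MulAction G V] {D : Coc Γ G Q}
  [Fintype Q] (T : Tr G V)

/-- Kernels which respect the points and the parents. -/
structure OO {R : Type} [CommRing R] (S : Kr D V R) : Prop where
  reg : Rk S
  pt : ∀ g y x, cf S g y x ≠ 0 → y = g • x ∧ pr T y = g • pr T x

/-- The structured family kernels: over `L[t]`, at `t = 0` the points are respected, at `t = 1` the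
number of the coordinates `root` does not increase, and if it is constant, then the edge labels are
respected. -/
structure SS {L : Type} [CommRing L] (S : Kr D V (Polynomial L)) : Prop where
  reg : Rk S
  zero : ∀ g y x, (cf S g y x).eval 0 ≠ 0 → y = g • x
  one : ∀ g y x, (cf S g y x).eval 1 ≠ 0 → rr T y ≤ rr T x ∧
    (rr T y = rr T x → ed T y = g • ed T x)

/-- Evaluation of the coefficients. -/
noncomputable def evA {L : Type} [CommRing L] (c : L) :
    MonoidAlgebra (Polynomial L) Γ →+* MonoidAlgebra L Γ :=
  MonoidAlgebra.mapRingHom Γ (Polynomial.evalRingHom c)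

/-- Constants. -/
noncomputable def coA {L : Type} [CommRing L] :
    MonoidAlgebra L Γ →+* MonoidAlgebra (Polynomial L) Γ :=
  MonoidAlgebra.mapRingHom Γ Polynomial.C

/-- The part of a matrix of kernels at `t = 1` and the point `rt`. -/
noncomputable def eps {L n n' : Type} [CommRing L] (f : Matrix n' n (Kr D V (Polynomial L))) :
    Matrix n' n (MonoidAlgebra L Γ) :=
  Matrix.of fun a' a => evA 1 (ent (f a' a) (rt T) (rt T))

/-- The local kernels of the homotopy. -/
structure IsPhi {L : Type} [CommRing L] (φ : G → RCF (Option V) (Polynomial L)) : Prop where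
  one : φ 1 = 1
  mul : ∀ a b, φ (a * b) = φ a * φ b
  lr : ∀ a, Lr a (φ a)
  inf : ∀ a, ent (φ a) none none = 1
  zero : ∀ a w v, (ent (φ a) w v).eval 0 ≠ 0 → w = v.map (a • ·)
  eval1 : ∀ a w v, (ent (φ a) w (some v)).eval 1 ≠ 0 → v ≠ T.root →
    ∃ w', w = some w' ∧ w' ≠ T.root ∧ ({w', T.par w'} : Set V) = a • ({v, T.par v} : Set V)
  root1 : ∀ a, (ent (φ a) (some T.root) (some T.root)).eval 1 = 1

end Str

end Pool.Agent.QT
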