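import Pool.Agent.Lib.MP_8f66f0_al_Q.RkInd

/-!
# Theorem Q: isomorphisms between idempotents
-/

set_option autoImplicit false

namespace Pool.Agent.QT

open Pool.Agent.TQ

section General

variable {S : Type} [Ring S]

theorem IsoM.symm {n n' : Type} [Fintype n] [Fintype n'] {e : Matrix n n S} {e' : Matrix n' n' S}
    {f : Matrix n' n S} {f' : Matrix n n' S} (h : IsoM e e' f f') : IsoM e' e f' f :=
  ⟨h.h2, h.h1, h.h5, h.h6, h.h3, h.h4⟩

theorem IsoM.idem {n n' : Type} [Fintype n] [Fintype n'] {e : Matrix n n S} {e' : Matrix n' n' S}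
    {f : Matrix n' n S} {f' : Matrix n n' S} (h : IsoM e e' f f') : e * e = e := by
  conv_lhs => rw [← h.h1, Matrix.mul_assoc]
  rw [h.h1, h.h3, h.h1]

theorem IsoM.idem' {n n' : Type} [Fintype n] [Fintype n'] {e : Matrix n n S} {e' : Matrix n' n' S}
    {f : Matrix n' n S} {f' : Matrix n n' S} (h : IsoM e e' f f') : e' * e' = e' := h.symm.idem

theorem IsoM.refl {n : Type} [Fintype n] {e : Matrix n n S} (h : e * e = e) : IsoM e e e e :=
  ⟨h, h, h, h, h, h⟩

theorem IsoM.comp {n n' n'' : Type} [Fintype n] [Fintype n'] [Fintype n''] {e : Matrix n n S}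
    {e' : Matrix n' n' S} {e'' : Matrix n'' n'' S} {f : Matrix n' n S} {f' : Matrix n n' S}
    {g : Matrix n'' n' S} {g' : Matrix n' n'' S} (h : IsoM e e' f f') (k : IsoM e' e'' g g') :
    IsoM e e'' (g * f) (f' * g') := by
  refine ⟨?_, ?_, ?_, ?_, ?_, ?_⟩
  · rw [Matrix.mul_assoc, ← Matrix.mul_assoc g', k.h1, h.h4, h.h1]
  · rw [Matrix.mul_assoc, ← Matrix.mul_assoc f, h.h2, k.h6, k.h2]
  · rw [Matrix.mul_assoc, h.h3]
  · rw [← Matrix.mul_assoc, k.h4]
  · rw [Matrix.mul_assoc, k.h5]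
  · rw [← Matrix.mul_assoc, h.h6]

/-- Isomorphisms from exact inverses: `f` maps the image of `e` onto the image of `f e f'`. -/
theorem IsoM.conj {n n' : Type} [Fintype n] [Fintype n'] [DecidableEq n] {e : Matrix n n S}
    {f : Matrix n' n S} {f' : Matrix n n' S} (he : e * e = e) (h : f' * f = 1) :
    IsoM e (f * e * f') (f * e) (e * f') := by
  have h1 : ∀ (m : Type) (x : Matrix n m S), f' * (f * x) = x := fun m x => by
    rw [← Matrix.mul_assoc, h, Matrix.one_mul]
  have h2 : ∀ (m : Type) (x : Matrix n m S), e * (e * x) = e * x := fun m x => by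
    rw [← Matrix.mul_assoc, he]
  refine ⟨?_, ?_, ?_, ?_, ?_, ?_⟩
  · rw [Matrix.mul_assoc, h1, he]
  · rw [Matrix.mul_assoc, h2, Matrix.mul_assoc]
  · rw [Matrix.mul_assoc, he]
  · rw [Matrix.mul_assoc, Matrix.mul_assoc, h1, he]
  · rw [Matrix.mul_assoc, Matrix.mul_assoc f, h1, h2]
  · rw [h2]

/-- Block sums. -/
theorem IsoM.sum {n n' m m' : Type} [Fintype n] [Fintype n'] [Fintype m] [Fintype m']
    {e : Matrix n n S} {e' : Matrix n' n' S} {f : Matrix n' n S} {f' : Matrix n n' S}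
    {d : Matrix m m S} {d' : Matrix m' m' S} {g : Matrix m' m S} {g' : Matrix m m' S}
    (h : IsoM e e' f f') (k : IsoM d d' g g') :
    IsoM (Matrix.fromBlocks e 0 0 d) (Matrix.fromBlocks e' 0 0 d') (Matrix.fromBlocks f 0 0 g)
      (Matrix.fromBlocks f' 0 0 g') := by
  constructor <;>
  simp only [Matrix.fromBlocks_multiply, Matrix.mul_zero, Matrix.zero_mul, add_zero, zero_add, h.h1,
    h.h2, h.h3, h.h4, h.h5, h.h6, k.h1, k.h2, k.h3, k.h4, k.h5, k.h6]

/-- Orthogonal sums in the same blocks. -/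
theorem IsoM.add {n n' : Type} [Fintype n] [Fintype n']
    {e d : Matrix n n S} {e' d' : Matrix n' n' S} {f g : Matrix n' n S} {f' g' : Matrix n n' S}
    (h : IsoM e e' f f') (k : IsoM d d' g g') (h1 : e * d = 0) (h2 : d * e = 0) (h3 : e' * d' = 0)
    (h4 : d' * e' = 0) : IsoM (e + d) (e' + d') (f + g) (f' + g') := by
  have z1 : f' * g = 0 := by rw [← h.h5, ← k.h4, Matrix.mul_assoc, ← Matrix.mul_assoc e', h3,
    Matrix.zero_mul, Matrix.mul_zero]
  have z2 : g' * f = 0 := by rw [← k.h5, ← h.h4, Matrix.mul_assoc, ← Matrix.mul_assoc d', h4,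
    Matrix.zero_mul, Matrix.mul_zero]
  have z3 : f * g' = 0 := by rw [← h.h3, ← k.h6, Matrix.mul_assoc, ← Matrix.mul_assoc e, h1,
    Matrix.zero_mul, Matrix.mul_zero]
  have z4 : g * f' = 0 := by rw [← k.h3, ← h.h6, Matrix.mul_assoc, ← Matrix.mul_assoc d, h2,
    Matrix.zero_mul, Matrix.mul_zero]
  have z5 : f * d = 0 := by rw [← h.h3, Matrix.mul_assoc, h1, Matrix.mul_zero]
  have z6 : g * e = 0 := by rw [← k.h3, Matrix.mul_assoc, h2, Matrix.mul_zero]
  have z7 : e' * g = 0 := by rw [← k.h4, ← Matrix.mul_assoc, h3, Matrix.zero_mul]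
  have z8 : d' * f = 0 := by rw [← h.h4, ← Matrix.mul_assoc, h4, Matrix.zero_mul]
  have z9 : f' * d' = 0 := by rw [← h.h5, Matrix.mul_assoc, h3, Matrix.mul_zero]
  have z10 : g' * e' = 0 := by rw [← k.h5, Matrix.mul_assoc, h4, Matrix.mul_zero]
  have z11 : e * g' = 0 := by rw [← k.h6, ← Matrix.mul_assoc, h1, Matrix.zero_mul]
  have z12 : d * f' = 0 := by rw [← h.h6, ← Matrix.mul_assoc, h2, Matrix.zero_mul]
  constructor <;>
  simp only [Matrix.mul_add, Matrix.add_mul, z1, z2, z3, z4, z5, z6, z7, z8, z9, z10, z11, z12,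
    add_zero, zero_add, h.h1, h.h2, h.h3, h.h4, h.h5, h.h6, k.h1, k.h2, k.h3, k.h4, k.h5, k.h6]

/-- Renaming of the blocks. -/
theorem IsoM.submatrix {n n' m m' : Type} [Fintype n] [Fintype n'] [Fintype m] [Fintype m']
    {e : Matrix n n S} {e' : Matrix n' n' S} {f : Matrix n' n S} {f' : Matrix n n' S}
    (h : IsoM e e' f f') (a : m ≃ n) (b : m' ≃ n') :
    IsoM (e.submatrix a a) (e'.submatrix b b) (f.submatrix b a) (f'.submatrix a b) := by
  constructor <;>
  simp only [Matrix.submatrix_mul_equiv, h.h1, h.h2, h.h3, h.h4, h.h5, h.h6]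

/-- Ring homomorphisms. -/
theorem IsoM.map {S' : Type} [Ring S'] (φ : S →+* S') {n n' : Type} [Fintype n] [Fintype n']
    {e : Matrix n n S} {e' : Matrix n' n' S} {f : Matrix n' n S} {f' : Matrix n n' S}
    (h : IsoM e e' f f') : IsoM (e.map φ) (e'.map φ) (f.map φ) (f'.map φ) := by
  constructor <;>
  simp only [← Matrix.map_mul, h.h1, h.h2, h.h3, h.h4, h.h5, h.h6]

/-- A matrix which is an isomorphism between `e` and `e'`, and has an exact inverse. -/
theorem IsoM.of_units {n n' : Type} [Fintype n] [Fintype n'] [DecidableEq n] [DecidableEq n']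
    {e : Matrix n n S} {e' : Matrix n' n' S} {f : Matrix n' n S} {f' : Matrix n n' S}
    (he : e * e = e) (h1 : f' * f = 1) (h2 : f * f' = 1) (h3 : f * e = e' * f) :
    IsoM e e' (f * e) (e * f') := by
  have h4 : e' = f * e * f' := by rw [h3, Matrix.mul_assoc, h2, Matrix.mul_one]
  rw [h4]
  exact IsoM.conj he h1

end General

section Diag

variable {Γ G Q V : Type} [Group Γ] [Group G] [MulAction Γ Q] [MulAction G V] {D : Coc Γ G Q}
  {R : Type} [CommRing R]

omit [MulAction G V] in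
theorem ind_univ : (ind Set.univ : Kr D V R) = 1 := by
  classical
  refine ent_ext fun y x => ?_
  rw [ent_ind, ent_one]
  by_cases h : y = x
  · rw [if_pos h, if_pos ⟨h, trivial⟩]
  · rw [if_neg h, if_neg fun h' => h h'.1]

omit [MulAction G V] in
theorem ind_empty : (ind ∅ : Kr D V R) = 0 := by
  classical
  refine ent_ext fun y x => ?_
  rw [ent_ind, ent_zero]
  exact if_neg fun h => h.2

omit [MulAction G V] in
theorem ent_mul_ind (E : Set (Tw D V)) (S : Kr D V R) (y x : Tw D V) :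
    (x ∈ E → ent (S * ind E) y x = ent S y x) ∧ (x ∉ E → ent (S * ind E) y x = 0) := by
  classical
  have h : ent (S * ind E) y x = ent S y x * (if x = x ∧ x ∈ E then 1 else 0) := by
    rw [ent_mul_col _ _ y x {x} fun v hv => ?_, Finset.sum_singleton, ent_ind]
    rw [ent_ind] at hv
    rw [Finset.mem_singleton]
    by_contra h
    exact hv (if_neg fun h' => h h'.1)
  constructor
  · intro hx
    rw [h, if_pos ⟨rfl, hx⟩, mul_one]
  · intro hx
    rw [h, if_neg fun h' => hx h'.2, mul_zero]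

omit [MulAction G V] in
theorem ent_ind_mul (E : Set (Tw D V)) (S : Kr D V R) (y x : Tw D V) :
    (y ∈ E → ent (ind E * S) y x = ent S y x) ∧ (y ∉ E → ent (ind E * S) y x = 0) := by
  classical
  have h : ent (ind E * S) y x = (if y = y ∧ y ∈ E then 1 else 0) * ent S y x := by
    rw [ent_mul_row _ _ y x {y} fun v hv => ?_, Finset.sum_singleton, ent_ind]
    rw [ent_ind] at hv
    rw [Finset.mem_singleton]
    by_contra h
    exact hv (if_neg fun h' => h h'.1.symm)
  constructor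
  · intro hy
    rw [h, if_pos ⟨rfl, hy⟩, one_mul]
  · intro hy
    rw [h, if_neg fun h' => hy h'.2, zero_mul]

omit [MulAction G V] in
theorem ind_mul (E E' : Set (Tw D V)) : (ind E : Kr D V R) * ind E' = ind (E ∩ E') := by
  classical
  refine ent_ext fun y x => ?_
  by_cases h3 : x ∈ E'
  · rw [(ent_mul_ind E' (ind E) y x).1 h3, ent_ind, ent_ind]
    by_cases h : y = x ∧ x ∈ E
    · rw [if_pos h, if_pos ⟨h.1, h.2, h3⟩]
    · rw [if_neg h, if_neg fun h' => h ⟨h'.1, h'.2.1⟩]
  · rw [(ent_mul_ind E' (ind E) y x).2 h3, ent_ind, if_neg fun h' => h3 h'.2.2]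

omit [MulAction G V] in
theorem dg_mul {n : Type} [Fintype n] [DecidableEq n] (E E' : n → Set (Tw D V)) :
    (dg E : Matrix n n (Kr D V R)) * dg E' = dg fun i => E i ∩ E' i := by
  rw [dg, dg, dg, Matrix.diagonal_mul_diagonal]
  simp only [ind_mul]

omit [MulAction G V] in
theorem dg_idem {n : Type} [Fintype n] [DecidableEq n] (E : n → Set (Tw D V)) :
    (dg E : Matrix n n (Kr D V R)) * dg E = dg E := by
  rw [dg_mul]
  simp only [Set.inter_self]

omit [MulAction G V] in
theorem dg_sum {n m : Type} [DecidableEq n] [DecidableEq m] (E : n → Set (Tw D V))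
    (F : m → Set (Tw D V)) : (dg (Sum.elim E F) : Matrix (n ⊕ m) (n ⊕ m) (Kr D V R)) =
      Matrix.fromBlocks (dg E) 0 0 (dg F) := by
  rw [dg, dg, dg, Matrix.fromBlocks_diagonal]
  congr 1
  funext i
  cases i <;> rfl

omit [MulAction G V] in
/-- Disjoint unions. -/
theorem dg_add {n : Type} [DecidableEq n] (E E' : n → Set (Tw D V))
    (h : ∀ i, Disjoint (E i) (E' i)) :
    (dg E : Matrix n n (Kr D V R)) + dg E' = dg fun i => E i ∪ E' i := by
  classical
  rw [dg, dg, dg, Matrix.diagonal_add]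
  congr 1
  funext i
  refine ent_ext fun y x => ?_
  rw [ent_add, ent_ind, ent_ind, ent_ind]
  have h0 := h i
  by_cases hyx : y = x
  · by_cases h1 : x ∈ E i
    · have h2 : x ∉ E' i := fun h2 => Set.disjoint_left.1 h0 h1 h2
      rw [if_pos ⟨hyx, h1⟩, if_neg fun h => h2 h.2, if_pos ⟨hyx, Or.inl h1⟩, add_zero]
    · by_cases h2 : x ∈ E' i
      · rw [if_neg fun h => h1 h.2, if_pos ⟨hyx, h2⟩, if_pos ⟨hyx, Or.inr h2⟩, zero_add]
      · rw [if_neg fun h => h1 h.2, if_neg fun h => h2 h.2, if_neg fun h => h.2.elim h1 h2, add_zero]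
  · rw [if_neg fun h => hyx h.1, if_neg fun h => hyx h.1, if_neg fun h => hyx h.1, add_zero]

omit [MulAction G V] in
theorem dg_univ {n : Type} [DecidableEq n] :
    (dg (fun _ : n => (Set.univ : Set (Tw D V))) : Matrix n n (Kr D V R)) = 1 := by
  rw [dg]
  simp only [ind_univ]
  exact Matrix.diagonal_one

end Diag

end Pool.Agent.QT
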