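import Pool.Agent.Lib.MP_8f66f0_al_Q.Ten

/-!
# Theorem Q: regular kernels
-/

set_option autoImplicit false

namespace Pool.Agent.QT

open Pool.Agent.TQ

section Local

variable {G V : Type} [Group G] [MulAction G V] {R : Type} [CommRing R]

/-- Outside the finite set `B`. -/
def Fr (B : Finset V) (v : Option V) : Prop := ∀ b ∈ B, v ≠ some b

theorem fr_none (B : Finset V) : Fr B none := fun _ _ h => Option.some_ne_none _ h.symm

theorem Fr.mono {B B' : Finset V} (h : B ⊆ B') {v : Option V} (hv : Fr B' v) : Fr B v :=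
  fun b hb => hv b (h hb)

theorem fr_map [DecidableEq V] {B : Finset V} {a : G} {v : Option V}
    (h : Fr (B.image (a⁻¹ • ·)) v) : Fr B (v.map (a • ·)) := by
  intro b hb hv
  cases v with
  | none => exact Option.some_ne_none _ hv.symm
  | some v =>
    refine h (a⁻¹ • b) (Finset.mem_image_of_mem _ hb) ?_
    have h1 : a • v = b := Option.some_inj.1 hv
    rw [← h1, inv_smul_smul]

theorem omap_inv (a : G) (v : Option V) : (v.map (a • · : V → V)).map (a⁻¹ • · : V → V) = v := by
  cases v with
  | none => rfl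
  | some v =>
    change some (a⁻¹ • a • v) = some v
    rw [inv_smul_smul]

theorem omap_inv' (a : G) (v : Option V) : (v.map (a⁻¹ • · : V → V)).map (a • · : V → V) = v := by
  cases v with
  | none => rfl
  | some v =>
    change some (a • a⁻¹ • v) = some v
    rw [smul_inv_smul]

theorem omap_mul (a b : G) (v : Option V) :
    v.map ((a * b) • · : V → V) = (v.map (b • · : V → V)).map (a • · : V → V) := by
  cases v with
  | none => rfl
  | some v =>
    change some ((a * b) • v) = some (a • b • v)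
    rw [mul_smul]

theorem omap_one (v : Option V) : v.map ((1 : G) • · : V → V) = v := by
  cases v with
  | none => rfl
  | some v =>
    change some ((1 : G) • v) = some v
    rw [one_smul]

/-- The condition `Lr` for a given finite set. -/
def LrB (B : Finset V) (a : G) (m : RCF (Option V) R) : Prop :=
  ∀ w v : Option V, (Fr B w ∨ Fr B v) →
    (w = v.map (a • ·) → ent m w v = ent m none none) ∧
    (w ≠ v.map (a • ·) → ent m w v = 0)

theorem lr_iff (a : G) (m : RCF (Option V) R) : Lr a m ↔ ∃ B : Finset V, LrB B a m := Iff.rfl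

theorem LrB.mono {B B' : Finset V} (h : B ⊆ B') {a : G} {m : RCF (Option V) R} (hm : LrB B a m) :
    LrB B' a m := fun w v hwv => hm w v (hwv.imp (Fr.mono h) (Fr.mono h))

/-- Columns outside the finite set. -/
theorem LrB.mul_col {B : Finset V} {b : G} {n : RCF (Option V) R} (hn : LrB B b n)
    (m : RCF (Option V) R) (w v : Option V) (hv : Fr B v) :
    ent (m * n) w v = ent m w (v.map (b • ·)) * ent n none none := by
  classical
  rw [ent_mul_col m n w v {v.map (b • ·)} fun u hu => ?_]
  · rw [Finset.sum_singleton, (hn _ _ (Or.inr hv)).1 rfl]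
  · rw [Finset.mem_singleton]
    by_contra hne
    exact hu ((hn u v (Or.inr hv)).2 hne)

/-- Rows outside the finite set. -/
theorem LrB.mul_row {B : Finset V} {a : G} {m : RCF (Option V) R} (hm : LrB B a m)
    (n : RCF (Option V) R) (w v : Option V) (hw : Fr B w) :
    ent (m * n) w v = ent m none none * ent n (w.map (a⁻¹ • ·)) v := by
  classical
  rw [ent_mul_row m n w v {w.map (a⁻¹ • ·)} fun u hu => ?_]
  · rw [Finset.sum_singleton, (hm w (w.map (a⁻¹ • ·)) (Or.inl hw)).1 (omap_inv' a w).symm]
  · rw [Finset.mem_singleton]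
    by_contra hne
    refine hu ((hm w u (Or.inl hw)).2 fun h => hne ?_)
    rw [h, omap_inv]

/-- Products of local kernels. -/
theorem Lr.mul {a b : G} {m n : RCF (Option V) R} (hm : Lr a m) (hn : Lr b n) :
    Lr (a * b) (m * n) := by
  classical
  obtain ⟨B1, h1⟩ := hm
  obtain ⟨B2, h2⟩ := hn
  change LrB B1 a m at h1
  change LrB B2 b n at h2
  have h0 : ent (m * n) none none = ent m none none * ent n none none :=
    h2.mul_col m none none (fr_none B2)
  let B : Finset V := (B1 ∪ B2.image (a • ·)) ∪ (B2 ∪ B1.image (b⁻¹ • ·))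
  refine ⟨B, fun w v hwv => ?_⟩
  have hwv' : Fr B w ∨ Fr B v := hwv
  rw [h0]
  rcases hwv' with hw | hv
  · have hw1 : Fr B1 w := hw.mono (Finset.subset_union_left.trans Finset.subset_union_left)
    have hw2 : Fr B2 (w.map (a⁻¹ • ·)) := by
      apply fr_map
      rw [inv_inv]
      exact hw.mono (Finset.subset_union_right.trans Finset.subset_union_left)
    rw [h1.mul_row n w v hw1]
    constructor
    · intro h
      rw [(h2 _ v (Or.inl hw2)).1]
      rw [h, omap_mul, omap_inv]
    · intro h
      rw [(h2 _ v (Or.inl hw2)).2, mul_zero]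
      intro h3
      refine h ?_
      rw [omap_mul, ← h3, omap_inv']
  · have hv2 : Fr B2 v := hv.mono (Finset.subset_union_left.trans Finset.subset_union_right)
    have hv1 : Fr B1 (v.map (b • ·)) :=
      fr_map (hv.mono (Finset.subset_union_right.trans Finset.subset_union_right))
    rw [h2.mul_col m w v hv2]
    constructor
    · intro h
      rw [(h1 w _ (Or.inr hv1)).1]
      rw [h, omap_mul]
    · intro h
      rw [(h1 w _ (Or.inr hv1)).2, zero_mul]
      intro h3
      exact h (h3.trans (omap_mul a b v).symm)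

theorem Lr.one : Lr (1 : G) (1 : RCF (Option V) R) := by
  classical
  refine ⟨∅, fun w v _ => ⟨fun h => ?_, fun h => ?_⟩⟩
  · rw [omap_one] at h
    rw [h, ent_one, ent_one, if_pos rfl, if_pos rfl]
  · rw [omap_one] at h
    rw [ent_one, if_neg h]

theorem Lr.add {a : G} {m n : RCF (Option V) R} (hm : Lr a m) (hn : Lr a n) : Lr a (m + n) := by
  classical
  obtain ⟨B1, h1⟩ := hm
  obtain ⟨B2, h2⟩ := hn
  change LrB B1 a m at h1
  change LrB B2 a n at h2
  refine ⟨B1 ∪ B2, fun w v hwv => ?_⟩
  have h3 := h1.mono (Finset.subset_union_left (s₂ := B2)) w v hwv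
  have h4 := h2.mono (Finset.subset_union_right (s₁ := B1)) w v hwv
  rw [ent_add, ent_add]
  exact ⟨fun h => by rw [h3.1 h, h4.1 h], fun h => by rw [h3.2 h, h4.2 h, add_zero]⟩

/-- Local kernels respect the point at infinity. -/
theorem Lr.none_iff {a : G} {m : RCF (Option V) R} (hm : Lr a m) {w v : Option V}
    (h : ent m w v ≠ 0) : w = none ↔ v = none := by
  obtain ⟨B, hB⟩ := hm
  constructor
  · rintro rfl
    by_contra hv
    refine h ((hB none v (Or.inl (fr_none B))).2 fun h1 => hv ?_)
    cases v with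
    | none => rfl
    | some v => exact absurd h1.symm (Option.some_ne_none _)
  · rintro rfl
    by_contra hw
    exact h ((hB w none (Or.inr (fr_none B))).2 fun h1 => hw h1)

end Local

section Reg

variable {Γ G Q V : Type} [Group Γ] [Group G] [MulAction Γ Q] [MulAction G V] {D : Coc Γ G Q}
  {R : Type} [CommRing R] [Fintype Q]

theorem Rk.ten {r : R} {g : Γ} {m : Q → RCF (Option V) R} (h : ∀ q, Lr (D.c g q) (m q)) :
    Rk (ten r g m : Kr D V R) := AddSubgroup.subset_closure ⟨r, g, m, h, rfl⟩

theorem Rk.zero : Rk (0 : Kr D V R) := AddSubgroup.zero_mem _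

theorem Rk.add {S U : Kr D V R} (hS : Rk S) (hU : Rk U) : Rk (S + U) := AddSubgroup.add_mem _ hS hU

theorem Rk.neg {S : Kr D V R} (hS : Rk S) : Rk (-S) := AddSubgroup.neg_mem _ hS

theorem Rk.sub {S U : Kr D V R} (hS : Rk S) (hU : Rk U) : Rk (S - U) := AddSubgroup.sub_mem _ hS hU

theorem Rk.sum {ι : Type} {s : Finset ι} {S : ι → Kr D V R} (h : ∀ i ∈ s, Rk (S i)) :
    Rk (∑ i ∈ s, S i) := AddSubgroup.sum_mem _ h

/-- Induction principle. -/
theorem Rk.ind_on {P : Kr D V R → Prop} {S : Kr D V R} (hS : Rk S)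
    (h1 : ∀ (r : R) (g : Γ) (m : Q → RCF (Option V) R), (∀ q, Lr (D.c g q) (m q)) →
      P (QT.ten r g m)) (h0 : P 0) (ha : ∀ S U, P S → P U → P (S + U)) (hn : ∀ S, P S → P (-S)) :
    P S := by
  refine AddSubgroup.closure_induction (p := fun S _ => P S) ?_ h0 ?_ ?_ hS
  · rintro _ ⟨r, g, m, h, rfl⟩
    exact h1 r g m h
  · exact fun S U _ _ h h' => ha S U h h'
  · exact fun S _ h => hn S h

theorem Rk.mul {S U : Kr D V R} (hS : Rk S) (hU : Rk U) : Rk (S * U) := by
  refine hS.ind_on (P := fun S => Rk (S * U)) ?_ ?_ ?_ ?_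
  · intro r g m hm
    refine hU.ind_on (P := fun U => Rk (QT.ten r g m * U)) ?_ ?_ ?_ ?_
    · intro s h n hn
      rw [ten_mul]
      refine Rk.ten fun q => ?_
      rw [D.c_mul]
      exact (hm _).mul (hn _)
    · rw [mul_zero]
      exact Rk.zero
    · intro U U' h1 h2
      rw [mul_add]
      exact h1.add h2
    · intro U h1
      rw [mul_neg]
      exact h1.neg
  · rw [zero_mul]
    exact Rk.zero
  · intro S S' h1 h2
    rw [add_mul]
    exact h1.add h2
  · intro S h1
    rw [neg_mul]
    exact h1.neg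

theorem ten_one : (ten (1 : R) (1 : Γ) (fun _ => 1) : Kr D V R) = 1 := by
  classical
  refine ent_ext fun y x => ?_
  rw [ent_ten, ent_one, one_mul]
  by_cases h : y = x
  · rw [if_pos h, Finset.prod_eq_one, MonoidAlgebra.one_def]
    intro q _
    rw [ent_one, one_smul, h, if_pos rfl]
  · rw [if_neg h]
    obtain ⟨q, hq⟩ : ∃ q, y q ≠ x q := by
      by_contra hcon
      push_neg at hcon
      exact h (funext hcon)
    rw [Finset.prod_eq_zero (Finset.mem_univ q), MonoidAlgebra.single_zero]
    rw [ent_one, one_smul, if_neg hq]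

theorem Rk.one : Rk (1 : Kr D V R) := by
  rw [← ten_one]
  refine Rk.ten fun q => ?_
  rw [D.c_one]
  exact Lr.one

theorem Rk.fing {S : Kr D V R} (hS : Rk S) : Fing S := by
  classical
  refine hS.ind_on (P := Fing) ?_ ?_ ?_ ?_
  · intro r g m _
    refine ⟨{g}, fun k y x hk => ?_⟩
    rw [cf_ten] at hk
    rw [Finset.mem_singleton]
    by_contra hne
    exact hk (if_neg fun h => hne h.symm)
  · exact ⟨∅, fun g y x h => absurd (cf_zero g y x) h⟩
  · rintro S U ⟨s, hs⟩ ⟨u, hu⟩
    refine ⟨s ∪ u, fun g y x h => ?_⟩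
    rw [cf_add] at h
    by_cases h1 : cf S g y x = 0
    · rw [h1, zero_add] at h
      exact Finset.mem_union_right _ (hu g y x h)
    · exact Finset.mem_union_left _ (hs g y x h1)
  · rintro S ⟨s, hs⟩
    refine ⟨s, fun g y x h => hs g y x fun h0 => h ?_⟩
    rw [cf_neg, h0, neg_zero]

theorem Rk.jc {S : Kr D V R} (hS : Rk S) : Jc S := by
  classical
  refine hS.ind_on (P := Jc) ?_ ?_ ?_ ?_
  · intro r g m hm k y x hk q
    rw [cf_ten] at hk
    by_cases hgk : g = k
    · subst hgk
      rw [if_pos rfl] at hk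
      refine (hm q).none_iff fun h0 => hk ?_
      rw [Finset.prod_eq_zero (Finset.mem_univ q) h0, mul_zero]
    · exact absurd (if_neg hgk) hk
  · exact fun g y x h => absurd (cf_zero g y x) h
  · intro S U hS hU g y x h
    rw [cf_add] at h
    by_cases h1 : cf S g y x = 0
    · rw [h1, zero_add] at h
      exact hU g y x h
    · exact hS g y x h1
  · intro S hS g y x h
    refine hS g y x fun h0 => h ?_
    rw [cf_neg, h0, neg_zero]

theorem Rk.rg [DecidableEq Q] {S : Kr D V R} (hS : Rk S) : Rg S := by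
  classical
  refine hS.ind_on (P := Rg) ?_ ?_ ?_ ?_
  · intro r g m hm
    choose B hB using hm
    refine ⟨Finset.univ.biUnion B, fun k y x q hq => ?_⟩
    have hfr : Fr (B q) (y (k • q)) ∨ Fr (B q) (x q) := by
      rcases hq with ⟨v, hv, hx⟩ | ⟨v, hv, hy⟩
      · right
        intro b hb hxb
        rw [hx, Option.some_inj] at hxb
        exact hv (Finset.mem_biUnion.2 ⟨q, Finset.mem_univ q, hxb ▸ hb⟩)
      · left
        intro b hb hyb
        rw [hy, Option.some_inj] at hyb
        exact hv (Finset.mem_biUnion.2 ⟨q, Finset.mem_univ q, hyb ▸ hb⟩)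
    rw [cf_ten, cf_ten]
    by_cases hgk : g = k
    · subst hgk
      rw [if_pos rfl, if_pos rfl]
      have h1 := hB q (y (g • q)) (x q) hfr
      constructor
      · intro h
        congr 1
        refine Finset.prod_congr rfl fun p _ => ?_
        by_cases hp : p = q
        · subst hp
          rw [h1.1 h, cut, cut, Function.update_self, Function.update_self]
        · rw [cut, cut, Function.update_of_ne hp, Function.update_of_ne]
          exact fun h' => hp (smul_left_cancel g h')
      · intro h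
        rw [Finset.prod_eq_zero (Finset.mem_univ q) (h1.2 h), mul_zero]
    · rw [if_neg hgk, if_neg hgk]
      exact ⟨fun _ => rfl, fun _ => rfl⟩
  · refine ⟨∅, fun g y x q _ => ?_⟩
    rw [cf_zero, cf_zero]
    exact ⟨fun _ => rfl, fun _ => rfl⟩
  · rintro S U ⟨B, hB⟩ ⟨B', hB'⟩
    refine ⟨B ∪ B', fun g y x q hq => ?_⟩
    have h1 := hB g y x q (hq.imp
      (fun ⟨v, hv, h⟩ => ⟨v, fun h' => hv (Finset.mem_union_left _ h'), h⟩)
      (fun ⟨v, hv, h⟩ => ⟨v, fun h' => hv (Finset.mem_union_left _ h'), h⟩))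
    have h2 := hB' g y x q (hq.imp
      (fun ⟨v, hv, h⟩ => ⟨v, fun h' => hv (Finset.mem_union_right _ h'), h⟩)
      (fun ⟨v, hv, h⟩ => ⟨v, fun h' => hv (Finset.mem_union_right _ h'), h⟩))
    rw [cf_add, cf_add]
    exact ⟨fun h => by rw [h1.1 h, h2.1 h], fun h => by rw [h1.2 h, h2.2 h, add_zero]⟩
  · rintro S ⟨B, hB⟩
    refine ⟨B, fun g y x q hq => ?_⟩
    have h1 := hB g y x q hq
    rw [cf_neg, cf_neg]
    exact ⟨fun h => by rw [h1.1 h], fun h => by rw [h1.2 h, neg_zero]⟩

end Reg

end Pool.Agent.QT
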