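import Pool.Agent.Lib.MP_8f66f0_al_Q.Spec
import Pool.Agent.Lib.MP_8f66f0_al_Q.Rk

/-!
# Theorem Q: the structured kernels
-/

set_option autoImplicit false

namespace Pool.Agent.QT

open scoped Pointwise
open Pool.Agent.TQ

section Coef

variable {Γ Ω : Type} [Group Γ] {L : Type} [CommRing L]

theorem coeff_evA (c : L) (a : MonoidAlgebra (Polynomial L) Γ) (g : Γ) :
    (evA c a).coeff g = (a.coeff g).eval c := by
  rw [evA]
  simp

theorem coeff_coA (a : MonoidAlgebra L Γ) (g : Γ) :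
    (coA a).coeff g = Polynomial.C (a.coeff g) := by
  rw [coA]
  simp

theorem cf_mapK_evA (c : L) (S : RCF Ω (MonoidAlgebra (Polynomial L) Γ)) (g : Γ) (y x : Ω) :
    cf (mapK (evA c) S) g y x = (cf S g y x).eval c := by
  rw [cf, ent_mapK, coeff_evA]
  rfl

theorem cf_mapK_coA (S : RCF Ω (MonoidAlgebra L Γ)) (g : Γ) (y x : Ω) :
    cf (mapK coA S) g y x = Polynomial.C (cf S g y x) := by
  rw [cf, ent_mapK, coeff_coA]
  rfl

/-- Products in the family. -/
theorem exists_of_eval_mul {c : L} {S U : RCF Ω (MonoidAlgebra (Polynomial L) Γ)} {g : Γ} {y x : Ω}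
    (h : (cf (S * U) g y x).eval c ≠ 0) :
    ∃ (v : Ω) (k l : Γ), k * l = g ∧ (cf S k y v).eval c ≠ 0 ∧ (cf U l v x).eval c ≠ 0 := by
  rw [← cf_mapK_evA, map_mul] at h
  obtain ⟨v, k, l, hkl, h1, h2⟩ := exists_of_cf_mul h
  rw [cf_mapK_evA] at h1 h2
  exact ⟨v, k, l, hkl, h1, h2⟩

theorem ent_sum {A ι : Type} [Ring A] (s : Finset ι) (S : ι → RCF Ω A) (y x : Ω) :
    ent (∑ i ∈ s, S i) y x = ∑ i ∈ s, ent (S i) y x := by
  classical
  induction s using Finset.induction_on with
  | empty => rw [Finset.sum_empty, Finset.sum_empty, ent_zero]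
  | insert a s ha ih => rw [Finset.sum_insert ha, Finset.sum_insert ha, ent_add, ih]

end Coef

section MapLr

variable {G V : Type} [Group G] [MulAction G V] {R R' : Type} [CommRing R] [CommRing R']

theorem Lr.mapK (f : R →+* R') {a : G} {m : RCF (Option V) R} (hm : Lr a m) :
    Lr a (QT.mapK f m) := by
  obtain ⟨B, hB⟩ := hm
  refine ⟨B, fun w v hwv => ?_⟩
  have h := hB w v hwv
  rw [ent_mapK, ent_mapK]
  exact ⟨fun h' => by rw [h.1 h'], fun h' => by rw [h.2 h', map_zero]⟩

end MapLr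

section Main

variable {Γ G Q V : Type} [Group Γ] [Group G] [MulAction Γ Q] [MulAction G V] {D : Coc Γ G Q}
  [Fintype Q] {T : Tr G V} {L : Type} [CommRing L]

theorem mapK_coA_ten (r : L) (g : Γ) (m : Q → RCF (Option V) L) :
    (mapK coA (ten r g m : Kr D V L) : Kr D V (Polynomial L)) =
      ten (Polynomial.C r) g fun q => mapK Polynomial.C (m q) := by
  refine ent_ext fun y x => ?_
  rw [ent_mapK, ent_ten, ent_ten]
  simp only [ent_mapK]
  rw [← map_prod, ← map_mul, coA]
  simp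

theorem Rk.mapK {S : Kr D V L} (hS : Rk S) : Rk (QT.mapK coA S : Kr D V (Polynomial L)) := by
  refine hS.ind_on (P := fun S => Rk (QT.mapK coA S : Kr D V (Polynomial L))) ?_ ?_ ?_ ?_
  · intro r g m hm
    rw [mapK_coA_ten]
    exact Rk.ten fun q => (hm q).mapK _
  · rw [map_zero]
    exact Rk.zero
  · intro S U h1 h2
    rw [map_add]
    exact h1.add h2
  · intro S h1
    rw [map_neg]
    exact h1.neg

theorem par_eq_iff (T : Tr G V) (v : V) : T.par v = v ↔ v = T.root := by
  constructor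
  · intro h
    by_contra hv
    have := T.dep_par v hv
    rw [h] at this
    omega
  · rintro rfl
    exact T.par_root

/-- Points which correspond with their parents: the coordinates `root` correspond. -/
theorem pt_root {g : Γ} {x : Tw D V} (h : pr T (g • x) = g • pr T x) (q : Q) (v : V)
    (hv : x q = some v) :
    T.par (D.c g q • v) = D.c g q • T.par v ∧ (D.c g q • v = T.root ↔ v = T.root) := by
  have h1 : (pr T (g • x)) (g • q) = (g • pr T x) (g • q) := by rw [h]
  rw [tw_smul] at h1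
  change ((g • x) (g • q)).map T.par = ((x q).map T.par).map (D.c g q • ·) at h1
  rw [tw_smul, hv] at h1
  have h2 : T.par (D.c g q • v) = D.c g q • T.par v := Option.some_inj.1 h1
  refine ⟨h2, ?_⟩
  rw [← par_eq_iff T (D.c g q • v), h2, smul_left_cancel_iff, par_eq_iff]

theorem pt_rr {g : Γ} {x : Tw D V} (h : pr T (g • x) = g • pr T x) :
    rr T (g • x) = rr T x := by
  classical
  rw [rr, rr]
  refine (Finset.card_bij (fun q _ => g • q) ?_ ?_ ?_).symm
  · intro q hq
    rw [Finset.mem_filter] at hq ⊢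
    refine ⟨Finset.mem_univ _, ?_⟩
    rw [tw_smul, hq.2]
    exact congrArg some ((pt_root h q _ hq.2).2.2 rfl)
  · intro q _ q' _ hqq
    exact smul_left_cancel g hqq
  · intro p hp
    rw [Finset.mem_filter] at hp
    refine ⟨g⁻¹ • p, ?_, smul_inv_smul g p⟩
    rw [Finset.mem_filter]
    refine ⟨Finset.mem_univ _, ?_⟩
    have h1 := hp.2
    rw [← smul_inv_smul g p, tw_smul] at h1
    cases hx : x (g⁻¹ • p) with
    | none => rw [hx] at h1; exact absurd h1.symm (Option.some_ne_none _)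
    | some v =>
      rw [hx] at h1
      rw [(pt_root h _ v hx).2.1 (Option.some_inj.1 h1)]

theorem pt_ed {g : Γ} {x : Tw D V} (h : pr T (g • x) = g • pr T x) :
    ed T (g • x) = g • ed T x := by
  classical
  rw [tw_eq_iff]
  intro q
  change ((g • x) (g • q)).map _ = ((x q).map _).map _
  rw [tw_smul]
  cases hx : x q with
  | none => rfl
  | some v =>
    obtain ⟨h1, h2⟩ := pt_root h q v hx
    change some (if D.c g q • v = T.root then (∅ : Set V) else {D.c g q • v, T.par (D.c g q • v)}) =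
      some (D.c g q • (if v = T.root then (∅ : Set V) else {v, T.par v}))
    by_cases hv : v = T.root
    · rw [if_pos (h2.2 hv), if_pos hv, Set.smul_set_empty]
    · rw [if_neg fun h' => hv (h2.1 h'), if_neg hv, h1, ← Set.image_smul, Set.image_pair]

theorem OO.mul {S U : Kr D V L} (hS : OO T S) (hU : OO T U) : OO T (S * U) := by
  refine ⟨hS.reg.mul hU.reg, fun g y x h => ?_⟩
  obtain ⟨v, k, l, rfl, h1, h2⟩ := exists_of_cf_mul h
  obtain ⟨a1, a2⟩ := hS.pt k y v h1
  obtain ⟨b1, b2⟩ := hU.pt l v x h2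
  exact ⟨by rw [a1, b1, mul_smul], by rw [a2, b2, mul_smul]⟩

theorem OO.add {S U : Kr D V L} (hS : OO T S) (hU : OO T U) : OO T (S + U) := by
  refine ⟨hS.reg.add hU.reg, fun g y x h => ?_⟩
  rw [cf_add] at h
  by_cases h1 : cf S g y x = 0
  · rw [h1, zero_add] at h
    exact hU.pt g y x h
  · exact hS.pt g y x h1

theorem OO.neg {S : Kr D V L} (hS : OO T S) : OO T (-S) := by
  refine ⟨hS.reg.neg, fun g y x h => hS.pt g y x fun h0 => h ?_⟩
  rw [cf_neg, h0, neg_zero]

theorem SS.mul {S U : Kr D V (Polynomial L)} (hS : SS T S) (hU : SS T U) : SS T (S * U) := by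
  refine ⟨hS.reg.mul hU.reg, fun g y x h => ?_, fun g y x h => ?_⟩
  · obtain ⟨v, k, l, rfl, h1, h2⟩ := exists_of_eval_mul h
    rw [hS.zero k y v h1, hU.zero l v x h2, mul_smul]
  · obtain ⟨v, k, l, rfl, h1, h2⟩ := exists_of_eval_mul h
    obtain ⟨a1, a2⟩ := hS.one k y v h1
    obtain ⟨b1, b2⟩ := hU.one l v x h2
    refine ⟨a1.trans b1, fun hr => ?_⟩
    rw [a2 (le_antisymm a1 (b1.trans hr.ge)), b2 (le_antisymm b1 (hr.ge.trans a1)), mul_smul]

theorem SS.add {S U : Kr D V (Polynomial L)} (hS : SS T S) (hU : SS T U) : SS T (S + U) := by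
  refine ⟨hS.reg.add hU.reg, fun g y x h => ?_, fun g y x h => ?_⟩
  · rw [cf_add, Polynomial.eval_add] at h
    by_cases h1 : (cf S g y x).eval 0 = 0
    · rw [h1, zero_add] at h
      exact hU.zero g y x h
    · exact hS.zero g y x h1
  · rw [cf_add, Polynomial.eval_add] at h
    by_cases h1 : (cf S g y x).eval 1 = 0
    · rw [h1, zero_add] at h
      exact hU.one g y x h
    · exact hS.one g y x h1

theorem SS.neg {S : Kr D V (Polynomial L)} (hS : SS T S) : SS T (-S) := by
  refine ⟨hS.reg.neg, fun g y x h => hS.zero g y x fun h0 => h ?_,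
    fun g y x h => hS.one g y x fun h0 => h ?_⟩
  · rw [cf_neg, Polynomial.eval_neg, h0, neg_zero]
  · rw [cf_neg, Polynomial.eval_neg, h0, neg_zero]

theorem cf_ind_ne {E : Set (Tw D V)} {g : Γ} {y x : Tw D V} (h : cf (ind E : Kr D V L) g y x ≠ 0) :
    g = 1 ∧ y = x := by
  classical
  rw [cf, ind, ent_mkK] at h
  by_cases hyx : y = x ∧ x ∈ E
  · refine ⟨?_, hyx.1⟩
    rw [if_pos hyx, MonoidAlgebra.one_def, MonoidAlgebra.coeff_single, Finsupp.single_apply] at h
    by_contra hg
    exact h (if_neg fun h => hg h.symm)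
  · rw [if_neg hyx, MonoidAlgebra.coeff_zero] at h
    exact absurd rfl h

theorem OO.toSS {S : Kr D V L} (hS : OO T S) : SS T (mapK coA S : Kr D V (Polynomial L)) := by
  refine ⟨hS.reg.mapK, fun g y x h => ?_, fun g y x h => ?_⟩
  · rw [cf_mapK_coA, Polynomial.eval_C] at h
    exact (hS.pt g y x h).1
  · rw [cf_mapK_coA, Polynomial.eval_C] at h
    obtain ⟨rfl, h2⟩ := hS.pt g y x h
    exact ⟨(pt_rr h2).le, fun _ => pt_ed h2⟩

theorem rr_rt : rr T (rt T : Tw D V) = Fintype.card Q := by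
  classical
  rw [rr, ← Finset.card_univ]
  congr 1
  exact Finset.filter_true_of_mem fun q _ => rfl

theorem rr_le (x : Tw D V) : rr T x ≤ Fintype.card Q := by
  classical
  rw [rr, ← Finset.card_univ]
  exact Finset.card_filter_le _ _

theorem eq_rt_of_rr {x : Tw D V} (h : rr T (rt T : Tw D V) ≤ rr T x) : x = rt T := by
  classical
  rw [rr_rt, rr, ← Finset.card_univ] at h
  have h1 := Finset.eq_of_subset_of_card_le (Finset.filter_subset
    (fun q => x q = some T.root) Finset.univ) h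
  funext q
  have h2 : q ∈ Finset.univ.filter fun q => x q = some T.root := by
    rw [h1]
    exact Finset.mem_univ q
  exact (Finset.mem_filter.1 h2).2

/-- The row of `rt` at `t = 1`. -/
theorem SS.row_rt {S : Kr D V (Polynomial L)} (hS : SS T S) {x : Tw D V}
    (h : evA 1 (ent S (rt T) x) ≠ 0) : x = rt T := by
  obtain ⟨g, hg⟩ : ∃ g, (evA (1 : L) (ent S (rt T) x)).coeff g ≠ 0 := by
    by_contra hcon
    push Not at hcon
    exact h (MonoidAlgebra.ext (Finsupp.ext hcon))
  rw [coeff_evA] at hg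
  exact eq_rt_of_rr (hS.one g _ _ hg).1

theorem eps_mul {n n' n'' : Type} [Fintype n'] (S : Matrix n'' n' (Kr D V (Polynomial L)))
    (U : Matrix n' n (Kr D V (Polynomial L))) (hS : ∀ i j, SS T (S i j)) :
    eps T (S * U) = eps T S * eps T U := by
  classical
  refine Matrix.ext fun i j => ?_
  rw [Matrix.mul_apply]
  change evA 1 (ent ((S * U) i j) (rt T) (rt T)) = ∑ p, evA 1 (ent (S i p) (rt T) (rt T)) *
    evA 1 (ent (U p j) (rt T) (rt T))
  rw [Matrix.mul_apply, ent_sum, map_sum]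
  refine Finset.sum_congr rfl fun p _ => ?_
  rw [← ent_mapK, map_mul, ent_mul_row _ _ _ _ {rt T} fun v hv => ?_, Finset.sum_singleton,
    ent_mapK, ent_mapK]
  rw [Finset.mem_singleton]
  rw [ent_mapK] at hv
  exact (hS i p).row_rt hv

end Main

theorem ooss (_ : S_RkMul) (_ : S_RkReg) (h3 : S_RS) : S_OOSS := by
  intro Γ G Q V L _ _ _ _ _ _ D T
  refine ⟨fun S U hS hU => ⟨hS.mul hU, hS.add hU, hS.neg⟩,
    fun S U hS hU => ⟨hS.mul hU, hS.add hU, hS.neg⟩, fun E hE => ⟨⟨(h3 Γ G Q V D).1 L E hE, ?_⟩,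
      ⟨(h3 Γ G Q V D).1 _ E hE, ?_, ?_⟩⟩, fun S hS => hS.toSS,
    fun n n' n'' _ S U hS _ => eps_mul S U hS⟩
  · intro g y x h
    obtain ⟨rfl, rfl⟩ := cf_ind_ne h
    exact ⟨(one_smul _ _).symm, (one_smul _ _).symm⟩
  · intro g y x h
    obtain ⟨rfl, rfl⟩ := cf_ind_ne (fun h0 => h (by rw [h0, Polynomial.eval_zero]))
    exact (one_smul _ _).symm
  · intro g y x h
    obtain ⟨rfl, rfl⟩ := cf_ind_ne (fun h0 => h (by rw [h0, Polynomial.eval_zero]))
    exact ⟨le_rfl, fun _ => (one_smul _ _).symm⟩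

end Pool.Agent.QT
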