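import Pool.Agent.Lib.MP_8f66f0_al_Q.Rk

/-!
# Theorem Q: indicators of regular sets
-/

set_option autoImplicit false

namespace Pool.Agent.QT

open Pool.Agent.TQ

section Local

variable {G V : Type} [Group G] [MulAction G V] {R : Type} [CommRing R]

open Classical in
/-- The diagonal local kernel of a set. -/
noncomputable def dl (P : Set (Option V)) : RCF (Option V) R :=
  mkK (fun w v => if w = v ∧ v ∈ P then 1 else 0)
    (fun w => (Set.finite_singleton w).subset fun v hv => by
      by_contra h
      exact hv (if_neg fun h' => h (by rw [h'.1]; rfl)))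
    (fun v => (Set.finite_singleton v).subset fun w hw => by
      by_contra h
      exact hw (if_neg fun h' => h (by rw [h'.1]; rfl)))

open Classical in
theorem ent_dl (P : Set (Option V)) (w v : Option V) :
    ent (dl P : RCF (Option V) R) w v = if w = v ∧ v ∈ P then 1 else 0 := ent_mkK _ _ _ w v

theorem Lr.dl {P : Set (Option V)} (h : ∃ B : Finset V, ∀ v, Fr B v → (v ∈ P ↔ none ∈ P)) :
    Lr (1 : G) (QT.dl P : RCF (Option V) R) := by
  classical
  obtain ⟨B, hB⟩ := h
  refine ⟨B, fun w v hwv => ⟨fun h => ?_, fun h => ?_⟩⟩
  · rw [omap_one] at h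
    have hv : Fr B v := by
      rcases hwv with hw | hv
      · rw [← h]
        exact hw
      · exact hv
    rw [ent_dl, ent_dl]
    exact if_congr (and_congr (iff_of_true h rfl) (hB v hv)) rfl rfl
  · rw [omap_one] at h
    rw [ent_dl, if_neg]
    exact fun h' => h h'.1

end Local

section Reg

variable {Γ G Q V : Type} [Group Γ] [Group G] [MulAction Γ Q] [MulAction G V] {D : Coc Γ G Q}
  {R : Type} [CommRing R]

omit [MulAction G V] in
open Classical in
theorem ent_ind (E : Set (Tw D V)) (y x : Tw D V) :
    ent (ind E : Kr D V R) y x = if y = x ∧ x ∈ E then 1 else 0 := ent_mkK _ _ _ y x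

omit [MulAction G V] in
open Classical in
theorem cf_ind (E : Set (Tw D V)) (g : Γ) (y x : Tw D V) :
    cf (ind E : Kr D V R) g y x = if g = 1 ∧ y = x ∧ x ∈ E then 1 else 0 := by
  rw [cf, ent_ind]
  by_cases h : y = x ∧ x ∈ E
  · rw [if_pos h, MonoidAlgebra.one_def, MonoidAlgebra.coeff_single, Finsupp.single_apply]
    by_cases hg : g = 1
    · rw [if_pos hg.symm, if_pos ⟨hg, h⟩]
    · rw [if_neg fun h' => hg h'.symm, if_neg fun h' => hg h'.1]
  · rw [if_neg h, if_neg fun h' => h h'.2]
    rfl

open Classical in
/-- The values of `near B` at one coordinate. -/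
theorem filter_near (B : Finset V) (v : Option V) :
    v.filter (fun v => decide (v ∈ B)) = if Fr B v then none else v := by
  cases v with
  | none => rw [if_pos (fr_none B)]; rfl
  | some v =>
    by_cases h : v ∈ B
    · rw [Option.filter_some_pos (by simpa using h), if_neg]
      exact fun h' => h' v h rfl
    · rw [Option.filter_some_neg (by simpa using h), if_pos]
      intro b hb hv
      rw [Option.some_inj] at hv
      exact h (hv ▸ hb)

variable [Fintype Q]

/-- The indicator of a regular set is a regular kernel. -/
theorem Rk.ind {E : Set (Tw D V)} (hE : RS E) : Rk (QT.ind E : Kr D V R) := by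
  classical
  obtain ⟨B, hB⟩ := hE
  -- the local sets
  let P : Option V → Set (Option V) := fun z => {v | v.filter (fun v => decide (v ∈ B)) = z}
  let F : Finset (Option V) := insert none (B.image some)
  have hF : ∀ v : Option V, v.filter (fun v => decide (v ∈ B)) ∈ F := by
    intro v
    rw [filter_near]
    by_cases h : Fr B v
    · rw [if_pos h]
      exact Finset.mem_insert_self _ _
    · rw [if_neg h]
      refine Finset.mem_insert_of_mem ?_
      cases v with
      | none => exact absurd (fr_none B) h
      | some v =>
        refine Finset.mem_image_of_mem _ ?_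
        by_contra hv
        refine h fun b hb hvb => hv ?_
        rw [Option.some_inj] at hvb
        rwa [hvb]
  obtain ⟨c, hc⟩ : ∃ c : (Q → Option V) → Tw D V, ∀ z, c z = z := ⟨fun z => z, fun _ => rfl⟩
  obtain ⟨c', hc'⟩ : ∃ c : Tw D V → (Q → Option V), ∀ z, c z = z := ⟨fun z => z, fun _ => rfl⟩
  have hcc : ∀ z, c (c' z) = z := fun z => by rw [hc, hc']
  have key : (QT.ind E : Kr D V R) = ∑ z ∈ Fintype.piFinset (fun _ : Q => F),
      if c z ∈ E then (QT.ten 1 1 fun q => QT.dl (P (z q)) : Kr D V R) else 0 := by
    refine ent_ext fun y x => ?_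
    have h1 : ∀ (s : Finset (Q → Option V)) (f : (Q → Option V) → Kr D V R),
        ent (∑ z ∈ s, f z) y x = ∑ z ∈ s, ent (f z) y x := by
      intro s f
      induction s using Finset.induction_on with
      | empty => rw [Finset.sum_empty, Finset.sum_empty, ent_zero]
      | insert a s ha ih => rw [Finset.sum_insert ha, Finset.sum_insert ha, ent_add, ih]
    rw [h1, Finset.sum_eq_single (c' (near B x))]
    · rw [ent_ind, hcc]
      by_cases hyx : y = x
      · subst hyx
        by_cases hy : y ∈ E
        · rw [if_pos ⟨rfl, hy⟩, if_pos ((hB y).1 hy), ent_ten, Finset.prod_eq_one, mul_one,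
            MonoidAlgebra.one_def]
          intro q _
          rw [ent_dl, one_smul]
          refine if_pos ⟨rfl, ?_⟩
          rw [hc']
          rfl
        · rw [if_neg fun h => hy h.2, if_neg fun h => hy ((hB y).2 h), ent_zero]
      · rw [if_neg fun h => hyx h.1]
        by_cases hx : near B x ∈ E
        · rw [if_pos hx, ent_ten]
          obtain ⟨q, hq⟩ : ∃ q, y q ≠ x q := by
            by_contra hcon
            push Not at hcon
            exact hyx (funext hcon)
          rw [Finset.prod_eq_zero (Finset.mem_univ q), mul_zero, MonoidAlgebra.single_zero]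
          rw [ent_dl, one_smul]
          exact if_neg fun h => hq h.1
        · rw [if_neg hx, ent_zero]
    · intro z _ hz
      by_cases hzE : c z ∈ E
      · rw [if_pos hzE, ent_ten]
        obtain ⟨q, hq⟩ : ∃ q, z q ≠ near B x q := by
          by_contra hcon
          push Not at hcon
          refine hz (funext fun q => ?_)
          rw [hc']
          exact hcon q
        rw [Finset.prod_eq_zero (Finset.mem_univ q), mul_zero, MonoidAlgebra.single_zero]
        rw [ent_dl]
        refine if_neg fun h => hq ?_
        exact h.2.symm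
      · rw [if_neg hzE, ent_zero]
    · intro h
      rw [hc'] at h
      exact absurd (Fintype.mem_piFinset.2 fun q => hF (x q)) h
  rw [key]
  refine Rk.sum fun z _ => ?_
  by_cases hz : c z ∈ E
  · rw [if_pos hz]
    refine Rk.ten fun q => ?_
    rw [D.c_one]
    refine Lr.dl ⟨B, fun v hv => ?_⟩
    change v.filter _ = z q ↔ (none : Option V).filter _ = z q
    rw [filter_near, if_pos hv]
    rfl
  · rw [if_neg hz]
    exact Rk.zero

end Reg

end Pool.Agent.QT
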