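import Pool.Agent.Lib.MP_8f66f0_al_Q.Spec
import Pool.Agent.Lib.MP_8f66f0_al_Q.Rk

/-!
# Theorem Q: local kernels (`LrMul`, `LrSk`)
-/

set_option autoImplicit false

namespace Pool.Agent.QT

open scoped Pointwise
open Pool.Agent.TQ Pool.Agent.Wald Pool.Agent.Hier Pool.Agent.WaldL Pool.Agent.TreeC
open Pool.Agent.FH (KU)

section Aux

variable {G V R : Type} [Group G] [MulAction G V] [CommRing R]

private theorem local_map_inv (a : G) (w u : Option V) :
    w = u.map (a • ·) ↔ u = w.map (a⁻¹ • ·) := by
  constructor
  · rintro rfl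
    cases u <;> simp
  · rintro rfl
    cases w <;> simp

end Aux

theorem lrMul : S_LrMul := fun _ _ _ _ _ _ _ _ _ _ hm hn => hm.mul hn

section Exc

variable {G V : Type} [Group G] [MulAction G V] (T : Tr G V)

private theorem local_exc (a : G) (k : ℕ) : ∀ v : V, T.dep v = k →
    (v = T.root ∨ T.par (a • v) ≠ a • T.par v) →
    v = (fun u => a⁻¹ • T.par (a • u))^[k] T.root ∧ T.dep (a • v) + k = T.dep (a • T.root) := by
  induction k with
  | zero =>
    intro v hv _
    have h0 : v = T.root := by
      by_contra h
      have := T.dep_par v h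
      omega
    rw [h0]
    exact ⟨rfl, rfl⟩
  | succ k ih =>
    intro v hv hex
    have hne : v ≠ T.root := by
      intro h
      rw [h, T.dep_root] at hv
      omega
    have hex' : T.par (a • v) ≠ a • T.par v := hex.resolve_left hne
    have hdu : T.dep (T.par v) = k := by
      have := T.dep_par v hne
      omega
    obtain ⟨h1, h2⟩ : a • T.par v ≠ T.root ∧ T.par (a • T.par v) = a • v := by
      rcases T.adj a v hne with h | h
      · exact absurd h.2 hex'
      · exact h
    have hu : T.par v = T.root ∨ T.par (a • T.par v) ≠ a • T.par (T.par v) := by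
      by_cases hr : T.par v = T.root
      · exact Or.inl hr
      · refine Or.inr fun h => ?_
        rw [h2] at h
        have h3 : v = T.par (T.par v) := smul_left_cancel a h
        have h4 := T.dep_par v hne
        have h5 := T.dep_par (T.par v) hr
        rw [← h3] at h5
        omega
    obtain ⟨h3, h4⟩ := ih (T.par v) hdu hu
    refine ⟨?_, ?_⟩
    · rw [Function.iterate_succ_apply', ← h3]
      show v = a⁻¹ • T.par (a • T.par v)
      rw [h2, inv_smul_smul]
    · have h5 := T.dep_par (a • T.par v) h1
      rw [h2] at h5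
      omega

private theorem local_exc_finite (a : G) : ∃ E : Finset V, ∀ v, v ∉ E →
    T.par (a • v) = a • T.par v := by
  classical
  refine ⟨(Finset.range (T.dep (a • T.root) + 1)).image
    fun k => (fun u => a⁻¹ • T.par (a • u))^[k] T.root, fun v hv => ?_⟩
  by_contra hne
  obtain ⟨h1, h2⟩ := local_exc T a (T.dep v) v rfl (Or.inr hne)
  refine hv (Finset.mem_image.2 ⟨T.dep v, ?_, h1.symm⟩)
  rw [Finset.mem_range]
  omega

end Exc

theorem lrSk : S_LrSk := by
  classical
  refine ⟨?_, ?_, ?_⟩
  · intro G V R _ _ _ a w v r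
    refine ⟨{w, v}, fun w' v' h => ?_⟩
    have hne : ¬ (w' = some w ∧ v' = some v) := by
      rintro ⟨h1, h2⟩
      rcases h with h | h
      · exact h w (by simp) h1
      · exact h v (by simp) h2
    have h0 : ent (sk (some w) (some v) r : RCF (Option V) R) none none = 0 :=
      ent_sk_ne (fun h => by cases h.1) r
    rw [ent_sk_ne hne r, h0]
    exact ⟨fun _ => rfl, fun _ => rfl⟩
  · intro G V R _ _ _
    exact Lr.one
  · intro G V R _ _ _ T B a
    obtain ⟨E, hE⟩ := local_exc_finite T a
    obtain ⟨P, hP⟩ : ∃ P : Option V → Option V → Prop, ∀ w v, P w v ↔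
      ((∀ b ∈ B, w ≠ some b) ∧ (∀ b ∈ B, v ≠ some b) ∧
        w = v.map (a • ·) ∧ w.map T.par = (v.map T.par).map (a • ·)) := ⟨_, fun _ _ => Iff.rfl⟩
    have hr : ∀ y : Option V, {x | (if P y x then (1 : R) else 0) ≠ 0}.Finite := by
      intro y
      refine (Set.finite_singleton (y.map (a⁻¹ • ·))).subset fun x hx => ?_
      have hPx : P y x := by
        by_contra h
        exact hx (if_neg h)
      exact (local_map_inv a y x).1 ((hP y x).1 hPx).2.2.1
    have hc : ∀ x : Option V, {y | (if P y x then (1 : R) else 0) ≠ 0}.Finite := by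
      intro x
      refine (Set.finite_singleton (x.map (a • ·))).subset fun y hy => ?_
      have hPx : P y x := by
        by_contra h
        exact hy (if_neg h)
      exact ((hP y x).1 hPx).2.2.1
    have hent : ∀ w v, ent (mkK (fun y x => if P y x then (1 : R) else 0) hr hc) w v =
        if P w v then 1 else 0 := fun w v => ent_mkK _ hr hc w v
    refine ⟨mkK (fun y x => if P y x then (1 : R) else 0) hr hc, ?_, fun w v => ?_⟩
    · refine ⟨(B ∪ B.image (a⁻¹ • ·) ∪ E) ∪ (B ∪ B.image (a • ·) ∪ E.image (a • ·)),
        fun w v hwv => ?_⟩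
      have h00 : P none none := by
        rw [hP]
        refine ⟨fun b _ h => (by cases h), fun b _ h => (by cases h), rfl, rfl⟩
      rw [hent, hent, if_pos h00]
      refine ⟨fun h => if_pos ?_, fun h => if_neg fun h' => h ((hP w v).1 h').2.2.1⟩
      rw [hP]
      cases v with
      | none =>
        have hw : w = none := h
        rw [hw]
        exact ⟨fun b _ h => (by cases h), fun b _ h => (by cases h), rfl, rfl⟩
      | some v₀ =>
        have hw : w = some (a • v₀) := h
        -- the conditions on `v₀`
        have key : v₀ ∉ B ∧ a • v₀ ∉ B ∧ v₀ ∉ E := by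
          rcases hwv with h1 | h1
          · refine ⟨fun hb => h1 (a • v₀) ?_ hw, fun hb => h1 (a • v₀) ?_ hw,
              fun hb => h1 (a • v₀) ?_ hw⟩
            · simp only [Finset.mem_union, Finset.mem_image]
              exact Or.inr (Or.inl (Or.inr ⟨v₀, hb, rfl⟩))
            · simp only [Finset.mem_union, Finset.mem_image]
              exact Or.inl (Or.inl (Or.inl hb))
            · simp only [Finset.mem_union, Finset.mem_image]
              exact Or.inr (Or.inr ⟨v₀, hb, rfl⟩)
          · refine ⟨fun hb => h1 v₀ ?_ rfl, fun hb => h1 v₀ ?_ rfl, fun hb => h1 v₀ ?_ rfl⟩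
            · simp only [Finset.mem_union, Finset.mem_image]
              exact Or.inl (Or.inl (Or.inl hb))
            · simp only [Finset.mem_union, Finset.mem_image]
              exact Or.inl (Or.inl (Or.inr ⟨a • v₀, hb, inv_smul_smul a v₀⟩))
            · simp only [Finset.mem_union, Finset.mem_image]
              exact Or.inl (Or.inr hb)
        refine ⟨fun b hb hwb => ?_, fun b hb hvb => ?_, h, ?_⟩
        · rw [hw, Option.some.injEq] at hwb
          exact key.2.1 (hwb ▸ hb)
        · rw [Option.some.injEq] at hvb
          exact key.1 (hvb ▸ hb)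
        · rw [hw, Option.map_some, Option.map_some, Option.map_some, hE v₀ key.2.2]
    · rw [hent]
      exact ⟨fun h => if_pos ((hP w v).2 h), fun h => if_neg fun h' => h ((hP w v).1 h')⟩

end Pool.Agent.QT
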