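import Pool.Agent.Lib.MP_8f66f0_al_Q.Defs

/-!
# Theorem Q: tensor products of local kernels
-/

set_option autoImplicit false

namespace Pool.Agent.QT

open Pool.Agent.TQ

section Ten

variable {Γ G Q V : Type} [Group Γ] [Group G] [MulAction Γ Q] [MulAction G V] {D : Coc Γ G Q}
  {R : Type} [CommRing R] [Fintype Q]

theorem ent_ten (r : R) (g : Γ) (m : Q → RCF (Option V) R) (y x : Tw D V) :
    ent (ten r g m : Kr D V R) y x =
      MonoidAlgebra.single g (r * ∏ q, ent (m q) (y (g • q)) (x q)) := ent_mkK _ _ _ y x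

theorem cf_ten [DecidableEq Γ] (r : R) (g : Γ) (m : Q → RCF (Option V) R) (k : Γ) (y x : Tw D V) :
    cf (ten r g m : Kr D V R) k y x =
      if g = k then r * ∏ q, ent (m q) (y (g • q)) (x q) else 0 := by
  rw [cf, ent_ten, MonoidAlgebra.coeff_single, Finsupp.single_apply]

/-- Tensor products of local kernels are multiplied factor by factor. -/
theorem ten_mul (r s : R) (g h : Γ) (m n : Q → RCF (Option V) R) :
    (ten r g m * ten s h n : Kr D V R) = ten (r * s) (g * h) (fun q => m (h • q) * n q) := by
  classical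
  refine ent_ext fun y x => ?_
  let C : Q → Finset (Option V) := fun q => (ent_col (n q) (x q)).toFinset
  let e : (Q → Option V) → Tw D V := fun p q => p (h⁻¹ • q)
  have he : ∀ (p : Q → Option V) (q : Q), e p (h • q) = p q := by
    intro p q
    change p (h⁻¹ • h • q) = p q
    rw [inv_smul_smul]
  have hinj : Function.Injective e := by
    intro p p' hp
    funext q
    rw [← he p, ← he p', hp]
  have hC : ∀ q w, ent (n q) w (x q) ≠ 0 → w ∈ C q := by
    intro q w hw
    rw [Set.Finite.mem_toFinset]
    exact hw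
  rw [ent_mul_col _ _ y x ((Fintype.piFinset C).image e) fun u hu => by
    rw [ent_ten] at hu
    have h1 : ∀ q, ent (n q) (u (h • q)) (x q) ≠ 0 := by
      intro q h0
      refine hu ?_
      rw [Finset.prod_eq_zero (Finset.mem_univ q) h0, mul_zero, MonoidAlgebra.single_zero]
    refine Finset.mem_image.2 ⟨fun q => u (h • q), ?_, ?_⟩
    · rw [Fintype.mem_piFinset]
      exact fun q => hC q _ (h1 q)
    · funext q
      change u (h • h⁻¹ • q) = u q
      rw [smul_inv_smul]]
  rw [Finset.sum_image fun p _ p' _ hp => hinj hp]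
  have h2 : ∀ p : Q → Option V, ent (ten r g m : Kr D V R) y (e p) * ent (ten s h n : Kr D V R) (e p) x =
      MonoidAlgebra.single (g * h) (r * s *
        ∏ q, (ent (m (h • q)) (y ((g * h) • q)) (p q) * ent (n q) (p q) (x q))) := by
    intro p
    rw [ent_ten, ent_ten, MonoidAlgebra.single_mul_single, mul_mul_mul_comm, Finset.prod_mul_distrib]
    congr 3
    · rw [← Equiv.prod_comp (MulAction.toPerm h)]
      refine Finset.prod_congr rfl fun q _ => ?_
      change ent (m (h • q)) (y (g • h • q)) (e p (h • q)) = _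
      rw [he, mul_smul]
    · exact Finset.prod_congr rfl fun q _ => by rw [he]
  rw [Finset.sum_congr rfl fun p _ => h2 p, ent_ten]
  have h3 : ∀ q, ent (m (h • q) * n q) (y ((g * h) • q)) (x q) =
      ∑ w ∈ C q, ent (m (h • q)) (y ((g * h) • q)) w * ent (n q) w (x q) :=
    fun q => ent_mul_col _ _ _ _ _ (hC q)
  simp only [h3]
  rw [Finset.prod_univ_sum, Finset.mul_sum]
  exact (map_sum (MonoidAlgebra.singleAddHom (R := R) (g * h)) _ _).symm

end Ten

end Pool.Agent.QT
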