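import Pool.Agent.Lib.MP_8f66f0_al_Q.Spec
import Pool.Agent.Lib.MP_8f66f0_al_Q.Local
import Pool.Agent.Lib.MP_8f66f0_al_Q.Ten

/-! Theorem Q: the full extension (statement `S_Xt`). -/

set_option autoImplicit false

namespace Pool.Agent.QT

open scoped Pointwise
open Pool.Agent.TQ Pool.Agent.Wald

section

variable {Γ G Q V R : Type} [Group Γ] [Group G] [MulAction Γ Q] [MulAction G V] [CommRing R]
  [Fintype Q] {D : Coc Γ G Q} (φ : G → RCF (Option V) R)

open Classical in
/-- The local kernels of the full extension. -/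
noncomputable def xm (D : Coc Γ G Q) (φ : G → RCF (Option V) R) (l' l : Tw D V) (g : Γ) (q : Q) :
    RCF (Option V) R :=
  if l q = none then φ (D.c g q) else sk (l' (g • q)) (l q) 1

omit [MulAction G V] [Fintype Q] in
theorem xm_none {l' l : Tw D V} {g : Γ} {q : Q} (h : l q = none) :
    xm D φ l' l g q = φ (D.c g q) := if_pos h

omit [MulAction G V] [Fintype Q] in
theorem xm_some {l' l : Tw D V} {g : Γ} {q : Q} (h : l q ≠ none) :
    xm D φ l' l g q = sk (l' (g • q)) (l q) 1 := if_neg h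

theorem cf_sum' {Ω ι : Type} (s : Finset ι) (f : ι → RCF Ω (MonoidAlgebra R Γ)) (g : Γ)
    (y x : Ω) : cf (∑ i ∈ s, f i) g y x = ∑ i ∈ s, cf (f i) g y x := by
  classical
  induction s using Finset.induction_on with
  | empty => rw [Finset.sum_empty, Finset.sum_empty, cf_zero]
  | insert a s ha ih => rw [Finset.sum_insert ha, Finset.sum_insert ha, cf_add, ih]

theorem cf_xt (l' l : Tw D V) (a : MonoidAlgebra R Γ) (g : Γ) (y x : Tw D V) :
    cf (xt φ l' l a : Kr D V R) g y x =
      a.coeff g * ∏ q, ent (xm D φ l' l g q) (y (g • q)) (x q) := by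
  classical
  rw [xt, cf_sum']
  simp only [cf_ten]
  rw [Finset.sum_ite_eq' a.coeff.support g]
  split_ifs with h
  · rfl
  · rw [Finsupp.notMem_support_iff.1 h, zero_mul]

theorem xt_add (l' l : Tw D V) (a b : MonoidAlgebra R Γ) :
    (xt φ l' l (a + b) : Kr D V R) = xt φ l' l a + xt φ l' l b := by
  refine cf_ext fun g y x => ?_
  rw [cf_add, cf_xt, cf_xt, cf_xt, ← add_mul]
  rfl

theorem xt_zero (l' l : Tw D V) : (xt φ l' l (0 : MonoidAlgebra R Γ) : Kr D V R) = 0 := by
  refine cf_ext fun g y x => ?_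
  rw [cf_xt, cf_zero]
  exact zero_mul _

/-- The full extension as an additive map. -/
noncomputable def xtA (l' l : Tw D V) : MonoidAlgebra R Γ →+ Kr D V R where
  toFun := xt φ l' l
  map_zero' := xt_zero φ l' l
  map_add' := xt_add φ l' l

theorem xt_single (l' l : Tw D V) (g : Γ) (r : R) :
    (xt φ l' l (MonoidAlgebra.single g r) : Kr D V R) = ten r g (xm D φ l' l g) := by
  classical
  refine cf_ext fun h y x => ?_
  rw [cf_xt, cf_ten, MonoidAlgebra.coeff_single, Finsupp.single_apply]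
  split_ifs with h1
  · subst h1
    rfl
  · rw [zero_mul]

omit [Group Γ] in
theorem sum_single' (a : MonoidAlgebra R Γ) :
    ∑ g ∈ a.coeff.support, MonoidAlgebra.single g (a.coeff g) = a := by
  classical
  refine MonoidAlgebra.ext (Finsupp.ext fun h => ?_)
  rw [MonoidAlgebra.coeff_sum, Finsupp.finsetSum_apply]
  simp only [MonoidAlgebra.coeff_single, Finsupp.single_apply]
  rw [Finset.sum_ite_eq' a.coeff.support h]
  split_ifs with h1
  · rfl
  · exact (Finsupp.notMem_support_iff.1 h1).symm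

omit [MulAction G V] in
theorem xt_sum_single (l' l : Tw D V) (a : MonoidAlgebra R Γ) :
    (xt φ l' l a : Kr D V R) = ∑ g ∈ a.coeff.support, ten (a.coeff g) g (xm D φ l' l g) := rfl

theorem ent_ne_xt {l' l : Tw D V} {a : MonoidAlgebra R Γ} {y x : Tw D V}
    (h : ent (xt φ l' l a : Kr D V R) y x ≠ 0) :
    ∃ g, a.coeff g ≠ 0 ∧ ∀ q, ent (xm D φ l' l g q) (y (g • q)) (x q) ≠ 0 := by
  obtain ⟨g, hg⟩ : ∃ g, cf (xt φ l' l a : Kr D V R) g y x ≠ 0 := by
    by_contra h1
    push Not at h1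
    exact h (MonoidAlgebra.ext (Finsupp.ext h1))
  rw [cf_xt] at hg
  refine ⟨g, fun h1 => hg (by rw [h1, zero_mul]), fun q hq => hg ?_⟩
  rw [Finset.prod_eq_zero (Finset.mem_univ q) hq, mul_zero]

theorem xt_rk (hlr : ∀ a, Lr a (φ a)) (l' l : Tw D V) (a : MonoidAlgebra R Γ)
    (ha : JS l' l a) : Rk (xt φ l' l a : Kr D V R) := by
  rw [xt_sum_single]
  refine Rk.sum fun g hg => Rk.ten fun q => ?_
  by_cases hq : l q = none
  · rw [xm_none φ hq]
    exact hlr _
  · rw [xm_some φ hq]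
    have h1 : l' (g • q) ≠ none := fun h => hq ((ha g (Finsupp.mem_support_iff.1 hg) q).1 h)
    obtain ⟨w, hw⟩ := Option.ne_none_iff_exists'.1 h1
    obtain ⟨v, hv⟩ := Option.ne_none_iff_exists'.1 hq
    rw [hw, hv]
    exact lrSk.1 _ _ _ _ _ _ _

theorem sk_mul_sk {Ω A : Type} [Ring A] (w v u : Ω) (a b : A) :
    (sk w v a : RCF Ω A) * sk v u b = sk w u (a * b) := by
  classical
  refine ent_ext fun y x => ?_
  rw [ent_mul_col _ _ y x {v} fun z hz => by
    rw [Finset.mem_singleton]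
    by_contra h
    exact hz (ent_sk_ne (fun h' => h h'.1) b), Finset.sum_singleton]
  by_cases hy : y = w
  · by_cases hx : x = u
    · rw [hy, hx, ent_sk_eq, ent_sk_eq, ent_sk_eq]
    · rw [ent_sk_ne (fun h => hx h.2) b, mul_zero, ent_sk_ne fun h => hx h.2]
  · rw [ent_sk_ne (fun h => hy h.1) a, zero_mul, ent_sk_ne fun h => hy h.1]

theorem xt_mul (hmul : ∀ a b, φ (a * b) = φ a * φ b) (l'' l' l : Tw D V)
    (a b : MonoidAlgebra R Γ) (hb : JS l' l b) :
    (xt φ l'' l' a : Kr D V R) * xt φ l' l b = xt φ l'' l (a * b) := by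
  have h1 : a * b = ∑ g ∈ a.coeff.support, ∑ h ∈ b.coeff.support,
      MonoidAlgebra.single (g * h) (a.coeff g * b.coeff h) := by
    conv_lhs => rw [← sum_single' a, ← sum_single' b, Finset.sum_mul_sum]
    refine Finset.sum_congr rfl fun g _ => Finset.sum_congr rfl fun h _ => ?_
    rw [MonoidAlgebra.single_mul_single]
  have h2 : (xt φ l'' l (a * b) : Kr D V R) = xtA φ l'' l (a * b) := rfl
  rw [h2, h1, map_sum, xt_sum_single, xt_sum_single, Finset.sum_mul_sum]
  refine Finset.sum_congr rfl fun g _ => ?_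
  rw [map_sum]
  refine Finset.sum_congr rfl fun h hh => ?_
  change _ = xt φ l'' l (MonoidAlgebra.single (g * h) (a.coeff g * b.coeff h))
  rw [xt_single, ten_mul]
  congr 1
  funext q
  have hJ := hb h (Finsupp.mem_support_iff.1 hh) q
  by_cases hq : l q = none
  · rw [xm_none φ hq, xm_none φ hq, xm_none φ (hJ.2 hq), D.c_mul, hmul]
  · rw [xm_some φ hq, xm_some φ hq, xm_some φ (fun h' => hq (hJ.1 h')), sk_mul_sk, one_mul,
      mul_smul]

theorem xt_one (hone : φ 1 = 1) (l : Tw D V) :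
    (xt φ l l (1 : MonoidAlgebra R Γ) : Kr D V R) = ind {x | Exts l x} := by
  classical
  rw [MonoidAlgebra.one_def, xt_single]
  refine ent_ext fun y x => ?_
  rw [ent_ten, ind, ent_mkK, one_mul]
  have key : ∀ q, ent (xm D φ l l 1 q) (y ((1 : Γ) • q)) (x q) =
      if y q = x q ∧ (l q ≠ none → x q = l q) then 1 else 0 := by
    intro q
    by_cases hq : l q = none
    · rw [xm_none φ hq, D.c_one, hone, ent_one, one_smul]
      by_cases h : y q = x q
      · rw [if_pos h, if_pos ⟨h, fun h' => absurd hq h'⟩]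
      · rw [if_neg h, if_neg fun h' => h h'.1]
    · rw [xm_some φ hq, one_smul]
      by_cases h : y q = l q ∧ x q = l q
      · rw [h.1, h.2, ent_sk_eq, if_pos ⟨rfl, fun _ => rfl⟩]
      · rw [ent_sk_ne h, if_neg]
        rintro ⟨h1, h2⟩
        exact h ⟨h1.trans (h2 hq), h2 hq⟩
  simp only [key]
  by_cases h : y = x ∧ x ∈ {x | Exts l x}
  · rw [if_pos h, Finset.prod_eq_one, MonoidAlgebra.one_def]
    intro q _
    rw [if_pos]
    exact ⟨congrFun h.1 q, h.2 q⟩
  · rw [if_neg h]
    obtain ⟨q, hq⟩ : ∃ q, ¬ (y q = x q ∧ (l q ≠ none → x q = l q)) := by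
      by_contra hcon
      push Not at hcon
      exact h ⟨funext fun q => (hcon q).1, fun q => (hcon q).2⟩
    rw [Finset.prod_eq_zero (Finset.mem_univ q) (if_neg hq), MonoidAlgebra.single_zero]

omit [MulAction G V] in
theorem lev_mono {l x : Tw D V} (h : Exts l x) : lev l ≤ lev x := by
  refine Finset.card_le_card fun q hq => ?_
  rw [Finset.mem_filter] at hq ⊢
  refine ⟨hq.1, ?_⟩
  have h1 : l q ≠ none := fun h' => by
    rw [h'] at hq
    exact absurd hq.2 (by simp)
  rw [h q h1]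
  exact hq.2

omit [MulAction G V] in
theorem eq_of_lev {l x : Tw D V} (h : Exts l x) (hl : lev x = lev l) : x = l := by
  have h1 : (Finset.univ.filter fun q => (l q).isSome = true) ⊆
      Finset.univ.filter fun q => (x q).isSome = true := by
    intro q hq
    rw [Finset.mem_filter] at hq ⊢
    refine ⟨hq.1, ?_⟩
    have h1 : l q ≠ none := fun h' => by
      rw [h'] at hq
      exact absurd hq.2 (by simp)
    rw [h q h1]
    exact hq.2
  have h2 := Finset.eq_of_subset_of_card_le h1 hl.le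
  funext q
  by_cases hq : l q = none
  · rw [hq]
    by_contra hx
    have h3 : q ∈ Finset.univ.filter fun q => (x q).isSome = true :=
      Finset.mem_filter.2 ⟨Finset.mem_univ q, Option.isSome_iff_ne_none.2 hx⟩
    rw [← h2, Finset.mem_filter, hq] at h3
    exact absurd h3.2 (by simp)
  · exact h q hq

theorem xt_exts {l' l : Tw D V} {a : MonoidAlgebra R Γ} (ha : JS l' l a) {y x : Tw D V}
    (h : ent (xt φ l' l a : Kr D V R) y x ≠ 0) : Exts l x ∧ Exts l' y := by
  obtain ⟨g, hg, hq⟩ := ent_ne_xt φ h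
  have key : ∀ q, l q ≠ none → y (g • q) = l' (g • q) ∧ x q = l q := by
    intro q hlq
    have h1 := hq q
    rw [xm_some φ hlq] at h1
    by_contra h2
    exact h1 (ent_sk_ne h2 1)
  refine ⟨fun q hlq => (key q hlq).2, fun q hlq => ?_⟩
  have h1 : l (g⁻¹ • q) ≠ none := fun h' => by
    have h2 := (ha g hg (g⁻¹ • q)).2 h'
    rw [smul_inv_smul] at h2
    exact hlq h2
  have h2 := (key _ h1).1
  rwa [smul_inv_smul] at h2

theorem xt_at (hinf : ∀ a, ent (φ a) none none = 1) {l' l : Tw D V} {a : MonoidAlgebra R Γ}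
    (ha : JS l' l a) : ent (xt φ l' l a : Kr D V R) l' l = a := by
  refine MonoidAlgebra.ext (Finsupp.ext fun g => ?_)
  have h1 := cf_xt φ l' l a g l' l
  change cf (xt φ l' l a : Kr D V R) g l' l = _
  rw [h1]
  by_cases hg : a.coeff g = 0
  · rw [hg, zero_mul]
  · rw [Finset.prod_eq_one, mul_one]
    intro q _
    by_cases hq : l q = none
    · rw [xm_none φ hq, (ha g hg q).2 hq, hq, hinf]
    · rw [xm_some φ hq, ent_sk_eq]

theorem xt_lev (hlr : ∀ a, Lr a (φ a)) {l' l : Tw D V} {a : MonoidAlgebra R Γ}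
    (ha : JS l' l a) {y x : Tw D V} (hl : lev x = lev l)
    (h : ent (xt φ l' l a : Kr D V R) y x ≠ 0) : x = l ∧ y = l' := by
  have hx : x = l := eq_of_lev (xt_exts φ ha h).1 hl
  refine ⟨hx, ?_⟩
  obtain ⟨g, hg, hq⟩ := ent_ne_xt φ h
  have hy := (xt_exts φ ha h).2
  funext q
  by_cases hq' : l' q = none
  · have h1 : l (g⁻¹ • q) = none := (ha g hg _).1 (by rw [smul_inv_smul]; exact hq')
    have h2 := hq (g⁻¹ • q)
    rw [xm_none φ h1, hx, smul_inv_smul] at h2
    rw [hq']
    exact ((hlr _).none_iff h2).2 h1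
  · exact hy q hq'

end

theorem xtThm : S_Xt := by
  intro Γ G Q V R _ _ _ _ _ _ D φ hone hmul hlr hinf
  refine ⟨?_, xt_add φ, xt_zero φ, xt_rk φ hlr, ?_, xt_one φ hone, ?_⟩
  · intro l' l a g y x h
    rw [cf_xt, h, zero_mul]
  · exact fun l'' l' l a b _ hb => xt_mul φ hmul l'' l' l a b hb
  · intro l' l a ha y x
    refine ⟨xt_exts φ ha, fun hl => ?_, fun hl => ⟨?_, fun hne => ?_⟩⟩
    · by_contra h
      exact absurd (lev_mono (xt_exts φ ha h).1) (not_le_of_gt hl)
    · rintro ⟨rfl, rfl⟩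
      exact xt_at φ hinf ha
    · by_contra h
      exact hne (xt_lev φ hlr ha hl h)

end Pool.Agent.QT
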