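import Pool.Agent.Lib.MP_8f66f0_al_Q.SpecR
import Pool.Agent.Lib.MP_8f66f0_al_Q.Xt
import Pool.Agent.Lib.MP_8f66f0_al_Q.Iso
import Pool.Agent.Lib.MP_8f66f0_al_Q.RkInd
import Pool.Agent.Lib.MP_8f66f0_al_Q.OOSS
import Pool.Agent.Lib.MP_8f66f0_al_FH.Stb

/-!
# Theorem Q: the exact cut, the two far lifts (statement `S_ab`)
-/

set_option autoImplicit false

namespace Pool.Agent.QT

open scoped Pointwise
open Pool.Agent.TQ Pool.Agent.Wald Pool.Agent.FH

section EqB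

variable {Γ G Q V : Type} [Group Γ] [Group G] [MulAction Γ Q] [MulAction G V] {D : Coc Γ G Q}
  {R : Type} [CommRing R] [Fintype Q] {m m' : Type} {k : ℕ}

omit [MulAction G V] in
private theorem eb_refl (S : Matrix m' m (Kr D V R)) : EqB k S S := fun _ _ _ _ _ => rfl

omit [MulAction G V] in
private theorem eb_symm {S U : Matrix m' m (Kr D V R)} (h : EqB k S U) : EqB k U S :=
  fun a' a y x hx => (h a' a y x hx).symm

omit [MulAction G V] in
private theorem eb_trans {S U W : Matrix m' m (Kr D V R)} (h : EqB k S U) (h' : EqB k U W) :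
    EqB k S W := fun a' a y x hx => (h a' a y x hx).trans (h' a' a y x hx)

omit [MulAction G V] in
private theorem eb_add {S U S' U' : Matrix m' m (Kr D V R)} (h : EqB k S U) (h' : EqB k S' U') :
    EqB k (S + S') (U + U') := fun a' a y x hx => by
  rw [Matrix.add_apply, Matrix.add_apply, ent_add, ent_add, h a' a y x hx, h' a' a y x hx]

omit [MulAction G V] in
private theorem eb_blocks {m₁ m₂ m₃ m₄ : Type} {A A' : Matrix m₁ m₃ (Kr D V R)}
    {B B' : Matrix m₁ m₄ (Kr D V R)} {C C' : Matrix m₂ m₃ (Kr D V R)}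
    {F F' : Matrix m₂ m₄ (Kr D V R)} (hA : EqB k A A') (hB : EqB k B B') (hC : EqB k C C')
    (hF : EqB k F F') : EqB k (Matrix.fromBlocks A B C F) (Matrix.fromBlocks A' B' C' F') := by
  rintro (a' | a') (a | a) y x hx
  · exact hA a' a y x hx
  · exact hB a' a y x hx
  · exact hC a' a y x hx
  · exact hF a' a y x hx

end EqB

section Plc

variable {Γ G Q V : Type} [Group Γ] [Group G] [MulAction Γ Q] [MulAction G V] {D : Coc Γ G Q}
  {R : Type} [CommRing R] {ι ι' m m' : Type} [Fintype ι] [Fintype ι'] [DecidableEq m]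
  [DecidableEq m']

omit [MulAction G V] in
private theorem ab_ex {S : Kr D V R} {y x : Tw D V} (h : ent S y x ≠ 0) : ∃ g, cf S g y x ≠ 0 := by
  by_contra h1
  push Not at h1
  exact h (MonoidAlgebra.ext (Finsupp.ext h1))

omit [MulAction G V] in
private theorem ab_cf {pt' : ι' → Tw D V} {blk' : ι' → m'} {pt : ι → Tw D V} {blk : ι → m}
    {M : Matrix ι' ι (MonoidAlgebra R Γ)} {a' : m'} {a : m} {g : Γ} {y x : Tw D V}
    (h : cf (plc pt' blk' pt blk M a' a) g y x ≠ 0) :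
    ∃ i' i, blk' i' = a' ∧ blk i = a ∧ y = pt' i' ∧ x = pt i ∧ (M i' i).coeff g ≠ 0 := by
  rw [plc, cf_sum'] at h
  obtain ⟨i', _, h⟩ := Finset.exists_ne_zero_of_sum_ne_zero h
  rw [cf_sum'] at h
  obtain ⟨i, _, h⟩ := Finset.exists_ne_zero_of_sum_ne_zero h
  by_cases hb : blk' i' = a' ∧ blk i = a
  · rw [if_pos hb] at h
    by_cases hp : y = pt' i' ∧ x = pt i
    · refine ⟨i', i, hb.1, hb.2, hp.1, hp.2, fun h0 => h ?_⟩
      rw [cf, hp.1, hp.2, ent_sk_eq]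
      exact h0
    · refine absurd ?_ h
      rw [cf, ent_sk_ne hp]
      rfl
  · rw [if_neg hb, cf_zero] at h
    exact absurd rfl h

private theorem ab_jc {T : Tr G V} {S : Kr D V R}
    (h : ∀ g y x, cf S g y x ≠ 0 → y = g • x ∧ pr T y = g • pr T x) : Jc S := by
  intro g y x hc q
  rw [(h g y x hc).1, tw_smul, Option.map_eq_none_iff]

private theorem ab_lift [Fintype Q] (hFl : S_Fl) (hN : S_flN) (T : Tr G V) {B : Finset V} {k : ℕ}
    (hB : T.root ∈ B) (pt' : ι' → Tw D V) (blk' : ι' → m') (pt : ι → Tw D V) (blk : ι → m)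
    (M : Matrix ι' ι (MonoidAlgebra R Γ))
    (h' : ∀ i, NR T (pt' i) ∧ near B (pt' i) = pt' i ∧ lev (pt' i) = k)
    (h : ∀ i, NR T (pt i) ∧ near B (pt i) = pt i ∧ lev (pt i) = k)
    (hM : ∀ i' i g, (M i' i).coeff g ≠ 0 → pt' i' = g • pt i ∧ pr T (pt' i') = g • pr T (pt i)) :
    ∃ U : Matrix m' m (Kr D V R), (∀ a' a, OO T (U a' a)) ∧
      EqB (k + 1) U (plc pt' blk' pt blk M) ∧ EqB k U 0 ∧
      ∀ a' a, ind (NRS T) * U a' a = U a' a ∧ U a' a * ind (NRS T) = U a' a := by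
  have hpt : ∀ a' a g y x, cf (plc pt' blk' pt blk M a' a) g y x ≠ 0 →
      y = g • x ∧ pr T y = g • pr T x := by
    intro a' a g y x hc
    obtain ⟨i', i, -, -, rfl, rfl, hg⟩ := ab_cf hc
    exact hM i' i g hg
  have hJ : ∀ a' a, Jc (plc pt' blk' pt blk M a' a) := fun a' a => ab_jc (hpt a' a)
  choose U hU1 hU2 hU3 hU4 hU5 using fun a' a =>
    hFl Γ G Q V R D T B k (plc pt' blk' pt blk M a' a) (hJ a' a)
  refine ⟨U, fun a' a => hU5 a' a ?_, ?_, fun a' a y x hx => hU3 a' a y x hx, fun a' a => ?_⟩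
  · intro g y x _ _ _ hc
    exact hpt a' a g y x hc
  · intro a' a y x hx
    rcases Nat.lt_succ_iff_lt_or_eq.1 hx with hx | hx
    · rw [hU3 a' a y x hx]
      by_contra h0
      obtain ⟨g, hg⟩ := ab_ex (Ne.symm h0)
      obtain ⟨i', i, -, -, rfl, rfl, -⟩ := ab_cf hg
      exact absurd (h i).2.2 hx.ne
    · by_cases hn : near B x = x ∧ near B y = y
      · exact (hU4 a' a y x hx).1 hn
      · rw [(hU4 a' a y x hx).2 hn]
        by_contra h0
        obtain ⟨g, hg⟩ := ab_ex (Ne.symm h0)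
        obtain ⟨i', i, -, -, rfl, rfl, -⟩ := ab_cf hg
        exact hn ⟨(h i).2.1, (h' i').2.1⟩
  · refine (hN Γ G Q V R D T B k _ (U a' a) (hJ a' a) hB ?_ (hU1 a' a)).2
    intro g y x hc
    obtain ⟨i', i, -, -, rfl, rfl, -⟩ := ab_cf hc
    exact ⟨(h' i').1, (h i).1⟩

omit [MulAction G V] in
private theorem ab_fb_plc {n m₁ m₂ : Type} [Fintype n] [DecidableEq n] [Fintype m₂]
    [DecidableEq m₂] {E₁ : n → Set (Tw D V)} {pt' : ι' → Tw D V} {blk' : ι' → n ⊕ m₂}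
    {pt : ι → Tw D V} {blk : ι → m} {M : Matrix ι' ι (MonoidAlgebra R Γ)}
    (h : ∀ i' a, blk' i' = Sum.inl a → pt' i' ∉ E₁ a) :
    (Matrix.fromBlocks (dg E₁) 0 0 0 : Matrix (n ⊕ m₁) (n ⊕ m₂) (Kr D V R)) *
      plc pt' blk' pt blk M = 0 := by
  refine Matrix.ext fun c' c => ?_
  rw [Matrix.mul_apply, Matrix.zero_apply]
  refine Finset.sum_eq_zero fun c'' _ => ?_
  rcases c' with a' | b'
  · rcases c'' with a'' | b''
    · rw [Matrix.fromBlocks_apply₁₁, dg, Matrix.diagonal_apply]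
      split_ifs with hab
      · subst hab
        refine ent_ext fun y x => ?_
        rw [ent_zero]
        by_cases hy : y ∈ E₁ a'
        · rw [(ent_ind_mul _ _ y x).1 hy]
          by_contra h0
          obtain ⟨g, hg⟩ := ab_ex h0
          obtain ⟨i', i, hi, -, rfl, -, -⟩ := ab_cf hg
          exact h i' a' hi hy
        · exact (ent_ind_mul _ _ y x).2 hy
      · rw [zero_mul]
    · rw [Matrix.fromBlocks_apply₁₂, Matrix.zero_apply, zero_mul]
  · rcases c'' with a'' | b''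
    · rw [Matrix.fromBlocks_apply₂₁, Matrix.zero_apply, zero_mul]
    · rw [Matrix.fromBlocks_apply₂₂, Matrix.zero_apply, zero_mul]

omit [MulAction G V] in
private theorem ab_plc_fb {n m₁ m₂ : Type} [Fintype n] [DecidableEq n] [Fintype m₂]
    [DecidableEq m₂] {E₁ : n → Set (Tw D V)} {pt' : ι' → Tw D V} {blk' : ι' → m'}
    {pt : ι → Tw D V} {blk : ι → n ⊕ m₂} {M : Matrix ι' ι (MonoidAlgebra R Γ)}
    (h : ∀ i a, blk i = Sum.inl a → pt i ∉ E₁ a) :
    plc pt' blk' pt blk M *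
      (Matrix.fromBlocks (dg E₁) 0 0 0 : Matrix (n ⊕ m₂) (n ⊕ m₁) (Kr D V R)) = 0 := by
  refine Matrix.ext fun c' c => ?_
  rw [Matrix.mul_apply, Matrix.zero_apply]
  refine Finset.sum_eq_zero fun c'' _ => ?_
  rcases c with a | b
  · rcases c'' with a'' | b''
    · rw [Matrix.fromBlocks_apply₁₁, dg, Matrix.diagonal_apply]
      split_ifs with hab
      · subst hab
        refine ent_ext fun y x => ?_
        rw [ent_zero]
        by_cases hx : x ∈ E₁ a''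
        · rw [(ent_mul_ind _ _ y x).1 hx]
          by_contra h0
          obtain ⟨g, hg⟩ := ab_ex h0
          obtain ⟨i', i, -, hi, -, rfl, -⟩ := ab_cf hg
          exact h i a'' hi hx
        · exact (ent_mul_ind _ _ y x).2 hx
      · rw [mul_zero]
    · rw [Matrix.fromBlocks_apply₂₁, Matrix.zero_apply, mul_zero]
  · rcases c'' with a'' | b''
    · rw [Matrix.fromBlocks_apply₁₂, Matrix.zero_apply, mul_zero]
    · rw [Matrix.fromBlocks_apply₂₂, Matrix.zero_apply, mul_zero]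

private theorem sk_zero' {Ω A : Type} [Ring A] (w v : Ω) : (sk w v (0 : A)) = 0 := by
  refine ent_ext fun y x => ?_
  by_cases h : y = w ∧ x = v
  · rw [h.1, h.2, ent_sk_eq, ent_zero]
  · rw [ent_sk_ne h, ent_zero]

omit [MulAction G V] in
private theorem ab_blocks {F d n : Type} [Fintype F] [Fintype d] [DecidableEq n] [DecidableEq d]
    (pt : F → Tw D V) (blk : F → n) (pd : d → Tw D V) (M : Matrix F F (MonoidAlgebra R Γ))
    (N : Matrix d d (MonoidAlgebra R Γ)) :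
    plc (Sum.elim pt pd) (Sum.elim (Sum.inl ∘ blk) Sum.inr : F ⊕ d → n ⊕ d) (Sum.elim pt pd)
      (Sum.elim (Sum.inl ∘ blk) Sum.inr : F ⊕ d → n ⊕ d) (Matrix.fromBlocks M 0 0 N) =
      Matrix.fromBlocks (plc pt blk pt blk M) 0 0 (plc pd id pd id N) := by
  refine Matrix.ext fun c' c => ?_
  rcases c' with a' | b' <;> rcases c with a | b <;>
    simp [plc, Fintype.sum_sum_type, sk_zero']

omit [MulAction G V] in
private theorem ab_inr {d n : Type} [Fintype d] [DecidableEq n] [DecidableEq d]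
    (pd : d → Tw D V) (N : Matrix d d (MonoidAlgebra R Γ)) :
    plc pd (Sum.inr : d → n ⊕ d) pd (Sum.inr : d → n ⊕ d) N =
      Matrix.fromBlocks 0 0 0 (plc pd id pd id N) := by
  refine Matrix.ext fun c' c => ?_
  rcases c' with a' | b' <;> rcases c with a | b <;> simp [plc]

private theorem ab_one [Fintype Q] {d : Type} [Fintype d] [DecidableEq d] (T : Tr G V) {k : ℕ}
    (pd : d → Tw D V) (h : ∀ b, NR T (pd b) ∧ lev (pd b) = k) :
    EqB (k + 1) (plc pd id pd id (1 : Matrix d d (MonoidAlgebra R Γ)))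
      (dg fun b => {x : Tw D V | NR T x ∧ Exts (pd b) x}) := by
  classical
  intro b' b y x hx
  have e1 : plc pd id pd id (1 : Matrix d d (MonoidAlgebra R Γ)) b' b =
      sk (pd b') (pd b) ((1 : Matrix d d (MonoidAlgebra R Γ)) b' b) := by
    rw [plc, Finset.sum_eq_single b', Finset.sum_eq_single b, if_pos ⟨rfl, rfl⟩]
    · exact fun i _ hi => if_neg fun h => hi h.2
    · exact fun h => absurd (Finset.mem_univ _) h
    · exact fun i _ hi => Finset.sum_eq_zero fun j _ => if_neg fun h => hi h.1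
    · exact fun h => absurd (Finset.mem_univ _) h
  rw [e1, dg, Matrix.diagonal_apply]
  by_cases hb : b' = b
  · subst hb
    rw [if_pos rfl, Matrix.one_apply_eq, ent_ind]
    by_cases hyx : y = pd b' ∧ x = pd b'
    · rw [if_pos, hyx.1, hyx.2, ent_sk_eq]
      refine ⟨hyx.1.trans hyx.2.symm, ?_⟩
      rw [hyx.2]
      exact ⟨(h b').1, fun _ _ => rfl⟩
    · rw [ent_sk_ne hyx, if_neg]
      rintro ⟨h1, h2⟩
      have h3 : x = pd b' := by
        refine eq_of_lev h2.2 ?_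
        have h4 := lev_mono h2.2
        rw [(h b').2] at h4 ⊢
        omega
      exact hyx ⟨h1.trans h3, h3⟩
  · rw [if_neg hb, Matrix.one_apply_ne hb, sk_zero']

end Plc

section OO

variable {Γ G Q V : Type} [Group Γ] [Group G] [MulAction Γ Q] [MulAction G V] {D : Coc Γ G Q}
  {R : Type} [CommRing R] [Fintype Q] {T : Tr G V}

private theorem ab_oo_zero : OO T (0 : Kr D V R) :=
  ⟨Rk.zero, fun g y x h => absurd (cf_zero g y x) h⟩

private theorem ab_oo_ind {E : Set (Tw D V)} (h : RS E) : OO T (ind E : Kr D V R) := by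
  classical
  refine ⟨Rk.ind h, fun g y x hc => ?_⟩
  rw [cf_ind] at hc
  by_cases hg : g = 1 ∧ y = x ∧ x ∈ E
  · rw [hg.1, hg.2.1, one_smul, one_smul]
    exact ⟨rfl, rfl⟩
  · exact absurd (if_neg hg) hc

private theorem ab_oo_fb {n m₁ m₂ : Type} [DecidableEq n] {E₁ : n → Set (Tw D V)}
    (h : ∀ a, RS (E₁ a)) (c' : n ⊕ m₁) (c : n ⊕ m₂) :
    OO T ((Matrix.fromBlocks (dg E₁) 0 0 0 : Matrix (n ⊕ m₁) (n ⊕ m₂) (Kr D V R)) c' c) := by
  rcases c' with a' | b'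
  · rcases c with a | b
    · rw [Matrix.fromBlocks_apply₁₁, dg, Matrix.diagonal_apply]
      split_ifs with hab
      · exact ab_oo_ind (h a')
      · exact ab_oo_zero
    · exact ab_oo_zero
  · rcases c with a | b
    · exact ab_oo_zero
    · exact ab_oo_zero

omit [MulAction G V] [Fintype Q] in
private theorem ab_nn_fb {n m₁ m₂ : Type} [DecidableEq n] {N : Set (Tw D V)}
    {E₁ : n → Set (Tw D V)} (h : ∀ a, E₁ a ⊆ N) (c' : n ⊕ m₁) (c : n ⊕ m₂) :
    ind N * (Matrix.fromBlocks (dg E₁) 0 0 0 : Matrix (n ⊕ m₁) (n ⊕ m₂) (Kr D V R)) c' c =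
      (Matrix.fromBlocks (dg E₁) 0 0 0 : Matrix (n ⊕ m₁) (n ⊕ m₂) (Kr D V R)) c' c ∧
    (Matrix.fromBlocks (dg E₁) 0 0 0 : Matrix (n ⊕ m₁) (n ⊕ m₂) (Kr D V R)) c' c * ind N =
      (Matrix.fromBlocks (dg E₁) 0 0 0 : Matrix (n ⊕ m₁) (n ⊕ m₂) (Kr D V R)) c' c := by
  rcases c' with a' | b'
  · rcases c with a | b
    · rw [Matrix.fromBlocks_apply₁₁, dg, Matrix.diagonal_apply]
      split_ifs with hab
      · rw [ind_mul, ind_mul, Set.inter_eq_right.2 (h a'), Set.inter_eq_left.2 (h a')]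
        exact ⟨rfl, rfl⟩
      · rw [mul_zero, zero_mul]
        exact ⟨rfl, rfl⟩
    · exact ⟨mul_zero _, zero_mul _⟩
  · rcases c with a | b
    · exact ⟨mul_zero _, zero_mul _⟩
    · exact ⟨mul_zero _, zero_mul _⟩

omit [MulAction G V] [Fintype Q] in
private theorem ab_nn {m m' : Type} [Fintype m] [DecidableEq m] [Fintype m'] [DecidableEq m']
    {N : Set (Tw D V)} {S : Matrix m' m (Kr D V R)}
    (h : ∀ c' c, ind N * S c' c = S c' c ∧ S c' c * ind N = S c' c) :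
    dg (fun _ => N) * S = S ∧ S * dg (fun _ => N) = S := by
  constructor
  · refine Matrix.ext fun c' c => ?_
    exact (Matrix.diagonal_mul _ _ _ _).trans (h c' c).1
  · refine Matrix.ext fun c' c => ?_
    exact (Matrix.mul_diagonal _ _ _ _).trans (h c' c).2

end OO

theorem ab (h1 : S_pF) (h2 : S_Fl) (h3 : S_Lev) (h4 : S_RS) (h5 : S_plcM) (h6 : S_flN) :
    S_ab := by
  classical
  intro Γ G Q V L _ _ _ _ _ _ _ D T k hSF hk n _ _ p E hpp hpO hp1 hp2 hE hEN hpE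
  obtain ⟨B, F, _, _, pt, blk, pF, E₁, hB, hpt, hinj, hE₁, hpF, hpFs, hpF1⟩ :=
    h1 Γ G Q V L D T k n p E hpp hpO hp1 hp2 hE hEN hpE
  have hst : ∀ i, ProjSF (MonoidAlgebra L ((eqr Γ (Tw D V × Tw D V)).st (lbl T (pt i)))) := by
    intro i
    refine hSF (pt i) (hpt i).1 ?_ _ fun g hg => ?_
    · by_contra hcon
      push Not at hcon
      have h0 : lev (pt i) = 0 := by
        rw [lev, Finset.card_eq_zero, Finset.filter_eq_empty_iff]
        intro q _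
        rw [hcon q]
        simp
      have := (hpt i).2.2
      omega
    · have h0 : lbl T (pt i) = g • lbl T (pt i) := hg
      have h0' : (pt i, pr T (pt i)) = (g • pt i, g • pr T (pt i)) := h0
      exact ⟨(Prod.ext_iff.1 h0').1.symm, (Prod.ext_iff.1 h0').2.symm⟩
  obtain ⟨d₁, d₂, _, _, _, _, i₁, i₂, u, v, hu, hv, huv, hvu⟩ :=
    stb L Γ (Tw D V × Tw D V) (eqr Γ (Tw D V × Tw D V)) F (fun i => lbl T (pt i)) pF hpF hpFs hst
  obtain ⟨ptA, hptA⟩ : ∃ f : F ⊕ d₁ → Tw D V, f = Sum.elim pt fun x => pt (i₁ x) := ⟨_, rfl⟩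
  obtain ⟨ptB, hptB⟩ : ∃ f : d₂ → Tw D V, f = fun x => pt (i₂ x) := ⟨_, rfl⟩
  obtain ⟨blkA, hblkA⟩ : ∃ f : F ⊕ d₁ → n ⊕ d₁, f = Sum.elim (Sum.inl ∘ blk) Sum.inr := ⟨_, rfl⟩
  obtain ⟨blkB, hblkB⟩ : ∃ f : d₂ → n ⊕ d₂, f = Sum.inr := ⟨_, rfl⟩
  have hA : ∀ i, NR T (ptA i) ∧ near B (ptA i) = ptA i ∧ lev (ptA i) = k := by
    rw [hptA]
    rintro (i | i)
    · exact hpt i
    · exact hpt (i₁ i)
  have hBB : ∀ i, NR T (ptB i) ∧ near B (ptB i) = ptB i ∧ lev (ptB i) = k := by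
    rw [hptB]
    exact fun i => hpt (i₂ i)
  have hu' : SupR (eqr Γ (Tw D V × Tw D V)).rel (fun i => lbl T (ptA i)) (fun i => lbl T (ptB i))
      u := by
    rw [hptA, hptB]
    rintro (i | i) j g hg
    · exact hu (Sum.inl i) j g hg
    · exact hu (Sum.inr i) j g hg
  have hv' : SupR (eqr Γ (Tw D V × Tw D V)).rel (fun i => lbl T (ptB i)) (fun i => lbl T (ptA i))
      v := by
    rw [hptA, hptB]
    rintro j (i | i) g hg
    · exact hv j (Sum.inl i) g hg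
    · exact hv j (Sum.inr i) g hg
  have hlab : ∀ {ι ι' : Type} {f' : ι' → Tw D V} {f : ι → Tw D V}
      {M : Matrix ι' ι (MonoidAlgebra L Γ)}, SupR (eqr Γ (Tw D V × Tw D V)).rel
        (fun i => lbl T (f' i)) (fun i => lbl T (f i)) M →
      ∀ i' i g, (M i' i).coeff g ≠ 0 → f' i' = g • f i ∧ pr T (f' i') = g • pr T (f i) := by
    intro ι ι' f' f M hM i' i g hg
    have h0 : (f' i', pr T (f' i')) = (g • f i, g • pr T (f i)) := hM i' i g hg
    exact ⟨(Prod.ext_iff.1 h0).1, (Prod.ext_iff.1 h0).2⟩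
  have hw' : SupR (eqr Γ (Tw D V × Tw D V)).rel (fun i => lbl T (ptA i)) (fun i => lbl T (ptA i))
      (u * v) := hu'.rel_mul hv'
  obtain ⟨U, hU1, hU2, hU3, hU4⟩ := ab_lift h2 h6 T hB ptA blkA ptB blkB u hA hBB (hlab hu')
  obtain ⟨W, hW1, hW2, hW3, hW4⟩ := ab_lift h2 h6 T hB ptB blkB ptA blkA v hBB hA (hlab hv')
  -- the points are not in `E₁`
  have hno : ∀ i a, blkA i = Sum.inl a → ptA i ∉ E₁ a := by
    intro i a _ hi
    refine (hE₁ a).2.2.1 _ hi ?_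
    rw [(hA i).2.1, (hA i).2.2]
  have hnoB : ∀ i a, blkB i = Sum.inl a → ptB i ∉ E₁ a := by
    intro i a hi
    rw [hblkB] at hi
    exact absurd hi (by simp)
  obtain ⟨e₁, he₁⟩ : ∃ e : Matrix (n ⊕ d₂) (n ⊕ d₁) (Kr D V L),
    e = Matrix.fromBlocks (dg E₁) 0 0 0 := ⟨_, rfl⟩
  obtain ⟨e₂, he₂⟩ : ∃ e : Matrix (n ⊕ d₁) (n ⊕ d₂) (Kr D V L),
    e = Matrix.fromBlocks (dg E₁) 0 0 0 := ⟨_, rfl⟩
  obtain ⟨v₀, hv₀⟩ : ∃ M : Matrix (n ⊕ d₂) (n ⊕ d₁) (Kr D V L), M = plc ptB blkB ptA blkA v :=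
    ⟨_, rfl⟩
  obtain ⟨u₀, hu₀⟩ : ∃ M : Matrix (n ⊕ d₁) (n ⊕ d₂) (Kr D V L), M = plc ptA blkA ptB blkB u :=
    ⟨_, rfl⟩
  obtain ⟨w₀, hw₀⟩ : ∃ M : Matrix (n ⊕ d₁) (n ⊕ d₁) (Kr D V L),
    M = plc ptA blkA ptA blkA (u * v) := ⟨_, rfl⟩
  obtain ⟨e₃, he₃⟩ : ∃ e : Matrix (n ⊕ d₁) (n ⊕ d₁) (Kr D V L),
    e = Matrix.fromBlocks (dg E₁) 0 0 0 := ⟨_, rfl⟩
  obtain ⟨e₄, he₄⟩ : ∃ e : Matrix (n ⊕ d₂) (n ⊕ d₂) (Kr D V L),
    e = Matrix.fromBlocks (dg E₁) 0 0 0 := ⟨_, rfl⟩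
  have hee : ∀ {a b c : Type} [Fintype b],
      (Matrix.fromBlocks (dg E₁) 0 0 0 : Matrix (n ⊕ a) (n ⊕ b) (Kr D V L)) *
        (Matrix.fromBlocks (dg E₁) 0 0 0 : Matrix (n ⊕ b) (n ⊕ c) (Kr D V L)) =
      Matrix.fromBlocks (dg E₁) 0 0 0 := by
    intro a b c _
    rw [Matrix.fromBlocks_multiply]
    simp only [Matrix.mul_zero, Matrix.zero_mul, add_zero, dg_idem]
  have hinjA : ∀ i j, ptA i = ptA j → blkA i = blkA j → i = j := by
    rw [hptA, hblkA]
    rintro (i | i) (j | j) h h'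
    · rw [hinj i j h (Sum.inl_injective h')]
    · exact absurd h' (by simp)
    · exact absurd h' (by simp)
    · rw [Sum.inr_injective h']
  have hinjB : ∀ i j, ptB i = ptB j → blkB i = blkB j → i = j := by
    intro i j _ h'
    rw [hblkB] at h'
    exact Sum.inr_injective h'
  -- the exact products
  have p1 : e₂ * e₁ = e₃ := by rw [he₁, he₂, he₃]; exact hee
  have p2 : e₁ * e₂ = e₄ := by rw [he₁, he₂, he₄]; exact hee
  have p3 : e₂ * v₀ = 0 := by rw [he₂, hv₀]; exact ab_fb_plc hnoB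
  have p4 : u₀ * e₁ = 0 := by rw [he₁, hu₀]; exact ab_plc_fb hnoB
  have p5 : e₁ * u₀ = 0 := by rw [he₁, hu₀]; exact ab_fb_plc hno
  have p6 : v₀ * e₂ = 0 := by rw [he₂, hv₀]; exact ab_plc_fb hno
  have p7 : u₀ * v₀ = w₀ := by
    rw [hu₀, hv₀, hw₀]
    exact h5 Γ G Q V L D _ _ _ _ _ _ _ _ _ _ _ _ u v hinjB
  have p8 : v₀ * u₀ = plc ptB blkB ptB blkB 1 := by
    rw [hu₀, hv₀, ← hvu]
    exact h5 Γ G Q V L D _ _ _ _ _ _ _ _ _ _ _ _ v u hinjA
  have p9 : e₁ * e₃ = e₁ := by rw [he₁, he₃]; exact hee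
  have p10 : e₁ * w₀ = 0 := by rw [he₁, hw₀]; exact ab_fb_plc hno
  have p11 : v₀ * e₃ = 0 := by rw [he₃, hv₀]; exact ab_plc_fb hno
  have p12 : v₀ * w₀ = v₀ := by
    rw [hv₀, hw₀, h5 Γ G Q V L D _ _ _ _ _ _ _ _ _ _ _ _ v (u * v) hinjA, ← Matrix.mul_assoc, hvu,
      Matrix.one_mul]
  have q1 : (e₂ + u₀) * (e₁ + v₀) = e₃ + w₀ := by
    rw [Matrix.add_mul, Matrix.mul_add, Matrix.mul_add, p1, p3, p4, p7, add_zero, zero_add]
  have q2 : (e₁ + v₀) * (e₂ + u₀) = e₄ + plc ptB blkB ptB blkB 1 := by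
    rw [Matrix.add_mul, Matrix.mul_add, Matrix.mul_add, p2, p5, p6, p8, add_zero, zero_add]
  have q3 : (e₁ + v₀) * (e₃ + w₀) = e₁ + v₀ := by
    rw [Matrix.add_mul, Matrix.mul_add, Matrix.mul_add, p9, p10, p11, p12, add_zero, zero_add]
  -- structures
  have oe₁ : ∀ c' c, OO T (e₁ c' c) := by rw [he₁]; exact ab_oo_fb fun a => (hE₁ a).1
  have oe₂ : ∀ c' c, OO T (e₂ c' c) := by rw [he₂]; exact ab_oo_fb fun a => (hE₁ a).1
  have oα : ∀ c' c, OO T ((e₁ + W) c' c) := fun c' c => (oe₁ c' c).add (hW1 c' c)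
  have oβ : ∀ c' c, OO T ((e₂ + U) c' c) := fun c' c => (oe₂ c' c).add (hU1 c' c)
  have ptpl : ∀ {ι ι' m m' : Type} [Fintype ι] [Fintype ι'] [DecidableEq m] [DecidableEq m']
      {f' : ι' → Tw D V} {f : ι → Tw D V} {b' : ι' → m'} {b : ι → m}
      {M : Matrix ι' ι (MonoidAlgebra L Γ)}, SupR (eqr Γ (Tw D V × Tw D V)).rel
        (fun i => lbl T (f' i)) (fun i => lbl T (f i)) M → ∀ c' c g y x,
      cf (plc f' b' f b M c' c) g y x ≠ 0 → y = g • x ∧ pr T y = g • pr T x := by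
    intro ι ι' m m' _ _ _ _ f' f b' b M hM c' c g y x hc
    obtain ⟨i', i, -, -, rfl, rfl, hg⟩ := ab_cf hc
    exact hlab hM i' i g hg
  have jadd : ∀ {S S' : Kr D V L}, OO T S → (∀ g y x, cf S' g y x ≠ 0 →
      y = g • x ∧ pr T y = g • pr T x) → Jc (S + S') := by
    intro S S' hS hS'
    refine ab_jc (T := T) fun g y x hc => ?_
    rw [cf_add] at hc
    by_cases h0 : cf S g y x = 0
    · rw [h0, zero_add] at hc
      exact hS' g y x hc
    · exact hS.pt g y x h0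
  have jα : ∀ c' c, Jc ((e₁ + W) c' c) := fun c' c => (oα c' c).reg.jc
  have jβ : ∀ c' c, Jc ((e₂ + U) c' c) := fun c' c => (oβ c' c).reg.jc
  have jα₀ : ∀ c' c, Jc ((e₁ + v₀) c' c) := by
    intro c' c
    rw [hv₀]
    exact jadd (oe₁ c' c) (ptpl hv' c' c)
  have jβ₀ : ∀ c' c, Jc ((e₂ + u₀) c' c) := by
    intro c' c
    rw [hu₀]
    exact jadd (oe₂ c' c) (ptpl hu' c' c)
  have jw₀ : ∀ c' c, Jc ((e₃ + w₀) c' c) := by
    intro c' c
    rw [hw₀, he₃]
    exact jadd (ab_oo_fb (fun a => (hE₁ a).1) c' c) (ptpl hw' c' c)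
  have bα : EqB (k + 1) (e₁ + W) (e₁ + v₀) := by
    rw [hv₀]
    exact eb_add (eb_refl _) hW2
  have bβ : EqB (k + 1) (e₂ + U) (e₂ + u₀) := by
    rw [hu₀]
    exact eb_add (eb_refl _) hU2
  have hP : ∀ {d : Type} (i₀ : d → F) (b : d),
      RS {x : Tw D V | NR T x ∧ Exts (pt (i₀ b)) x} ∧
      {x : Tw D V | NR T x ∧ Exts (pt (i₀ b)) x} ⊆ NRS T ∧
      ∀ x ∈ {x : Tw D V | NR T x ∧ Exts (pt (i₀ b)) x}, k ≤ lev x := by
    intro d i₀ b
    refine ⟨?_, fun x hx => hx.1, fun x hx => ?_⟩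
    · have e1 : {x : Tw D V | NR T x ∧ Exts (pt (i₀ b)) x} =
          {x : Tw D V | NR T (near {T.root} x)} ∩ {x : Tw D V | Exts (pt (i₀ b)) x} := by
        ext x
        have e2 : NR T x ↔ NR T (near {T.root} x) := by
          refine forall_congr' fun q => not_congr ?_
          change x q = some T.root ↔ (x q).filter (fun v => decide (v ∈ ({T.root} : Finset V))) =
            some T.root
          rw [Option.filter_eq_some_iff]
          simp
        change _ ∧ _ ↔ _ ∧ _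
        rw [e2]
        rfl
      rw [e1]
      exact ((h4 Γ G Q V D).2.1 _ _ ((h4 Γ G Q V D).2.2.2.1 {T.root} fun x => NR T x)
        ((h4 Γ G Q V D).2.2.2.2.1 _)).1
    · rw [← (hpt (i₀ b)).2.2]
      exact lev_mono hx.2
  have b1 : EqB (k + 1) (e₃ + w₀) (Matrix.fromBlocks p 0 0
      (dg fun b => {x : Tw D V | NR T x ∧ Exts (pt (i₁ b)) x})) := by
    rw [he₃, hw₀, huv, hptA, hblkA, ab_blocks pt blk (fun x => pt (i₁ x)) pF 1,
      Matrix.fromBlocks_add]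
    refine eb_blocks (eb_symm hpF1) ?_ ?_ ?_
    · rw [add_zero]
      exact eb_refl _
    · rw [add_zero]
      exact eb_refl _
    · rw [zero_add]
      exact ab_one T (fun x => pt (i₁ x)) fun b => ⟨(hpt (i₁ b)).1, (hpt (i₁ b)).2.2⟩
  have b2 : EqB (k + 1) (e₄ + plc ptB blkB ptB blkB 1) (dg (Sum.elim E₁
      fun b => {x : Tw D V | NR T x ∧ Exts (pt (i₂ b)) x})) := by
    rw [he₄, hptB, hblkB, ab_inr (fun x => pt (i₂ x)) 1, Matrix.fromBlocks_add, dg_sum]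
    refine eb_blocks ?_ ?_ ?_ ?_
    · rw [add_zero]
      exact eb_refl _
    · rw [add_zero]
      exact eb_refl _
    · rw [add_zero]
      exact eb_refl _
    · rw [zero_add]
      exact ab_one T (fun x => pt (i₂ x)) fun b => ⟨(hpt (i₂ b)).1, (hpt (i₂ b)).2.2⟩
  have blow : ∀ {a b : Type} {S : Matrix (n ⊕ a) (n ⊕ b) (Kr D V L)}, EqB k S 0 →
      EqB k (Matrix.fromBlocks (dg E₁) 0 0 0 + S) (Matrix.fromBlocks (dg E) 0 0 0) := by
    intro a b S hS
    refine eb_trans (eb_add (eb_refl _) hS) ?_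
    rw [add_zero]
    refine eb_blocks ?_ (eb_refl _) (eb_refl _) (eb_refl _)
    intro a' a y x hx
    rw [dg, dg, Matrix.diagonal_apply, Matrix.diagonal_apply]
    by_cases hab : a' = a
    · rw [if_pos hab, if_pos hab, ent_ind, ent_ind]
      refine if_congr (and_congr_right fun _ => ?_) rfl rfl
      exact (hE₁ a').2.2.2 x hx
    · rw [if_neg hab, if_neg hab]
  have nα : ∀ c' c, ind (NRS T) * (e₁ + W) c' c = (e₁ + W) c' c ∧
      (e₁ + W) c' c * ind (NRS T) = (e₁ + W) c' c := by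
    intro c' c
    have t1 := ab_nn_fb (R := L) (m₁ := d₂) (m₂ := d₁) (fun a => (hE₁ a).2.1) c' c
    rw [← he₁] at t1
    have t2 := hW4 c' c
    rw [Matrix.add_apply, mul_add, add_mul, t1.1, t1.2, t2.1, t2.2]
    exact ⟨rfl, rfl⟩
  have nβ : ∀ c' c, ind (NRS T) * (e₂ + U) c' c = (e₂ + U) c' c ∧
      (e₂ + U) c' c * ind (NRS T) = (e₂ + U) c' c := by
    intro c' c
    have t1 := ab_nn_fb (R := L) (m₁ := d₁) (m₂ := d₂) (fun a => (hE₁ a).2.1) c' c
    rw [← he₂] at t1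
    have t2 := hU4 c' c
    rw [Matrix.add_apply, mul_add, add_mul, t1.1, t1.2, t2.1, t2.2]
    exact ⟨rfl, rfl⟩
  have jp : ∀ c' c, Jc ((Matrix.fromBlocks p 0 0
      (dg fun b => {x : Tw D V | NR T x ∧ Exts (pt (i₁ b)) x}) :
        Matrix (n ⊕ d₁) (n ⊕ d₁) (Kr D V L)) c' c) := by
    rintro (a' | b') (a | b)
    · exact (hpO a' a).reg.jc
    · exact (Rk.zero).jc
    · exact (Rk.zero).jc
    · rw [Matrix.fromBlocks_apply₂₂, dg, Matrix.diagonal_apply]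
      split_ifs with hb
      · exact (Rk.ind (hP i₁ b').1).jc
      · exact (Rk.zero).jc
  refine ⟨d₁, d₂, inferInstance, inferInstance, inferInstance, inferInstance,
    fun b => {x : Tw D V | NR T x ∧ Exts (pt (i₁ b)) x},
    fun b => {x : Tw D V | NR T x ∧ Exts (pt (i₂ b)) x}, E₁, e₁ + W, e₂ + U, hP i₁, hP i₂,
    fun a => ⟨(hE₁ a).1, (hE₁ a).2.1, (hE₁ a).2.2.2⟩, oα, oβ, (ab_nn nα).1, (ab_nn nα).2,
    (ab_nn nβ).1, (ab_nn nβ).2, ?_, ?_, ?_, ?_, ?_⟩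
  · refine eb_trans (h3.2 Γ G Q V L D _ _ _ (k + 1) _ _ _ _ jα jα₀ bβ bα) ?_
    rw [q1]
    exact b1
  · refine eb_trans (h3.2 Γ G Q V L D _ _ _ (k + 1) _ _ _ _ jβ jβ₀ bα bβ) ?_
    rw [q2]
    exact b2
  · refine eb_trans (h3.2 Γ G Q V L D _ _ _ (k + 1) _ _ _ _ jp jw₀ bα (eb_symm b1)) ?_
    rw [q3]
    exact eb_symm bα
  · rw [he₁]
    exact blow hW3
  · rw [he₂]
    exact blow hU3

end Pool.Agent.QT
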