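import Pool.Agent.Lib.MP_8f66f0_al_Q.Defs

/-!
# Theorem Q: the homotopy for one tree
-/

set_option autoImplicit false

namespace Pool.Agent.QT.Tr

open Finsupp (single single_apply single_eq_of_ne)
open Pool.Agent.TQ

variable {G V : Type} [Group G] [MulAction G V] (T : Tr G V)

section Comb

theorem dep_ne {v : V} : T.dep v ≠ 0 ↔ v ≠ T.root := by
  constructor
  · rintro h rfl
    exact h T.dep_root
  · intro h
    have := T.dep_par v h
    omega

/-- The exceptional vertices: the edge to the parent is turned around. -/
def Exc (g : G) (v : V) : Prop := v ≠ T.root ∧ g • T.par v ≠ T.root ∧ T.par (g • T.par v) = g • v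

theorem not_exc {g : G} {v : V} (h0 : v ≠ T.root) (h : ¬ T.Exc g v) :
    g • v ≠ T.root ∧ T.par (g • v) = g • T.par v :=
  (T.adj g v h0).resolve_right fun h' => h ⟨h0, h'⟩

/-- The translate of an exceptional vertex is an ancestor of the translate of the root. -/
theorem exc_anc (g : G) : ∀ (n : ℕ) (v : V), T.dep v = n → T.Exc g v →
    g • v = T.par^[n] (g • T.root) ∧ T.dep (g • v) + n = T.dep (g • T.root) := by
  intro n
  induction n with
  | zero =>
    intro v h he
    exact absurd h ((T.dep_ne).2 he.1)
  | succ n ih =>
    intro v h he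
    obtain ⟨h0, h2, h3⟩ := he
    have h1 := T.dep_par v h0
    have h4 := T.dep_par _ h2
    rw [h3] at h4
    by_cases h5 : T.par v = T.root
    · rw [h5] at h3 h4 h1
      rw [T.dep_root] at h1
      have hn : n = 0 := by omega
      subst hn
      exact ⟨h3.symm, h4.symm⟩
    · have hfe : T.Exc g (T.par v) := by
        by_contra hne
        have h6 := (T.not_exc h5 hne).2
        rw [h3] at h6
        have h9 := smul_left_cancel g h6
        have h10 := T.dep_par _ h5
        rw [← h9] at h10
        omega
      obtain ⟨i1, i2⟩ := ih (T.par v) (by omega) hfe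
      refine ⟨?_, by omega⟩
      rw [← h3, i1, ← Function.iterate_succ_apply' T.par]

/-- The exceptional set of `g`: the vertices `x` such that `g x` is on the path from `g • root` to the
root. -/
def Bf (g : G) : Set V := {x | ∃ n : ℕ, n ≤ T.dep (g • T.root) ∧ g • x = T.par^[n] (g • T.root)}

theorem Bf_finite (g : G) : (T.Bf g).Finite := by
  refine ((Set.finite_Iic (T.dep (g • T.root))).image
    (fun n : ℕ => g⁻¹ • T.par^[n] (g • T.root))).subset ?_
  rintro x ⟨n, hn, hx⟩
  refine ⟨n, hn, ?_⟩
  change g⁻¹ • T.par^[n] (g • T.root) = x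
  rw [← hx, inv_smul_smul]

theorem dep_iter (v : V) : ∀ n : ℕ, n ≤ T.dep v → T.dep (T.par^[n] v) + n = T.dep v := by
  intro n
  induction n with
  | zero => exact fun _ => rfl
  | succ n ih =>
    intro h
    have h1 := ih (by omega)
    rw [Function.iterate_succ_apply']
    have h2 := T.dep_par (T.par^[n] v) ((T.dep_ne).1 (by omega))
    omega

theorem Bf_par {g : G} {v : V} (h : g⁻¹ • v ∈ T.Bf g) (h0 : v ≠ T.root) :
    g⁻¹ • T.par v ∈ T.Bf g := by
  obtain ⟨n, hn, hx⟩ := h
  rw [smul_inv_smul] at hx
  have h1 := T.dep_iter _ n hn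
  have h2 := (T.dep_ne).2 h0
  refine ⟨n + 1, ?_, ?_⟩
  · rw [← hx] at h1
    omega
  · rw [smul_inv_smul, hx, Function.iterate_succ_apply']

theorem Bf_root (g : G) : T.root ∈ T.Bf g := ⟨0, Nat.zero_le _, rfl⟩

theorem Bf_exc {g : G} {v : V} (h : T.Exc g v) : v ∈ T.Bf g := by
  obtain ⟨i1, i2⟩ := T.exc_anc g _ v rfl h
  exact ⟨T.dep v, by omega, i1⟩

theorem Bf_exc_par {g : G} {v : V} (h : T.Exc g v) : T.par v ∈ T.Bf g := by
  by_cases h5 : T.par v = T.root
  · rw [h5]
    exact T.Bf_root g
  · refine T.Bf_exc ?_
    by_contra hne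
    have h6 := (T.not_exc h5 hne).2
    rw [h.2.2] at h6
    have h9 := smul_left_cancel g h6
    have h10 := T.dep_par _ h5
    have h11 := T.dep_par _ h.1
    rw [← h9] at h10
    omega

end Comb

section Homotopy

variable {R : Type} [CommRing R] (t : R)

open Classical in
/-- `e_v ↦ e_v - t e_(par v)`, and `e_v ↦ e_v` for the root. -/
noncomputable def UU : (V →₀ R) →ₗ[R] (V →₀ R) :=
  Finsupp.linearCombination R fun v =>
    if v = T.root then single v 1 else single v 1 - single (T.par v) t

/-- The inverse: `e_v ↦ ∑ t^i e_(par^i v)`. -/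
noncomputable def AA : (V →₀ R) →ₗ[R] (V →₀ R) :=
  Finsupp.linearCombination R fun v =>
    ∑ i ∈ Finset.range (T.dep v + 1), single (T.par^[i] v) (t ^ i)

theorem UU_root : T.UU t (single T.root 1) = single T.root 1 := by
  rw [UU, Finsupp.linearCombination_single, one_smul, if_pos rfl]

theorem UU_ne {v : V} (h : v ≠ T.root) :
    T.UU t (single v 1) = single v 1 - single (T.par v) t := by
  rw [UU, Finsupp.linearCombination_single, one_smul, if_neg h]

theorem AA_single (v : V) : T.AA t (single v 1) =
    ∑ i ∈ Finset.range (T.dep v + 1), single (T.par^[i] v) (t ^ i) := by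
  rw [AA, Finsupp.linearCombination_single, one_smul]

theorem single_smul (v : V) (r : R) : (single v r : V →₀ R) = r • single v 1 := by
  rw [Finsupp.smul_single, smul_eq_mul, mul_one]

theorem AA_root : T.AA t (single T.root 1) = single T.root 1 := by
  rw [AA_single, T.dep_root]
  simp

theorem AA_ne {v : V} (h : v ≠ T.root) :
    T.AA t (single v 1) = single v 1 + t • T.AA t (single (T.par v) 1) := by
  have h1 := T.dep_par v h
  rw [AA_single, AA_single, h1, Finset.sum_range_succ']
  rw [Finset.smul_sum, add_comm]
  congr 1
  · simp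
  · refine Finset.sum_congr rfl fun i _ => ?_
    rw [Finsupp.smul_single, Function.iterate_succ_apply, smul_eq_mul, pow_succ' t i]

theorem AA_UU (x : V →₀ R) : T.AA t (T.UU t x) = x := by
  have h : T.AA t ∘ₗ T.UU t = LinearMap.id := by
    refine Finsupp.lhom_ext' fun v => LinearMap.ext_ring ?_
    simp only [LinearMap.comp_apply, Finsupp.lsingle_apply, LinearMap.id_apply]
    by_cases h : v = T.root
    · rw [h, UU_root, AA_root]
    · rw [T.UU_ne t h, map_sub, single_smul (T.par v) t, map_smul, T.AA_ne t h,
        add_sub_cancel_right]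
  exact LinearMap.congr_fun h x

theorem UU_AA (x : V →₀ R) : T.UU t (T.AA t x) = x := by
  have h : T.UU t ∘ₗ T.AA t = LinearMap.id := by
    refine Finsupp.lhom_ext' fun v => LinearMap.ext_ring ?_
    simp only [LinearMap.comp_apply, Finsupp.lsingle_apply, LinearMap.id_apply]
    have key : ∀ (n : ℕ) (v : V), T.dep v = n → T.UU t (T.AA t (single v 1)) = single v 1 := by
      intro n
      induction n with
      | zero =>
        intro v h
        have h0 : v = T.root := by
          by_contra h0
          exact (T.dep_ne).2 h0 h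
        rw [h0, AA_root, UU_root]
      | succ n ih =>
        intro v h
        have h0 : v ≠ T.root := (T.dep_ne).1 (by omega)
        rw [T.AA_ne t h0, map_add, map_smul, ih (T.par v) (by have := T.dep_par v h0; omega),
          T.UU_ne t h0, single_smul (T.par v) t, sub_add_cancel]
    exact key _ v rfl
  exact LinearMap.congr_fun h x

/-- The permutation. -/
noncomputable def pm (g : G) : (V →₀ R) →ₗ[R] (V →₀ R) := Finsupp.lmapDomain R R (g • · : V → V)

theorem pm_single (g : G) (v : V) (r : R) : pm g (single v r : V →₀ R) = single (g • v) r := by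
  rw [pm, Finsupp.lmapDomain_apply, Finsupp.mapDomain_single]

theorem pm_mul (g h : G) (x : V →₀ R) : pm (g * h) x = pm g (pm h x) := by
  have e : (pm (g * h) : (V →₀ R) →ₗ[R] (V →₀ R)) = pm g ∘ₗ pm h := by
    refine Finsupp.lhom_ext' fun v => LinearMap.ext_ring ?_
    simp only [LinearMap.comp_apply, Finsupp.lsingle_apply, pm_single, mul_smul]
  exact LinearMap.congr_fun e x

theorem pm_one (x : V →₀ R) : pm (1 : G) x = x := by
  have e : (pm (1 : G) : (V →₀ R) →ₗ[R] (V →₀ R)) = LinearMap.id := by
    refine Finsupp.lhom_ext' fun v => LinearMap.ext_ring ?_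
    simp only [Finsupp.lsingle_apply, pm_single, one_smul, LinearMap.comp_apply, LinearMap.id_apply]
  exact LinearMap.congr_fun e x

/-- The homotopy. -/
noncomputable def Ph (g : G) : (V →₀ R) →ₗ[R] (V →₀ R) := T.AA t ∘ₗ pm g ∘ₗ T.UU t

theorem Ph_mul (g h : G) (x : V →₀ R) : T.Ph t (g * h) x = T.Ph t g (T.Ph t h x) := by
  simp only [Ph, LinearMap.comp_apply, UU_AA, pm_mul]

theorem Ph_one (x : V →₀ R) : T.Ph t (1 : G) x = x := by
  simp only [Ph, LinearMap.comp_apply, pm_one, AA_UU]

theorem Ph_root (g : G) : T.Ph t g (single T.root 1) = T.AA t (single (g • T.root) 1) := by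
  simp only [Ph, LinearMap.comp_apply, UU_root, pm_single]

theorem Ph_not_exc {g : G} {v : V} (h0 : v ≠ T.root) (h : ¬ T.Exc g v) :
    T.Ph t g (single v 1) = single (g • v) 1 := by
  obtain ⟨h1, h2⟩ := T.not_exc h0 h
  simp only [Ph, LinearMap.comp_apply]
  rw [T.UU_ne t h0, map_sub, pm_single, pm_single, ← h2, ← T.UU_ne t h1, AA_UU]

theorem Ph_exc {g : G} {v : V} (h : T.Exc g v) :
    T.Ph t g (single v 1) =
      T.AA t (single (g • v) 1) - t • T.AA t (single (g • T.par v) 1) := by
  simp only [Ph, LinearMap.comp_apply]
  rw [T.UU_ne t h.1, map_sub, pm_single, pm_single, map_sub, single_smul (g • T.par v) t, map_smul]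

theorem Ph_far {g : G} {v : V} (h : v ∉ T.Bf g) : T.Ph t g (single v 1) = single (g • v) 1 := by
  have h0 : v ≠ T.root := by
    rintro rfl
    exact h (T.Bf_root g)
  exact T.Ph_not_exc t h0 fun he => h (T.Bf_exc he)

theorem AA_supp (g : G) : ∀ (n : ℕ) (v : V), T.dep v = n → g⁻¹ • v ∈ T.Bf g → ∀ w : V,
    T.AA t (single v 1) w ≠ 0 → g⁻¹ • w ∈ T.Bf g := by
  intro n
  induction n with
  | zero =>
    intro v hv hB w hw
    have h0 : v = T.root := by
      by_contra h0
      exact (T.dep_ne).2 h0 hv
    rw [h0, AA_root, ← h0] at hw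
    by_contra hne
    exact hw (single_eq_of_ne (by rintro rfl; exact hne hB))
  | succ n ih =>
    intro v hv hB w hw
    have h0 : v ≠ T.root := (T.dep_ne).1 (by omega)
    by_cases h1 : v = w
    · rw [← h1]
      exact hB
    · rw [T.AA_ne t h0, Finsupp.add_apply, Finsupp.smul_apply,
        single_eq_of_ne (by rintro rfl; exact h1 rfl), zero_add] at hw
      refine ih (T.par v) (by have := T.dep_par v h0; omega) (T.Bf_par hB h0) w ?_
      intro h2
      rw [h2, smul_zero] at hw
      exact hw rfl

theorem Ph_near {g : G} {v w : V} (h : v ∈ T.Bf g) (hw : T.Ph t g (single v 1) w ≠ 0) :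
    g⁻¹ • w ∈ T.Bf g := by
  have hA : ∀ (x w : V), g⁻¹ • x ∈ T.Bf g → T.AA t (single x 1) w ≠ 0 → g⁻¹ • w ∈ T.Bf g :=
    fun x w h1 h2 => T.AA_supp t g _ x rfl h1 w h2
  by_cases h0 : v = T.root
  · rw [h0, Ph_root, ← h0] at hw
    exact hA _ w (by rwa [inv_smul_smul]) hw
  · by_cases he : T.Exc g v
    · rw [T.Ph_exc t he, Finsupp.sub_apply, Finsupp.smul_apply] at hw
      by_cases h1 : T.AA t (single (g • v) 1) w = 0
      · rw [h1, zero_sub, neg_ne_zero] at hw
        refine hA (g • T.par v) w ?_ fun h2 => ?_
        · rw [inv_smul_smul]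
          exact T.Bf_exc_par he
        · rw [h2, smul_zero] at hw
          exact hw rfl
      · exact hA _ w (by rwa [inv_smul_smul]) h1
    · rw [T.Ph_not_exc t h0 he] at hw
      have h1 : w = g • v := by
        by_contra hne
        exact hw (single_eq_of_ne hne)
      rw [h1, inv_smul_smul]
      exact h

/-- At `t = 0`. -/
theorem Ph_zero (g : G) (x : V →₀ R) : T.Ph (0 : R) g x = pm g x := by
  have hU : ∀ x : V →₀ R, T.UU (0 : R) x = x := by
    intro x
    have e : T.UU (0 : R) = LinearMap.id := by
      refine Finsupp.lhom_ext' fun v => LinearMap.ext_ring ?_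
      simp only [LinearMap.comp_apply, Finsupp.lsingle_apply, LinearMap.id_apply]
      by_cases h : v = T.root
      · rw [h, UU_root]
      · rw [T.UU_ne 0 h, Finsupp.single_zero, sub_zero]
    exact LinearMap.congr_fun e x
  have hA : ∀ x : V →₀ R, T.AA (0 : R) x = x := by
    intro x
    rw [← hU (T.AA 0 x), UU_AA]
  simp only [Ph, LinearMap.comp_apply, hU, hA]

/-- At `t = 1`: signed permutation of the edges. -/
theorem Ph_one_edge (g : G) {v : V} (h0 : v ≠ T.root) :
    ∃ w : V, w ≠ T.root ∧ ({w, T.par w} : Set V) = {g • v, g • T.par v} ∧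
      (T.Ph (1 : R) g (single v 1) = single w 1 ∨ T.Ph (1 : R) g (single v 1) = - single w 1) := by
  by_cases h : T.Exc g v
  · refine ⟨g • T.par v, h.2.1, ?_, Or.inr ?_⟩
    · rw [h.2.2, Set.pair_comm]
    · rw [T.Ph_exc 1 h, one_smul, T.AA_ne 1 h.2.1, one_smul, h.2.2]
      abel
  · obtain ⟨h1, h2⟩ := T.not_exc h0 h
    exact ⟨g • v, h1, by rw [h2], Or.inl (T.Ph_not_exc 1 h0 h)⟩

theorem AA_apply_root : ∀ (n : ℕ) (v : V), T.dep v = n →
    T.AA t (single v 1) T.root = t ^ n := by
  intro n
  induction n with
  | zero =>
    intro v hv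
    have h0 : v = T.root := by
      by_contra h0
      exact (T.dep_ne).2 h0 hv
    rw [h0, AA_root, Finsupp.single_eq_same, pow_zero]
  | succ n ih =>
    intro v hv
    have h0 : v ≠ T.root := (T.dep_ne).1 (by omega)
    rw [T.AA_ne t h0, Finsupp.add_apply, Finsupp.smul_apply, single_eq_of_ne h0.symm, zero_add,
      ih (T.par v) (by have := T.dep_par v h0; omega), smul_eq_mul, pow_succ']

theorem Ph_one_root (g : G) : T.Ph (1 : R) g (single T.root 1) T.root = 1 := by
  rw [Ph_root, T.AA_apply_root 1 _ _ rfl, one_pow]

section BaseChange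

variable {R' : Type} [CommRing R'] (f : R →+* R')

theorem UU_map (x : V →₀ R) :
    (T.UU t x).mapRange f (map_zero f) = T.UU (f t) (x.mapRange f (map_zero f)) := by
  induction x using Finsupp.induction_linear with
  | zero => simp
  | add x y hx hy =>
    rw [map_add, Finsupp.mapRange_add' (f := f), hx, hy, Finsupp.mapRange_add' (f := f), map_add]
  | single v r =>
    rw [Finsupp.mapRange_single, single_smul v r, single_smul v (f r), map_smul, map_smul]
    by_cases h : v = T.root
    · rw [h, UU_root, UU_root, Finsupp.smul_single, Finsupp.smul_single, Finsupp.mapRange_single]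
      simp
    · classical
      have h1 : ∀ (a b : V) (c : R), f (single a c b) = single a (f c) b := by
        intro a b c
        rw [single_apply, single_apply]
        split_ifs
        · rfl
        · exact map_zero f
      rw [T.UU_ne t h, T.UU_ne (f t) h]
      ext w
      simp only [Finsupp.mapRange_apply, Finsupp.smul_apply, Finsupp.sub_apply, smul_eq_mul,
        map_mul, map_sub, h1, map_one]

theorem AA_map (x : V →₀ R) :
    (T.AA t x).mapRange f (map_zero f) = T.AA (f t) (x.mapRange f (map_zero f)) := by
  rw [← T.AA_UU (f t) ((T.AA t x).mapRange f (map_zero f)), ← UU_map, UU_AA]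

theorem pm_map (g : G) (x : V →₀ R) :
    (pm g x).mapRange f (map_zero f) = pm g (x.mapRange f (map_zero f)) := by
  induction x using Finsupp.induction_linear with
  | zero => simp
  | add x y hx hy =>
    rw [map_add, Finsupp.mapRange_add' (f := f), hx, hy, Finsupp.mapRange_add' (f := f), map_add]
  | single v r => rw [Finsupp.mapRange_single, pm_single, pm_single, Finsupp.mapRange_single]

theorem Ph_map (g : G) (x : V →₀ R) :
    (T.Ph t g x).mapRange f (map_zero f) = T.Ph (f t) g (x.mapRange f (map_zero f)) := by
  simp only [Ph, LinearMap.comp_apply]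
  rw [AA_map, pm_map, UU_map]

end BaseChange

section Coord

/-- The homotopy for one coordinate, with the isolated point `none`. -/
noncomputable def ph (g : G) : Option V → Option V → R
  | none, none => 1
  | none, some _ => 0
  | some _, none => 0
  | some w, some v => T.Ph t g (single v 1) w

theorem ph_none (g : G) : T.ph t g none none = 1 := rfl

theorem ph_some (g : G) (v w : V) : T.ph t g (some w) (some v) = T.Ph t g (single v 1) w := rfl

theorem osmul_eq (g : G) (b : Option V) : b.map (g • · : V → V) = g • b := rfl

open Classical in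
/-- Outside the exceptional set, the homotopy is the permutation. -/
theorem ph_reg (g : G) (a b : Option V)
    (h : b ∉ Option.some '' T.Bf g ∨ g⁻¹ • a ∉ Option.some '' T.Bf g) :
    T.ph t g a b = if a = g • b then 1 else 0 := by
  cases a with
  | none =>
    cases b with
    | none => exact (if_pos rfl).symm
    | some v =>
      rw [if_neg]
      · rfl
      · exact fun h => absurd h.symm (Option.some_ne_none _)
  | some w =>
    cases b with
    | none =>
      rw [if_neg]
      · rfl
      · exact fun h => absurd h (Option.some_ne_none _)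
    | some v =>
      have e1 : (Option.some v ∈ Option.some '' T.Bf g) ↔ v ∈ T.Bf g :=
        Function.Injective.mem_set_image (Option.some_injective V)
      have e2 : (g⁻¹ • Option.some w ∈ Option.some '' T.Bf g) ↔ g⁻¹ • w ∈ T.Bf g :=
        Function.Injective.mem_set_image (Option.some_injective V) (a := g⁻¹ • w)
      rw [e1, e2] at h
      have e3 : (Option.some w = g • Option.some v) ↔ g • v = w := by
        rw [show g • Option.some v = Option.some (g • v) from rfl, Option.some_inj, eq_comm]
      rw [ph_some]
      by_cases hv : v ∈ T.Bf g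
      · have h2 := h.resolve_left fun h => h hv
        rw [if_neg]
        · by_contra hne
          exact h2 (T.Ph_near t hv hne)
        · rw [e3]
          rintro rfl
          rw [inv_smul_smul] at h2
          exact h2 hv
      · rw [T.Ph_far t hv, single_apply]
        exact if_congr e3.symm rfl rfl

theorem ph_supp (g : G) (a b : Option V) (h : T.ph t g a b ≠ 0) :
    a = g • b ∨ (b ∈ Option.some '' T.Bf g ∧ g⁻¹ • a ∈ Option.some '' T.Bf g) := by
  classical
  by_cases h1 : b ∈ Option.some '' T.Bf g ∧ g⁻¹ • a ∈ Option.some '' T.Bf g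
  · exact Or.inr h1
  · left
    rw [T.ph_reg t g a b (by tauto)] at h
    by_contra h2
    exact h (if_neg h2)

theorem ph_col (g : G) (b : Option V) : {a | T.ph t g a b ≠ 0}.Finite := by
  have h1 : ((g⁻¹ • · : Option V → Option V) ⁻¹' (Option.some '' T.Bf g)).Finite :=
    Set.Finite.preimage (fun x _ y _ h => smul_left_cancel _ h) ((T.Bf_finite g).image _)
  refine ((Set.finite_singleton (g • b)).union h1).subset fun a ha => ?_
  rcases T.ph_supp t g a b ha with h | ⟨_, h⟩
  · exact Or.inl h
  · exact Or.inr h

theorem ph_row (g : G) (a : Option V) : {b | T.ph t g a b ≠ 0}.Finite := by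
  refine ((Set.finite_singleton (g⁻¹ • a)).union ((T.Bf_finite g).image Option.some)).subset
    fun b hb => ?_
  rcases T.ph_supp t g a b hb with h | ⟨h, _⟩
  · left
    rw [Set.mem_singleton_iff, h, inv_smul_smul]
  · exact Or.inr h

theorem ph_one [DecidableEq V] (a b : Option V) : T.ph t (1 : G) a b = if a = b then 1 else 0 := by
  cases a with
  | none =>
    cases b with
    | none => exact (if_pos rfl).symm
    | some v =>
      rw [if_neg]
      · rfl
      · exact fun h => absurd h.symm (Option.some_ne_none _)
  | some w =>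
    cases b with
    | none =>
      rw [if_neg]
      · rfl
      · exact fun h => absurd h (Option.some_ne_none _)
    | some v =>
      rw [ph_some, Ph_one, single_apply]
      refine if_congr ?_ rfl rfl
      rw [Option.some_inj, eq_comm]

/-- Multiplicativity; the sum may be taken over any finite set which contains the column. -/
theorem ph_mul (g h : G) (a b : Option V) (S : Finset (Option V))
    (hS : ∀ w, T.ph t h w b ≠ 0 → w ∈ S) :
    ∑ w ∈ S, T.ph t g a w * T.ph t h w b = T.ph t (g * h) a b := by
  classical
  nontriviality R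
  cases b with
  | none =>
    have h1 : (none : Option V) ∈ S := hS none (by rw [ph_none]; exact one_ne_zero)
    rw [Finset.sum_eq_single_of_mem none h1, ph_none, mul_one]
    · cases a <;> rfl
    · intro w _ hw
      cases w with
      | none => exact absurd rfl hw
      | some w => exact mul_zero _
  | some v =>
    cases a with
    | none =>
      rw [Finset.sum_eq_zero]
      · rfl
      · intro w _
        cases w with
        | none => exact mul_zero _
        | some w => exact zero_mul _
    | some u =>
      have h1 : (T.Ph t h (single v 1)).support.map Function.Embedding.some ⊆ S := by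
        intro w hw
        rw [Finset.mem_map] at hw
        obtain ⟨w', hw', rfl⟩ := hw
        exact hS _ (Finsupp.mem_support_iff.1 hw')
      rw [← Finset.sum_subset h1, Finset.sum_map, ph_some, Ph_mul]
      · have h2 : ∀ x : V →₀ R, T.Ph t g x u = ∑ w ∈ x.support, T.Ph t g (single w 1) u * x w := by
          intro x
          conv_lhs => rw [← Finsupp.sum_single x]
          rw [Finsupp.sum, map_sum, Finsupp.finsetSum_apply]
          refine Finset.sum_congr rfl fun w _ => ?_
          rw [single_smul w (x w), map_smul, Finsupp.smul_apply, smul_eq_mul, mul_comm]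
        rw [h2]
        rfl
      · intro w _ hw
        cases w with
        | none => exact mul_zero _
        | some w =>
          have h3 : T.Ph t h (single v 1) w = 0 := by
            by_contra h3
            exact hw (Finset.mem_map_of_mem _ (Finsupp.mem_support_iff.2 h3))
          rw [T.ph_some t h v w, h3, mul_zero]

theorem ph_zero [DecidableEq V] (g : G) (a b : Option V) :
    T.ph (0 : R) g a b = if a = g • b then 1 else 0 := by
  cases a with
  | none =>
    cases b with
    | none => exact (if_pos rfl).symm
    | some v =>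
      rw [if_neg]
      · rfl
      · exact fun h => absurd h.symm (Option.some_ne_none _)
  | some w =>
    cases b with
    | none =>
      rw [if_neg]
      · rfl
      · exact fun h => absurd h (Option.some_ne_none _)
    | some v =>
      rw [ph_some, Ph_zero, pm_single, single_apply]
      refine if_congr ?_ rfl rfl
      rw [show g • Option.some v = Option.some (g • v) from rfl, Option.some_inj, eq_comm]

theorem ph_map {R' : Type} [CommRing R'] (f : R →+* R') (g : G) (a b : Option V) :
    f (T.ph t g a b) = T.ph (f t) g a b := by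
  cases a with
  | none =>
    cases b with
    | none => exact map_one f
    | some v => exact map_zero f
  | some w =>
    cases b with
    | none => exact map_zero f
    | some v =>
      have h := T.Ph_map t f g (single v 1)
      rw [Finsupp.mapRange_single, map_one] at h
      rw [ph_some, ph_some, ← h, Finsupp.mapRange_apply]

/-- The homotopy for one coordinate as a local kernel. -/
noncomputable def phK (g : G) : RCF (Option V) R :=
  mkK (T.ph t g) (T.ph_row t g) (T.ph_col t g)

theorem ent_phK (g : G) (a b : Option V) : ent (T.phK t g) a b = T.ph t g a b := ent_mkK _ _ _ a b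

end Coord

end Homotopy

end Pool.Agent.QT.Tr

namespace Pool.Agent.QT

open Pool.Agent.TQ Polynomial

variable {G V : Type} [Group G] [MulAction G V]

/-- The homotopy exists. -/
theorem exists_isPhi {L : Type} [CommRing L] (T : Tr G V) :
    ∃ φ : G → RCF (Option V) (Polynomial L), IsPhi T φ := by
  classical
  have hev : ∀ (c : L) (g : G) (a b : Option V),
      (ent (T.phK (X : L[X]) g) a b).eval c = T.ph c g a b := by
    intro c g a b
    rw [T.ent_phK]
    have h := T.ph_map (X : L[X]) (Polynomial.evalRingHom c) g a b
    rw [Polynomial.coe_evalRingHom, Polynomial.eval_X] at h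
    exact h
  refine ⟨fun g => T.phK X g, ?_, ?_, ?_, ?_, ?_, ?_, ?_⟩
  · refine ent_ext fun y x => ?_
    rw [T.ent_phK, T.ph_one, ent_one]
  · intro a b
    refine ent_ext fun y x => ?_
    rw [T.ent_phK, ent_mul_col _ _ y x (T.ph_col X b x).toFinset fun v hv => by
      rw [T.ent_phK] at hv
      rw [Set.Finite.mem_toFinset]
      exact hv, ← T.ph_mul X a b y x (T.ph_col X b x).toFinset fun v hv => by
      rw [Set.Finite.mem_toFinset]
      exact hv]
    exact Finset.sum_congr rfl fun v _ => by rw [T.ent_phK, T.ent_phK]
  · intro a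
    have hfin : (T.Bf a ∪ (a • · : V → V) '' T.Bf a).Finite :=
      (T.Bf_finite a).union ((T.Bf_finite a).image _)
    refine ⟨hfin.toFinset, fun w v h => ?_⟩
    have h1 : v ∉ Option.some '' T.Bf a ∨ a⁻¹ • w ∉ Option.some '' T.Bf a := by
      rcases h with h | h
      · right
        rintro ⟨x, hx, hxw⟩
        refine h (a • x) ?_ ?_
        · rw [Set.Finite.mem_toFinset]
          exact Or.inr ⟨x, hx, rfl⟩
        · rw [← smul_inv_smul a w, ← hxw]
          rfl
      · left
        rintro ⟨x, hx, hxv⟩
        refine h x ?_ hxv.symm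
        rw [Set.Finite.mem_toFinset]
        exact Or.inl hx
    rw [T.ent_phK, T.ent_phK, T.ph_reg X a w v h1, T.ph_none]
    exact ⟨fun h => if_pos h, fun h => if_neg h⟩
  · intro a
    rw [T.ent_phK, T.ph_none]
  · intro a w v h
    rw [hev, T.ph_zero] at h
    by_contra hne
    exact h (if_neg hne)
  · intro a w v h hv
    rw [hev] at h
    obtain ⟨w', h1, h2, h3⟩ := T.Ph_one_edge (R := L) a hv
    cases w with
    | none => exact absurd rfl h
    | some w =>
      rw [T.ph_some] at h
      have h4 : w = w' := by
        by_contra hne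
        rcases h3 with h3 | h3 <;> rw [h3] at h
        · exact h (Finsupp.single_eq_of_ne hne)
        · exact h (by rw [Finsupp.neg_apply, Finsupp.single_eq_of_ne hne, neg_zero])
      subst h4
      refine ⟨w, rfl, h1, ?_⟩
      rw [h2, Set.smul_set_insert, Set.smul_set_singleton]
  · intro a
    rw [hev, T.ph_some, T.Ph_one_root]

end Pool.Agent.QT
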