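import Pool.Agent.Lib.MP_8f66f0_al_Q.EPsD
import Pool.Agent.Lib.MP_8f66f0_al_Q.Iso
import Pool.Agent.Lib.MP_8f66f0_al_Q.Phi
import Pool.Agent.Lib.MP_8f66f0_al_TQ.LemK

/-!
# Theorem Q: the full extension of the level `k` part
-/

set_option autoImplicit false

namespace Pool.Agent.QT

open scoped Pointwise
open Pool.Agent.TQ Pool.Agent.Wald

namespace EPA

section Aux

variable {Γ G Q V : Type} [Group Γ] [Group G] [MulAction Γ Q] [MulAction G V] {D : Coc Γ G Q}
  {R : Type} [CommRing R]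

omit [MulAction G V] in
theorem ent_sum {ι : Type} (s : Finset ι) (f : ι → Kr D V R) (y x : Tw D V) :
    ent (∑ z ∈ s, f z) y x = ∑ z ∈ s, ent (f z) y x := by
  classical
  induction s using Finset.induction_on with
  | empty => rw [Finset.sum_empty, Finset.sum_empty, ent_zero]
  | insert a s ha ih => rw [Finset.sum_insert ha, Finset.sum_insert ha, ent_add, ih]

omit [MulAction G V] in
open Classical in
theorem ent_dg {n : Type} [DecidableEq n] (E : n → Set (Tw D V)) (i j : n) (y x : Tw D V) :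
    ent ((dg E : Matrix n n (Kr D V R)) i j) y x = if i = j ∧ y = x ∧ x ∈ E j then 1 else 0 := by
  rw [dg]
  by_cases h : i = j
  · subst h
    rw [Matrix.diagonal_apply_eq, ent_ind]
    by_cases h : y = x ∧ x ∈ E i
    · rw [if_pos h, if_pos ⟨rfl, h⟩]
    · rw [if_neg h, if_neg fun h' => h h'.2]
  · rw [Matrix.diagonal_apply_ne _ h, ent_zero, if_neg fun h' => h h'.1]

omit [MulAction G V] in
/-- Columns outside the source. -/
theorem ent_eq_zero_of_notMem {n n' : Type} [Fintype n] [DecidableEq n] {E : n → Set (Tw D V)}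
    {f : Matrix n' n (Kr D V R)} (h : f * (dg E : Matrix n n (Kr D V R)) = f) {i : n'} {j : n} {y x : Tw D V}
    (hx : x ∉ E j) : ent (f i j) y x = 0 := by
  have h1 : f i j = f i j * ind (E j) := by
    conv_lhs => rw [← h]
    rw [dg, Matrix.mul_diagonal]
  rw [h1]
  exact (ent_mul_ind (E j) (f i j) y x).2 hx

omit [MulAction G V] in
/-- Rows outside the target. -/
theorem ent_eq_zero_of_notMem' {n n' : Type} [Fintype n'] [DecidableEq n'] {E : n' → Set (Tw D V)}
    {f : Matrix n' n (Kr D V R)} (h : (dg E : Matrix n' n' (Kr D V R)) * f = f) {i : n'} {j : n} {y x : Tw D V}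
    (hy : y ∉ E i) : ent (f i j) y x = 0 := by
  have h1 : f i j = ind (E i) * f i j := by
    conv_lhs => rw [← h]
    rw [dg, Matrix.diagonal_mul]
  rw [h1]
  exact (ent_ind_mul (E i) (f i j) y x).2 hy

/-- Source and target have the same level. -/
theorem jc_lev [Fintype Q] {S : Kr D V R} (h : Jc S) {y x : Tw D V} (hyx : ent S y x ≠ 0) :
    QT.lev y = QT.lev x := by
  classical
  obtain ⟨g, hg⟩ : ∃ g, cf S g y x ≠ 0 := by
    by_contra hcon
    push Not at hcon
    exact hyx (MonoidAlgebra.ext (Finsupp.ext hcon))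
  have h1 := h g y x hg
  rw [QT.lev, QT.lev]
  symm
  refine Finset.card_bij (fun q _ => g • q) ?_ ?_ ?_
  · intro q hq
    rw [Finset.mem_filter, Option.isSome_iff_ne_none] at hq ⊢
    exact ⟨Finset.mem_univ _, fun h2 => hq.2 ((h1 q).1 h2)⟩
  · intro q _ q' _ hqq
    exact smul_left_cancel g hqq
  · intro q hq
    rw [Finset.mem_filter, Option.isSome_iff_ne_none] at hq
    refine ⟨g⁻¹ • q, ?_, smul_inv_smul g q⟩
    rw [Finset.mem_filter, Option.isSome_iff_ne_none]
    refine ⟨Finset.mem_univ _, fun h2 => hq.2 ?_⟩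
    have := (h1 (g⁻¹ • q)).2 h2
    rwa [smul_inv_smul] at this

end Aux

end EPA

open EPA

/-- The parts at `rt` of an isomorphism are inverse to each other. -/
theorem isoEps (hOS : S_OOSS) : S_IsoEps := by
  intro Γ G Q V L _ _ _ _ _ _ D T n n' _ _ _ _ E E' f f' hf hf' h _ _ _ _
  have key : ∀ (n n' : Type) [Fintype n] [DecidableEq n] [Fintype n'] [DecidableEq n']
      (E : n → Set (Tw D V)) (E' : n' → Set (Tw D V)) (f : Matrix n' n (Kr D V (Polynomial L)))
      (f' : Matrix n n' (Kr D V (Polynomial L))), (∀ i j, SS T (f i j)) → (∀ i j, SS T (f' i j)) →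
      IsoM (dg E) (dg E') f f' →
      ∀ [Fintype {i // rt T ∈ E i}] [DecidableEq {i // rt T ∈ E' i}],
      (eps T f).submatrix (Subtype.val : {i // rt T ∈ E' i} → n')
        (Subtype.val : {i // rt T ∈ E i} → n) * (eps T f').submatrix
          (Subtype.val : {i // rt T ∈ E i} → n) (Subtype.val : {i // rt T ∈ E' i} → n') = 1 := by
    intro n n' _ _ _ _ E E' f f' hf hf' h _ _
    classical
    ext i j : 2
    have h1 : (eps T f * eps T f') i.1 j.1 = if i = j then 1 else 0 := by
      rw [← (hOS Γ G Q V L D T).2.2.2.2 n' n n' f f' hf hf', h.h2, eps, Matrix.of_apply, ent_dg]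
      by_cases hij : i = j
      · subst hij
        rw [if_pos rfl, if_pos ⟨rfl, rfl, i.2⟩, map_one]
      · rw [if_neg hij, if_neg fun h' => hij (Subtype.ext h'.1), map_zero]
    rw [Matrix.one_apply, ← h1, Matrix.mul_apply, Matrix.mul_apply]
    have h2 : ∀ v : n, ¬ (rt T ∈ E v) → eps T f i.1 v * eps T f' v j.1 = 0 := by
      intro v hv
      have : eps T f i.1 v = 0 := by
        rw [eps, Matrix.of_apply, ent_eq_zero_of_notMem h.h3 hv, map_zero]
      rw [this, zero_mul]
    rw [← Finset.sum_subset (Finset.subset_univ (Finset.univ.filter fun v => rt T ∈ E v))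
      (fun v _ hv => h2 v fun h => hv (Finset.mem_filter.2 ⟨Finset.mem_univ _, h⟩))]
    rw [Finset.sum_subtype (Finset.univ.filter fun v => rt T ∈ E v) (p := fun v => rt T ∈ E v)
      (fun v => by simp)]
    rfl
  exact ⟨key n n' E E' f f' hf hf' h, key n' n E' E f' f hf' hf h.symm⟩

namespace EPA

section Main

variable {Γ G Q V : Type} [Group Γ] [Group G] [MulAction Γ Q] [MulAction G V] {D : Coc Γ G Q}
  {R : Type} [CommRing R] [Fintype Q]

/-- The points of level `k` with all finite coordinates in `B` are enough in a product. -/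
theorem sum_fk {n n' n'' : Type} [Fintype n'] {k : ℕ} {B : Finset V}
    (f : Matrix n'' n' (Kr D V R)) (f' : Matrix n' n (Kr D V R)) (i : n'') (j : n)
    (l' l : Fk D B k)
    (h : ∀ v y, ent (f' v j) y l.1 ≠ 0 → ∃ z : Fk D B k, z.1 = y) :
    ∑ q : Fk D B k × n', ent (f i q.2) l'.1 q.1.1 * ent (f' q.2 j) q.1.1 l.1 =
      ent ((f * f') i j) l'.1 l.1 := by
  classical
  rw [Matrix.mul_apply, ent_sum, Fintype.sum_prod_type_right]
  refine Finset.sum_congr rfl fun v _ => ?_
  have h1 : ∀ y, ent (f' v j) y l.1 ≠ 0 → y ∈ Finset.univ.image (fun z : Fk D B k => z.1) := by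
    intro y hy
    obtain ⟨z, hz⟩ := h v y hy
    exact Finset.mem_image.2 ⟨z, Finset.mem_univ _, hz⟩
  refine ((ent_mul_col _ _ _ _ _ h1).trans (Finset.sum_image
    (f := fun y => ent (f i v) l'.1 y * ent (f' v j) y l.1) fun x _ y _ h => Subtype.ext h)).symm

theorem js_of_jc {S : Kr D V R} (h : Jc S) (l' l : Tw D V) : JS l' l (ent S l' l) :=
  fun g hg q => h g l' l hg q

theorem js_one (l : Tw D V) : JS l l (1 : MonoidAlgebra R Γ) := by
  classical
  intro g hg q
  have h1 : g = 1 := by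
    by_contra h
    refine hg ?_
    rw [MonoidAlgebra.one_def, MonoidAlgebra.coeff_single, Finsupp.single_apply,
      if_neg fun h' => h h'.symm]
  rw [h1, one_smul]

end Main

section Xm

variable {Γ G Q V : Type} [Group Γ] [Group G] [MulAction Γ Q] [MulAction G V] {D : Coc Γ G Q}
  {R : Type} [CommRing R] [Fintype Q]

/-- The full extension of the level `k` part. -/
noncomputable def xm (φ : G → RCF (Option V) R) (B : Finset V) (k : ℕ) {n n' : Type}
    (f : Matrix n' n (Kr D V R)) : Matrix (Fk D B k × n') (Fk D B k × n) (Kr D V R) :=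
  Matrix.of fun p q => xt φ p.1.1 q.1.1 (ent (f p.2 q.2) p.1.1 q.1.1)

variable (hXt : S_Xt) (φ : G → RCF (Option V) R) (h1 : φ 1 = 1)
  (h2 : ∀ a b, φ (a * b) = φ a * φ b) (h3 : ∀ a, Lr a (φ a)) (h4 : ∀ a, ent (φ a) none none = 1)

include hXt h1 h2 h3 h4 in
theorem xm_mul {B : Finset V} {k : ℕ} {n n' n'' : Type} [Fintype n']
    (f : Matrix n'' n' (Kr D V R)) (f' : Matrix n' n (Kr D V R)) (hf : ∀ i j, Jc (f i j))
    (hf' : ∀ i j, Jc (f' i j))
    (h : ∀ (v : n') (j : n) (l : Fk D B k) (y : Tw D V), ent (f' v j) y l.1 ≠ 0 →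
      ∃ z : Fk D B k, z.1 = y) :
    (xm φ B k f * xm φ B k f' : Matrix _ _ (Kr D V R)) = xm φ B k (f * f') := by
  obtain ⟨-, hadd, hz, -, hmul, -, -⟩ := hXt Γ G Q V R D φ h1 h2 h3 h4
  refine Matrix.ext fun p r => ?_
  have hsum : ∀ (s : Finset (Fk D B k × n')) (a : Fk D B k × n' → MonoidAlgebra R Γ),
      ∑ q ∈ s, (xt φ p.1.1 r.1.1 (a q) : Kr D V R) = xt φ p.1.1 r.1.1 (∑ q ∈ s, a q) := by
    classical
    intro s a
    induction s using Finset.induction_on with
    | empty => rw [Finset.sum_empty, Finset.sum_empty, hz]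
    | insert q s hq ih => rw [Finset.sum_insert hq, Finset.sum_insert hq, hadd, ih]
  rw [Matrix.mul_apply]
  simp only [xm, Matrix.of_apply]
  rw [← sum_fk f f' p.2 r.2 p.1 r.1 fun v y hy => h v r.2 r.1 y hy, ← hsum]
  exact Finset.sum_congr rfl fun q _ =>
    hmul _ _ _ _ _ (js_of_jc (hf _ _) _ _) (js_of_jc (hf' _ _) _ _)

include hXt h1 h2 h3 h4 in
theorem xm_dg {B : Finset V} {k : ℕ} {n : Type} [DecidableEq n] (E : n → Set (Tw D V)) :
    (xm φ B k (dg E) : Matrix (Fk D B k × n) (Fk D B k × n) (Kr D V R)) = dg (MM E) := by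
  classical
  obtain ⟨-, -, hz, -, -, hone, -⟩ := hXt Γ G Q V R D φ h1 h2 h3 h4
  refine Matrix.ext fun p q => ?_
  rw [xm, Matrix.of_apply, ent_dg]
  by_cases hpq : p = q
  · subst hpq
    rw [dg, Matrix.diagonal_apply_eq]
    by_cases hE : p.1.1 ∈ E p.2
    · rw [if_pos ⟨rfl, rfl, hE⟩, hone]
      congr 1
      ext x
      exact ⟨fun h => ⟨h, hE⟩, fun h => h.1⟩
    · rw [if_neg fun h => hE h.2.2, hz, ← ind_empty]
      congr 1
      ext x
      exact ⟨fun h => h.elim, fun h => hE h.2⟩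
  · rw [if_neg, hz, dg, Matrix.diagonal_apply_ne _ hpq]
    rintro ⟨h5, h6, -⟩
    exact hpq (Prod.ext (Subtype.ext h6) h5)

end Xm

end EPA

/-- **EPA**. -/
theorem epa (hOS : S_OOSS) (hXt : S_Xt) (hXS : S_XtSS) : S_EPA := by
  intro Γ G Q V L K _ _ _ _ _ _ hL _ _ _ D T κ k hH hk0 hk n _ _ E E' f f' hf hf' hi B hB hB'
  classical
  obtain ⟨φ, hφ⟩ := exists_isPhi (L := L) T
  have hjc : ∀ i j, Jc (f i j) := fun i j => (hf i j).reg.jc
  have hjc' : ∀ i j, Jc (f' i j) := fun i j => (hf' i j).reg.jc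
  -- the points of the columns
  have hcol : ∀ (g : Matrix n n (Kr D V (Polynomial L))), (∀ i j, Jc (g i j)) →
      (∀ i j y x, lev x = k → (near B x ≠ x ∨ near B y ≠ y) →
        ent (g i j) y x = ent ((dg E : Matrix n n (Kr D V (Polynomial L))) i j) y x) →
      ∀ (v j : n) (l : Fk D B k) (y : Tw D V), ent (g v j) y l.1 ≠ 0 →
      ∃ z : Fk D B k, z.1 = y := by
    intro g hg hgB v j l y hy
    have hlev : lev y = k := by rw [jc_lev (hg v j) hy, l.2.1]
    by_cases hn : near B y = y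
    · exact ⟨⟨y, hlev, hn⟩, rfl⟩
    · exfalso
      refine hy ?_
      rw [hgB v j y l.1 l.2.1 (Or.inr hn), ent_dg, if_neg]
      rintro ⟨-, h, -⟩
      rw [h] at hn
      exact hn l.2.2
  have hm : ∀ (g g' : Matrix n n (Kr D V (Polynomial L))), (∀ i j, Jc (g i j)) →
      (∀ i j, Jc (g' i j)) → (∀ i j y x, lev x = k → (near B x ≠ x ∨ near B y ≠ y) →
        ent (g' i j) y x = ent ((dg E : Matrix n n (Kr D V (Polynomial L))) i j) y x) →
      (xm φ B k g * xm φ B k g' : Matrix _ _ (Kr D V (Polynomial L))) = xm φ B k (g * g') :=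
    fun g g' hg hg' hgB => xm_mul hXt φ hφ.one hφ.mul hφ.lr hφ.inf g g' hg hg' (hcol g' hg' hgB)
  have hdg : ∀ F : n → Set (Tw D V), (xm φ B k (dg F) :
      Matrix (Fk D B k × n) (Fk D B k × n) (Kr D V (Polynomial L))) = dg (MM F) :=
    fun F => xm_dg hXt φ hφ.one hφ.mul hφ.lr hφ.inf F
  have hjd : ∀ F : n → Set (Tw D V), ∀ i j,
      Jc ((dg F : Matrix n n (Kr D V (Polynomial L))) i j) := by
    intro F i j g y x h q
    rw [cf, ent_dg] at h
    by_cases h1 : i = j ∧ y = x ∧ x ∈ F j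
    · rw [if_pos h1] at h
      rw [h1.2.1]
      exact js_one (R := Polynomial L) x g h q
    · rw [if_neg h1] at h
      exact absurd rfl h
  have hBE : ∀ i j y x, lev x = k → (near B x ≠ x ∨ near B y ≠ y) →
      ent ((dg E' : Matrix n n (Kr D V (Polynomial L))) i j) y x =
        ent ((dg E : Matrix n n (Kr D V (Polynomial L))) i j) y x := by
    intro i j y x hx hn
    rw [ent_dg, ent_dg]
    by_cases hij : i = j ∧ y = x
    · obtain ⟨rfl, rfl⟩ := hij
      have hn' : near B y ≠ y := hn.elim id id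
      have h1 : y ∈ E' i ↔ y ∈ E i := by
        constructor
        · intro hy
          by_contra hyE
          have h2 : ent ((f * f') i i) y y = 0 := by
            rw [Matrix.mul_apply, ent_sum]
            refine Finset.sum_eq_zero fun v _ => ?_
            rw [ent_mul_col _ _ _ _ ∅ fun z hz => ?_, Finset.sum_empty]
            rw [hB' v i z y hx (Or.inl hn'), ent_dg, if_neg fun h => hyE h.2.2] at hz
            exact absurd rfl hz
          rw [hi.h2, ent_dg, if_pos ⟨rfl, rfl, hy⟩] at h2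
          exact one_ne_zero h2
        · intro hy
          by_contra hyE
          have h2 : ent (f i i) y y = 0 := ent_eq_zero_of_notMem' hi.h4 hyE
          rw [hB i i y y hx (Or.inl hn'), ent_dg, if_pos ⟨rfl, rfl, hy⟩] at h2
          exact one_ne_zero h2
      by_cases hy : y ∈ E i
      · rw [if_pos ⟨rfl, rfl, h1.2 hy⟩, if_pos ⟨rfl, rfl, hy⟩]
      · rw [if_neg fun h => hy (h1.1 h.2.2), if_neg fun h => hy h.2.2]
    · rw [if_neg fun h => hij ⟨h.1, h.2.1⟩, if_neg fun h => hij ⟨h.1, h.2.1⟩]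
  have hSS : ∀ g : Matrix n n (Kr D V (Polynomial L)), (∀ i j, SS T (g i j)) →
      ∀ p q, SS T (xm φ B k g p q) := by
    intro g hg p q
    refine (hXS Γ G Q V L D T φ hφ p.1.1 q.1.1 _ (js_of_jc (hg p.2 q.2).reg.jc _ _)).1 ?_ ?_
    · exact fun γ h => (hg p.2 q.2).zero γ _ _ h
    · exact fun γ h => (hg p.2 q.2).one γ _ _ h
  have hI : IsoM (dg (MM E')) (dg (MM E)) (xm φ B k f') (xm φ B k f) := by
    refine ⟨?_, ?_, ?_, ?_, ?_, ?_⟩
    · rw [hm f f' hjc hjc' hB', hi.h2, hdg]
    · rw [hm f' f hjc' hjc hB, hi.h1, hdg]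
    · rw [← hdg, hm f' (dg E') hjc' (hjd E') hBE, hi.h5]
    · rw [← hdg, hm (dg E) f' (hjd E) hjc' hB', hi.h6]
    · rw [← hdg, hm f (dg E) hjc (hjd E) (fun _ _ _ _ _ _ => rfl), hi.h3]
    · rw [← hdg, hm (dg E') f (hjd E') hjc hB, hi.h4]
  refine ⟨xm φ B k f, xm φ B k f', hSS f hf, hSS f' hf', hI, ?_, ?_⟩
  · intro p q y x hx
    obtain ⟨-, -, -, -, -, -, hlast⟩ := hXt Γ G Q V (Polynomial L) D φ hφ.one hφ.mul hφ.lr hφ.inf
    obtain ⟨-, h2, h3⟩ := hlast p.1.1 q.1.1 (ent (f' p.2 q.2) p.1.1 q.1.1)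
      (js_of_jc (hjc' _ _) _ _) y x
    have hl : lev q.1.1 = k := q.1.2.1
    rcases (Nat.lt_succ_iff.1 hx).lt_or_eq with hlt | heq
    · constructor
      · rintro ⟨rfl, rfl⟩
        omega
      · intro _
        exact h2 (by omega)
    · exact h3 (by omega)
  · intro _ _
    have hlab : ∀ g : Matrix n n (Kr D V (Polynomial L)), (∀ i j, Jc (g i j)) → ∀ p q γ,
        ((eps T (xm φ B k g)) p q).coeff γ ≠ 0 →
        ({x | p.1.1 x ≠ none} : Set Q) = γ • ({x | q.1.1 x ≠ none} : Set Q) := by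
      intro g hg p q γ h
      have hJS : JS p.1.1 q.1.1 (ent (g p.2 q.2) p.1.1 q.1.1) := js_of_jc (hg _ _) _ _
      have h5 : (ent (g p.2 q.2) p.1.1 q.1.1).coeff γ ≠ 0 := by
        intro h0
        refine h ?_
        rw [eps, Matrix.of_apply, xm, Matrix.of_apply]
        obtain ⟨-, h6, h7⟩ := hXS Γ G Q V L D T φ hφ p.1.1 q.1.1 _ hJS
        by_cases h8 : Exts q.1.1 (rt T) ∧ Exts p.1.1 (rt T)
        · rw [h6 h8, evA, MonoidAlgebra.coeff_mapRingHom, h0, map_zero]
        · rw [h7 h8]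
          rfl
      ext x
      rw [Set.mem_smul_set_iff_inv_smul_mem, Set.mem_setOf_eq, Set.mem_setOf_eq]
      have h9 := hJS γ h5 (γ⁻¹ • x)
      rw [smul_inv_smul] at h9
      exact not_congr h9
    obtain ⟨h5, h6⟩ := isoEps hOS Γ G Q V L D T (Fk D B k × n) (Fk D B k × n) (MM E') (MM E)
      (xm φ B k f') (xm φ B k f) (hSS f' hf') (hSS f hf) hI
    refine kr_lab hL hH.ku (X := Set Q) (fun p => {x | p.1.1.1 x ≠ none})
      (fun p => {x | p.1.1.1 x ≠ none}) h5 h6 ?_ ?_ ?_
    · exact fun i j g h => hlab f' hjc' i.1 j.1 g h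
    · exact fun i j g h => hlab f hjc i.1 j.1 g h
    · intro p
      have hl : lev p.1.1.1 = k := p.1.1.2.1
      refine hH.sets _ ?_ ?_
      · by_contra hne
        rw [Set.not_nonempty_iff_eq_empty] at hne
        have : lev p.1.1.1 = 0 := by
          rw [lev, Finset.card_eq_zero, Finset.filter_eq_empty_iff]
          intro x _ hx
          rw [Option.isSome_iff_ne_none] at hx
          have : x ∈ ({x | p.1.1.1 x ≠ none} : Set Q) := hx
          rw [hne] at this
          exact this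
        omega
      · intro huniv
        have : lev p.1.1.1 = Fintype.card Q := by
          rw [lev, Finset.filter_true_of_mem, Finset.card_univ]
          intro x _
          rw [Option.isSome_iff_ne_none]
          have : x ∈ ({x | p.1.1.1 x ≠ none} : Set Q) := by
            rw [huniv]
            trivial
          exact this
        omega

end Pool.Agent.QT
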