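import Pool.Agent.Lib.MP_8f66f0_al_Q.EPb

/-!
# The step `EP(k+1) → EP(k)`: the automorphism of the source, and the levels `≤ k`
-/

set_option autoImplicit false

namespace Pool.Agent.QT.Sp

open scoped Pointwise
open Pool.Agent.TQ Pool.Agent.QT Matrix

section Alg

variable {S : Type} [Ring S] {n P : Type} [Fintype n] [DecidableEq n] [Fintype P] [DecidableEq P]

/-- Upper elementary block matrices. -/
def e12 (c : Matrix n P S) : Matrix (n ⊕ P) (n ⊕ P) S := fromBlocks 1 c 0 1

/-- Lower elementary block matrices. -/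
def e21 (c : Matrix P n S) : Matrix (n ⊕ P) (n ⊕ P) S := fromBlocks 1 0 c 1

theorem e12_mul (c d : Matrix n P S) : e12 c * e12 d = e12 (c + d) := by
  rw [e12, e12, e12, fromBlocks_multiply]
  simp only [Matrix.one_mul, Matrix.mul_one, Matrix.mul_zero, Matrix.zero_mul, add_zero, zero_add]
  rw [add_comm]

theorem e21_mul (c d : Matrix P n S) : e21 c * e21 d = e21 (c + d) := by
  rw [e21, e21, e21, fromBlocks_multiply]
  simp only [Matrix.one_mul, Matrix.mul_one, Matrix.mul_zero, Matrix.zero_mul, add_zero, zero_add]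

theorem e12_zero : (e12 (0 : Matrix n P S)) = 1 := fromBlocks_one

theorem e21_zero : (e21 (0 : Matrix P n S)) = 1 := fromBlocks_one

/-- The automorphism. -/
def aM (u : Matrix n P S) (w : Matrix P n S) : Matrix (n ⊕ P) (n ⊕ P) S :=
  e12 (-u) * (e21 w * e12 (-u))

/-- The inverse automorphism. -/
def aM' (u : Matrix n P S) (w : Matrix P n S) : Matrix (n ⊕ P) (n ⊕ P) S :=
  e12 u * (e21 (-w) * e12 u)

theorem aM_mul_aM' (u : Matrix n P S) (w : Matrix P n S) : aM u w * aM' u w = 1 := by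
  rw [aM, aM']
  have h1 : e12 (-u) * e12 u = 1 := by rw [e12_mul, neg_add_cancel, e12_zero]
  have h2 : e21 w * e21 (-w) = 1 := by rw [e21_mul, add_neg_cancel, e21_zero]
  calc e12 (-u) * (e21 w * e12 (-u)) * (e12 u * (e21 (-w) * e12 u))
      = e12 (-u) * (e21 w * ((e12 (-u) * e12 u) * (e21 (-w) * e12 u))) := by
        simp only [Matrix.mul_assoc]
    _ = 1 := by
        rw [h1, Matrix.one_mul, ← Matrix.mul_assoc (e21 w), h2, Matrix.one_mul, h1]

theorem aM'_mul_aM (u : Matrix n P S) (w : Matrix P n S) : aM' u w * aM u w = 1 := by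
  have h := aM_mul_aM' (-u) (-w)
  rw [aM, aM', neg_neg, neg_neg] at h
  exact h

theorem e12_comm {p : Matrix n n S} {q : Matrix P P S} {u : Matrix n P S} (h : u * q = p * u) :
    e12 u * fromBlocks p 0 0 q = fromBlocks p 0 0 q * e12 u := by
  rw [e12, fromBlocks_multiply, fromBlocks_multiply]
  simp only [Matrix.one_mul, Matrix.mul_one, Matrix.mul_zero, Matrix.zero_mul, add_zero, zero_add]
  rw [h]

theorem e21_comm {p : Matrix n n S} {q : Matrix P P S} {w : Matrix P n S} (h : w * p = q * w) :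
    e21 w * fromBlocks p 0 0 q = fromBlocks p 0 0 q * e21 w := by
  rw [e21, fromBlocks_multiply, fromBlocks_multiply]
  simp only [Matrix.one_mul, Matrix.mul_one, Matrix.mul_zero, Matrix.zero_mul, add_zero, zero_add]
  rw [h]

theorem aM_comm {p : Matrix n n S} {q : Matrix P P S} {u : Matrix n P S} {w : Matrix P n S}
    (h : u * q = p * u) (h' : w * p = q * w) :
    aM u w * fromBlocks p 0 0 q = fromBlocks p 0 0 q * aM u w := by
  have h1 : e12 (-u) * fromBlocks p 0 0 q = fromBlocks p 0 0 q * e12 (-u) :=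
    e12_comm (by rw [Matrix.neg_mul, Matrix.mul_neg, h])
  rw [aM, Matrix.mul_assoc, Matrix.mul_assoc, h1, ← Matrix.mul_assoc (e21 w), e21_comm h',
    Matrix.mul_assoc (fromBlocks p 0 0 q), ← Matrix.mul_assoc (e12 (-u)), h1, Matrix.mul_assoc]

theorem aM_eq {u : Matrix n P S} {w : Matrix P n S} (h : u * w * u = u) :
    aM u w = fromBlocks (1 - u * w) (-u) w (1 - w * u) := by
  rw [aM, e12, e21, fromBlocks_multiply, fromBlocks_multiply]
  simp only [Matrix.one_mul, Matrix.mul_one, Matrix.mul_zero, Matrix.zero_mul, add_zero, zero_add,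
    Matrix.neg_mul, Matrix.mul_neg, Matrix.mul_add]
  rw [neg_neg, ← Matrix.mul_assoc u w u, h]
  congr 1
  · abel
  · abel
  · abel

end Alg

section Jcs

variable {Γ G Q V : Type} [Group Γ] [Group G] [MulAction Γ Q] [MulAction G V] {D : Coc Γ G Q}
  {R : Type} [CommRing R]

theorem jc_mul {S U : Kr D V R} (hS : Jc S) (hU : Jc U) : Jc (S * U) := by
  intro g y x h q
  obtain ⟨v, a, b, rfl, h1, h2⟩ := exists_of_cf_mul h
  rw [mul_smul, hS a y v h1, hU b v x h2]

theorem jc_add {S U : Kr D V R} (hS : Jc S) (hU : Jc U) : Jc (S + U) := by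
  intro g y x h q
  rw [cf_add] at h
  by_cases h1 : cf S g y x = 0
  · rw [h1, zero_add] at h
    exact hU g y x h q
  · exact hS g y x h1 q

theorem jc_neg {S : Kr D V R} (hS : Jc S) : Jc (-S) := by
  intro g y x h q
  rw [cf_neg] at h
  exact hS g y x (fun h' => h (by rw [h', neg_zero])) q

theorem jc_zero : Jc (0 : Kr D V R) := by
  intro g y x h
  exact absurd (cf_zero g y x) h

theorem jc_ind (E : Set (Tw D V)) : Jc (ind E : Kr D V R) := by
  classical
  intro g y x h q
  rw [cf_ind] at h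
  by_cases h' : g = 1 ∧ y = x ∧ x ∈ E
  · rw [h'.1, h'.2.1, one_smul]
  · rw [if_neg h'] at h
    exact absurd rfl h

theorem jc_sum {ι : Type} (s : Finset ι) (f : ι → Kr D V R) (h : ∀ i ∈ s, Jc (f i)) :
    Jc (∑ i ∈ s, f i) := by
  classical
  induction s using Finset.induction_on with
  | empty => rw [Finset.sum_empty]; exact jc_zero
  | insert a s ha ih =>
    rw [Finset.sum_insert ha]
    exact jc_add (h a (Finset.mem_insert_self _ _)) (ih fun i hi => h i (Finset.mem_insert_of_mem hi))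

/-- Matrices with entries in `Jc`. -/
def Jm {n' n : Type} (A : Matrix n' n (Kr D V R)) : Prop := ∀ i j, Jc (A i j)

theorem Jm.mul {n'' n' n : Type} [Fintype n'] {A : Matrix n'' n' (Kr D V R)}
    {A' : Matrix n' n (Kr D V R)} (h : Jm A) (h' : Jm A') : Jm (A * A') := by
  intro i j
  rw [Matrix.mul_apply]
  exact jc_sum _ _ fun v _ => jc_mul (h i v) (h' v j)

theorem Jm.neg {n' n : Type} {A : Matrix n' n (Kr D V R)} (h : Jm A) : Jm (-A) := fun i j =>
  jc_neg (h i j)

theorem Jm.add {n' n : Type} {A A' : Matrix n' n (Kr D V R)} (h : Jm A) (h' : Jm A') :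
    Jm (A + A') := fun i j => jc_add (h i j) (h' i j)

theorem Jm.sub {n' n : Type} {A A' : Matrix n' n (Kr D V R)} (h : Jm A) (h' : Jm A') :
    Jm (A - A') := by
  rw [sub_eq_add_neg]
  exact h.add h'.neg

theorem jm_zero {n' n : Type} : Jm (0 : Matrix n' n (Kr D V R)) := fun _ _ => jc_zero

theorem jm_dg {n : Type} [DecidableEq n] (E : n → Set (Tw D V)) :
    Jm (dg E : Matrix n n (Kr D V R)) := by
  intro i j
  by_cases h : i = j
  · subst h
    rw [dg, Matrix.diagonal_apply_eq]
    exact jc_ind _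
  · rw [dg, Matrix.diagonal_apply_ne _ h]
    exact jc_zero

theorem jm_one {n : Type} [DecidableEq n] : Jm (1 : Matrix n n (Kr D V R)) := by
  rw [← dg_univ]
  exact jm_dg _

theorem jm_blocks {n' n m' m : Type} {A : Matrix n' n (Kr D V R)} {A' : Matrix n' m (Kr D V R)}
    {A'' : Matrix m' n (Kr D V R)} {A''' : Matrix m' m (Kr D V R)} (h : Jm A) (h' : Jm A')
    (h'' : Jm A'') (h''' : Jm A''') : Jm (fromBlocks A A' A'' A''') := by
  rintro (i | i) (j | j)
  · exact h i j
  · exact h' i j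
  · exact h'' i j
  · exact h''' i j

theorem jm_mv [Fintype Q] {B : Finset V} {k : ℕ} {n : Type} [DecidableEq n] :
    Jm (mv D R B k n) := by
  intro p i
  rw [mv]
  by_cases h : p.2 = i
  · rw [if_pos h]
    exact jc_ind _
  · rw [if_neg h]
    exact jc_zero

theorem jm_mvT [Fintype Q] {B : Finset V} {k : ℕ} {n : Type} [DecidableEq n] :
    Jm (mvT D R B k n) := by
  intro i p
  rw [mvT]
  by_cases h : p.2 = i
  · rw [if_pos h]
    exact jc_ind _
  · rw [if_neg h]
    exact jc_zero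

theorem jm_aM {n P : Type} [Fintype n] [DecidableEq n] [Fintype P] [DecidableEq P]
    {u : Matrix n P (Kr D V R)} {w : Matrix P n (Kr D V R)} (hu : Jm u) (hw : Jm w) :
    Jm (aM u w) := by
  have h1 : Jm (e12 (-u)) := jm_blocks jm_one hu.neg jm_zero jm_one
  have h2 : Jm (e21 w) := jm_blocks jm_one jm_zero hw jm_one
  exact h1.mul (h2.mul h1)

end Jcs

section Eq

variable {Γ G Q V : Type} [Group Γ] [Group G] [MulAction Γ Q] [MulAction G V] {D : Coc Γ G Q}
  {R : Type} [CommRing R] [Fintype Q] {k : ℕ}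

theorem EqB.refl {n' n : Type} (A : Matrix n' n (Kr D V R)) : EqB k A A := fun _ _ _ _ _ => rfl

theorem EqB.symm {n' n : Type} {A A' : Matrix n' n (Kr D V R)} (h : EqB k A A') : EqB k A' A :=
  fun a b y x hx => (h a b y x hx).symm

theorem EqB.trans {n' n : Type} {A A' A'' : Matrix n' n (Kr D V R)} (h : EqB k A A')
    (h' : EqB k A' A'') : EqB k A A'' := fun a b y x hx => (h a b y x hx).trans (h' a b y x hx)

theorem EqB.neg {n' n : Type} {A A' : Matrix n' n (Kr D V R)} (h : EqB k A A') :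
    EqB k (-A) (-A') := fun a b y x hx => by
  rw [Matrix.neg_apply, Matrix.neg_apply, ent_neg, ent_neg, h a b y x hx]

theorem EqB.blocks {n' n m' m : Type} {A C : Matrix n' n (Kr D V R)}
    {A' C' : Matrix n' m (Kr D V R)} {A'' C'' : Matrix m' n (Kr D V R)}
    {A''' C''' : Matrix m' m (Kr D V R)} (h : EqB k A C) (h' : EqB k A' C')
    (h'' : EqB k A'' C'') (h''' : EqB k A''' C''') :
    EqB k (fromBlocks A A' A'' A''') (fromBlocks C C' C'' C''') := by
  rintro (i | i) (j | j) y x hx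
  · exact h i j y x hx
  · exact h' i j y x hx
  · exact h'' i j y x hx
  · exact h''' i j y x hx

theorem eqB_aM (hLev : S_Lev) {n P : Type} [Fintype n] [DecidableEq n] [Fintype P] [DecidableEq P]
    {u u' : Matrix n P (Kr D V R)} {w w' : Matrix P n (Kr D V R)} (hu : Jm u) (hw : Jm w)
    (hu' : Jm u') (hw' : Jm w') (h : EqB k u u') (h' : EqB k w w') :
    EqB k (aM u w) (aM u' w') := by
  have h1 : ∀ {v : Matrix n P (Kr D V R)}, Jm v → Jm (e12 (-v)) := fun hv =>
    jm_blocks jm_one hv.neg jm_zero jm_one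
  have h2 : ∀ {v : Matrix P n (Kr D V R)}, Jm v → Jm (e21 v) := fun hv =>
    jm_blocks jm_one jm_zero hv jm_one
  have h3 : EqB k (e12 (-u)) (e12 (-u')) :=
    EqB.blocks (EqB.refl _) (EqB.neg h) (EqB.refl _) (EqB.refl _)
  have h4 : EqB k (e21 w) (e21 w') := EqB.blocks (EqB.refl _) (EqB.refl _) h' (EqB.refl _)
  exact hLev.2 Γ G Q V R D _ _ _ k _ _ _ _ ((h2 hw).mul (h1 hu)) ((h2 hw').mul (h1 hu')) h3
    (hLev.2 Γ G Q V R D _ _ _ k _ _ _ _ (h1 hu) (h1 hu') h4 h3)

end Eq

end Pool.Agent.QT.Sp
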