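import Pool.Agent.Lib.MP_8f66f0_al_Q.EPmv

/-!
# The step `EP(k+1) → EP(k)`: the automorphism which renames the far points
-/

set_option autoImplicit false

namespace Pool.Agent.QT.Sp

open Pool.Agent.TQ Pool.Agent.QT Matrix

variable {Γ G Q V : Type} [Group Γ] [Group G] [MulAction Γ Q] [MulAction G V] {D : Coc Γ G Q}
  {R : Type} [CommRing R] [Fintype Q] {B : Finset V} {k : ℕ} {n m : Type}
  [Fintype n] [DecidableEq n]

/-- The renaming of the far points. -/
noncomputable def bM (D : Coc Γ G Q) (R : Type) [CommRing R] (B : Finset V) (k : ℕ) (n : Type)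
    [DecidableEq n] : Matrix (n ⊕ Fk D B k × n) (n ⊕ Fk D B k × n) (Kr D V R) :=
  fromBlocks (dg fun _ => {x | lev (near B x) ≠ k}) (mvT D R B k n) (-(mv D R B k n))
    (dg fun p => {x | near B x ≠ p.1.1})

/-- The inverse renaming. -/
noncomputable def bM' (D : Coc Γ G Q) (R : Type) [CommRing R] (B : Finset V) (k : ℕ) (n : Type)
    [DecidableEq n] : Matrix (n ⊕ Fk D B k × n) (n ⊕ Fk D B k × n) (Kr D V R) :=
  fromBlocks (dg fun _ => {x | lev (near B x) ≠ k}) (-(mvT D R B k n)) (mv D R B k n)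
    (dg fun p => {x | near B x ≠ p.1.1})

theorem ite_iff {α : Type} {p q : Prop} {a b : α} {ip : Decidable p} {iq : Decidable q}
    (h : p ↔ q) : @ite α p ip a b = @ite α q iq a b := by
  by_cases hp : p
  · rw [if_pos hp, if_pos (h.1 hp)]
  · rw [if_neg hp, if_neg fun hq => hp (h.2 hq)]

theorem fromBlocks_mul_inl (A : Matrix n n (Kr D V R)) (A' : Matrix n (Fk D B k × n) (Kr D V R))
    (A'' : Matrix (Fk D B k × n) n (Kr D V R))
    (A''' : Matrix (Fk D B k × n) (Fk D B k × n) (Kr D V R))
    (S : Matrix (n ⊕ Fk D B k × n) m (Kr D V R)) (i : n) (j : m) :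
    (fromBlocks A A' A'' A''' * S) (Sum.inl i) j =
      (A * S.submatrix Sum.inl id) i j + (A' * S.submatrix Sum.inr id) i j := by
  rw [mul_apply, Fintype.sum_sum_type]
  rfl

theorem fromBlocks_mul_inr (A : Matrix n n (Kr D V R)) (A' : Matrix n (Fk D B k × n) (Kr D V R))
    (A'' : Matrix (Fk D B k × n) n (Kr D V R))
    (A''' : Matrix (Fk D B k × n) (Fk D B k × n) (Kr D V R))
    (S : Matrix (n ⊕ Fk D B k × n) m (Kr D V R)) (i : Fk D B k × n) (j : m) :
    (fromBlocks A A' A'' A''' * S) (Sum.inr i) j =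
      (A'' * S.submatrix Sum.inl id) i j + (A''' * S.submatrix Sum.inr id) i j := by
  rw [mul_apply, Fintype.sum_sum_type]
  rfl

theorem mul_fromBlocks_inl (A : Matrix n n (Kr D V R)) (A' : Matrix n (Fk D B k × n) (Kr D V R))
    (A'' : Matrix (Fk D B k × n) n (Kr D V R))
    (A''' : Matrix (Fk D B k × n) (Fk D B k × n) (Kr D V R))
    (S : Matrix m (n ⊕ Fk D B k × n) (Kr D V R)) (i : m) (j : n) :
    (S * fromBlocks A A' A'' A''') i (Sum.inl j) =
      (S.submatrix id Sum.inl * A) i j + (S.submatrix id Sum.inr * A'') i j := by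
  rw [mul_apply, Fintype.sum_sum_type]
  rfl

theorem mul_fromBlocks_inr (A : Matrix n n (Kr D V R)) (A' : Matrix n (Fk D B k × n) (Kr D V R))
    (A'' : Matrix (Fk D B k × n) n (Kr D V R))
    (A''' : Matrix (Fk D B k × n) (Fk D B k × n) (Kr D V R))
    (S : Matrix m (n ⊕ Fk D B k × n) (Kr D V R)) (i : m) (j : Fk D B k × n) :
    (S * fromBlocks A A' A'' A''') i (Sum.inr j) =
      (S.submatrix id Sum.inl * A') i j + (S.submatrix id Sum.inr * A''') i j := by
  rw [mul_apply, Fintype.sum_sum_type]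
  rfl

theorem ent_bM_mul_inl (S : Matrix (n ⊕ Fk D B k × n) m (Kr D V R)) (i : n) (j : m)
    (y x : Tw D V) :
    (lev (near B y) ≠ k →
      ent ((bM D R B k n * S) (Sum.inl i) j) y x = ent (S (Sum.inl i) j) y x) ∧
    (∀ l : Fk D B k, near B y = l.1 →
      ent ((bM D R B k n * S) (Sum.inl i) j) y x = ent (S (Sum.inr (l, i)) j) y x) := by
  rw [bM, fromBlocks_mul_inl, ent_add]
  have h1 := ent_dg_mul (fun _ : n => {x : Tw D V | lev (near B x) ≠ k})
    (S.submatrix Sum.inl id) i j y x
  have h2 := ent_mvT_mul (B := B) (k := k) (S.submatrix Sum.inr id) i j y x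
  constructor
  · intro h
    rw [h1.1 h, h2.2 h, add_zero]
    rfl
  · intro l hl
    rw [h2.1 l hl, h1.2 fun h => h (by rw [hl]; exact l.2.1), zero_add]
    rfl

theorem ent_bM_mul_inr (S : Matrix (n ⊕ Fk D B k × n) m (Kr D V R)) (p : Fk D B k × n) (j : m)
    (y x : Tw D V) :
    (near B y ≠ p.1.1 →
      ent ((bM D R B k n * S) (Sum.inr p) j) y x = ent (S (Sum.inr p) j) y x) ∧
    (near B y = p.1.1 →
      ent ((bM D R B k n * S) (Sum.inr p) j) y x = - ent (S (Sum.inl p.2) j) y x) := by
  rw [bM, fromBlocks_mul_inr, ent_add, Matrix.neg_mul, Matrix.neg_apply, ent_neg]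
  have h1 := ent_dg_mul (fun p : Fk D B k × n => {x : Tw D V | near B x ≠ p.1.1})
    (S.submatrix Sum.inr id) p j y x
  have h2 := ent_mv_mul (B := B) (k := k) (S.submatrix Sum.inl id) p j y x
  constructor
  · intro h
    rw [h1.1 h, h2.2 h, neg_zero, zero_add]
    rfl
  · intro h
    rw [h2.1 h, h1.2 (fun h' => h' h), add_zero]
    rfl

theorem ent_bM'_mul_inl (S : Matrix (n ⊕ Fk D B k × n) m (Kr D V R)) (i : n) (j : m)
    (y x : Tw D V) :
    (lev (near B y) ≠ k →
      ent ((bM' D R B k n * S) (Sum.inl i) j) y x = ent (S (Sum.inl i) j) y x) ∧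
    (∀ l : Fk D B k, near B y = l.1 →
      ent ((bM' D R B k n * S) (Sum.inl i) j) y x = - ent (S (Sum.inr (l, i)) j) y x) := by
  rw [bM', fromBlocks_mul_inl, ent_add, Matrix.neg_mul, Matrix.neg_apply, ent_neg]
  have h1 := ent_dg_mul (fun _ : n => {x : Tw D V | lev (near B x) ≠ k})
    (S.submatrix Sum.inl id) i j y x
  have h2 := ent_mvT_mul (B := B) (k := k) (S.submatrix Sum.inr id) i j y x
  constructor
  · intro h
    rw [h1.1 h, h2.2 h, neg_zero, add_zero]
    rfl
  · intro l hl
    rw [h2.1 l hl, h1.2 fun h => h (by rw [hl]; exact l.2.1), zero_add]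
    rfl

theorem ent_bM'_mul_inr (S : Matrix (n ⊕ Fk D B k × n) m (Kr D V R)) (p : Fk D B k × n) (j : m)
    (y x : Tw D V) :
    (near B y ≠ p.1.1 →
      ent ((bM' D R B k n * S) (Sum.inr p) j) y x = ent (S (Sum.inr p) j) y x) ∧
    (near B y = p.1.1 →
      ent ((bM' D R B k n * S) (Sum.inr p) j) y x = ent (S (Sum.inl p.2) j) y x) := by
  rw [bM', fromBlocks_mul_inr, ent_add]
  have h1 := ent_dg_mul (fun p : Fk D B k × n => {x : Tw D V | near B x ≠ p.1.1})
    (S.submatrix Sum.inr id) p j y x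
  have h2 := ent_mv_mul (B := B) (k := k) (S.submatrix Sum.inl id) p j y x
  constructor
  · intro h
    rw [h1.1 h, h2.2 h, zero_add]
    rfl
  · intro h
    rw [h2.1 h, h1.2 (fun h' => h' h), add_zero]
    rfl

theorem ent_mul_bM'_inl (S : Matrix m (n ⊕ Fk D B k × n) (Kr D V R)) (i : m) (j : n)
    (y x : Tw D V) :
    (lev (near B x) ≠ k →
      ent ((S * bM' D R B k n) i (Sum.inl j)) y x = ent (S i (Sum.inl j)) y x) ∧
    (∀ l : Fk D B k, near B x = l.1 →
      ent ((S * bM' D R B k n) i (Sum.inl j)) y x = ent (S i (Sum.inr (l, j))) y x) := by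
  rw [bM', mul_fromBlocks_inl, ent_add]
  have h1 := ent_mul_dg (fun _ : n => {x : Tw D V | lev (near B x) ≠ k})
    (S.submatrix id Sum.inl) i j y x
  have h2 := ent_mul_mv (B := B) (k := k) (S.submatrix id Sum.inr) i j y x
  constructor
  · intro h
    rw [h1.1 h, h2.2 h, add_zero]
    rfl
  · intro l hl
    rw [h2.1 l hl, h1.2 fun h => h (by rw [hl]; exact l.2.1), zero_add]
    rfl

theorem ent_mul_bM'_inr (S : Matrix m (n ⊕ Fk D B k × n) (Kr D V R)) (i : m) (p : Fk D B k × n)
    (y x : Tw D V) :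
    (near B x ≠ p.1.1 →
      ent ((S * bM' D R B k n) i (Sum.inr p)) y x = ent (S i (Sum.inr p)) y x) ∧
    (near B x = p.1.1 →
      ent ((S * bM' D R B k n) i (Sum.inr p)) y x = - ent (S i (Sum.inl p.2)) y x) := by
  rw [bM', mul_fromBlocks_inr, ent_add, Matrix.mul_neg, Matrix.neg_apply, ent_neg]
  have h1 := ent_mul_dg (fun p : Fk D B k × n => {x : Tw D V | near B x ≠ p.1.1})
    (S.submatrix id Sum.inr) i p y x
  have h2 := ent_mul_mvT (B := B) (k := k) (S.submatrix id Sum.inl) i p y x
  constructor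
  · intro h
    rw [h1.1 h, h2.2 h, neg_zero, zero_add]
    rfl
  · intro h
    rw [h2.1 h, h1.2 (fun h' => h' h), add_zero]
    rfl

theorem fk_near {x : Tw D V} (h : lev (near B x) = k) : ∃ l : Fk D B k, near B x = l.1 :=
  ⟨⟨near B x, h, near_near B x⟩, rfl⟩

/-- The images of the sets of blocks. -/
def bE (E : n → Set (Tw D V)) (M : Fk D B k × n → Set (Tw D V)) : n ⊕ Fk D B k × n → Set (Tw D V) :=
  Sum.elim
    (fun i => {x | (lev (near B x) ≠ k ∧ x ∈ E i) ∨ ∃ l : Fk D B k, near B x = l.1 ∧ x ∈ M (l, i)})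
    (fun p => {x | (near B x ≠ p.1.1 ∧ x ∈ M p) ∨ (near B x = p.1.1 ∧ x ∈ E p.2)})

theorem bM_dg (E : n → Set (Tw D V)) (M : Fk D B k × n → Set (Tw D V)) :
    bM D R B k n * dg (Sum.elim E M) * bM' D R B k n = dg (bE E M) := by
  classical
  refine mat_ext fun i j y x => ?_
  have key : ∀ (i j : n ⊕ Fk D B k × n) (y x : Tw D V),
      ent ((dg (Sum.elim E M) : Matrix _ _ (Kr D V R)) i j) y x =
        if i = j ∧ y = x ∧ x ∈ Sum.elim E M j then 1 else 0 := fun i j y x =>
    (ent_dg _ i j y x).trans (ite_iff Iff.rfl)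
  rcases i with i | p
  · by_cases hy : lev (near B y) = k
    · obtain ⟨l, hl⟩ := fk_near hy
      rw [Matrix.mul_assoc, (ent_bM_mul_inl _ i j y x).2 l hl]
      rcases j with j | q
      · by_cases hx : lev (near B x) = k
        · obtain ⟨l', hl'⟩ := fk_near hx
          rw [(ent_mul_bM'_inl _ _ j y x).2 l' hl', key, ent_dg]
          refine ite_iff ⟨fun h => ?_, fun h => ?_⟩
          · obtain ⟨h1, rfl, h3⟩ := h
            rw [Sum.inr.injEq, Prod.mk.injEq] at h1
            obtain ⟨rfl, rfl⟩ := h1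
            exact ⟨rfl, rfl, Or.inr ⟨l, hl, h3⟩⟩
          · obtain ⟨h1, rfl, h3⟩ := h
            rw [Sum.inl.injEq] at h1
            subst h1
            have h4 : l' = l := Subtype.ext (hl'.symm.trans hl)
            subst h4
            refine ⟨rfl, rfl, ?_⟩
            rcases h3 with h3 | ⟨l₂, h3, h5⟩
            · exact absurd hy h3.1
            · have h6 : l₂ = l' := Subtype.ext (h3.symm.trans hl')
              subst h6
              exact h5
        · rw [(ent_mul_bM'_inl _ _ j y x).1 hx, key, ent_dg, if_neg, if_neg]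
          · rintro ⟨-, rfl, -⟩
            exact hx hy
          · rintro ⟨h1, -⟩
            cases h1
      · by_cases hx : near B x = q.1.1
        · rw [(ent_mul_bM'_inr _ _ q y x).2 hx, key, ent_dg, if_neg, if_neg, neg_zero]
          · rintro ⟨h1, -⟩
            cases h1
          · rintro ⟨h1, -⟩
            cases h1
        · rw [(ent_mul_bM'_inr _ _ q y x).1 hx, key, ent_dg, if_neg, if_neg]
          · rintro ⟨h1, -⟩
            cases h1
          · rintro ⟨h1, rfl, -⟩
            rw [Sum.inr.injEq] at h1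
            subst h1
            exact hx hl
    · rw [Matrix.mul_assoc, (ent_bM_mul_inl _ i j y x).1 hy]
      rcases j with j | q
      · by_cases hx : lev (near B x) = k
        · obtain ⟨l', hl'⟩ := fk_near hx
          rw [(ent_mul_bM'_inl _ _ j y x).2 l' hl', key, ent_dg, if_neg, if_neg]
          · rintro ⟨-, rfl, -⟩
            exact hy hx
          · rintro ⟨h1, -⟩
            cases h1
        · rw [(ent_mul_bM'_inl _ _ j y x).1 hx, key, ent_dg]
          refine ite_iff ⟨fun h => ?_, fun h => ?_⟩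
          · obtain ⟨h1, rfl, h3⟩ := h
            rw [Sum.inl.injEq] at h1
            subst h1
            exact ⟨rfl, rfl, Or.inl ⟨hx, h3⟩⟩
          · obtain ⟨h1, rfl, h3⟩ := h
            rw [Sum.inl.injEq] at h1
            subst h1
            refine ⟨rfl, rfl, ?_⟩
            rcases h3 with h3 | ⟨l₂, h3, h5⟩
            · exact h3.2
            · exact absurd (by rw [h3]; exact l₂.2.1) hx
      · by_cases hx : near B x = q.1.1
        · rw [(ent_mul_bM'_inr _ _ q y x).2 hx, key, ent_dg, if_neg, if_neg, neg_zero]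
          · rintro ⟨h1, -⟩
            cases h1
          · rintro ⟨-, rfl, -⟩
            exact hy (by rw [hx]; exact q.1.2.1)
        · rw [(ent_mul_bM'_inr _ _ q y x).1 hx, key, ent_dg, if_neg, if_neg]
          · rintro ⟨h1, -⟩
            cases h1
          · rintro ⟨h1, -⟩
            cases h1
  · by_cases hy : near B y = p.1.1
    · rw [Matrix.mul_assoc, (ent_bM_mul_inr _ p j y x).2 hy]
      rcases j with j | q
      · by_cases hx : lev (near B x) = k
        · obtain ⟨l', hl'⟩ := fk_near hx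
          rw [(ent_mul_bM'_inl _ _ j y x).2 l' hl', key, ent_dg, if_neg, if_neg, neg_zero]
          · rintro ⟨h1, -⟩
            cases h1
          · rintro ⟨h1, -⟩
            cases h1
        · rw [(ent_mul_bM'_inl _ _ j y x).1 hx, key, ent_dg, if_neg, if_neg, neg_zero]
          · rintro ⟨h1, -⟩
            cases h1
          · rintro ⟨-, rfl, -⟩
            exact hx (by rw [hy]; exact p.1.2.1)
      · by_cases hx : near B x = q.1.1
        · rw [(ent_mul_bM'_inr _ _ q y x).2 hx, key, ent_dg, neg_neg]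
          refine ite_iff ⟨fun h => ?_, fun h => ?_⟩
          · obtain ⟨h1, rfl, h3⟩ := h
            rw [Sum.inl.injEq] at h1
            have h4 : p = q := Prod.ext (Subtype.ext (hy.symm.trans hx)) h1
            subst h4
            exact ⟨rfl, rfl, Or.inr ⟨hx, h3⟩⟩
          · obtain ⟨h1, rfl, h3⟩ := h
            rw [Sum.inr.injEq] at h1
            subst h1
            refine ⟨rfl, rfl, ?_⟩
            rcases h3 with h3 | h3
            · exact absurd hy h3.1
            · exact h3.2
        · rw [(ent_mul_bM'_inr _ _ q y x).1 hx, key, ent_dg, if_neg, if_neg, neg_zero]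
          · rintro ⟨h1, rfl, -⟩
            rw [Sum.inr.injEq] at h1
            subst h1
            exact hx hy
          · rintro ⟨h1, -⟩
            cases h1
    · rw [Matrix.mul_assoc, (ent_bM_mul_inr _ p j y x).1 hy]
      rcases j with j | q
      · by_cases hx : lev (near B x) = k
        · obtain ⟨l', hl'⟩ := fk_near hx
          rw [(ent_mul_bM'_inl _ _ j y x).2 l' hl', key, ent_dg, if_neg, if_neg]
          · rintro ⟨h1, -⟩
            cases h1
          · rintro ⟨h1, rfl, -⟩
            rw [Sum.inr.injEq] at h1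
            subst h1
            exact hy hl'
        · rw [(ent_mul_bM'_inl _ _ j y x).1 hx, key, ent_dg, if_neg, if_neg]
          · rintro ⟨h1, -⟩
            cases h1
          · rintro ⟨h1, -⟩
            cases h1
      · by_cases hx : near B x = q.1.1
        · rw [(ent_mul_bM'_inr _ _ q y x).2 hx, key, ent_dg, if_neg, if_neg, neg_zero]
          · rintro ⟨h1, rfl, -⟩
            rw [Sum.inr.injEq] at h1
            subst h1
            exact hy hx
          · rintro ⟨h1, -⟩
            cases h1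
        · rw [(ent_mul_bM'_inr _ _ q y x).1 hx, key, ent_dg]
          refine ite_iff ⟨fun h => ?_, fun h => ?_⟩
          · obtain ⟨h1, rfl, h3⟩ := h
            rw [Sum.inr.injEq] at h1
            subst h1
            exact ⟨rfl, rfl, Or.inl ⟨hx, h3⟩⟩
          · obtain ⟨h1, rfl, h3⟩ := h
            rw [Sum.inr.injEq] at h1
            subst h1
            refine ⟨rfl, rfl, ?_⟩
            rcases h3 with h3 | h3
            · exact h3.2
            · exact absurd h3.1 hy

theorem bE_univ : bE (D := D) (B := B) (k := k) (fun _ : n => Set.univ) (fun _ => Set.univ) =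
    fun _ => Set.univ := by
  funext i
  rcases i with i | p
  · refine Set.eq_univ_of_forall fun x => ?_
    by_cases hx : lev (near B x) = k
    · obtain ⟨l, hl⟩ := fk_near hx
      exact Or.inr ⟨l, hl, trivial⟩
    · exact Or.inl ⟨hx, trivial⟩
  · refine Set.eq_univ_of_forall fun x => ?_
    by_cases hx : near B x = p.1.1
    · exact Or.inr ⟨hx, trivial⟩
    · exact Or.inl ⟨hx, trivial⟩

theorem bM_mul_bM' : bM D R B k n * bM' D R B k n = 1 := by
  have h := bM_dg (R := R) (D := D) (B := B) (k := k) (fun _ : n => Set.univ) fun _ => Set.univ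
  rw [bE_univ, dg_univ] at h
  have h1 : (Sum.elim (fun _ => Set.univ) fun _ => Set.univ :
      n ⊕ Fk D B k × n → Set (Tw D V)) = fun _ => Set.univ := by
    funext i
    cases i <;> rfl
  rw [h1, dg_univ, Matrix.mul_one] at h
  exact h

theorem bM'_mul_bM : bM' D R B k n * bM D R B k n = 1 := by
  classical
  refine mat_ext fun i j y x => ?_
  have h1 : ∀ (i j : n ⊕ Fk D B k × n), ent ((1 : Matrix _ _ (Kr D V R)) i j) y x =
      if i = j ∧ y = x then 1 else 0 := by
    intro i j
    rw [← dg_univ, ent_dg]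
    exact ite_iff ⟨fun h => ⟨h.1, h.2.1⟩, fun h => ⟨h.1, h.2, trivial⟩⟩
  have h2 : ∀ (i j : n), ent ((dg (fun _ => {x | lev (near B x) ≠ k}) : Matrix n n (Kr D V R)) i j)
      y x = if i = j ∧ y = x ∧ lev (near B x) ≠ k then 1 else 0 := fun i j =>
    (ent_dg _ i j y x).trans (ite_iff Iff.rfl)
  have h3 : ∀ (p q : Fk D B k × n), ent ((dg (fun p => {x | near B x ≠ p.1.1}) :
      Matrix (Fk D B k × n) (Fk D B k × n) (Kr D V R)) p q)
      y x = if p = q ∧ y = x ∧ near B x ≠ q.1.1 then 1 else 0 := fun i j =>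
    (ent_dg _ i j y x).trans (ite_iff Iff.rfl)
  have h4 : ∀ (i : n) (p : Fk D B k × n), ent ((mvT D R B k n) i p) y x =
      if p.2 = i ∧ y = x ∧ near B x = p.1.1 then 1 else 0 := by
    intro i p
    by_cases h : p.2 = i
    · rw [mvT, if_pos h, ent_ind]
      exact ite_iff ⟨fun h' => ⟨h, h'.1, h'.2⟩, fun h' => ⟨h'.2.1, h'.2.2⟩⟩
    · rw [mvT, if_neg h, ent_zero, if_neg fun h' => h h'.1]
  have h5 : ∀ (i : n) (p : Fk D B k × n), ent ((mv D R B k n) p i) y x =
      if p.2 = i ∧ y = x ∧ near B x = p.1.1 then 1 else 0 := by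
    intro i p
    by_cases h : p.2 = i
    · rw [mv, if_pos h, ent_ind]
      exact ite_iff ⟨fun h' => ⟨h, h'.1, h'.2⟩, fun h' => ⟨h'.2.1, h'.2.2⟩⟩
    · rw [mv, if_neg h, ent_zero, if_neg fun h' => h h'.1]
  rcases i with i | p
  · by_cases hy : lev (near B y) = k
    · obtain ⟨l, hl⟩ := fk_near hy
      rw [(ent_bM'_mul_inl _ i j y x).2 l hl]
      rcases j with j | q
      · rw [bM, fromBlocks_apply₂₁, Matrix.neg_apply, ent_neg, neg_neg, h5, h1]
        refine ite_iff ⟨fun h => ⟨congrArg Sum.inl h.1, h.2.1⟩, fun h => ?_⟩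
        obtain ⟨e1, rfl⟩ := h
        exact ⟨Sum.inl_injective e1, rfl, hl⟩
      · rw [bM, fromBlocks_apply₂₂, h3, h1, if_neg, if_neg, neg_zero]
        · rintro ⟨e1, -⟩
          cases e1
        · rintro ⟨e1, rfl, e2⟩
          subst e1
          exact e2 hl
    · rw [(ent_bM'_mul_inl _ i j y x).1 hy]
      rcases j with j | q
      · rw [bM, fromBlocks_apply₁₁, h2, h1]
        refine ite_iff ⟨fun h => ⟨congrArg Sum.inl h.1, h.2.1⟩, fun h => ?_⟩
        obtain ⟨e1, rfl⟩ := h
        exact ⟨Sum.inl_injective e1, rfl, hy⟩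
      · rw [bM, fromBlocks_apply₁₂, h4, h1, if_neg, if_neg]
        · rintro ⟨e1, -⟩
          cases e1
        · rintro ⟨-, rfl, e2⟩
          exact hy (by rw [e2]; exact q.1.2.1)
  · by_cases hy : near B y = p.1.1
    · rw [(ent_bM'_mul_inr _ p j y x).2 hy]
      rcases j with j | q
      · rw [bM, fromBlocks_apply₁₁, h2, h1, if_neg, if_neg]
        · rintro ⟨e1, -⟩
          cases e1
        · rintro ⟨-, rfl, e2⟩
          exact e2 (by rw [hy]; exact p.1.2.1)
      · rw [bM, fromBlocks_apply₁₂, h4, h1]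
        refine ite_iff ⟨fun h => ?_, fun h => ?_⟩
        · obtain ⟨e2, rfl, e3⟩ := h
          exact ⟨congrArg Sum.inr (Prod.ext (Subtype.ext (hy.symm.trans e3)) e2.symm), rfl⟩
        · obtain ⟨e1, rfl⟩ := h
          have e2 := Sum.inr_injective e1
          subst e2
          exact ⟨rfl, rfl, hy⟩
    · rw [(ent_bM'_mul_inr _ p j y x).1 hy]
      rcases j with j | q
      · rw [bM, fromBlocks_apply₂₁, Matrix.neg_apply, ent_neg, h5, h1, if_neg, if_neg, neg_zero]
        · rintro ⟨e1, -⟩
          cases e1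
        · rintro ⟨-, rfl, e2⟩
          exact hy e2
      · rw [bM, fromBlocks_apply₂₂, h3, h1]
        refine ite_iff ⟨fun h => ⟨congrArg Sum.inr h.1, h.2.1⟩, fun h => ?_⟩
        obtain ⟨e1, rfl⟩ := h
        have e2 := Sum.inr_injective e1
        subst e2
        exact ⟨rfl, rfl, hy⟩

end Pool.Agent.QT.Sp
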