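import Pool.Agent.Lib.MP_8f66f0_al_Q.Spec
import Pool.Agent.Lib.MP_8f66f0_al_Q.RkInd
import Pool.Agent.Lib.MP_8f66f0_al_TQ.KrH

/-!
# Theorem Q: the principle EP at the top level
-/

set_option autoImplicit false

namespace Pool.Agent.QT

open scoped Pointwise
open Pool.Agent.TQ Pool.Agent.Wald Pool.Agent.Hier Pool.Agent.WaldL Pool.Agent.TreeC
open Pool.Agent.FH (KU)

section Mat

variable {Γ G Q V : Type} [Group Γ] [Group G] [MulAction Γ Q] [MulAction G V] {D : Coc Γ G Q}
  {R : Type} [CommRing R]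

private theorem ent_sum {Ω A ι : Type} [Ring A] (s : Finset ι) (S : ι → RCF Ω A) (y x : Ω) :
    ent (∑ i ∈ s, S i) y x = ∑ i ∈ s, ent (S i) y x := by
  classical
  induction s using Finset.induction_on with
  | empty => rw [Finset.sum_empty, Finset.sum_empty, ent_zero]
  | insert a s ha ih => rw [Finset.sum_insert ha, Finset.sum_insert ha, ent_add, ih]

omit [MulAction G V] in
open Classical in
theorem ent_dg {n : Type} [DecidableEq n] (E : n → Set (Tw D V)) (i j : n) (y x : Tw D V) :
    ent ((dg E : Matrix n n (Kr D V R)) i j) y x = if i = j ∧ y = x ∧ x ∈ E j then 1 else 0 := by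
  rw [dg, Matrix.diagonal_apply]
  by_cases h : i = j
  · subst h
    rw [if_pos rfl, ent_ind]
    exact if_congr (by simp) rfl rfl
  · rw [if_neg h, ent_zero, if_neg fun h' => h h'.1]

omit [MulAction G V] in
/-- The entries of a product with a diagonal matrix on the left. -/
theorem ent_dg_mul {n n' : Type} [Fintype n] [DecidableEq n] (E : n → Set (Tw D V))
    (f : Matrix n n' (Kr D V R)) (i : n) (j : n') (y x : Tw D V) (h : y ∉ E i) :
    ent (((dg E : Matrix n n (Kr D V R)) * f) i j) y x = 0 := by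
  classical
  rw [dg, Matrix.diagonal_mul]
  rw [ent_mul_row _ _ _ _ {y} fun v hv => ?_]
  · rw [Finset.sum_singleton, ent_ind, if_neg fun h' => h h'.2, zero_mul]
  · rw [ent_ind] at hv
    rw [Finset.mem_singleton]
    by_contra hne
    exact hv (if_neg fun h' => hne h'.1.symm)

end Mat

section Base

variable {Γ G Q V L K : Type} [Group Γ] [Group G] [MulAction Γ Q] [MulAction G V]
    [CommRing L] [CommGroup K] [Fintype Q] {D : Coc Γ G Q}

/-- The points with all coordinates in `B`. -/
def Fu (B : Finset V) (x : Tw D V) : Prop := ∀ q, ∃ v ∈ B, x q = some v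

omit [MulAction G V] in
theorem fu_finite (B : Finset V) : {x : Tw D V | Fu B x}.Finite := by
  classical
  have h : {x : Tw D V | Fu B x} ⊆ {x : Q → Option V | ∀ q, x q ∈ (B.image some : Set (Option V))} := by
    intro x hx q
    obtain ⟨v, hv, h⟩ := hx q
    rw [Finset.mem_coe]
    exact Finset.mem_image.2 ⟨v, hv, h.symm⟩
  exact (Set.Finite.pi' fun q => Finset.finite_toSet _).subset h

omit [MulAction G V] in
theorem lev_full (x : Tw D V) : lev x = Fintype.card Q ↔ ∀ q, x q ≠ none := by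
  rw [lev, Finset.card_eq_iff_eq_univ, Finset.eq_univ_iff_forall]
  constructor
  · intro h q hq
    have := h q
    rw [Finset.mem_filter, hq] at this
    exact absurd this.2 (by simp)
  · intro h q
    rw [Finset.mem_filter]
    exact ⟨Finset.mem_univ q, Option.isSome_iff_ne_none.2 (h q)⟩

omit [MulAction G V] in
theorem fu_iff (B : Finset V) (x : Tw D V) :
    Fu B x ↔ lev x = Fintype.card Q ∧ near B x = x := by
  classical
  rw [lev_full]
  constructor
  · intro h
    refine ⟨fun q hq => ?_, funext fun q => ?_⟩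
    · obtain ⟨v, _, h1⟩ := h q
      rw [hq] at h1
      exact absurd h1.symm (Option.some_ne_none v)
    · obtain ⟨v, hv, h1⟩ := h q
      rw [near, h1]
      simp [Option.filter, hv]
  · rintro ⟨h1, h2⟩ q
    obtain ⟨v, hv⟩ := Option.ne_none_iff_exists'.1 (h1 q)
    refine ⟨v, ?_, hv⟩
    have h3 : near B x q = x q := by rw [h2]
    rw [near, hv] at h3
    by_contra hB
    simp [Option.filter, hB] at h3

/-- The pairs of a full near point and an index. -/
abbrev Ix {n : Type} (B : Finset V) (E : n → Set (Tw D V)) : Type :=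
  {p : Tw D V × n // Fu B p.1 ∧ p.1 ∈ E p.2}

omit [MulAction G V] in
theorem ix_finite {n : Type} [Finite n] (B : Finset V) (E : n → Set (Tw D V)) :
    Finite (Ix B E) := by
  refine Set.Finite.to_subtype (s := {p : Tw D V × n | Fu B p.1 ∧ p.1 ∈ E p.2}) ?_
  exact ((fu_finite B).prod (Set.finite_univ (α := n))).subset fun p hp =>
    ⟨hp.1, Set.mem_univ _⟩

section Prod

variable {R : Type} [CommRing R]

omit [MulAction G V] in
theorem ix_mul {n : Type} [Fintype n] (B : Finset V) (E : n → Set (Tw D V))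
    [Fintype (Ix B E)] (f g : Matrix n n (Kr D V R)) (i j : n) (y x : Tw D V)
    (hg : ∀ v z, ent (g v j) z x ≠ 0 → Fu B z ∧ z ∈ E v) :
    ∑ v : Ix B E, ent (f i v.1.2) y v.1.1 * ent (g v.1.2 j) v.1.1 x =
      ent ((f * g) i j) y x := by
  classical
  have hfin : (Set.Finite {z : Tw D V | Fu B z}) := fu_finite B
  rw [Matrix.mul_apply, ent_sum]
  have h1 : ∀ v, ent (f i v * g v j) y x = ∑ z ∈ hfin.toFinset, ent (f i v) y z * ent (g v j) z x :=
    fun v => ent_mul_col _ _ _ _ _ fun z hz => by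
      rw [Set.Finite.mem_toFinset]
      exact (hg v z hz).1
  rw [Finset.sum_congr rfl fun v _ => h1 v, ← Finset.sum_product_right']
  rw [← Finset.sum_subtype ((hfin.toFinset ×ˢ Finset.univ).filter fun p => p.1 ∈ E p.2)
    (p := fun p : Tw D V × n => Fu B p.1 ∧ p.1 ∈ E p.2) (fun p => by
      rw [Finset.mem_filter, Finset.mem_product, Set.Finite.mem_toFinset]
      exact ⟨fun h => ⟨h.1.1, h.2⟩, fun h => ⟨⟨h.1, Finset.mem_univ _⟩, h.2⟩⟩)
    fun p => ent (f i p.2) y p.1 * ent (g p.2 j) p.1 x]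
  refine Finset.sum_subset (Finset.filter_subset _ _) fun p _ hp => ?_
  rw [Finset.mem_filter] at hp
  by_contra hne
  have h2 := hg p.2 p.1 (right_ne_zero_of_mul hne)
  refine hp ⟨?_, h2.2⟩
  rw [Finset.mem_product, Set.Finite.mem_toFinset]
  exact ⟨h2.1, Finset.mem_univ _⟩

/-- The finite matrix of a matrix of kernels. -/
noncomputable def zm {n : Type} (B : Finset V) (E E' : n → Set (Tw D V))
    (f : Matrix n n (Kr D V R)) : Matrix (Ix B E') (Ix B E) (MonoidAlgebra R Γ) :=
  fun p q => ent (f p.1.2 q.1.2) p.1.1 q.1.1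

omit [MulAction G V] in
theorem zm_mul {n : Type} [Fintype n] [DecidableEq n] (B : Finset V) (E E' : n → Set (Tw D V))
    [Fintype (Ix B E)] [DecidableEq (Ix B E')] (f g : Matrix n n (Kr D V R))
    (hg : ∀ v j z x, Fu B x → ent (g v j) z x ≠ 0 → Fu B z ∧ z ∈ E v) (h : f * g = dg E') :
    zm B E E' f * zm B E' E g = 1 := by
  classical
  ext p q : 1
  rw [Matrix.mul_apply, Matrix.one_apply]
  have h1 := ix_mul B E f g p.1.2 q.1.2 p.1.1 q.1.1 fun v z => hg v _ z _ q.2.1
  refine h1.trans ?_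
  rw [h, ent_dg]
  refine if_congr ?_ rfl rfl
  constructor
  · rintro ⟨h2, h3, _⟩
    exact Subtype.ext (Prod.ext h3 h2)
  · intro h2
    rw [h2]
    exact ⟨rfl, rfl, q.2.2⟩

end Prod

omit [MulAction G V] [Fintype Q] in
private theorem coeff_evA (c : L) (a : MonoidAlgebra (Polynomial L) Γ) (g : Γ) :
    (evA c a).coeff g = (a.coeff g).eval c := by
  rw [evA, MonoidAlgebra.coeff_mapRingHom]
  rfl

private theorem rr_card (T : Tr G V) (x : Tw D V) :
    rr T x = (@Finset.filter Q (fun q => x q = some T.root) (fun _ => Classical.propDecidable _)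
      Finset.univ).card := by
  rw [rr]
  congr 1
  congr 1

theorem rr_full (T : Tr G V) (x : Tw D V) : rr T x = Fintype.card Q ↔ x = rt T := by
  rw [rr_card, ← Finset.card_univ]
  refine (@Finset.card_filter_eq_iff Q Finset.univ (fun q => x q = some T.root)
    fun _ => Classical.propDecidable _).trans
    ⟨fun h => funext fun q => h q (Finset.mem_univ q), fun h q _ => ?_⟩
  rw [h]
  rfl

private theorem rr_le (T : Tr G V) (x : Tw D V) : rr T x ≤ Fintype.card Q := by
  rw [rr_card, ← Finset.card_univ]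
  exact @Finset.card_filter_le Q Finset.univ (fun q => x q = some T.root)
    fun _ => Classical.propDecidable _

theorem Rk.dg {R : Type} [CommRing R] {n : Type} [DecidableEq n] {E : n → Set (Tw D V)}
    (hE : ∀ i, RS (E i)) (i j : n) : Rk ((QT.dg E : Matrix n n (Kr D V R)) i j) := by
  rw [QT.dg, Matrix.diagonal_apply]
  split
  · exact Rk.ind (hE i)
  · exact Rk.zero

/-- The inverse is the identity below the level as well. -/
theorem eqB_inv (hLev : S_Lev) {R : Type} [CommRing R] {n : Type} [Fintype n] [DecidableEq n]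
    (k : ℕ) (E E' : n → Set (Tw D V)) (f f' : Matrix n n (Kr D V R)) (hE : ∀ i, RS (E i))
    (hE' : ∀ i, RS (E' i)) (hf : ∀ i j, Rk (f i j))
    (h : IsoM (dg E) (dg E') f f') (hEE : ∀ i x, lev x < k → (x ∈ E i ↔ x ∈ E' i))
    (hk : EqB k f (dg E)) : EqB k f' (dg E) := by
  classical
  have e0 : EqB k (dg E : Matrix n n (Kr D V R)) (dg E') := by
    intro i j y x hx
    rw [ent_dg, ent_dg]
    exact if_congr (and_congr Iff.rfl (and_congr Iff.rfl (hEE j x hx))) rfl rfl
  have r0 : ∀ S : Matrix n n (Kr D V R), EqB k S S := fun S i j y x _ => rfl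
  have e1 := hLev.2 Γ G Q V R D n n n k f' f' f (dg E) (fun i j => (hf i j).jc)
    (fun i j => (Rk.dg hE i j).jc) (r0 f') hk
  have e2 := hLev.2 Γ G Q V R D n n n k f' f' (dg E) (dg E') (fun i j => (Rk.dg hE i j).jc)
    (fun i j => (Rk.dg hE' i j).jc) (r0 f') e0
  rw [h.h1] at e1
  rw [h.h5] at e2
  intro i j y x hx
  rw [e1 i j y x hx, e2 i j y x hx]

/-- Outside the near points nothing goes to the near points at the top level. -/
theorem top_near (hLev : S_Lev) {R : Type} [CommRing R] {n : Type} [Fintype n] [DecidableEq n]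
    (E E₁ : n → Set (Tw D V)) (f : Matrix n n (Kr D V R)) (hf : ∀ i j, Rk (f i j))
    (hl : dg E₁ * f = f) (B : Finset V)
    (hB : ∀ i j y x, lev x = Fintype.card Q → (near B x ≠ x ∨ near B y ≠ y) →
      ent (f i j) y x = ent ((dg E : Matrix n n (Kr D V R)) i j) y x) :
    ∀ i j y x, Fu B x → ent (f i j) y x ≠ 0 → Fu B y ∧ y ∈ E₁ i := by
  classical
  intro i j y x hx hne
  have hx' := (fu_iff B x).1 hx
  have hl1 : lev y = lev x := hLev.1 Γ G Q V R D (f i j) (hf i j).jc y x hne
  constructor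
  · rw [fu_iff]
    refine ⟨hl1.trans hx'.1, ?_⟩
    by_contra hy
    have h1 := hB i j y x hx'.1 (Or.inr hy)
    rw [h1, ent_dg] at hne
    have h2 : i = j ∧ y = x ∧ x ∈ E j := by
      by_contra h3
      exact hne (if_neg h3)
    rw [h2.2.1] at hy
    exact hy hx'.2
  · by_contra hy
    refine hne ?_
    rw [← hl]
    exact ent_dg_mul E₁ f i j y x hy

theorem EPbase (hKey : S_Key) (hLev : S_Lev) : S_EPbase := by
  classical
  intro Γ G Q V L K _ _ _ _ _ _ hL _ _ _ D T κ hyp n _ _ E E' f f' hE hE' hS hS' hI hEE hk _ _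
  have : InvariantBasisNumber (MonoidAlgebra L Γ) := ibn_gr
  have : InvariantBasisNumber (MonoidAlgebra (Polynomial L) Γ) := ibn_gr
  have hP := kperm_of_ku hyp.ku
  have hk' : EqB (Fintype.card Q) f' (dg E) := eqB_inv hLev _ E E' f f' hE hE'
    (fun i j => (hS i j).reg) hI hEE hk
  obtain ⟨B₁, hB₁⟩ := hKey Γ G Q V (Polynomial L) D n (Fintype.card Q) E f
    (fun i j => (hS i j).reg) hE hk
  obtain ⟨B₂, hB₂⟩ := hKey Γ G Q V (Polynomial L) D n (Fintype.card Q) E f'
    (fun i j => (hS' i j).reg) hE hk'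
  set B : Finset V := insert T.root (B₁ ∪ B₂) with hBdef
  have s1 : B₁ ⊆ B := Finset.subset_union_left.trans (Finset.subset_insert _ _)
  have s2 : B₂ ⊆ B := Finset.subset_union_right.trans (Finset.subset_insert _ _)
  have t1 := top_near hLev E E' f (fun i j => (hS i j).reg) hI.h4 B (hB₁ B s1)
  have t2 := top_near hLev E E f' (fun i j => (hS' i j).reg) hI.h6 B (hB₂ B s2)
  have := ix_finite B E
  have := ix_finite B E'
  letI : Fintype (Ix B E) := Fintype.ofFinite _
  letI : Fintype (Ix B E') := Fintype.ofFinite _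
  have z1 : zm B E E' f * zm B E' E f' = 1 := zm_mul B E E' f f' t2 hI.h2
  have z2 : zm B E' E f' * zm B E E' f = 1 := zm_mul B E' E f' f t1 hI.h1
  have ev : ∀ c : L, (zm B E E' f).map (evA c) * (zm B E' E f').map (evA c) = 1 ∧
      (zm B E' E f').map (evA c) * (zm B E E' f).map (evA c) = 1 := by
    intro c
    rw [← Matrix.map_mul, ← Matrix.map_mul, z1, z2, Matrix.map_one _ (map_zero _) (map_one _),
      Matrix.map_one _ (map_zero _) (map_one _)]
    exact ⟨rfl, rfl⟩
  have e0 : Ix B E ≃ Ix B E' := Fintype.equivOfCardEq (Matrix.square_of_invertible _ _ z2 z1)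
  -- homotopy
  have a1 : kr κ ((zm B E E' f).map (evA 0)) = kr κ ((zm B E E' f).map (evA 1)) := by
    rw [kr_eq hP (ev 0).1 (ev 0).2 e0, kr_eq hP (ev 1).1 (ev 1).2 e0]
    refine hyp.hom (Ix B E) ((zm B E E' f).submatrix e0 id) ((zm B E' E f').submatrix id e0) ?_ ?_
    · have := Matrix.submatrix_mul_equiv (zm B E E' f) (zm B E' E f') e0 (Equiv.refl _) e0
      rw [Equiv.coe_refl] at this
      rw [this, z1, Matrix.submatrix_one_equiv]
    · rw [Matrix.submatrix_mul_equiv, z2, Matrix.submatrix_id_id]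
  -- at zero
  have a2 : kr κ ((zm B E E' f).map (evA 0)) = 1 := by
    refine kr_lab hL hyp.ku (fun q : Ix B E => q.1.1) (fun p : Ix B E' => p.1.1) (ev 0).1 (ev 0).2
      (fun p q g h => ?_) (fun q p g h => ?_) fun q => hyp.pts _ fun c hc => ?_
    · rw [Matrix.map_apply, coeff_evA] at h
      exact (hS _ _).zero g _ _ h
    · rw [Matrix.map_apply, coeff_evA] at h
      exact (hS' _ _).zero g _ _ h
    · obtain ⟨v, _, hv⟩ := q.2.1 c
      rw [hc] at hv
      exact absurd hv.symm (Option.some_ne_none v)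
  -- at one
  have hrr : ∀ x : Tw D V, rr T x = Fintype.card Q ↔ x = rt T := rr_full T
  have hle : ∀ x : Tw D V, rr T x ≤ Fintype.card Q := rr_le T
  obtain ⟨b1, b2, b3⟩ := kr_tri_top hL hyp.ku (Fintype.card Q) (fun q : Ix B E => rr T q.1.1)
    (fun p : Ix B E' => rr T p.1.1) (fun q => hle _) (fun p => hle _)
    (fun q : Ix B E => ed T q.1.1) (fun p : Ix B E' => ed T p.1.1) (ev 1).1 (ev 1).2
    (fun p q g h => by
      rw [Matrix.map_apply, coeff_evA] at h
      have h1 := (hS _ _).one g _ _ h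
      exact ⟨h1.1, fun h2 _ => h1.2 h2⟩)
    (fun q p g h => by
      rw [Matrix.map_apply, coeff_evA] at h
      have h1 := (hS' _ _).one g _ _ h
      exact ⟨h1.1, fun h2 _ => h1.2 h2⟩)
    (fun q h => hyp.eds _ (fun c hc => by
      obtain ⟨v, _, hv⟩ := q.2.1 c
      rw [hc] at hv
      exact absurd hv.symm (Option.some_ne_none v)) fun h1 => (lt_irrefl _ (by
        rw [(hrr _).2 h1] at h
        exact h)))
  have hrt : Fu B (rt T : Tw D V) := fun q => ⟨T.root, Finset.mem_insert_self _ _, rfl⟩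
  let i1 : {i // (rt T : Tw D V) ∈ E i} ≃ {q : Ix B E // rr T q.1.1 = Fintype.card Q} :=
    { toFun := fun i => ⟨⟨(rt T, i.1), hrt, i.2⟩, (hrr _).2 rfl⟩
      invFun := fun q => ⟨q.1.1.2, by
        have h1 := (hrr _).1 q.2
        rw [← h1]
        exact q.1.2.2⟩
      left_inv := fun i => rfl
      right_inv := fun q => Subtype.ext (Subtype.ext (Prod.ext ((hrr _).1 q.2).symm rfl)) }
  let i2 : {i // (rt T : Tw D V) ∈ E' i} ≃ {q : Ix B E' // rr T q.1.1 = Fintype.card Q} :=
    { toFun := fun i => ⟨⟨(rt T, i.1), hrt, i.2⟩, (hrr _).2 rfl⟩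
      invFun := fun q => ⟨q.1.1.2, by
        have h1 := (hrr _).1 q.2
        rw [← h1]
        exact q.1.2.2⟩
      left_inv := fun i => rfl
      right_inv := fun q => Subtype.ext (Subtype.ext (Prod.ext ((hrr _).1 q.2).symm rfl)) }
  have c1 := kr_reindex hP b1 b2 i1 i2
  rw [← b3, ← a1, a2] at c1
  exact c1

end Base

end Pool.Agent.QT
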