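import Pool.Agent.Lib.MP_8f66f0_al_Q.EPal

/-!
# The step `EP(k+1) → EP(k)`: the levels `≤ k` of `b h a`
-/

set_option autoImplicit false

namespace Pool.Agent.QT.Sp

open scoped Pointwise
open Pool.Agent.TQ Pool.Agent.QT Matrix

variable {Γ G Q V : Type} [Group Γ] [Group G] [MulAction Γ Q] [MulAction G V] {D : Coc Γ G Q}
  {R : Type} [CommRing R] [Fintype Q] {B : Finset V} {k : ℕ} {n : Type} [Fintype n] [DecidableEq n]

/-- The near points of level `k`. -/
def FS (D : Coc Γ G Q) (B : Finset V) (k : ℕ) : Set (Tw D V) := {x | lev x = k ∧ near B x = x}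

/-- The projection onto the near points of level `k`. -/
noncomputable def pi (D : Coc Γ G Q) (R : Type) [CommRing R] (B : Finset V) (k : ℕ) (n : Type)
    [DecidableEq n] : Matrix n n (Kr D V R) := dg fun _ => FS D B k

theorem ent_dg_ne {E : n → Set (Tw D V)} {i j : n} {y x : Tw D V}
    (h : ent ((dg E : Matrix n n (Kr D V R)) i j) y x ≠ 0) : i = j ∧ y = x ∧ x ∈ E j := by
  classical
  by_contra h'
  exact h (by rw [ent_dg, if_neg h'])

theorem ent_dg_zero {E : n → Set (Tw D V)} {i j : n} {y x : Tw D V}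
    (h : ¬ (i = j ∧ y = x ∧ x ∈ E j)) : ent ((dg E : Matrix n n (Kr D V R)) i j) y x = 0 := by
  classical
  rw [ent_dg, if_neg h]

theorem ent_dg_one {E : n → Set (Tw D V)} {i : n} {x : Tw D V}
    (h : x ∈ E i) : ent ((dg E : Matrix n n (Kr D V R)) i i) x x = 1 := by
  classical
  rw [ent_dg, if_pos ⟨rfl, rfl, h⟩]

variable {E E' : n → Set (Tw D V)} {f f' : Matrix n n (Kr D V R)}

/-- The hypothesis on `B`. -/
def HB (B : Finset V) (k : ℕ) (E : n → Set (Tw D V)) (f : Matrix n n (Kr D V R)) : Prop :=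
  ∀ i j y x, lev x = k → (near B x ≠ x ∨ near B y ≠ y) →
    ent (f i j) y x = ent ((dg E : Matrix n n (Kr D V R)) i j) y x

theorem pi_comm (hLev : S_Lev) (hf : Jm f) (hB : HB B k E f) :
    f * pi D R B k n = pi D R B k n * f := by
  refine mat_ext fun i j y x => ?_
  have h1 := ent_mul_dg (fun _ : n => FS D B k) f i j y x
  have h2 := ent_dg_mul (fun _ : n => FS D B k) f i j y x
  by_cases hx : x ∈ FS D B k
  · by_cases hy : y ∈ FS D B k
    · exact (h1.1 hx).trans (h2.1 hy).symm
    · refine (h1.1 hx).trans ((?_ : _ = (0 : MonoidAlgebra R Γ)).trans (h2.2 hy).symm)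
      by_contra h
      have h3 := hLev.1 Γ G Q V R D _ (hf i j) y x h
      have h4 : near B y ≠ y := fun h4 => hy ⟨h3.trans hx.1, h4⟩
      rw [hB i j y x hx.1 (Or.inr h4)] at h
      obtain ⟨-, rfl, -⟩ := ent_dg_ne h
      exact hy hx
  · by_cases hy : y ∈ FS D B k
    · refine (h1.2 hx).trans ((?_ : (0 : MonoidAlgebra R Γ) = _).trans (h2.1 hy).symm)
      by_contra h
      have h3 := hLev.1 Γ G Q V R D _ (hf i j) y x (Ne.symm h)
      have h4 : near B x ≠ x := fun h4 => hx ⟨h3.symm.trans hy.1, h4⟩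
      rw [hB i j y x (h3.symm.trans hy.1) (Or.inl h4)] at h
      obtain ⟨-, rfl, -⟩ := ent_dg_ne (Ne.symm h)
      exact hx hy
    · exact (h1.2 hx).trans (h2.2 hy).symm

theorem pi_idem : pi D R B k n * pi D R B k n = pi D R B k n := dg_idem _

/-- `mvT * mv` is the identity on the near points. -/
theorem mvT_mv_pi : mvT D R B k n * (mv D R B k n * pi D R B k n) = pi D R B k n := by
  refine mat_ext fun i j y x => ?_
  have h2 := ent_mvT_mul (B := B) (k := k) (mv D R B k n *
    pi D R B k n) i j y x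
  by_cases hy : lev (near B y) = k
  · obtain ⟨l, hl⟩ := fk_near hy
    rw [h2.1 l hl, (ent_mv_mul _ (l, i) j y x).1 hl]
  · rw [h2.2 hy]
    symm
    refine ent_dg_zero ?_
    rintro ⟨-, rfl, h⟩
    exact hy (by rw [h.2]; exact h.1)

/-- The relations between the finite parts. -/
theorem rel_uw (hLev : S_Lev) (hf : Jm f) (hf' : Jm f') (h : IsoM (dg E) (dg E') f f')
    (hB : HB B k E f) (hB' : HB B k E f') :
    ((f' * pi D R B k n) * mvT D R B k n) * (mv D R B k n * (f * pi D R B k n)) =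
      dg E * pi D R B k n := by
  have h1 := pi_comm hLev hf hB
  have h2 := pi_comm hLev hf' hB'
  calc ((f' * pi D R B k n) * mvT D R B k n) * (mv D R B k n * (f * pi D R B k n))
      = (f' * pi D R B k n) * (mvT D R B k n * (mv D R B k n * pi D R B k n)) * f := by
        rw [h1]
        simp only [Matrix.mul_assoc]
    _ = f' * (pi D R B k n * pi D R B k n) * f := by
        rw [mvT_mv_pi]
        simp only [Matrix.mul_assoc]
    _ = f' * f * pi D R B k n := by
        rw [pi_idem, Matrix.mul_assoc, ← h1, Matrix.mul_assoc]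
    _ = dg E * pi D R B k n := by rw [h.h1]

theorem rel_wu (hLev : S_Lev) (hf : Jm f) (hf' : Jm f') (h : IsoM (dg E) (dg E') f f')
    (hB : HB B k E f) (hB' : HB B k E f') :
    (mv D R B k n * (f * pi D R B k n)) * ((f' * pi D R B k n) * mvT D R B k n) =
      mv D R B k n * (dg E' * pi D R B k n) * mvT D R B k n := by
  have h1 := pi_comm hLev hf hB
  have h2 := pi_comm hLev hf' hB'
  calc (mv D R B k n * (f * pi D R B k n)) * ((f' * pi D R B k n) * mvT D R B k n)
      = mv D R B k n * (f * (pi D R B k n * pi D R B k n) * f') * mvT D R B k n := by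
        rw [h2]
        simp only [Matrix.mul_assoc]
    _ = mv D R B k n * (f * f' * pi D R B k n) * mvT D R B k n := by
        rw [pi_idem, Matrix.mul_assoc f, ← h2, ← Matrix.mul_assoc f]
    _ = mv D R B k n * (dg E' * pi D R B k n) * mvT D R B k n := by rw [h.h2]

/-- The product `h a` on the levels `≤ k`, with the finite parts. -/
theorem ha_eq (hLev : S_Lev) (hf : Jm f) (hf' : Jm f') (h : IsoM (dg E) (dg E') f f')
    (hB : HB B k E f) (hB' : HB B k E f') :
    fromBlocks f 0 0 (mv D R B k n * (f' * pi D R B k n) * mvT D R B k n) *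
      aM ((f' * pi D R B k n) * mvT D R B k n) (mv D R B k n * (f * pi D R B k n)) =
    fromBlocks (f - f * pi D R B k n) (-(dg E' * pi D R B k n * mvT D R B k n))
      (mv D R B k n * (dg E * pi D R B k n)) 0 := by
  have h1 := pi_comm hLev hf hB
  have h2 := pi_comm hLev hf' hB'
  have a1 := rel_uw hLev hf hf' h hB hB'
  have a2 := rel_wu hLev hf hf' h hB hB'
  have h3 : f' * f * f' = f' := by rw [h.h1, h.h6]
  have h4 : f * f' * f = f := by rw [h.h2, h.h4]
  have a3 : ((f' * pi D R B k n) * mvT D R B k n) * (mv D R B k n * (f * pi D R B k n)) *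
      ((f' * pi D R B k n) * mvT D R B k n) = (f' * pi D R B k n) * mvT D R B k n := by
    rw [a1, ← Matrix.mul_assoc, ← Matrix.mul_assoc]
    congr 1
    rw [Matrix.mul_assoc (dg E), ← h2, ← Matrix.mul_assoc (dg E), h.h6, Matrix.mul_assoc, pi_idem]
  rw [aM_eq a3, fromBlocks_multiply]
  simp only [Matrix.zero_mul, add_zero, zero_add, Matrix.mul_neg]
  congr 1
  · rw [a1, Matrix.mul_sub, Matrix.mul_one, ← Matrix.mul_assoc, h.h3]
  · rw [← Matrix.mul_assoc, ← Matrix.mul_assoc, h.h2]
  · -- mv f' π mvT mv f π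
    calc mv D R B k n * (f' * pi D R B k n) * mvT D R B k n * (mv D R B k n * (f * pi D R B k n))
        = mv D R B k n * (((f' * pi D R B k n) * mvT D R B k n) * (mv D R B k n * (f * pi D R B k n))) := by
          simp only [Matrix.mul_assoc]
      _ = mv D R B k n * (dg E * pi D R B k n) := by rw [a1]
  · rw [neg_zero, zero_add, Matrix.mul_sub, Matrix.mul_one, sub_eq_zero]
    calc mv D R B k n * (f' * pi D R B k n) * mvT D R B k n
        = mv D R B k n * ((f' * pi D R B k n) * mvT D R B k n) := by simp only [Matrix.mul_assoc]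
      _ = mv D R B k n * ((((f' * pi D R B k n) * mvT D R B k n) * (mv D R B k n * (f * pi D R B k n))) *
          ((f' * pi D R B k n) * mvT D R B k n)) := by rw [a3]
      _ = _ := by simp only [Matrix.mul_assoc]

/-- The level description of the far lift. -/
theorem eqB_fl {W : Matrix n n (Kr D V R)} (hf : Jm f)
    (hLev : S_Lev) (h1 : ∀ i j y x, lev x < k → ent (W i j) y x = 0)
    (h2 : ∀ i j y x, lev x = k → (near B x = x ∧ near B y = y → ent (W i j) y x = ent (f i j) y x) ∧
      (¬ (near B x = x ∧ near B y = y) → ent (W i j) y x = 0)) (hB : HB B k E f) :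
    EqB (k + 1) W (f * pi D R B k n) := by
  intro i j y x hx
  have h3 := ent_mul_dg (fun _ : n => FS D B k) f i j y x
  by_cases hF : x ∈ FS D B k
  · refine Eq.trans ?_ (h3.1 hF).symm
    by_cases hy : near B y = y
    · exact (h2 i j y x hF.1).1 ⟨hF.2, hy⟩
    · rw [(h2 i j y x hF.1).2 fun h => hy h.2, hB i j y x hF.1 (Or.inr hy)]
      symm
      refine ent_dg_zero ?_
      rintro ⟨-, rfl, -⟩
      exact hy hF.2
  · refine Eq.trans ?_ (h3.2 hF).symm
    rcases Nat.lt_succ_iff_lt_or_eq.1 hx with hx | hx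
    · exact h1 i j y x hx
    · exact (h2 i j y x hx).2 fun h => hF ⟨hx, h.1⟩

/-- The level description of the full extension. -/
theorem eqB_xt (hLev : S_Lev) (hf' : Jm f')
    {Z' : Matrix (Fk D B k × n) (Fk D B k × n) (Kr D V R)}
    (hZ : ∀ p q y x, lev x < k + 1 →
      (x = q.1.1 ∧ y = p.1.1 → ent (Z' p q) y x = ent (f' p.2 q.2) p.1.1 q.1.1) ∧
      (¬ (x = q.1.1 ∧ y = p.1.1) → ent (Z' p q) y x = 0)) :
    EqB (k + 1) Z' (mv D R B k n * (f' * pi D R B k n) * mvT D R B k n) := by
  intro p q y x hx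
  by_cases hxq : near B x = q.1.1
  · rw [(ent_mul_mvT _ p q y x).1 hxq]
    by_cases hyp : near B y = p.1.1
    · rw [(ent_mv_mul _ p q.2 y x).1 hyp]
      have h3 := ent_mul_dg (fun _ : n => FS D B k) f' p.2 q.2 y x
      by_cases hF : x ∈ FS D B k
      · refine Eq.trans ?_ (h3.1 hF).symm
        have hx2 : x = q.1.1 := hF.2.symm.trans hxq
        by_cases hy : y = p.1.1
        · rw [(hZ p q y x hx).1 ⟨hx2, hy⟩, hx2, hy]
        · rw [(hZ p q y x hx).2 fun h => hy h.2]
          symm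
          by_contra h
          have h4 := hLev.1 Γ G Q V R D _ (hf' p.2 q.2) y x h
          refine hy ?_
          rw [← hyp]
          refine (near_eq_of_lev ?_).symm
          rw [hyp, p.1.2.1, h4, hF.1]
      · refine Eq.trans ?_ (h3.2 hF).symm
        refine (hZ p q y x hx).2 fun h => hF ?_
        rw [h.1]
        exact q.1.2
    · rw [(ent_mv_mul _ p q.2 y x).2 hyp]
      refine (hZ p q y x hx).2 fun h => hyp ?_
      rw [h.2]
      exact p.1.2.2
  · rw [(ent_mul_mvT _ p q y x).2 hxq]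
    refine (hZ p q y x hx).2 fun h => hxq ?_
    rw [h.1]
    exact q.1.2.2

/-- The last product. -/
theorem b_ha (hE : EqB k f (dg E)) (hB : HB B k E f) :
    EqB (k + 1) (bM D R B k n *
      (fromBlocks (f - f * pi D R B k n) (-(dg E' * pi D R B k n * mvT D R B k n))
      (mv D R B k n * (dg E * pi D R B k n)) 0)) (dg (Sum.elim E (MM E'))) := by
  classical
  -- outside of the near points, `f` is the identity
  have hfar : ∀ i j y x, lev x < k + 1 → x ∉ FS D B k →
      ent (f i j) y x = ent ((dg E : Matrix n n (Kr D V R)) i j) y x := by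
    intro i j y x hx hF
    rcases Nat.lt_succ_iff_lt_or_eq.1 hx with hx | hx
    · exact hE i j y x hx
    · exact hB i j y x hx (Or.inl fun h => hF ⟨hx, h⟩)
  have hfp : ∀ i j y x, (x ∈ FS D B k → ent ((f - f * pi D R B k n) i j) y x = 0) ∧
      (x ∉ FS D B k → ent ((f - f * pi D R B k n) i j) y x = ent (f i j) y x) := by
    intro i j y x
    have h3 := ent_mul_dg (fun _ : n => FS D B k) f i j y x
    rw [Matrix.sub_apply, ent_sub]
    constructor
    · intro hx
      rw [sub_eq_zero]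
      exact (h3.1 hx).symm
    · intro hx
      have h4 : ent ((f * pi D R B k n) i j) y x = 0 := h3.2 hx
      rw [h4, sub_zero]
  have hlevF : ∀ x : Tw D V, x ∈ FS D B k → lev (near B x) = k := fun x hx => by
    rw [hx.2]; exact hx.1
  have hF2 : ∀ x : Tw D V, lev x < k + 1 → lev (near B x) = k → x ∈ FS D B k := by
    intro x hx h
    have h5 := near_eq_of_lev (B := B) (x := x) (by omega)
    refine ⟨?_, h5⟩
    rw [← h5]
    exact h
  have key : ∀ (i j : n ⊕ Fk D B k × n) (y x : Tw D V), ¬ (i = j ∧ y = x ∧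
      x ∈ (Sum.elim E (MM E') : n ⊕ Fk D B k × n → Set (Tw D V)) j) →
      ent ((dg (Sum.elim E (MM E')) : Matrix _ _ (Kr D V R)) i j) y x = 0 :=
    fun i j y x h => ent_dg_zero h
  have keyl : ∀ (i j : n) (y x : Tw D V),
      ent ((dg (Sum.elim E (MM E')) : Matrix (n ⊕ Fk D B k × n) _ (Kr D V R))
        (Sum.inl i) (Sum.inl j)) y x = ent ((dg E : Matrix n n (Kr D V R)) i j) y x := by
    intro i j y x
    rw [dg_sum]
    rfl
  have keyr : ∀ (i j : Fk D B k × n) (y x : Tw D V),
      ent ((dg (Sum.elim E (MM E')) : Matrix (n ⊕ Fk D B k × n) _ (Kr D V R))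
        (Sum.inr i) (Sum.inr j)) y x = ent ((dg (MM E') : Matrix _ _ (Kr D V R)) i j) y x := by
    intro i j y x
    rw [dg_sum]
    rfl
  rintro (i | p) (j | q) y x hx
  · rw [keyl]
    by_cases hy : lev (near B y) = k
    · obtain ⟨l, hl⟩ := fk_near hy
      rw [(ent_bM_mul_inl _ i _ y x).2 l hl, fromBlocks_apply₂₁, (ent_mv_mul _ (l, i) j y x).1 hl]
      have h3 := ent_mul_dg (fun _ : n => FS D B k) (dg E : Matrix n n (Kr D V R)) i j y x
      by_cases hF : x ∈ FS D B k
      · exact h3.1 hF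
      · refine (h3.2 hF).trans ?_
        symm
        refine ent_dg_zero ?_
        rintro ⟨-, rfl, -⟩
        exact hF (hF2 y hx hy)
    · rw [(ent_bM_mul_inl _ i _ y x).1 hy, fromBlocks_apply₁₁]
      by_cases hF : x ∈ FS D B k
      · rw [(hfp i j y x).1 hF]
        symm
        refine ent_dg_zero ?_
        rintro ⟨-, rfl, -⟩
        exact hy (hlevF y hF)
      · rw [(hfp i j y x).2 hF, hfar i j y x hx hF]
  · rw [key _ _ _ _ (by rintro ⟨h, -⟩; cases h)]
    by_cases hy : lev (near B y) = k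
    · obtain ⟨l, hl⟩ := fk_near hy
      rw [(ent_bM_mul_inl _ i _ y x).2 l hl, fromBlocks_apply₂₂]
      rfl
    · rw [(ent_bM_mul_inl _ i _ y x).1 hy, fromBlocks_apply₁₂, Matrix.neg_apply, ent_neg, neg_eq_zero]
      by_cases hxq : near B x = q.1.1
      · rw [(ent_mul_mvT _ i q y x).1 hxq]
        have h3 := ent_mul_dg (fun _ : n => FS D B k) (dg E' : Matrix n n (Kr D V R)) i q.2 y x
        by_cases hF : x ∈ FS D B k
        · refine (h3.1 hF).trans (ent_dg_zero ?_)
          rintro ⟨-, rfl, -⟩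
          exact hy (hlevF y hF)
        · exact h3.2 hF
      · exact (ent_mul_mvT _ i q y x).2 hxq
  · rw [key _ _ _ _ (by rintro ⟨h, -⟩; cases h)]
    by_cases hy : near B y = p.1.1
    · rw [(ent_bM_mul_inr _ p _ y x).2 hy, fromBlocks_apply₁₁, neg_eq_zero]
      by_cases hF : x ∈ FS D B k
      · exact (hfp p.2 j y x).1 hF
      · rw [(hfp p.2 j y x).2 hF, hfar p.2 j y x hx hF]
        refine ent_dg_zero ?_
        rintro ⟨-, rfl, -⟩
        exact hF (hF2 y hx (by rw [hy]; exact p.1.2.1))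
    · rw [(ent_bM_mul_inr _ p _ y x).1 hy, fromBlocks_apply₂₁]
      exact (ent_mv_mul _ p j y x).2 hy
  · rw [keyr]
    by_cases hy : near B y = p.1.1
    · rw [(ent_bM_mul_inr _ p _ y x).2 hy, fromBlocks_apply₁₂, Matrix.neg_apply, ent_neg, neg_neg]
      by_cases hxq : near B x = q.1.1
      · rw [(ent_mul_mvT _ p.2 q y x).1 hxq]
        have h3 := ent_mul_dg (fun _ : n => FS D B k) (dg E' : Matrix n n (Kr D V R)) p.2 q.2 y x
        by_cases hF : x ∈ FS D B k
        · refine (h3.1 hF).trans ?_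
          by_cases h6 : p.2 = q.2 ∧ y = x ∧ x ∈ E' q.2
          · obtain ⟨h7, rfl, h8⟩ := h6
            have h9 : p = q := Prod.ext (Subtype.ext (hy.symm.trans hxq)) h7
            subst h9
            rw [ent_dg_one h8, ent_dg_one]
            refine ⟨?_, ?_⟩
            · rw [← hy]; exact exts_near B y
            · rw [← hy, hF.2]; exact h8
          · rw [ent_dg_zero h6, ent_dg_zero]
            rintro ⟨rfl, rfl, h7⟩
            refine h6 ⟨rfl, rfl, ?_⟩
            have h8 : y = p.1.1 := hF.2.symm.trans hy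
            rw [h8]
            exact h7.2
        · refine (h3.2 hF).trans ?_
          symm
          refine ent_dg_zero ?_
          rintro ⟨rfl, rfl, -⟩
          exact hF (hF2 y hx (by rw [hy]; exact p.1.2.1))
      · rw [(ent_mul_mvT _ p.2 q y x).2 hxq]
        symm
        refine ent_dg_zero ?_
        rintro ⟨rfl, rfl, -⟩
        exact hxq hy
    · rw [(ent_bM_mul_inr _ p _ y x).1 hy, fromBlocks_apply₂₂]
      change (0 : MonoidAlgebra R Γ) = _
      symm
      refine ent_dg_zero ?_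
      rintro ⟨rfl, rfl, h⟩
      have h1 := lev_exts_le h.1
      have h2 := eq_of_exts h.1 (by rw [p.1.2.1]; omega)
      exact hy (by rw [h2]; exact p.1.2.2)

/-- The levels `≤ k` of `b h a`. -/
theorem level (hLev : S_Lev) (hf : Jm f) (hf' : Jm f') (h : IsoM (dg E) (dg E') f f')
    (hE : EqB k f (dg E)) (hB : HB B k E f) (hB' : HB B k E f')
    {W W' : Matrix n n (Kr D V R)} (hW : Jm W) (hW' : Jm W')
    (eW : EqB (k + 1) W (f * pi D R B k n)) (eW' : EqB (k + 1) W' (f' * pi D R B k n))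
    {Z' : Matrix (Fk D B k × n) (Fk D B k × n) (Kr D V R)} (hZ' : Jm Z')
    (eZ : EqB (k + 1) Z' (mv D R B k n * (f' * pi D R B k n) * mvT D R B k n)) :
    EqB (k + 1) (bM D R B k n * (fromBlocks f 0 0 Z' *
      aM (W' * mvT D R B k n) (mv D R B k n * W))) (dg (Sum.elim E (MM E'))) := by
  have j1 : Jm (pi D R B k n) := jm_dg _
  have j2 : Jm (mv D R B k n) := jm_mv
  have j3 : Jm (mvT D R B k n) := jm_mvT
  have ju : Jm (W' * mvT D R B k n) := hW'.mul j3
  have ju' : Jm ((f' * pi D R B k n) * mvT D R B k n) := (hf'.mul j1).mul j3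
  have jw : Jm (mv D R B k n * W) := j2.mul hW
  have jw' : Jm (mv D R B k n * (f * pi D R B k n)) := j2.mul (hf.mul j1)
  have e1 : EqB (k + 1) (W' * mvT D R B k n) ((f' * pi D R B k n) * mvT D R B k n) :=
    hLev.2 Γ G Q V R D _ _ _ (k + 1) _ _ _ _ j3 j3 eW' (EqB.refl _)
  have e2 : EqB (k + 1) (mv D R B k n * W) (mv D R B k n * (f * pi D R B k n)) :=
    hLev.2 Γ G Q V R D _ _ _ (k + 1) _ _ _ _ hW (hf.mul j1) (EqB.refl _) eW
  have e3 := eqB_aM hLev ju jw ju' jw' e1 e2
  have e4 : EqB (k + 1) (fromBlocks f 0 0 Z')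
      (fromBlocks f 0 0 (mv D R B k n * (f' * pi D R B k n) * mvT D R B k n)) :=
    EqB.blocks (EqB.refl _) (EqB.refl _) (EqB.refl _) eZ
  have e5 := hLev.2 Γ G Q V R D _ _ _ (k + 1) _ _ _ _ (jm_aM ju jw) (jm_aM ju' jw') e4 e3
  rw [ha_eq hLev hf hf' h hB hB'] at e5
  have j4 : Jm (fromBlocks f 0 0 Z' * aM (W' * mvT D R B k n) (mv D R B k n * W)) :=
    (jm_blocks hf jm_zero jm_zero hZ').mul (jm_aM ju jw)
  have j5 : Jm (fromBlocks (f - f * pi D R B k n) (-(dg E' * pi D R B k n * mvT D R B k n))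
      (mv D R B k n * (dg E * pi D R B k n))
      (0 : Matrix (Fk D B k × n) (Fk D B k × n) (Kr D V R))) :=
    jm_blocks (hf.sub (hf.mul j1)) (((jm_dg _).mul j1).mul j3).neg (j2.mul ((jm_dg _).mul j1))
      jm_zero
  exact EqB.trans (hLev.2 Γ G Q V R D _ _ _ (k + 1) _ _ _ _ j4 j5 (EqB.refl _) e5)
    (b_ha (E' := E') hE hB)

end Pool.Agent.QT.Sp
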