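import Pool.Agent.Lib.MP_8f66f0_al_Q.Spec

/-!
# The step `EP(k+1) → EP(k)`: the points of level `k`, and the two halves of the proof
-/

set_option autoImplicit false

namespace Pool.Agent.QT

open scoped Pointwise
open Pool.Agent.TQ Pool.Agent.Wald

section

variable {Γ G Q V : Type} [Group Γ] [Group G] [MulAction Γ Q] [MulAction G V] [Fintype Q]

/-- The points of level `k` with all finite coordinates in `B`. -/
def Fk (D : Coc Γ G Q) (B : Finset V) (k : ℕ) : Type := {x : Tw D V // lev x = k ∧ near B x = x}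

theorem near_none_or (D : Coc Γ G Q) (B : Finset V) (x : Tw D V) (q : Q) :
    near B x q = none ∨ ∃ b ∈ B, near B x q = some b := by
  classical
  rcases h : near B x q with _ | b
  · exact Or.inl rfl
  · refine Or.inr ⟨b, ?_, rfl⟩
    rw [near, Option.filter_eq_some_iff] at h
    exact of_decide_eq_true h.2

instance finite_fk (D : Coc Γ G Q) (B : Finset V) (k : ℕ) : Finite (Fk D B k) := by
  classical
  have h1 : Set.Finite {x : Q → Option V | ∀ q, x q ∈ insert none ((B.map ⟨some,
      Option.some_injective V⟩ : Finset (Option V)) : Set (Option V))} :=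
    Set.Finite.pi' fun _ => (Finset.finite_toSet _).insert _
  have h2 : Set.Finite {x : Tw D V | lev x = k ∧ near B x = x} := by
    refine Set.Finite.subset (h1 : Set.Finite (α := Tw D V) _) fun x hx q => ?_
    rcases near_none_or D B x q with h | ⟨b, hb, h⟩
    · rw [hx.2] at h
      exact Or.inl h
    · rw [hx.2] at h
      refine Or.inr ?_
      rw [h]
      simpa using hb
  exact h2.to_subtype

noncomputable instance (D : Coc Γ G Q) (B : Finset V) (k : ℕ) : Fintype (Fk D B k) :=
  Fintype.ofFinite _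

noncomputable instance (D : Coc Γ G Q) (B : Finset V) (k : ℕ) : DecidableEq (Fk D B k) :=
  Classical.decEq _

/-- The sets of the full extension: the blocks are `(l, i)` with `l` in `E i`. -/
def MM {D : Coc Γ G Q} {B : Finset V} {k : ℕ} {n : Type} (E : n → Set (Tw D V)) :
    Fk D B k × n → Set (Tw D V) := fun p => {x | Exts p.1.1 x ∧ p.1.1 ∈ E p.2}

end

/-- **EPA** (helper22). The full extension of the inverse of the level `k` part `Z` of `f`:
`Z' p' p = xt φ p'.1 p.1 (ent (f' p'.2 p.2) p'.1 p.1)`, `Z` with `f` in place of `f'`; the invariant of its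
part at `rt` is trivial (`kr_lab` with the labels `{q | p.1 q ≠ none}`, `HypE.sets`). -/
def S_EPA : Prop :=
  ∀ (Γ G Q V L K : Type) [Group Γ] [Group G] [MulAction Γ Q] [MulAction G V]
    [CommRing L] [IsDomain L] (_ : Pool.Agent.Ind.IsEuc L) [CommGroup K] [Fintype Q]
    [DecidableEq Q] (D : Coc Γ G Q) (T : Tr G V) (κ : K1Fun (MonoidAlgebra L Γ) K) (k : ℕ),
    HypE D T κ → 0 < k → k < Fintype.card Q →
    ∀ (n : Type) [Fintype n] [DecidableEq n] (E E' : n → Set (Tw D V))
      (f f' : Matrix n n (Kr D V (Polynomial L))), (∀ i j, SS T (f i j)) →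
      (∀ i j, SS T (f' i j)) → IsoM (dg E) (dg E') f f' → ∀ B : Finset V,
      (∀ i j y x, lev x = k → (near B x ≠ x ∨ near B y ≠ y) →
        ent (f i j) y x = ent ((dg E : Matrix n n (Kr D V (Polynomial L))) i j) y x) →
      (∀ i j y x, lev x = k → (near B x ≠ x ∨ near B y ≠ y) →
        ent (f' i j) y x = ent ((dg E : Matrix n n (Kr D V (Polynomial L))) i j) y x) →
      ∃ Z Z' : Matrix (Fk D B k × n) (Fk D B k × n) (Kr D V (Polynomial L)),
        (∀ p q, SS T (Z p q)) ∧ (∀ p q, SS T (Z' p q)) ∧ IsoM (dg (MM E')) (dg (MM E)) Z' Z ∧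
        (∀ p q y x, lev x < k + 1 →
          (x = q.1.1 ∧ y = p.1.1 → ent (Z' p q) y x = ent (f' p.2 q.2) p.1.1 q.1.1) ∧
          (¬ (x = q.1.1 ∧ y = p.1.1) → ent (Z' p q) y x = 0)) ∧
        ∀ [Fintype {p : Fk D B k × n // rt T ∈ MM E' p}]
          [Fintype {p : Fk D B k × n // rt T ∈ MM E p}],
          kr κ ((eps T Z').submatrix (Subtype.val : {p : Fk D B k × n // rt T ∈ MM E p} → _)
            (Subtype.val : {p : Fk D B k × n // rt T ∈ MM E' p} → _)) = 1

/-- **IsoEps** (helper22, in `Iso`). The parts at `rt` of an isomorphism are inverse to each other. -/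
def S_IsoEps : Prop :=
  ∀ (Γ G Q V L : Type) [Group Γ] [Group G] [MulAction Γ Q] [MulAction G V] [CommRing L]
    [Fintype Q] (D : Coc Γ G Q) (T : Tr G V) (n n' : Type) [Fintype n] [DecidableEq n]
    [Fintype n'] [DecidableEq n'] (E : n → Set (Tw D V)) (E' : n' → Set (Tw D V))
    (f : Matrix n' n (Kr D V (Polynomial L))) (f' : Matrix n n' (Kr D V (Polynomial L))),
    (∀ i j, SS T (f i j)) → (∀ i j, SS T (f' i j)) → IsoM (dg E) (dg E') f f' →
    ∀ [Fintype {i // rt T ∈ E i}] [Fintype {i // rt T ∈ E' i}] [DecidableEq {i // rt T ∈ E i}]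
      [DecidableEq {i // rt T ∈ E' i}],
      (eps T f).submatrix (Subtype.val : {i // rt T ∈ E' i} → n')
        (Subtype.val : {i // rt T ∈ E i} → n) * (eps T f').submatrix
          (Subtype.val : {i // rt T ∈ E i} → n) (Subtype.val : {i // rt T ∈ E' i} → n') = 1 ∧
      (eps T f').submatrix (Subtype.val : {i // rt T ∈ E i} → n)
        (Subtype.val : {i // rt T ∈ E' i} → n') * (eps T f).submatrix
          (Subtype.val : {i // rt T ∈ E' i} → n') (Subtype.val : {i // rt T ∈ E i} → n) = 1

end Pool.Agent.QT
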