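import Pool.Agent.Lib.MP_8f66f0_al_Q.Iso
import Pool.Agent.Lib.MP_8f66f0_al_Q.EPsD

/-!
# The step `EP(k+1) → EP(k)`: the matrices which move the far points to other blocks
-/

set_option autoImplicit false

namespace Pool.Agent.QT.Sp

open Pool.Agent.TQ Pool.Agent.QT

section Near

variable {Γ G Q V : Type} [Group Γ] [Group G] [MulAction Γ Q] {D : Coc Γ G Q}

open Classical in
theorem near_apply (B : Finset V) (x : Tw D V) (q : Q) :
    near B x q = if Fr B (x q) then none else x q := filter_near B (x q)

theorem near_near (B : Finset V) (x : Tw D V) : near B (near B x) = near B x := by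
  classical
  funext q
  rw [near_apply, near_apply]
  by_cases h : Fr B (x q)
  · rw [if_pos h, if_pos (fr_none B)]
  · rw [if_neg h, if_neg h]

theorem exts_near (B : Finset V) (x : Tw D V) : Exts (near B x) x := by
  classical
  intro q hq
  rw [near_apply] at hq ⊢
  by_cases h : Fr B (x q)
  · exact absurd (if_pos h) hq
  · rw [if_neg h]

theorem rs_near (B : Finset V) (P : Tw D V → Prop) : RS {x : Tw D V | P (near B x)} :=
  ⟨B, fun x => by rw [Set.mem_ofPred_eq, Set.mem_ofPred_eq, near_near]⟩

variable [Fintype Q]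

theorem lev_exts_le {l x : Tw D V} (h : Exts l x) : lev l ≤ lev x := by
  refine Finset.card_le_card fun q hq => ?_
  rw [Finset.mem_filter] at hq ⊢
  refine ⟨hq.1, ?_⟩
  have h1 : l q ≠ none := by
    intro h1
    rw [h1] at hq
    simp at hq
  rw [h q h1]
  exact hq.2

theorem eq_of_exts {l x : Tw D V} (h : Exts l x) (hl : lev x ≤ lev l) : x = l := by
  have h1 : (Finset.univ.filter fun q => (l q).isSome = true) ⊆
      Finset.univ.filter fun q => (x q).isSome = true := by
    intro q hq
    rw [Finset.mem_filter] at hq ⊢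
    refine ⟨hq.1, ?_⟩
    have h1 : l q ≠ none := by
      intro h1
      rw [h1] at hq
      simp at hq
    rw [h q h1]
    exact hq.2
  have h2 := Finset.eq_of_subset_of_card_le h1 hl
  funext q
  by_cases hq : l q = none
  · rw [hq]
    by_contra hx
    have h3 : q ∈ Finset.univ.filter fun q => (x q).isSome = true := by
      rw [Finset.mem_filter]
      exact ⟨Finset.mem_univ _, Option.isSome_iff_ne_none.2 hx⟩
    rw [← h2, Finset.mem_filter, hq] at h3
    simp at h3
  · exact h q hq

theorem lev_near_le (B : Finset V) (x : Tw D V) : lev (near B x) ≤ lev x :=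
  lev_exts_le (exts_near B x)

theorem near_eq_of_lev {B : Finset V} {x : Tw D V} (h : lev x ≤ lev (near B x)) : near B x = x :=
  (eq_of_exts (exts_near B x) h).symm

end Near

section Sum

variable {Ω A : Type} [Ring A]

theorem ent_sum {ι : Type} (s : Finset ι) (f : ι → RCF Ω A) (y x : Ω) :
    ent (∑ i ∈ s, f i) y x = ∑ i ∈ s, ent (f i) y x := by
  classical
  induction s using Finset.induction_on with
  | empty => rw [Finset.sum_empty, Finset.sum_empty, ent_zero]
  | insert a s ha ih => rw [Finset.sum_insert ha, Finset.sum_insert ha, ent_add, ih]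

end Sum

section Mv

variable {Γ G Q V : Type} [Group Γ] [Group G] [MulAction Γ Q] [MulAction G V] {D : Coc Γ G Q}
  {R : Type} [CommRing R] [Fintype Q] (B : Finset V) (k : ℕ) {n m : Type}

/-- The matrix which moves the point `x` in the block `i` to the block `(near B x, i)`. -/
noncomputable def mv (D : Coc Γ G Q) (R : Type) [CommRing R] (B : Finset V) (k : ℕ) (n : Type)
    [DecidableEq n] : Matrix (Fk D B k × n) n (Kr D V R) := fun p i =>
  if p.2 = i then ind {x | near B x = p.1.1} else 0

/-- The transposed matrix. -/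
noncomputable def mvT (D : Coc Γ G Q) (R : Type) [CommRing R] (B : Finset V) (k : ℕ) (n : Type)
    [DecidableEq n] : Matrix n (Fk D B k × n) (Kr D V R) := fun i p =>
  if p.2 = i then ind {x | near B x = p.1.1} else 0

variable {B k}

theorem mv_mul_apply [Fintype n] [DecidableEq n] (S : Matrix n m (Kr D V R)) (p : Fk D B k × n)
    (j : m) : (mv D R B k n * S) p j =
      ind {x | near B x = p.1.1} * S p.2 j := by
  rw [Matrix.mul_apply, Finset.sum_eq_single p.2]
  · rw [mv, if_pos rfl]
  · intro i _ hi
    rw [mv, if_neg (Ne.symm hi), zero_mul]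
  · intro h
    exact absurd (Finset.mem_univ _) h

theorem mul_mvT_apply [Fintype n] [DecidableEq n] (S : Matrix m n (Kr D V R)) (i : m)
    (p : Fk D B k × n) : (S * mvT D R B k n) i p =
      S i p.2 * ind {x | near B x = p.1.1} := by
  rw [Matrix.mul_apply, Finset.sum_eq_single p.2]
  · rw [mvT, if_pos rfl]
  · intro i _ hi
    rw [mvT, if_neg (Ne.symm hi), mul_zero]
  · intro h
    exact absurd (Finset.mem_univ _) h

theorem mvT_mul_apply [Fintype n] [DecidableEq n] (S : Matrix (Fk D B k × n) m (Kr D V R)) (i : n)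
    (j : m) : (mvT D R B k n * S) i j =
      ∑ l : Fk D B k, ind {x | near B x = l.1} * S (l, i) j := by
  rw [Matrix.mul_apply, Fintype.sum_prod_type]
  refine Finset.sum_congr rfl fun l _ => ?_
  rw [Finset.sum_eq_single i]
  · rw [mvT, if_pos rfl]
  · intro i' _ hi
    rw [mvT, if_neg hi, zero_mul]
  · intro h
    exact absurd (Finset.mem_univ _) h

theorem mul_mv_apply [Fintype n] [DecidableEq n] (S : Matrix m (Fk D B k × n) (Kr D V R)) (i : m)
    (j : n) : (S * mv D R B k n) i j =
      ∑ l : Fk D B k, S i (l, j) * ind {x | near B x = l.1} := by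
  rw [Matrix.mul_apply, Fintype.sum_prod_type]
  refine Finset.sum_congr rfl fun l _ => ?_
  rw [Finset.sum_eq_single j]
  · rw [mv, if_pos rfl]
  · intro i' _ hi
    rw [mv, if_neg hi, mul_zero]
  · intro h
    exact absurd (Finset.mem_univ _) h

theorem ent_mv_mul [Fintype n] [DecidableEq n] (S : Matrix n m (Kr D V R)) (p : Fk D B k × n)
    (j : m) (y x : Tw D V) :
    (near B y = p.1.1 → ent ((mv D R B k n * S) p j) y x =
      ent (S p.2 j) y x) ∧
    (near B y ≠ p.1.1 → ent ((mv D R B k n * S) p j) y x = 0) := by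
  rw [mv_mul_apply]
  exact ent_ind_mul {x | near B x = p.1.1} (S p.2 j) y x

theorem ent_mul_mvT [Fintype n] [DecidableEq n] (S : Matrix m n (Kr D V R)) (i : m)
    (p : Fk D B k × n) (y x : Tw D V) :
    (near B x = p.1.1 → ent ((S * mvT D R B k n) i p) y x =
      ent (S i p.2) y x) ∧
    (near B x ≠ p.1.1 → ent ((S * mvT D R B k n) i p) y x = 0) := by
  rw [mul_mvT_apply]
  exact ent_mul_ind {x | near B x = p.1.1} (S i p.2) y x

theorem ent_mvT_mul [Fintype n] [DecidableEq n] (S : Matrix (Fk D B k × n) m (Kr D V R)) (i : n)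
    (j : m) (y x : Tw D V) :
    (∀ l : Fk D B k, near B y = l.1 →
      ent ((mvT D R B k n * S) i j) y x = ent (S (l, i) j) y x) ∧
    (lev (near B y) ≠ k →
      ent ((mvT D R B k n * S) i j) y x = 0) := by
  rw [mvT_mul_apply, ent_sum]
  constructor
  · intro l hl
    rw [Finset.sum_eq_single l]
    · exact (ent_ind_mul {x | near B x = l.1} (S (l, i) j) y x).1 hl
    · intro l' _ hl'
      refine (ent_ind_mul {x | near B x = l'.1} (S (l', i) j) y x).2 fun h => hl' ?_
      exact Subtype.ext (h.symm.trans hl)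
    · intro h
      exact absurd (Finset.mem_univ _) h
  · intro hy
    refine Finset.sum_eq_zero fun l _ => ?_
    refine (ent_ind_mul {x | near B x = l.1} (S (l, i) j) y x).2 fun h => hy ?_
    rw [show near B y = l.1 from h]
    exact l.2.1

theorem ent_mul_mv [Fintype n] [DecidableEq n] (S : Matrix m (Fk D B k × n) (Kr D V R)) (i : m)
    (j : n) (y x : Tw D V) :
    (∀ l : Fk D B k, near B x = l.1 →
      ent ((S * mv D R B k n) i j) y x = ent (S i (l, j)) y x) ∧
    (lev (near B x) ≠ k →
      ent ((S * mv D R B k n) i j) y x = 0) := by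
  rw [mul_mv_apply, ent_sum]
  constructor
  · intro l hl
    rw [Finset.sum_eq_single l]
    · exact (ent_mul_ind {x | near B x = l.1} (S i (l, j)) y x).1 hl
    · intro l' _ hl'
      refine (ent_mul_ind {x | near B x = l'.1} (S i (l', j)) y x).2 fun h => hl' ?_
      exact Subtype.ext (h.symm.trans hl)
    · intro h
      exact absurd (Finset.mem_univ _) h
  · intro hy
    refine Finset.sum_eq_zero fun l _ => ?_
    refine (ent_mul_ind {x | near B x = l.1} (S i (l, j)) y x).2 fun h => hy ?_
    rw [show near B x = l.1 from h]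
    exact l.2.1

open Classical in
theorem ent_dg [DecidableEq n] (E : n → Set (Tw D V)) (i j : n) (y x : Tw D V) :
    ent ((dg E : Matrix n n (Kr D V R)) i j) y x = if i = j ∧ y = x ∧ x ∈ E j then 1 else 0 := by
  by_cases h : i = j
  · subst h
    rw [dg, Matrix.diagonal_apply_eq, ent_ind]
    by_cases h' : y = x ∧ x ∈ E i
    · rw [if_pos h', if_pos ⟨rfl, h'⟩]
    · rw [if_neg h', if_neg fun h'' => h' h''.2]
  · rw [dg, Matrix.diagonal_apply_ne _ h, ent_zero, if_neg fun h' => h h'.1]

theorem ent_dg_mul [Fintype n] [DecidableEq n] (E : n → Set (Tw D V)) (S : Matrix n m (Kr D V R))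
    (i : n) (j : m) (y x : Tw D V) :
    (y ∈ E i → ent (((dg E : Matrix n n (Kr D V R)) * S) i j) y x = ent (S i j) y x) ∧
    (y ∉ E i → ent (((dg E : Matrix n n (Kr D V R)) * S) i j) y x = 0) := by
  rw [dg, Matrix.diagonal_mul]
  exact ent_ind_mul (E i) (S i j) y x

theorem ent_mul_dg [Fintype n] [DecidableEq n] (E : n → Set (Tw D V)) (S : Matrix m n (Kr D V R))
    (i : m) (j : n) (y x : Tw D V) :
    (x ∈ E j → ent ((S * (dg E : Matrix n n (Kr D V R))) i j) y x = ent (S i j) y x) ∧
    (x ∉ E j → ent ((S * (dg E : Matrix n n (Kr D V R))) i j) y x = 0) := by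
  rw [dg, Matrix.mul_diagonal]
  exact ent_mul_ind (E j) (S i j) y x

theorem mat_ext {A A' : Matrix n m (Kr D V R)} (h : ∀ i j y x, ent (A i j) y x = ent (A' i j) y x) :
    A = A' := Matrix.ext fun i j => ent_ext fun y x => h i j y x

end Mv

end Pool.Agent.QT.Sp
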