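import Pool.Agent.Lib.MP_8f66f0_al_Q.EPl
import Pool.Agent.Lib.MP_8f66f0_al_Q.EPA
import Pool.Agent.Lib.MP_8f66f0_al_Q.EPbase

/-!
# Theorem Q: the step `EP(k+1) → EP(k)`
-/

set_option autoImplicit false

namespace Pool.Agent.QT.Sp

open scoped Pointwise
open Pool.Agent.TQ Pool.Agent.QT Matrix Pool.Agent.Wald

section Sets

variable {Γ G Q V : Type} [Group Γ] [Group G] [MulAction Γ Q] [MulAction G V] {D : Coc Γ G Q}

theorem near_sub {B₀ B : Finset V} (h : B₀ ⊆ B) (x : Tw D V) : near B₀ (near B x) = near B₀ x := by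
  classical
  funext q
  rw [near_apply, near_apply, near_apply]
  by_cases h1 : Fr B (x q)
  · rw [if_pos h1, if_pos (fr_none B₀), if_pos (Fr.mono h h1)]
  · rw [if_neg h1]

theorem rs_mono {B₀ B : Finset V} (h : B₀ ⊆ B) {E : Set (Tw D V)}
    (hE : ∀ x, x ∈ E ↔ near B₀ x ∈ E) (x : Tw D V) : x ∈ E ↔ near B x ∈ E := by
  rw [hE x, hE (near B x), near_sub h]

theorem exts_near_iff {B : Finset V} {l x : Tw D V} (hl : near B l = l) :
    Exts l x ↔ Exts l (near B x) := by
  classical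
  constructor
  · intro h q hq
    rw [near_apply, h q hq, if_neg]
    intro h1
    have h2 := near_apply B l q
    rw [hl, if_pos h1] at h2
    exact hq h2
  · intro h q hq
    have h1 := h q hq
    rw [near_apply] at h1
    by_cases h2 : Fr B (x q)
    · rw [if_pos h2] at h1
      exact absurd h1.symm hq
    · rw [if_neg h2] at h1
      exact h1

end Sets

section General

variable {S : Type} [Ring S]

theorem isoM_conj {n n' : Type} [Fintype n] [DecidableEq n] [Fintype n'] [DecidableEq n']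
    {e : Matrix n n S} {e' : Matrix n' n' S} {h : Matrix n' n S} {h' : Matrix n n' S}
    (H : IsoM e e' h h') {a a' : Matrix n n S} {b b' : Matrix n' n' S} (a1 : a * a' = 1)
    (a2 : a' * a = 1) (b1 : b' * b = 1) (ac : a * e = e * a) :
    IsoM e (b * e' * b') (b * (h * a)) (a' * (h' * b')) := by
  have ac' : e * a' = a' * e := by
    calc e * a' = (a' * a) * (e * a') := by rw [a2, Matrix.one_mul]
      _ = a' * (a * e) * a' := by simp only [Matrix.mul_assoc]
      _ = a' * e * (a * a') := by rw [ac]; simp only [Matrix.mul_assoc]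
      _ = a' * e := by rw [a1, Matrix.mul_one]
  refine ⟨?_, ?_, ?_, ?_, ?_, ?_⟩
  · calc a' * (h' * b') * (b * (h * a)) = a' * (h' * ((b' * b) * h)) * a := by
          simp only [Matrix.mul_assoc]
      _ = a' * (h' * h) * a := by rw [b1, Matrix.one_mul]
      _ = a' * (e * a) := by rw [H.h1, Matrix.mul_assoc]
      _ = e := by rw [← ac, ← Matrix.mul_assoc, a2, Matrix.one_mul]
  · calc b * (h * a) * (a' * (h' * b')) = b * (h * ((a * a') * h')) * b' := by
          simp only [Matrix.mul_assoc]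
      _ = b * e' * b' := by rw [a1, Matrix.one_mul, H.h2]
  · rw [Matrix.mul_assoc, Matrix.mul_assoc, ac, ← Matrix.mul_assoc h, H.h3]
  · calc b * e' * b' * (b * (h * a)) = b * (e' * ((b' * b) * h)) * a := by
          simp only [Matrix.mul_assoc]
      _ = b * (h * a) := by rw [b1, Matrix.one_mul, H.h4, Matrix.mul_assoc]
  · calc a' * (h' * b') * (b * e' * b') = a' * (h' * ((b' * b) * e')) * b' := by
          simp only [Matrix.mul_assoc]
      _ = a' * (h' * b') := by rw [b1, Matrix.one_mul, H.h5, Matrix.mul_assoc]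
  · rw [← Matrix.mul_assoc, ac', Matrix.mul_assoc, ← Matrix.mul_assoc e, H.h6]

end General

section SSm

variable {Γ G Q V L : Type} [Group Γ] [Group G] [MulAction Γ Q] [MulAction G V] [CommRing L]
  [Fintype Q] {D : Coc Γ G Q} {T : Tr G V}

/-- Matrices with structured entries. -/
def Sm (T : Tr G V) {n' n : Type} (A : Matrix n' n (Kr D V (Polynomial L))) : Prop :=
  ∀ i j, QT.SS T (A i j)

theorem ss_zero (hOS : S_OOSS) : QT.SS T (0 : Kr D V (Polynomial L)) := by
  rw [← ind_empty]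
  exact ((hOS Γ G Q V L D T).2.2.1 ∅ ⟨∅, fun _ => Iff.rfl⟩).2

theorem Sm.mul (hOS : S_OOSS) {n'' n' n : Type} [Fintype n']
    {A : Matrix n'' n' (Kr D V (Polynomial L))} {A' : Matrix n' n (Kr D V (Polynomial L))}
    (h : Sm T A) (h' : Sm T A') : Sm T (A * A') := by
  classical
  intro i j
  rw [Matrix.mul_apply]
  have key : ∀ s : Finset n', QT.SS T (∑ v ∈ s, A i v * A' v j) := by
    intro s
    induction s using Finset.induction_on with
    | empty => rw [Finset.sum_empty]; exact ss_zero hOS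
    | insert a s ha ih =>
      rw [Finset.sum_insert ha]
      exact ((hOS Γ G Q V L D T).2.1 _ _ (((hOS Γ G Q V L D T).2.1 _ _ (h i a) (h' a j)).1) ih).2.1
  exact key _

theorem Sm.neg (hOS : S_OOSS) {n' n : Type} {A : Matrix n' n (Kr D V (Polynomial L))}
    (h : Sm T A) : Sm T (-A) := fun i j => ((hOS Γ G Q V L D T).2.1 _ _ (h i j) (h i j)).2.2

theorem sm_zero (hOS : S_OOSS) {n' n : Type} : Sm T (0 : Matrix n' n (Kr D V (Polynomial L))) :=
  fun _ _ => ss_zero hOS

theorem sm_dg (hOS : S_OOSS) {n : Type} [DecidableEq n] {E : n → Set (Tw D V)}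
    (hE : ∀ i, RS (E i)) : Sm T (dg E : Matrix n n (Kr D V (Polynomial L))) := by
  intro i j
  by_cases h : i = j
  · subst h
    rw [dg, Matrix.diagonal_apply_eq]
    exact ((hOS Γ G Q V L D T).2.2.1 _ (hE i)).2
  · rw [dg, Matrix.diagonal_apply_ne _ h]
    exact ss_zero hOS

theorem sm_one (hOS : S_OOSS) {n : Type} [DecidableEq n] :
    Sm T (1 : Matrix n n (Kr D V (Polynomial L))) := by
  rw [← dg_univ]
  exact sm_dg hOS fun _ => ⟨∅, fun _ => Iff.rfl⟩

theorem sm_blocks {n' n m' m : Type} {A : Matrix n' n (Kr D V (Polynomial L))}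
    {A' : Matrix n' m (Kr D V (Polynomial L))} {A'' : Matrix m' n (Kr D V (Polynomial L))}
    {A''' : Matrix m' m (Kr D V (Polynomial L))} (h : Sm T A) (h' : Sm T A')
    (h'' : Sm T A'') (h''' : Sm T A''') : Sm T (fromBlocks A A' A'' A''') := by
  rintro (i | i) (j | j)
  · exact h i j
  · exact h' i j
  · exact h'' i j
  · exact h''' i j

theorem sm_mv (hOS : S_OOSS) {B : Finset V} {k : ℕ} {n : Type} [DecidableEq n] :
    Sm T (mv D (Polynomial L) B k n) := by
  intro p i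
  rw [mv]
  by_cases h : p.2 = i
  · rw [if_pos h]
    exact ((hOS Γ G Q V L D T).2.2.1 _ (rs_near B fun x => x = p.1.1)).2
  · rw [if_neg h]
    exact ss_zero hOS

theorem sm_mvT (hOS : S_OOSS) {B : Finset V} {k : ℕ} {n : Type} [DecidableEq n] :
    Sm T (mvT D (Polynomial L) B k n) := by
  intro i p
  rw [mvT]
  by_cases h : p.2 = i
  · rw [if_pos h]
    exact ((hOS Γ G Q V L D T).2.2.1 _ (rs_near B fun x => x = p.1.1)).2
  · rw [if_neg h]
    exact ss_zero hOS

theorem sm_bM (hOS : S_OOSS) {B : Finset V} {k : ℕ} {n : Type} [DecidableEq n] :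
    Sm T (bM D (Polynomial L) B k n) :=
  sm_blocks (sm_dg hOS fun _ => rs_near B fun x => lev x ≠ k) (sm_mvT hOS) ((sm_mv hOS).neg hOS)
    (sm_dg hOS fun p => rs_near B fun x => x ≠ p.1.1)

theorem sm_bM' (hOS : S_OOSS) {B : Finset V} {k : ℕ} {n : Type} [DecidableEq n] :
    Sm T (bM' D (Polynomial L) B k n) :=
  sm_blocks (sm_dg hOS fun _ => rs_near B fun x => lev x ≠ k) ((sm_mvT hOS).neg hOS) (sm_mv hOS)
    (sm_dg hOS fun p => rs_near B fun x => x ≠ p.1.1)

theorem sm_e12 (hOS : S_OOSS) {n P : Type} [DecidableEq n] [DecidableEq P]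
    {u : Matrix n P (Kr D V (Polynomial L))} (hu : Sm T u) : Sm T (e12 u) :=
  sm_blocks (sm_one hOS) hu (sm_zero hOS) (sm_one hOS)

theorem sm_e21 (hOS : S_OOSS) {n P : Type} [DecidableEq n] [DecidableEq P]
    {w : Matrix P n (Kr D V (Polynomial L))} (hw : Sm T w) : Sm T (e21 w) :=
  sm_blocks (sm_one hOS) (sm_zero hOS) hw (sm_one hOS)

theorem sm_aM (hOS : S_OOSS) {n P : Type} [Fintype n] [DecidableEq n] [Fintype P] [DecidableEq P]
    {u : Matrix n P (Kr D V (Polynomial L))} {w : Matrix P n (Kr D V (Polynomial L))}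
    (hu : Sm T u) (hw : Sm T w) : Sm T (aM u w) :=
  (sm_e12 hOS (hu.neg hOS)).mul hOS ((sm_e21 hOS hw).mul hOS (sm_e12 hOS (hu.neg hOS)))

theorem sm_aM' (hOS : S_OOSS) {n P : Type} [Fintype n] [DecidableEq n] [Fintype P] [DecidableEq P]
    {u : Matrix n P (Kr D V (Polynomial L))} {w : Matrix P n (Kr D V (Polynomial L))}
    (hu : Sm T u) (hw : Sm T w) : Sm T (aM' u w) :=
  (sm_e12 hOS hu).mul hOS ((sm_e21 hOS (hw.neg hOS)).mul hOS (sm_e12 hOS hu))

theorem eps_blocks {n' n m' m : Type} {A : Matrix n' n (Kr D V (Polynomial L))}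
    {A' : Matrix n' m (Kr D V (Polynomial L))} {A'' : Matrix m' n (Kr D V (Polynomial L))}
    {A''' : Matrix m' m (Kr D V (Polynomial L))} :
    eps T (fromBlocks A A' A'' A''') = fromBlocks (eps T A) (eps T A') (eps T A'') (eps T A''') := by
  refine Matrix.ext fun i j => ?_
  rcases i with i | i <;> rcases j with j | j <;> rfl

theorem eps_zero_of {n' n : Type} {A : Matrix n' n (Kr D V (Polynomial L))}
    (h : ∀ i j, ent (A i j) (rt T) (rt T) = 0) : eps T A = 0 := by
  refine Matrix.ext fun i j => ?_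
  change evA 1 (ent (A i j) (rt T) (rt T)) = 0
  rw [h, map_zero]

theorem eps_dg_one {n : Type} [Fintype n] [DecidableEq n] {E : n → Set (Tw D V)} (h : ∀ i, rt T ∈ E i) :
    eps T (dg E : Matrix n n (Kr D V (Polynomial L))) = 1 := by
  refine Matrix.ext fun i j => ?_
  change evA 1 (ent ((dg E : Matrix n n (Kr D V (Polynomial L))) i j) (rt T) (rt T)) = _
  by_cases hij : i = j
  · subst hij
    rw [ent_dg_one (h i), map_one, Matrix.one_apply_eq]
  · rw [ent_dg_zero (fun h' => hij h'.1), map_zero, Matrix.one_apply_ne hij]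

theorem eps_one {n : Type} [Fintype n] [DecidableEq n] :
    eps T (1 : Matrix n n (Kr D V (Polynomial L))) = 1 := by
  rw [← dg_univ]
  exact eps_dg_one fun _ => trivial

theorem eps_zero {n' n : Type} : eps T (0 : Matrix n' n (Kr D V (Polynomial L))) = 0 :=
  eps_zero_of fun _ _ => rfl

theorem eps_neg {n' n : Type} (A : Matrix n' n (Kr D V (Polynomial L))) :
    eps T (-A) = - eps T A := by
  refine Matrix.ext fun i j => ?_
  change evA 1 (ent (-(A i j)) (rt T) (rt T)) = - evA 1 (ent (A i j) (rt T) (rt T))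
  rw [ent_neg, map_neg]

theorem near_rt {B : Finset V} (h : T.root ∈ B) : near B (rt T : Tw D V) = rt T := by
  classical
  funext q
  rw [near_apply, if_neg]
  intro h'
  exact h' T.root h rfl

theorem lev_rt : lev (rt T : Tw D V) = Fintype.card Q :=
  (lev_full _).2 fun _ => Option.some_ne_none _

theorem eps_bM {B : Finset V} (h : T.root ∈ B) {k : ℕ} (hk : k < Fintype.card Q) {n : Type}
    [Fintype n] [DecidableEq n] : eps T (bM D (Polynomial L) B k n) = 1 := by
  have h0 : ∀ l : Fk D B k, (rt T : Tw D V) ≠ l.1 := by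
    intro l hl
    have := l.2.1
    rw [← hl, lev_rt] at this
    omega
  rw [bM, eps_blocks, eps_dg_one, eps_dg_one, eps_neg, eps_zero_of, eps_zero_of, neg_zero,
    fromBlocks_one]
  · intro p i
    rw [mv]
    by_cases hp : p.2 = i
    · rw [if_pos hp, ent_ind, if_neg]
      rintro ⟨-, h1⟩
      exact h0 p.1 ((near_rt h).symm.trans h1)
    · rw [if_neg hp, ent_zero]
  · intro i p
    rw [mvT]
    by_cases hp : p.2 = i
    · rw [if_pos hp, ent_ind, if_neg]
      rintro ⟨-, h1⟩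
      exact h0 p.1 ((near_rt h).symm.trans h1)
    · rw [if_neg hp, ent_zero]
  · intro p h1
    exact h0 p.1 ((near_rt h).symm.trans h1)
  · intro i h1
    have h2 : lev (near B (rt T : Tw D V)) = k := h1
    rw [near_rt h, lev_rt] at h2
    omega

theorem eps_aM (hOS : S_OOSS) {n P : Type} [Fintype n] [DecidableEq n] [Fintype P]
    [DecidableEq P] {u : Matrix n P (Kr D V (Polynomial L))}
    {w : Matrix P n (Kr D V (Polynomial L))} (hu : Sm T u) (hw : Sm T w) (h : eps T u = 0)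
    (h' : eps T w = 0) : eps T (aM u w) = 1 := by
  have hm := (hOS Γ G Q V L D T).2.2.2.2
  rw [aM, hm _ _ _ _ _ (sm_e12 hOS (hu.neg hOS))
    ((sm_e21 hOS hw).mul hOS (sm_e12 hOS (hu.neg hOS))),
    hm _ _ _ _ _ (sm_e21 hOS hw) (sm_e12 hOS (hu.neg hOS)), e12, e21, eps_blocks, eps_blocks,
    eps_neg, h, h', eps_one, eps_one, eps_zero, eps_zero, neg_zero, fromBlocks_one, Matrix.one_mul,
    Matrix.one_mul]

end SSm

section Main

open Pool.Agent.Hier Pool.Agent.WaldL Pool.Agent.TreeC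
open Pool.Agent.FH (KU)

variable {Γ G Q V L : Type} [Group Γ] [Group G] [MulAction Γ Q] [MulAction G V] [CommRing L]
  [Fintype Q] {D : Coc Γ G Q} {T : Tr G V} {B : Finset V} {k : ℕ} {n : Type} [Fintype n]
  [DecidableEq n]

/-- Non-zero entries of the far lift. -/
theorem fl_ne {R : Type} [CommRing R] {S S' : Kr D V R} (h : IsFl T B k S S') {y x : Tw D V}
    (hyx : ent S' y x ≠ 0) : ent S (near B y) (near B x) ≠ 0 ∧ lev (near B x) = k := by
  obtain ⟨g, hg⟩ : ∃ g, cf S' g y x ≠ 0 := by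
    by_contra hcon
    push Not at hcon
    exact hyx (MonoidAlgebra.ext (Finsupp.ext hcon))
  have h1 := h g y x
  by_cases h2 : FM T B g y x ∧ lev (near B x) = k
  · rw [h1.1 h2] at hg
    exact ⟨cf_ne_of_ne hg, h2.2⟩
  · exact absurd (h1.2 h2) hg

theorem mul_dg_eq_iff {R : Type} [CommRing R] {m n : Type} [Fintype n] [DecidableEq n]
    {E : n → Set (Tw D V)} {S : Matrix m n (Kr D V R)}
    (h : ∀ i j y x, ent (S i j) y x ≠ 0 → x ∈ E j) :
    S * (dg E : Matrix n n (Kr D V R)) = S := by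
  refine mat_ext fun i j y x => ?_
  have h1 := ent_mul_dg E S i j y x
  by_cases hx : x ∈ E j
  · exact h1.1 hx
  · rw [h1.2 hx]
    by_contra h2
    exact hx (h i j y x (Ne.symm h2))

theorem dg_mul_eq_iff {R : Type} [CommRing R] {m n : Type} [Fintype m] [DecidableEq m]
    {E : m → Set (Tw D V)} {S : Matrix m n (Kr D V R)}
    (h : ∀ i j y x, ent (S i j) y x ≠ 0 → y ∈ E i) :
    (dg E : Matrix m m (Kr D V R)) * S = S := by
  refine mat_ext fun i j y x => ?_
  have h1 := ent_dg_mul E S i j y x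
  by_cases hy : y ∈ E i
  · exact h1.1 hy
  · rw [h1.2 hy]
    by_contra h2
    exact hy (h i j y x (Ne.symm h2))

theorem mem_of_mul_dg {R : Type} [CommRing R] {m n : Type} [Fintype n] [DecidableEq n]
    {E : n → Set (Tw D V)} {S : Matrix m n (Kr D V R)} (h : S * (dg E : Matrix n n (Kr D V R)) = S)
    {i : m} {j : n}
    {y x : Tw D V} (hne : ent (S i j) y x ≠ 0) : x ∈ E j := by
  by_contra hx
  refine hne ?_
  rw [← h]
  exact (ent_mul_dg E S i j y x).2 hx

theorem mem_of_dg_mul {R : Type} [CommRing R] {m n : Type} [Fintype m] [DecidableEq m]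
    {E : m → Set (Tw D V)} {S : Matrix m n (Kr D V R)} (h : (dg E : Matrix m m (Kr D V R)) * S = S)
    {i : m} {j : n}
    {y x : Tw D V} (hne : ent (S i j) y x ≠ 0) : y ∈ E i := by
  by_contra hy
  refine hne ?_
  rw [← h]
  exact (ent_dg_mul E S i j y x).2 hy

theorem ent_mvw_ne {R : Type} [CommRing R] {m : Type} {W : Matrix n m (Kr D V R)}
    {p : Fk D B k × n} {j : m} {y x : Tw D V} (h : ent ((mv D R B k n * W) p j) y x ≠ 0) :
    near B y = p.1.1 ∧ ent (W p.2 j) y x ≠ 0 := by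
  have h1 := ent_mv_mul W p j y x
  by_cases h2 : near B y = p.1.1
  · rw [h1.1 h2] at h
    exact ⟨h2, h⟩
  · exact absurd (h1.2 h2) h

theorem ent_umv_ne {R : Type} [CommRing R] {m : Type} {W : Matrix m n (Kr D V R)}
    {p : Fk D B k × n} {i : m} {y x : Tw D V} (h : ent ((W * mvT D R B k n) i p) y x ≠ 0) :
    near B x = p.1.1 ∧ ent (W i p.2) y x ≠ 0 := by
  have h1 := ent_mul_mvT W i p y x
  by_cases h2 : near B x = p.1.1
  · rw [h1.1 h2] at h
    exact ⟨h2, h⟩
  · exact absurd (h1.2 h2) h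

theorem epStep (hKey : S_Key) (hLev : S_Lev) (hOS : S_OOSS) (hFl : S_Fl) (hFlSS : S_FlSS)
    (hA : S_EPA) (hIso : S_IsoEps) : S_EPstep := by
  classical
  intro Γ G Q V L K _ _ _ _ _ _ hL _ _ _ D T κ k hyp hk0 hkQ hEP n _ _ E E' f f' hE hE' hS hS' hI
    hEE hk _ _
  have : InvariantBasisNumber (MonoidAlgebra L Γ) := ibn_gr
  have hP := kperm_of_ku hyp.ku
  have hk' : EqB k f' (dg E) := eqB_inv hLev k E E' f f' hE hE' (fun i j => (hS i j).reg) hI hEE hk
  have hkE : EqB k (dg E' : Matrix n n (Kr D V (Polynomial L))) (dg E) := by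
    intro i j y x hx
    rw [ent_dg, ent_dg]
    exact ite_iff (and_congr Iff.rfl (and_congr Iff.rfl (hEE j x hx).symm))
  obtain ⟨B₁, hB₁⟩ := hKey Γ G Q V (Polynomial L) D n k E f (fun i j => (hS i j).reg) hE hk
  obtain ⟨B₂, hB₂⟩ := hKey Γ G Q V (Polynomial L) D n k E f' (fun i j => (hS' i j).reg) hE hk'
  obtain ⟨B₃, hB₃⟩ := hKey Γ G Q V (Polynomial L) D n k E (dg E') (fun i j => Rk.dg hE' i j) hE hkE
  choose b₄ hb₄ using hE
  choose b₅ hb₅ using hE'
  have hE : ∀ i, RS (E i) := fun i => ⟨b₄ i, hb₄ i⟩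
  have hE' : ∀ i, RS (E' i) := fun i => ⟨b₅ i, hb₅ i⟩
  obtain ⟨B, c0, c1, c2, c3, c4, c5⟩ : ∃ B : Finset V, T.root ∈ B ∧ B₁ ⊆ B ∧ B₂ ⊆ B ∧ B₃ ⊆ B ∧
      (∀ i, b₄ i ⊆ B) ∧ (∀ i, b₅ i ⊆ B) := by
    refine ⟨insert T.root (B₁ ∪ B₂ ∪ B₃ ∪ Finset.univ.biUnion b₄ ∪ Finset.univ.biUnion b₅),
      Finset.mem_insert_self _ _, ?_, ?_, ?_, fun i => ?_, fun i => ?_⟩
    · exact fun x hx => by simp [hx]
    · exact fun x hx => by simp [hx]
    · exact fun x hx => by simp [hx]
    · intro x hx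
      simp only [Finset.mem_insert, Finset.mem_union, Finset.mem_biUnion, Finset.mem_univ, true_and]
      exact Or.inr (Or.inl (Or.inr ⟨i, hx⟩))
    · intro x hx
      simp only [Finset.mem_insert, Finset.mem_union, Finset.mem_biUnion, Finset.mem_univ, true_and]
      exact Or.inr (Or.inr ⟨i, hx⟩)
  have dB : HB B k E f := hB₁ B c1
  have dB' : HB B k E f' := hB₂ B c2
  have dE : HB B k E (dg E' : Matrix n n (Kr D V (Polynomial L))) := hB₃ B c3
  have mE : ∀ i x, x ∈ E i ↔ near B x ∈ E i := fun i x => rs_mono (c4 i) (hb₄ i) x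
  have mE' : ∀ i x, x ∈ E' i ↔ near B x ∈ E' i := fun i x => rs_mono (c5 i) (hb₅ i) x
  have hEEk : ∀ i x, lev x = k → near B x ≠ x → (x ∈ E' i ↔ x ∈ E i) := by
    intro i x hx hn
    have h1 := dE i i x x hx (Or.inl hn)
    constructor
    · intro h2
      by_contra h3
      rw [ent_dg_one h2, ent_dg_zero (fun h4 => h3 h4.2.2)] at h1
      exact one_ne_zero h1
    · intro h2
      by_contra h3
      rw [ent_dg_zero (fun h4 => h3 h4.2.2), ent_dg_one h2] at h1
      exact zero_ne_one h1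
  -- the far lifts
  have hjf : Jm f := fun i j => (hS i j).reg.jc
  have hjf' : Jm f' := fun i j => (hS' i j).reg.jc
  choose W hW1 hW2 hW3 hW4 _ using fun i j => hFl Γ G Q V (Polynomial L) D T B k (f i j) (hjf i j)
  choose W' hW1' hW2' hW3' hW4' _ using
    fun i j => hFl Γ G Q V (Polynomial L) D T B k (f' i j) (hjf' i j)
  have sW : Sm T (W : Matrix n n (Kr D V (Polynomial L))) := fun i j =>
    hFlSS Γ G Q V L D T B k (f i j) (W i j) c0 (hjf i j) (hW1 i j) (hW2 i j)
      (fun g y x _ _ _ h => (hS i j).zero g y x h) (fun g y x _ _ _ h => (hS i j).one g y x h)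
  have sW' : Sm T (W' : Matrix n n (Kr D V (Polynomial L))) := fun i j =>
    hFlSS Γ G Q V L D T B k (f' i j) (W' i j) c0 (hjf' i j) (hW1' i j) (hW2' i j)
      (fun g y x _ _ _ h => (hS' i j).zero g y x h) (fun g y x _ _ _ h => (hS' i j).one g y x h)
  obtain ⟨Z, Z', hZS, hZS', hZI, hZl, hZκ⟩ := hA Γ G Q V L K hL D T κ k hyp hk0 hkQ n E E' f f' hS
    hS' hI B dB dB'
  obtain ⟨W₀, hW₀⟩ : ∃ M : Matrix n n (Kr D V (Polynomial L)), M = W := ⟨W, rfl⟩
  obtain ⟨W₀', hW₀'⟩ : ∃ M : Matrix n n (Kr D V (Polynomial L)), M = W' := ⟨W', rfl⟩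
  rw [← hW₀] at hW1 hW2 hW3 hW4 sW
  rw [← hW₀'] at hW1' hW2' hW3' hW4' sW'
  have hjW : Jm W₀ := fun i j => (hW2 i j).jc
  have hjW' : Jm W₀' := fun i j => (hW2' i j).jc
  have hjZ : Jm Z' := fun i j => (hZS' i j).reg.jc
  set u := W₀' * mvT D (Polynomial L) B k n with hu
  set w := mv D (Polynomial L) B k n * W₀ with hw
  have su : Sm T u := sW'.mul hOS (sm_mvT hOS)
  have sw : Sm T w := (sm_mv hOS).mul hOS sW
  -- commutation
  have u1 : u * dg (MM E') = u := by
    refine mul_dg_eq_iff fun i p y x h => ?_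
    obtain ⟨h1, h2⟩ := ent_umv_ne h
    obtain ⟨h3, -⟩ := fl_ne (hW1' i p.2) h2
    have h4 := mem_of_mul_dg hI.h5 h3
    refine ⟨?_, ?_⟩
    · rw [← h1]; exact exts_near B x
    · rw [← h1]; exact h4
  have u2 : dg E * u = u := by
    refine dg_mul_eq_iff fun i p y x h => ?_
    obtain ⟨h1, h2⟩ := ent_umv_ne h
    obtain ⟨h3, -⟩ := fl_ne (hW1' i p.2) h2
    exact (mE i y).2 (mem_of_dg_mul hI.h6 h3)
  have w1 : w * dg E = w := by
    refine mul_dg_eq_iff fun p j y x h => ?_
    obtain ⟨h1, h2⟩ := ent_mvw_ne h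
    obtain ⟨h3, -⟩ := fl_ne (hW1 p.2 j) h2
    exact (mE j x).2 (mem_of_mul_dg hI.h3 h3)
  have w2 : dg (MM E') * w = w := by
    refine dg_mul_eq_iff fun p j y x h => ?_
    obtain ⟨h1, h2⟩ := ent_mvw_ne h
    obtain ⟨h3, -⟩ := fl_ne (hW1 p.2 j) h2
    have h4 := mem_of_dg_mul hI.h4 h3
    refine ⟨?_, ?_⟩
    · rw [← h1]; exact exts_near B y
    · rw [← h1]; exact h4
  have hcomm : aM u w * dg (Sum.elim E (MM E')) = dg (Sum.elim E (MM E')) * aM u w := by
    rw [dg_sum]
    exact aM_comm (u1.trans u2.symm) (w1.trans w2.symm)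
  -- the isomorphism
  have hh : IsoM (dg (Sum.elim E (MM E'))) (dg (Sum.elim E' (MM E))) (fromBlocks f 0 0 Z')
      (fromBlocks f' 0 0 Z) := by
    rw [dg_sum, dg_sum]
    exact hI.sum hZI
  have hI2 : IsoM (dg (Sum.elim E (MM E'))) (dg (bE E' (MM E) : n ⊕ Fk D B k × n → Set (Tw D V)))
      (bM D (Polynomial L) B k n * (fromBlocks f 0 0 Z' * aM u w))
      (aM' u w * (fromBlocks f' 0 0 Z * bM' D (Polynomial L) B k n)) := by
    rw [← bM_dg]
    exact isoM_conj hh (aM_mul_aM' u w) (aM'_mul_aM u w) bM'_mul_bM hcomm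
  -- structures
  have sh : Sm T (fromBlocks f 0 0 Z') := sm_blocks hS (sm_zero hOS) (sm_zero hOS) hZS'
  have sh' : Sm T (fromBlocks f' 0 0 Z) := sm_blocks hS' (sm_zero hOS) (sm_zero hOS) hZS
  have sf2 : Sm T (bM D (Polynomial L) B k n * (fromBlocks f 0 0 Z' * aM u w)) :=
    (sm_bM hOS).mul hOS (sh.mul hOS (sm_aM hOS su sw))
  have sf2' : Sm T (aM' u w * (fromBlocks f' 0 0 Z * bM' D (Polynomial L) B k n)) :=
    (sm_aM' hOS su sw).mul hOS (sh'.mul hOS (sm_bM' hOS))
  -- regular sets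
  have rMM : ∀ (F : n → Set (Tw D V)) (p : Fk D B k × n), RS (MM F p) := by
    intro F p
    refine ⟨B, fun x => ?_⟩
    change (Exts p.1.1 x ∧ _) ↔ (Exts p.1.1 (near B x) ∧ _)
    rw [exts_near_iff p.1.2.2]
  have r1 : ∀ i, RS ((Sum.elim E (MM E') : n ⊕ Fk D B k × n → Set (Tw D V)) i) := by
    rintro (i | p)
    · exact hE i
    · exact rMM E' p
  have r2 : ∀ i, RS ((bE E' (MM E) : n ⊕ Fk D B k × n → Set (Tw D V)) i) := by
    rintro (i | p)
    · refine ⟨B, fun x => ?_⟩
      change (_ ∨ ∃ l : Fk D B k, _ ∧ Exts l.1 x ∧ _) ↔ (_ ∨ ∃ l : Fk D B k, _ ∧ Exts l.1 (near B x) ∧ _)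
      refine or_congr ?_ (exists_congr fun l => ?_)
      · rw [near_near]
        exact and_congr Iff.rfl (mE' i x)
      · rw [near_near, exts_near_iff l.2.2]
    · refine ⟨B, fun x => ?_⟩
      change ((_ ∧ Exts p.1.1 x ∧ _) ∨ _) ↔ ((_ ∧ Exts p.1.1 (near B x) ∧ _) ∨ _)
      rw [near_near, exts_near_iff (B := B) (x := x) p.1.2.2]
      exact or_congr Iff.rfl (and_congr Iff.rfl (mE' p.2 x))
  -- the levels
  have hlev : ∀ i x, lev x < k + 1 →
      (x ∈ (Sum.elim E (MM E') : n ⊕ Fk D B k × n → Set (Tw D V)) i ↔ x ∈ (bE E' (MM E) : n ⊕ Fk D B k × n → Set (Tw D V)) i) := by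
    rintro (i | p) x hx
    · change x ∈ E i ↔ (_ ∨ _)
      by_cases hn : lev (near B x) = k
      · have h1 : near B x = x := near_eq_of_lev (by omega)
        constructor
        · intro h
          refine Or.inr ⟨⟨near B x, hn, near_near B x⟩, rfl, exts_near B x, ?_⟩
          exact (mE i x).1 h
        · rintro (h | ⟨l, h2, -, h3⟩)
          · exact absurd hn h.1
          · rw [mE i x, h2]
            exact h3
      · have h1 : x ∈ E' i ↔ x ∈ E i := by
          rcases Nat.lt_succ_iff_lt_or_eq.1 hx with h | h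
          · exact (hEE i x h).symm
          · exact hEEk i x h fun h2 => hn (by rw [h2]; exact h)
        constructor
        · intro h
          exact Or.inl ⟨hn, h1.2 h⟩
        · rintro (h | ⟨l, h2, -⟩)
          · exact h1.1 h.2
          · exact absurd (by rw [h2]; exact l.2.1) hn
    · change (Exts p.1.1 x ∧ _) ↔ ((_ ∧ Exts p.1.1 x ∧ _) ∨ _)
      constructor
      · rintro ⟨h1, h2⟩
        have h3 : x = p.1.1 := eq_of_exts h1 (by rw [p.1.2.1]; omega)
        refine Or.inr ⟨?_, ?_⟩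
        · rw [h3]; exact p.1.2.2
        · rw [h3]; exact h2
      · rintro (⟨h1, h2, -⟩ | ⟨h1, h2⟩)
        · have h3 : x = p.1.1 := eq_of_exts h2 (by rw [p.1.2.1]; omega)
          exact absurd (by rw [h3]; exact p.1.2.2) h1
        · refine ⟨?_, ?_⟩
          · rw [← h1]; exact exts_near B x
          · rw [← h1]; exact (mE' p.2 x).1 h2
  have heq : EqB (k + 1) (bM D (Polynomial L) B k n * (fromBlocks f 0 0 Z' * aM u w))
      (dg (Sum.elim E (MM E'))) :=
    level hLev hjf hjf' hI hk dB dB' hjW hjW' (eqB_fl hjf hLev hW3 hW4 dB)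
      (eqB_fl hjf' hLev hW3' hW4' dB') hjZ (eqB_xt hLev hjf' hZl)
  letI : Fintype {p : Fk D B k × n // rt T ∈ MM E' p} := Fintype.ofFinite _
  letI : Fintype {p : Fk D B k × n // rt T ∈ MM E p} := Fintype.ofFinite _
  letI : Fintype {i // rt T ∈ (Sum.elim E (MM E') : n ⊕ Fk D B k × n → Set (Tw D V)) i} :=
    Fintype.ofFinite _
  letI : Fintype {i // rt T ∈ ((bE E' (MM E) : n ⊕ Fk D B k × n → Set (Tw D V)) i)} := Fintype.ofFinite _
  have hfin := hEP (n ⊕ Fk D B k × n) (Sum.elim E (MM E')) (bE E' (MM E) : n ⊕ Fk D B k × n → Set (Tw D V)) _ _ r1 r2 sf2 sf2' hI2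
    hlev heq
  -- the part at `rt`
  have hm := (hOS Γ G Q V L D T).2.2.2.2
  have eu : eps T u = 0 := by
    refine eps_zero_of fun i p => ?_
    refine (ent_mul_mvT W₀' i p _ _).2 ?_
    rw [near_rt c0]
    intro h
    have h1 := p.1.2.1
    rw [← h, lev_rt] at h1
    omega
  have ew : eps T w = 0 := by
    refine eps_zero_of fun p j => ?_
    refine (ent_mv_mul W₀ p j _ _).2 ?_
    rw [near_rt c0]
    intro h
    have h1 := p.1.2.1
    rw [← h, lev_rt] at h1
    omega
  have he : eps T (bM D (Polynomial L) B k n * (fromBlocks f 0 0 Z' * aM u w)) =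
      fromBlocks (eps T f) 0 0 (eps T Z') := by
    rw [hm _ _ _ _ _ (sm_bM hOS) (sh.mul hOS (sm_aM hOS su sw)), hm _ _ _ _ _ sh (sm_aM hOS su sw),
      eps_bM c0 hkQ, eps_aM hOS su sw eu ew, eps_blocks, eps_zero, eps_zero, Matrix.one_mul,
      Matrix.mul_one]
  rw [he] at hfin
  obtain ⟨i1, i2⟩ := hIso Γ G Q V L D T n n E E' f f' hS hS' hI
  obtain ⟨j1, j2⟩ := hIso Γ G Q V L D T _ _ (MM E') (MM E) Z' Z hZS' hZS hZI
  have hcard : Fintype.card {i // rt T ∈ E i} = Fintype.card {i // rt T ∈ E' i} :=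
    Matrix.square_of_invertible _ _ i2 i1
  have hcard' : Fintype.card {p : Fk D B k × n // rt T ∈ MM E' p} =
      Fintype.card {p : Fk D B k × n // rt T ∈ MM E p} := Matrix.square_of_invertible _ _ j2 j1
  have hkb := kr_blocks hP i1 i2 j1 j2 0 hcard hcard'
  have hκ1 := hZκ
  have p1 : ∀ i, rt T ∈ (bE E' (MM E) : n ⊕ Fk D B k × n → Set (Tw D V)) (Sum.inl i) ↔ rt T ∈ E' i := by
    intro i
    change (_ ∨ _) ↔ _
    rw [near_rt c0, lev_rt]
    constructor
    · rintro (h | ⟨l, h, -⟩)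
      · exact h.2
      · have h1 := l.2.1
        rw [← h, lev_rt] at h1
        omega
    · intro h
      exact Or.inl ⟨by omega, h⟩
  have p2 : ∀ p, rt T ∈ (bE E' (MM E) : n ⊕ Fk D B k × n → Set (Tw D V)) (Sum.inr p) ↔ rt T ∈ MM E p := by
    intro p
    change (_ ∨ _) ↔ _
    rw [near_rt c0]
    have h0 : rt T ≠ p.1.1 := by
      intro h
      have h1 := p.1.2.1
      rw [← h, lev_rt] at h1
      omega
    constructor
    · rintro (h | h)
      · exact h.2
      · exact absurd h.1 h0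
    · intro h
      exact Or.inl ⟨h0, h⟩
  let e1 : {i // rt T ∈ (Sum.elim E (MM E') : n ⊕ Fk D B k × n → Set (Tw D V)) i} ≃
      {i // rt T ∈ E i} ⊕ {p : Fk D B k × n // rt T ∈ MM E' p} := Equiv.subtypeSum
  let e2 : {i // rt T ∈ ((bE E' (MM E) : n ⊕ Fk D B k × n → Set (Tw D V)) i)} ≃
      {i // rt T ∈ E' i} ⊕ {p : Fk D B k × n // rt T ∈ MM E p} :=
    Equiv.subtypeSum.trans (Equiv.sumCongr (Equiv.subtypeEquivRight p1) (Equiv.subtypeEquivRight p2))
  have hre := kr_reindex hP (Z := fromBlocks ((eps T f).submatrix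
      (Subtype.val : {i // rt T ∈ E' i} → n) (Subtype.val : {i // rt T ∈ E i} → n)) 0 0
      ((eps T Z').submatrix (Subtype.val : {p : Fk D B k × n // rt T ∈ MM E p} → _)
        (Subtype.val : {p : Fk D B k × n // rt T ∈ MM E' p} → _)))
    (Z' := fromBlocks ((eps T f').submatrix
      (Subtype.val : {i // rt T ∈ E i} → n) (Subtype.val : {i // rt T ∈ E' i} → n)) 0 0
      ((eps T Z).submatrix (Subtype.val : {p : Fk D B k × n // rt T ∈ MM E' p} → _)
        (Subtype.val : {p : Fk D B k × n // rt T ∈ MM E p} → _)))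
    (by
      rw [fromBlocks_multiply]
      simp only [Matrix.mul_zero, Matrix.zero_mul, add_zero, zero_add]
      rw [i1, j1, fromBlocks_one])
    (by
      rw [fromBlocks_multiply]
      simp only [Matrix.mul_zero, Matrix.zero_mul, add_zero, zero_add]
      rw [i2, j2, fromBlocks_one]) e1 e2
  have hsub : (fromBlocks ((eps T f).submatrix
      (Subtype.val : {i // rt T ∈ E' i} → n) (Subtype.val : {i // rt T ∈ E i} → n)) 0 0
      ((eps T Z').submatrix (Subtype.val : {p : Fk D B k × n // rt T ∈ MM E p} → _)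
        (Subtype.val : {p : Fk D B k × n // rt T ∈ MM E' p} → _))).submatrix e2 e1 =
      (fromBlocks (eps T f) 0 0 (eps T Z')).submatrix
        (Subtype.val : {i // rt T ∈ ((bE E' (MM E) : n ⊕ Fk D B k × n → Set (Tw D V)) i)} → _)
        (Subtype.val : {i // rt T ∈
          (Sum.elim E (MM E') : n ⊕ Fk D B k × n → Set (Tw D V)) i} → _) := by
    refine Matrix.ext fun i j => ?_
    rcases i with ⟨i | i, hi⟩ <;> rcases j with ⟨j | j, hj⟩ <;> rfl
  rw [hsub, hfin, hkb, hκ1, mul_one] at hre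
  exact hre.symm

end Main

end Pool.Agent.QT.Sp
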