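import Pool.Agent.Lib.MP_8f66f0_al_Q.OOSS
import Pool.Agent.Lib.MP_8f66f0_al_TQ.KrH

/-!
# Theorem Q: the end of the proof
-/

set_option autoImplicit false

namespace Pool.Agent.QT

open scoped Pointwise
open Pool.Agent.TQ Pool.Agent.Wald Pool.Agent.Hier Pool.Agent.WaldL Pool.Agent.TreeC
open Pool.Agent.FH (KU)

section Ring

variable {A : Type} [Ring A]

/-- The algebra of the proof. -/
private theorem alg {e₁ e' N P P' Y Y' : A} (h1 : Y' * Y = e₁) (h2 : Y * Y' = e')
    (h3 : Y * e₁ = Y) (h4 : e' * Y = Y) (h5 : Y' * e' = Y') (h6 : e₁ * Y' = Y') (hN : N * N = N)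
    (n1 : e₁ * N = 0) (n2 : N * e₁ = 0) (n3 : e' * N = 0) (n4 : N * e' = 0)
    (p1 : P' * P = e₁ + N) (p2 : P * P' = e₁ + N) (p3 : P * (e₁ + N) = P)
    (p4 : (e₁ + N) * P = P) (p5 : P' * (e₁ + N) = P') (p6 : (e₁ + N) * P' = P') :
    (P' * (Y' + N)) * ((Y + N) * P) = e₁ + N ∧ ((Y + N) * P) * (P' * (Y' + N)) = e' + N ∧
    ((Y + N) * P) * (e₁ + N) = (Y + N) * P ∧ (e' + N) * ((Y + N) * P) = (Y + N) * P ∧
    (P' * (Y' + N)) * (e' + N) = P' * (Y' + N) ∧ (e₁ + N) * (P' * (Y' + N)) = P' * (Y' + N) := by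
  have a1 : Y' * N = 0 := by rw [← h5, mul_assoc, n3, mul_zero]
  have a2 : N * Y = 0 := by rw [← h4, ← mul_assoc, n4, zero_mul]
  have a3 : Y * N = 0 := by rw [← h3, mul_assoc, n1, mul_zero]
  have a4 : N * Y' = 0 := by rw [← h6, ← mul_assoc, n2, zero_mul]
  have b1 : (Y' + N) * (Y + N) = e₁ + N := by
    rw [add_mul, mul_add, mul_add, h1, a1, a2, hN, add_zero, zero_add]
  have b2 : (Y + N) * (Y' + N) = e' + N := by
    rw [add_mul, mul_add, mul_add, h2, a3, a4, hN, add_zero, zero_add]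
  have b3 : (Y + N) * (e₁ + N) = Y + N := by
    rw [add_mul, mul_add, mul_add, h3, a3, n2, hN, add_zero, zero_add]
  have b4 : (e' + N) * (Y + N) = Y + N := by
    rw [add_mul, mul_add, mul_add, h4, n3, a2, hN, add_zero, zero_add]
  have b5 : (Y' + N) * (e' + N) = Y' + N := by
    rw [add_mul, mul_add, mul_add, h5, a1, n4, hN, add_zero, zero_add]
  refine ⟨?_, ?_, ?_, ?_, ?_, ?_⟩
  · rw [mul_assoc, ← mul_assoc (Y' + N), b1, p4, p1]
  · rw [mul_assoc, ← mul_assoc P, p2, ← mul_assoc, b3, b2]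
  · rw [mul_assoc, p3]
  · rw [← mul_assoc, b4]
  · rw [mul_assoc, b5]
  · rw [← mul_assoc, p6]

end Ring

section Diag

variable {Γ G Q V : Type} [Group Γ] [Group G] [MulAction Γ Q] [MulAction G V] {D : Coc Γ G Q}
  {R : Type} [CommRing R]

open Classical in
theorem ent_ind (E : Set (Tw D V)) (y x : Tw D V) :
    ent (ind E : Kr D V R) y x = if y = x ∧ x ∈ E then 1 else 0 := by
  rw [ind, ent_mkK]

theorem ent_ind_mem {E : Set (Tw D V)} {x : Tw D V} (h : x ∈ E) :
    ent (ind E : Kr D V R) x x = 1 := by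
  classical
  rw [ent_ind, if_pos ⟨rfl, h⟩]

theorem ent_ind_notMem {E : Set (Tw D V)} {y x : Tw D V} (h : x ∉ E) :
    ent (ind E : Kr D V R) y x = 0 := by
  classical
  rw [ent_ind, if_neg fun h' => h h'.2]

theorem ent_ind_ne {E : Set (Tw D V)} {y x : Tw D V} (h : y ≠ x) :
    ent (ind E : Kr D V R) y x = 0 := by
  classical
  rw [ent_ind, if_neg fun h' => h h'.1]

theorem ind_add {E F : Set (Tw D V)} (h : Disjoint E F) :
    (ind E : Kr D V R) + ind F = ind (E ∪ F) := by
  classical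
  refine ent_ext fun y x => ?_
  rw [ent_add]
  by_cases hyx : y = x
  · subst hyx
    by_cases h1 : y ∈ E
    · rw [ent_ind_mem h1, ent_ind_notMem (Set.disjoint_left.1 h h1),
        ent_ind_mem (Set.mem_union_left _ h1), add_zero]
    · by_cases h2 : y ∈ F
      · rw [ent_ind_notMem h1, ent_ind_mem h2, ent_ind_mem (Set.mem_union_right _ h2), zero_add]
      · rw [ent_ind_notMem h1, ent_ind_notMem h2,
          ent_ind_notMem fun h' => h'.elim h1 h2, zero_add]
  · rw [ent_ind_ne hyx, ent_ind_ne hyx, ent_ind_ne hyx, zero_add]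

variable {n : Type} [DecidableEq n]

theorem dg_add {E F : n → Set (Tw D V)} (h : ∀ i, Disjoint (E i) (F i)) :
    (dg E : Matrix n n (Kr D V R)) + dg F = dg fun i => E i ∪ F i := by
  rw [dg, dg, dg, Matrix.diagonal_add]
  congr 1
  funext i
  exact ind_add (h i)

theorem dg_mul [Fintype n] (hI : S_Ind) (E F : n → Set (Tw D V)) :
    (dg E : Matrix n n (Kr D V R)) * dg F = dg fun i => E i ∩ F i := by
  rw [dg, dg, dg, Matrix.diagonal_mul_diagonal]
  congr 1
  funext i
  exact (hI Γ G Q V R D).1 _ _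

theorem dg_empty (hI : S_Ind) {E : n → Set (Tw D V)} (h : ∀ i, E i = ∅) :
    (dg E : Matrix n n (Kr D V R)) = 0 := by
  have h1 : (fun i => ind (E i)) = fun _ : n => (0 : Kr D V R) := by
    funext i
    rw [h i]
    exact (hI Γ G Q V R D).2.2.1
  rw [dg, h1, Matrix.diagonal_zero]

theorem dg_apply_eq (E : n → Set (Tw D V)) (i : n) :
    (dg E : Matrix n n (Kr D V R)) i i = ind (E i) := by
  rw [dg, Matrix.diagonal_apply_eq]

theorem dg_apply_ne (E : n → Set (Tw D V)) {i j : n} (h : i ≠ j) :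
    (dg E : Matrix n n (Kr D V R)) i j = 0 := by
  rw [dg, Matrix.diagonal_apply_ne _ h]

theorem mapK_ind {L : Type} [CommRing L] (E : Set (Tw D V)) :
    (mapK coA (ind E : Kr D V L) : Kr D V (Polynomial L)) = ind E := by
  classical
  refine ent_ext fun y x => ?_
  rw [ent_mapK, ent_ind, ent_ind]
  split
  · rw [map_one]
  · rw [map_zero]

theorem dg_map {L : Type} [CommRing L] (E : n → Set (Tw D V)) :
    (dg E : Matrix n n (Kr D V L)).map (mapK coA) = (dg E : Matrix n n (Kr D V (Polynomial L))) := by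
  rw [dg, dg, Matrix.diagonal_map (map_zero _)]
  congr 1
  funext i
  exact mapK_ind _

theorem mul_dg_apply [Fintype n] (E : n → Set (Tw D V)) {n' : Type} (M : Matrix n' n (Kr D V R))
    (i : n') (j : n) : (M * (dg E : Matrix n n (Kr D V R))) i j = M i j * ind (E j) := by
  rw [dg, Matrix.mul_diagonal]

theorem dg_mul_apply [Fintype n] (E : n → Set (Tw D V)) {n' : Type} (M : Matrix n n' (Kr D V R))
    (i : n) (j : n') : ((dg E : Matrix n n (Kr D V R)) * M) i j = ind (E i) * M i j := by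
  rw [dg, Matrix.diagonal_mul]

/-- Entries of isomorphisms outside the source. -/
theorem ent_col_zero [Fintype n] (hI : S_Ind) {E : n → Set (Tw D V)} {n' : Type}
    {M : Matrix n' n (Kr D V R)} (hM : M * dg E = M) (i : n') (j : n) (y : Tw D V) {x : Tw D V}
    (hx : x ∉ E j) : ent (M i j) y x = 0 := by
  have h1 : M i j = M i j * ind (E j) := (congrFun (congrFun hM i) j).symm.trans
    (mul_dg_apply E M i j)
  rw [h1]
  exact ((hI Γ G Q V R D).2.2.2 (E j) (M i j) y x).2.1 hx

/-- Entries of isomorphisms outside the target. -/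
theorem ent_row_zero [Fintype n] (hI : S_Ind) {E : n → Set (Tw D V)} {n' : Type}
    {M : Matrix n n' (Kr D V R)} (hM : dg E * M = M) (i : n) (j : n') {y : Tw D V} (x : Tw D V)
    (hy : y ∉ E i) : ent (M i j) y x = 0 := by
  have h1 : M i j = ind (E i) * M i j := (congrFun (congrFun hM i) j).symm.trans
    (dg_mul_apply E M i j)
  rw [h1]
  exact ((hI Γ G Q V R D).2.2.2 (E i) (M i j) y x).2.2.2 hy

end Diag

section Inf

variable {Γ G Q V : Type} [Group Γ] [Group G] [MulAction Γ Q] [MulAction G V] {D : Coc Γ G Q}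
  {R : Type} [CommRing R] [Fintype Q]

theorem eq_inf_of_lev {x : Tw D V} (h : lev x < 1) : x = inf := by
  have h1 : (Finset.univ.filter fun q => (x q).isSome = true) = ∅ :=
    Finset.card_eq_zero.1 (Nat.lt_one_iff.1 h)
  funext q
  have h2 : q ∉ Finset.univ.filter fun q => (x q).isSome = true := by
    rw [h1]
    exact Finset.notMem_empty q
  cases hx : x q with
  | none => rfl
  | some v =>
    refine absurd (Finset.mem_filter.2 ⟨Finset.mem_univ q, ?_⟩) h2
    rw [hx]
    rfl

theorem Jc.ent_inf {S : Kr D V R} (hS : Jc S) {y : Tw D V} (h : ent S y inf ≠ 0) : y = inf := by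
  obtain ⟨g, hg⟩ : ∃ g, cf S g y inf ≠ 0 := by
    by_contra hcon
    push Not at hcon
    exact h (MonoidAlgebra.ext (Finsupp.ext hcon))
  funext q
  have := (hS g y inf hg (g⁻¹ • q)).2 rfl
  rwa [smul_inv_smul] at this

theorem ent_mul_inf {S U : Kr D V R} (hU : Jc U) :
    ent (S * U) inf inf = ent S inf inf * ent U inf inf := by
  classical
  rw [ent_mul_col S U inf inf {inf} fun v hv => Finset.mem_singleton.2 (hU.ent_inf hv),
    Finset.sum_singleton]

/-- The part at infinity. -/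
noncomputable def evI {n n' : Type} (f : Matrix n' n (Kr D V R)) :
    Matrix n' n (MonoidAlgebra R Γ) := Matrix.of fun a' a => ent (f a' a) inf inf

theorem evI_mul {n n' n'' : Type} [Fintype n'] (S : Matrix n'' n' (Kr D V R))
    (U : Matrix n' n (Kr D V R)) (hU : ∀ i j, Jc (U i j)) : evI (S * U) = evI S * evI U := by
  refine Matrix.ext fun i j => ?_
  rw [Matrix.mul_apply]
  change ent ((S * U) i j) inf inf = ∑ p, ent (S i p) inf inf * ent (U p j) inf inf
  rw [Matrix.mul_apply, ent_sum]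
  exact Finset.sum_congr rfl fun p _ => ent_mul_inf (hU p j)

theorem smul_inf (g : Γ) : g • (inf : Tw D V) = inf := by
  symm
  rw [tw_eq_iff]
  intro q
  rfl

theorem js_inf (a : MonoidAlgebra R Γ) : JS (inf : Tw D V) inf a :=
  fun _ _ _ => ⟨fun _ => rfl, fun _ => rfl⟩

theorem exts_inf (x : Tw D V) : Exts inf x := fun _ h => absurd rfl h

end Inf

section Mat

variable {Γ G Q V : Type} [Group Γ] [Group G] [MulAction Γ Q] [MulAction G V] {D : Coc Γ G Q}
  [Fintype Q] {T : Tr G V} {L : Type} [CommRing L]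

theorem SS.zero' : SS T (0 : Kr D V (Polynomial L)) :=
  ⟨Rk.zero, fun g y x h => absurd (by rw [cf_zero, Polynomial.eval_zero]) h,
    fun g y x h => absurd (by rw [cf_zero, Polynomial.eval_zero]) h⟩

theorem SS.sum {ι : Type} (s : Finset ι) {S : ι → Kr D V (Polynomial L)} (h : ∀ i, SS T (S i)) :
    SS T (∑ i ∈ s, S i) := by
  classical
  induction s using Finset.induction_on with
  | empty =>
    rw [Finset.sum_empty]
    exact SS.zero'
  | insert a s ha ih =>
    rw [Finset.sum_insert ha]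
    exact (h a).add ih

theorem SS.mmul {n n' n'' : Type} [Fintype n'] {S : Matrix n'' n' (Kr D V (Polynomial L))}
    {U : Matrix n' n (Kr D V (Polynomial L))} (hS : ∀ i j, SS T (S i j)) (hU : ∀ i j, SS T (U i j))
    (i : n'') (j : n) : SS T ((S * U) i j) := by
  rw [Matrix.mul_apply]
  exact SS.sum _ fun p => (hS i p).mul (hU p j)

theorem SS.ind' (hR : S_RS) {E : Set (Tw D V)} (hE : RS E) :
    SS T (ind E : Kr D V (Polynomial L)) := by
  refine ⟨(hR Γ G Q V D).1 _ E hE, fun g y x h => ?_, fun g y x h => ?_⟩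
  · obtain ⟨rfl, rfl⟩ := cf_ind_ne (fun h0 => h (by rw [h0, Polynomial.eval_zero]))
    exact (one_smul _ _).symm
  · obtain ⟨rfl, rfl⟩ := cf_ind_ne (fun h0 => h (by rw [h0, Polynomial.eval_zero]))
    exact ⟨le_rfl, fun _ => (one_smul _ _).symm⟩

theorem SS.dg (hR : S_RS) {n : Type} [DecidableEq n] {E : n → Set (Tw D V)} (hE : ∀ i, RS (E i))
    (i j : n) : SS T ((QT.dg E : Matrix n n (Kr D V (Polynomial L))) i j) := by
  by_cases h : i = j
  · subst h
    rw [dg_apply_eq]
    exact SS.ind' hR (hE i)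
  · rw [dg_apply_ne _ h]
    exact SS.zero'

/-- The full extension of the part at infinity. -/
noncomputable def ph (φ : G → RCF (Option V) (Polynomial L)) {n : Type}
    (x : Matrix n n (MonoidAlgebra L Γ)) : Matrix n n (Kr D V (Polynomial L)) :=
  Matrix.of fun i j => xt φ inf inf (coA (x i j))

variable {φ : G → RCF (Option V) (Polynomial L)}

theorem ph_mul (hX : S_Xt) (hφ : IsPhi T φ) {n : Type} [Fintype n]
    (x y : Matrix n n (MonoidAlgebra L Γ)) :
    (ph φ x : Matrix n n (Kr D V (Polynomial L))) * ph φ y = ph φ (x * y) := by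
  obtain ⟨-, q2, q3, -, q5, -, -⟩ := hX Γ G Q V (Polynomial L) D φ hφ.one hφ.mul hφ.lr hφ.inf
  let F : MonoidAlgebra (Polynomial L) Γ →+ Kr D V (Polynomial L) :=
    { toFun := fun a => xt φ inf inf a
      map_zero' := q3 inf inf
      map_add' := q2 inf inf }
  refine Matrix.ext fun i j => ?_
  rw [Matrix.mul_apply]
  change ∑ p, xt φ inf inf (coA (x i p)) * xt φ inf inf (coA (y p j)) = F (coA ((x * y) i j))
  rw [Matrix.mul_apply, map_sum, map_sum]
  refine Finset.sum_congr rfl fun p _ => ?_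
  rw [q5 inf inf inf _ _ (js_inf _) (js_inf _), map_mul]
  rfl

theorem ph_one (hI : S_Ind) (hX : S_Xt) (hφ : IsPhi T φ) {n : Type} [DecidableEq n] :
    (ph φ (1 : Matrix n n (MonoidAlgebra L Γ)) : Matrix n n (Kr D V (Polynomial L))) = 1 := by
  obtain ⟨-, -, q3, -, -, q6, -⟩ := hX Γ G Q V (Polynomial L) D φ hφ.one hφ.mul hφ.lr hφ.inf
  refine Matrix.ext fun i j => ?_
  change xt φ inf inf (coA ((1 : Matrix n n (MonoidAlgebra L Γ)) i j)) = _
  by_cases h : i = j
  · subst h
    rw [Matrix.one_apply_eq, Matrix.one_apply_eq, map_one, q6,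
      ← (hI Γ G Q V (Polynomial L) D).2.1]
    congr 1
    exact Set.eq_univ_of_forall exts_inf
  · rw [Matrix.one_apply_ne h, Matrix.one_apply_ne h, map_zero, q3]

theorem ph_ss (hXS : S_XtSS) (hφ : IsPhi T φ) {n : Type} (x : Matrix n n (MonoidAlgebra L Γ))
    (i j : n) : SS T ((ph φ x : Matrix n n (Kr D V (Polynomial L))) i j) := by
  have he : ed T (inf : Tw D V) = inf := rfl
  refine (hXS Γ G Q V L D T φ hφ inf inf _ (js_inf _)).1 (fun g _ => (smul_inf g).symm)
    fun g _ => ⟨le_rfl, fun _ => ?_⟩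
  rw [he, smul_inf]

theorem rs_nr : RS {z : Tw D V | NR T z} := by
  classical
  refine ⟨{T.root}, fun x => ?_⟩
  change (∀ q, x q ≠ some T.root) ↔ ∀ q, near {T.root} x q ≠ some T.root
  refine forall_congr' fun q => not_congr ?_
  rw [near]
  cases hx : x q with
  | none => rfl
  | some v =>
    by_cases hv : v = T.root
    · subst hv
      rw [Option.filter_some_pos]
      simp
    · rw [Option.filter_some_neg]
      · simp [hv]
      · simp [hv]

end Mat

theorem endThm (hP : S_Phi) (hI : S_Ind) (hR : S_RS) (hX : S_Xt) (hXS : S_XtSS) (hPX : S_PropX) :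
    S_End := by
  intro Γ G Q V L K _ _ _ _ _ _ hL _ _ _ _ D T κ hκ hEP hproj n _ _ x hx
  obtain ⟨u, rfl⟩ := hx
  obtain ⟨m, _, _, Dm, E', X, X', hD, hE, hEl, hEr, hXO, hX'O, hXX, hx0, -⟩ :=
    hPX Γ G Q V L hL D T hproj n _ _ u.mul_inv u.inv_mul
  obtain ⟨φ, hφ⟩ := hP G V L T
  let x' : Matrix n n (MonoidAlgebra L Γ) := ((u⁻¹ : (Matrix n n (MonoidAlgebra L Γ))ˣ) : _)
  let Nt : Set (Tw D V) := {z | NR T z}
  let e₁ : n ⊕ m → Set (Tw D V) := Sum.elim (fun _ => Nt) Dm
  let N₀ : n ⊕ m → Set (Tw D V) := Sum.elim (fun _ => Ntᶜ) (fun _ => ∅)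
  let E : n ⊕ m → Set (Tw D V) := Sum.elim (fun _ => Set.univ) Dm
  let E'' : n ⊕ m → Set (Tw D V) := fun i => E' i ∪ N₀ i
  let Y : Matrix (n ⊕ m) (n ⊕ m) (Kr D V (Polynomial L)) := X.map (mapK coA)
  let Y' : Matrix (n ⊕ m) (n ⊕ m) (Kr D V (Polynomial L)) := X'.map (mapK coA)
  let N : Matrix (n ⊕ m) (n ⊕ m) (Kr D V (Polynomial L)) := dg N₀
  let P : Matrix (n ⊕ m) (n ⊕ m) (Kr D V (Polynomial L)) := Matrix.fromBlocks (ph φ x') 0 0 (dg Dm)
  let P' : Matrix (n ⊕ m) (n ⊕ m) (Kr D V (Polynomial L)) := Matrix.fromBlocks (ph φ u) 0 0 (dg Dm)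
  have hE'N : ∀ i, E' i ∩ N₀ i = ∅ := by
    rintro (i | i)
    · exact Set.eq_empty_iff_forall_notMem.2 fun z hz => hz.2 ((hE _).2 z hz.1)
    · exact Set.inter_empty _
  have he₁N : ∀ i, e₁ i ∩ N₀ i = ∅ := by
    rintro (i | i)
    · exact Set.inter_compl_self Nt
    · exact Set.inter_empty _
  have hEE : (dg e₁ : Matrix (n ⊕ m) (n ⊕ m) (Kr D V (Polynomial L))) + N = dg E := by
    rw [dg_add fun i => Set.disjoint_iff_inter_eq_empty.2 (he₁N i)]
    congr 1
    funext i
    cases i with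
    | inl i => exact Set.union_compl_self Nt
    | inr i => exact Set.union_empty _
  have hEE'' : (dg E' : Matrix (n ⊕ m) (n ⊕ m) (Kr D V (Polynomial L))) + N = dg E'' :=
    dg_add fun i => Set.disjoint_iff_inter_eq_empty.2 (hE'N i)
  have hEb : (dg E : Matrix (n ⊕ m) (n ⊕ m) (Kr D V (Polynomial L))) =
      Matrix.fromBlocks 1 0 0 (dg Dm) := by
    rw [dg, dg, ← Matrix.diagonal_one, Matrix.fromBlocks_diagonal]
    congr 1
    funext i
    cases i with
    | inl i => exact (hI Γ G Q V (Polynomial L) D).2.1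
    | inr i => rfl
  have hDD : (dg Dm : Matrix m m (Kr D V (Polynomial L))) * dg Dm = dg Dm := by
    rw [dg_mul hI]
    congr 1
    funext i
    exact Set.inter_self _
  have p0 : ∀ a b : Matrix n n (MonoidAlgebra L Γ),
      (Matrix.fromBlocks (ph φ a) 0 0 (dg Dm) : Matrix (n ⊕ m) (n ⊕ m) (Kr D V (Polynomial L))) *
        Matrix.fromBlocks (ph φ b) 0 0 (dg Dm) = Matrix.fromBlocks (ph φ (a * b)) 0 0 (dg Dm) := by
    intro a b
    rw [Matrix.fromBlocks_multiply, ph_mul hX hφ, hDD]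
    simp only [Matrix.mul_zero, Matrix.zero_mul, add_zero, zero_add]
  have p1 : P' * P = dg e₁ + N := by
    rw [hEE, hEb, ← ph_one hI hX hφ, ← u.mul_inv]
    exact p0 _ _
  have p2 : P * P' = dg e₁ + N := by
    rw [hEE, hEb, ← ph_one hI hX hφ, ← u.inv_mul]
    exact p0 _ _
  have q1 : ∀ a : Matrix n n (MonoidAlgebra L Γ),
      (Matrix.fromBlocks (ph φ a) 0 0 (dg Dm) : Matrix (n ⊕ m) (n ⊕ m) (Kr D V (Polynomial L))) *
        (dg e₁ + N) = Matrix.fromBlocks (ph φ a) 0 0 (dg Dm) := by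
    intro a
    rw [hEE, hEb, ← ph_one hI hX hφ, p0, mul_one]
  have q2 : ∀ a : Matrix n n (MonoidAlgebra L Γ), (dg e₁ + N) *
      (Matrix.fromBlocks (ph φ a) 0 0 (dg Dm) : Matrix (n ⊕ m) (n ⊕ m) (Kr D V (Polynomial L))) =
        Matrix.fromBlocks (ph φ a) 0 0 (dg Dm) := by
    intro a
    rw [hEE, hEb, ← ph_one hI hX hφ, p0, one_mul]
  have y1 : Y' * Y = dg e₁ := by
    change X'.map (mapK coA) * X.map (mapK coA) = _
    rw [← Matrix.map_mul, hXX.h1, dg_map]
  have y2 : Y * Y' = dg E' := by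
    change X.map (mapK coA) * X'.map (mapK coA) = _
    rw [← Matrix.map_mul, hXX.h2, dg_map]
  have y3 : Y * dg e₁ = Y := by
    change X.map (mapK coA) * _ = _
    rw [← dg_map, ← Matrix.map_mul, hXX.h3]
  have y4 : dg E' * Y = Y := by
    change _ * X.map (mapK coA) = _
    rw [← dg_map, ← Matrix.map_mul, hXX.h4]
  have y5 : Y' * dg E' = Y' := by
    change X'.map (mapK coA) * _ = _
    rw [← dg_map, ← Matrix.map_mul, hXX.h5]
  have y6 : dg e₁ * Y' = Y' := by
    change _ * X'.map (mapK coA) = _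
    rw [← dg_map, ← Matrix.map_mul, hXX.h6]
  have hN : N * N = N := by
    change dg N₀ * dg N₀ = dg N₀
    rw [dg_mul hI]
    congr 1
    funext i
    exact Set.inter_self _
  have n1 : dg e₁ * N = 0 := by
    change dg e₁ * dg N₀ = 0
    rw [dg_mul hI]
    exact dg_empty hI he₁N
  have n2 : N * dg e₁ = 0 := by
    change dg N₀ * dg e₁ = 0
    rw [dg_mul hI]
    exact dg_empty hI fun i => by rw [Set.inter_comm]; exact he₁N i
  have n3 : dg E' * N = 0 := by
    change dg E' * dg N₀ = 0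
    rw [dg_mul hI]
    exact dg_empty hI hE'N
  have n4 : N * dg E' = 0 := by
    change dg N₀ * dg E' = 0
    rw [dg_mul hI]
    exact dg_empty hI fun i => by rw [Set.inter_comm]; exact hE'N i
  obtain ⟨a1, a2, a3, a4, a5, a6⟩ := alg y1 y2 y3 y4 y5 y6 hN n1 n2 n3 n4 p1 p2 (q1 _) (q2 _)
    (q1 _) (q2 _)
  rw [hEE] at a1 a3 a6
  rw [hEE''] at a2 a4 a5
  -- the regular sets
  obtain ⟨-, r2, -, -, -, r6, r7⟩ := hR Γ G Q V D
  have hNt : RS Nt := rs_nr
  have hRE : ∀ i, RS (E i) := by
    rintro (i | i)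
    · exact r7
    · exact (hD i).1
  have hRN : ∀ i, RS (N₀ i) := by
    rintro (i | i)
    · exact (r2 _ _ hNt hNt).2.2
    · exact r6
  have hRE'' : ∀ i, RS (E'' i) := fun i => (r2 _ _ (hE i).1 (hRN i)).2.1
  -- the structures
  have hSY : ∀ i j, SS T ((Y + N) i j) := fun i j => (hXO i j).toSS.add (SS.dg hR hRN i j)
  have hSY' : ∀ i j, SS T ((Y' + N) i j) := fun i j => (hX'O i j).toSS.add (SS.dg hR hRN i j)
  have hSP : ∀ (a : Matrix n n (MonoidAlgebra L Γ)) (i j : n ⊕ m), SS T
      ((Matrix.fromBlocks (ph φ a) 0 0 (dg Dm) :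
        Matrix (n ⊕ m) (n ⊕ m) (Kr D V (Polynomial L))) i j) := by
    rintro a (i | i) (j | j)
    · exact ph_ss hXS hφ a i j
    · exact SS.zero'
    · exact SS.zero'
    · exact SS.dg hR (fun i => (hD i).1) i j
  have hSf : ∀ i j, SS T (((Y + N) * P) i j) := SS.mmul hSY (hSP _)
  have hSf' : ∀ i j, SS T ((P' * (Y' + N)) i j) := SS.mmul (hSP _) hSY'
  have hNRi : NR T (inf : Tw D V) := fun q h => Option.some_ne_none _ h.symm
  have hag : ∀ i x, lev x < 1 → (x ∈ E i ↔ x ∈ E'' i) := by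
    rintro (i | i) z hz
    · rw [eq_inf_of_lev hz]
      exact ⟨fun _ => Or.inl (hEl i), fun _ => Set.mem_univ _⟩
    · rw [eq_inf_of_lev hz]
      exact ⟨fun h => absurd rfl ((hD i).2 _ h).2, fun h => h.elim (fun h => absurd h (hEr i))
        fun h => h.elim⟩
  -- the part at infinity
  have i1 : evI (Y + N) = Matrix.fromBlocks ((u : Matrix n n (MonoidAlgebra L Γ)).map coA) 0 0 0 := by
    refine Matrix.ext fun i j => ?_
    change ent (Y i j) inf inf + ent (dg N₀ i j) inf inf = _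
    have hN0 : ent ((dg N₀ : Matrix (n ⊕ m) (n ⊕ m) (Kr D V (Polynomial L))) i j) inf inf = 0 := by
      by_cases h : i = j
      · subst h
        rw [dg_apply_eq]
        refine ent_ind_notMem ?_
        cases i with
        | inl i => exact fun h => h hNRi
        | inr i => exact fun h => h
      · rw [dg_apply_ne _ h, ent_zero]
    rw [hN0, add_zero]
    cases i with
    | inl i =>
      cases j with
      | inl j =>
        change ent (mapK coA (X (Sum.inl i) (Sum.inl j))) inf inf = coA _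
        rw [ent_mapK, hx0]
      | inr j => exact ent_col_zero hI y3 _ _ _ fun h => ((hD j).2 _ h).2 rfl
    | inr i =>
      refine (ent_row_zero hI y4 _ _ _ (hEr i)).trans ?_
      cases j <;> rfl
  have i2 : evI P = Matrix.fromBlocks (x'.map coA) 0 0 0 := by
    refine Matrix.ext fun i j => ?_
    obtain ⟨-, -, -, -, -, -, t7⟩ := hX Γ G Q V (Polynomial L) D φ hφ.one hφ.mul hφ.lr hφ.inf
    cases i with
    | inl i =>
      cases j with
      | inl j => exact ((t7 inf inf _ (js_inf _) inf inf).2.2 rfl).1 ⟨rfl, rfl⟩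
      | inr j => exact ent_zero (A := MonoidAlgebra (Polynomial L) Γ) (inf : Tw D V) inf
    | inr i =>
      cases j with
      | inl j => exact ent_zero (A := MonoidAlgebra (Polynomial L) Γ) (inf : Tw D V) inf
      | inr j =>
        change ent (dg Dm i j) inf inf = 0
        by_cases h : i = j
        · subst h
          rw [dg_apply_eq]
          exact ent_ind_notMem fun h => ((hD i).2 _ h).2 rfl
        · rw [dg_apply_ne _ h, ent_zero]
  have i3 : evI (dg E : Matrix (n ⊕ m) (n ⊕ m) (Kr D V (Polynomial L))) =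
      Matrix.fromBlocks 1 0 0 0 := by
    rw [hEb]
    refine Matrix.ext fun i j => ?_
    cases i with
    | inl i =>
      cases j with
      | inl j =>
        change ent ((1 : Matrix n n (Kr D V (Polynomial L))) i j) inf inf =
          (1 : Matrix n n (MonoidAlgebra (Polynomial L) Γ)) i j
        by_cases h : i = j
        · subst h
          classical
          rw [Matrix.one_apply_eq, Matrix.one_apply_eq, ent_one, if_pos rfl]
        · rw [Matrix.one_apply_ne h, Matrix.one_apply_ne h, ent_zero]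
      | inr j => exact ent_zero (A := MonoidAlgebra (Polynomial L) Γ) (inf : Tw D V) inf
    | inr i =>
      cases j with
      | inl j => exact ent_zero (A := MonoidAlgebra (Polynomial L) Γ) (inf : Tw D V) inf
      | inr j =>
        change ent (dg Dm i j) inf inf = 0
        by_cases h : i = j
        · subst h
          rw [dg_apply_eq]
          exact ent_ind_notMem fun h => ((hD i).2 _ h).2 rfl
        · rw [dg_apply_ne _ h, ent_zero]
  have i4 : evI ((Y + N) * P) = evI (dg E : Matrix (n ⊕ m) (n ⊕ m) (Kr D V (Polynomial L))) := by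
    rw [evI_mul _ _ fun i j => (hSP _ i j).reg.jc, i1, i2, i3, Matrix.fromBlocks_multiply,
      ← Matrix.map_mul]
    change Matrix.fromBlocks (Matrix.map ((u : Matrix n n (MonoidAlgebra L Γ)) *
      ((u⁻¹ : (Matrix n n (MonoidAlgebra L Γ))ˣ) : Matrix n n (MonoidAlgebra L Γ))) coA + _) _ _ _ = _
    rw [u.mul_inv, Matrix.map_one _ (map_zero _) (map_one _)]
    simp only [Matrix.mul_zero, Matrix.zero_mul, add_zero]
  have hEqB : EqB 1 ((Y + N) * P) (dg E) := by
    intro i j y z hz
    rw [eq_inf_of_lev hz]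
    by_cases hy : y = inf
    · rw [hy]
      exact congrFun (congrFun i4 i) j
    · have h1 : ent (((Y + N) * P) i j) y inf = 0 := by
        by_contra h
        exact hy ((hSf i j).reg.jc.ent_inf h)
      have h2 : ent ((dg E : Matrix (n ⊕ m) (n ⊕ m) (Kr D V (Polynomial L))) i j) y inf = 0 := by
        by_contra h
        exact hy ((SS.dg (T := T) hR hRE i j).reg.jc.ent_inf h)
      rw [h1, h2]
  -- the part at the base point
  have hNRr : ¬ NR T (rt T : Tw D V) := fun h => h (Classical.arbitrary Q) rfl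
  have j1 : eps T (Y + N) = Matrix.fromBlocks 1 0 0 0 := by
    refine Matrix.ext fun i j => ?_
    change evA 1 (ent (Y i j) (rt T) (rt T) + ent (dg N₀ i j) (rt T) (rt T)) = _
    rw [ent_row_zero hI y4 i j _ fun h => hNRr ((hE i).2 _ h), zero_add]
    cases i with
    | inl i =>
      cases j with
      | inl j =>
        change _ = (1 : Matrix n n (MonoidAlgebra L Γ)) i j
        by_cases h : i = j
        · subst h
          rw [dg_apply_eq, ent_ind_mem (show rt T ∈ N₀ (Sum.inl i) from hNRr), map_one,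
            Matrix.one_apply_eq]
        · rw [dg_apply_ne _ fun h' => h (Sum.inl_injective h'), ent_zero, map_zero,
            Matrix.one_apply_ne h]
      | inr j =>
        rw [dg_apply_ne _ Sum.inl_ne_inr, ent_zero, map_zero]
        rfl
    | inr i =>
      have h0 : ent ((dg N₀ : Matrix (n ⊕ m) (n ⊕ m) (Kr D V (Polynomial L))) (Sum.inr i) j)
          (rt T) (rt T) = 0 := by
        by_cases h : Sum.inr i = j
        · subst h
          rw [dg_apply_eq]
          exact ent_ind_notMem fun h => h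
        · rw [dg_apply_ne _ h, ent_zero]
      rw [h0, map_zero]
      cases j <;> rfl
  have j2 : eps T P = Matrix.fromBlocks x' 0 0 0 := by
    refine Matrix.ext fun i j => ?_
    cases i with
    | inl i =>
      cases j with
      | inl j =>
        refine ((hXS Γ G Q V L D T φ hφ inf inf _ (js_inf _)).2.1 ⟨exts_inf _, exts_inf _⟩).trans ?_
        exact TQ.evA_coA _ _
      | inr j => exact map_zero (evA (1 : L))
    | inr i =>
      cases j with
      | inl j => exact map_zero (evA (1 : L))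
      | inr j =>
        change evA 1 (ent (dg Dm i j) (rt T) (rt T)) = 0
        by_cases h : i = j
        · subst h
          rw [dg_apply_eq, ent_ind_notMem fun h => hNRr ((hD i).2 _ h).1, map_zero]
        · rw [dg_apply_ne _ h, ent_zero, map_zero]
  have j3 : eps T ((Y + N) * P) = Matrix.fromBlocks x' 0 0 0 := by
    rw [eps_mul _ _ hSY, j1, j2, Matrix.fromBlocks_multiply]
    simp only [Matrix.mul_zero, Matrix.zero_mul, add_zero, one_mul]
  -- conclusion
  have eq : ∀ A : n ⊕ m → Set (Tw D V), (∀ i, rt T ∈ A (Sum.inl i)) →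
      (∀ i, rt T ∉ A (Sum.inr i)) → ∃ e : n ≃ {i // rt T ∈ A i}, ∀ i, (e i).1 = Sum.inl i := by
    intro A h1 h2
    refine ⟨Equiv.ofBijective (fun i => ⟨Sum.inl i, h1 i⟩) ⟨fun i j h => ?_, ?_⟩, fun i => rfl⟩
    · exact Sum.inl_injective (congrArg Subtype.val h)
    · rintro ⟨i | i, hi⟩
      · exact ⟨i, rfl⟩
      · exact absurd hi (h2 i)
  obtain ⟨v, hv⟩ := eq E (fun i => Set.mem_univ _) fun i h => hNRr ((hD i).2 _ h).1
  obtain ⟨v', hv'⟩ := eq E'' (fun i => Or.inr hNRr) fun i h => h.elim (fun h => hNRr ((hE _).2 _ h))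
    fun h => h
  let _ : Fintype {i // rt T ∈ E i} := Fintype.ofEquiv _ v
  let _ : Fintype {i // rt T ∈ E'' i} := Fintype.ofEquiv _ v'
  have key := hEP (n ⊕ m) E E'' _ _ hRE hRE'' hSf hSf' ⟨a1, a2, a3, a4, a5, a6⟩ hag hEqB
  have hKP := kperm_of_ku hκ
  have hsub : (eps T ((Y + N) * P)).submatrix (Subtype.val : {i // rt T ∈ E'' i} → n ⊕ m)
      (Subtype.val : {i // rt T ∈ E i} → n ⊕ m) = x'.submatrix v'.symm v.symm := by
    refine Matrix.ext fun i j => ?_
    obtain ⟨i, rfl⟩ := v'.surjective i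
    obtain ⟨j, rfl⟩ := v.surjective j
    rw [j3, Matrix.submatrix_apply, Matrix.submatrix_apply, hv, hv', Equiv.symm_apply_apply,
      Equiv.symm_apply_apply]
    rfl
  rw [hsub, kr_reindex hKP u.inv_mul u.mul_inv, kr_square hKP u⁻¹.isUnit] at key
  have h1 := κ.mul _ _ u.isUnit u⁻¹.isUnit
  rw [u.mul_inv, κ.f_one, key, mul_one] at h1
  exact h1.symm

end Pool.Agent.QT
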