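import Pool.Agent.Lib.MP_8f66f0_al_Q.EPA
import Pool.Agent.Lib.MP_8f66f0_al_TQ.KrH

/-!
# Theorem Q: the end of the proof
-/

set_option autoImplicit false

namespace Pool.Agent.QT

open scoped Pointwise
open Pool.Agent.TQ Pool.Agent.Wald Pool.Agent.FH

namespace EndB

open EPA

section

variable {Γ G Q V : Type} [Group Γ] [Group G] [MulAction Γ Q] [MulAction G V] {D : Coc Γ G Q}
  {R : Type} [CommRing R]

omit [MulAction G V] in
theorem ent_inf_mul {S U : Kr D V R} (hU : Jc U) :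
    ent (S * U) inf inf = ent S inf inf * ent U inf inf := by
  classical
  rw [ent_mul_col S U inf inf {inf} fun v hv => ?_, Finset.sum_singleton]
  rw [Finset.mem_singleton]
  obtain ⟨g, hg⟩ : ∃ g, cf U g v inf ≠ 0 := by
    by_contra hcon
    push Not at hcon
    exact hv (MonoidAlgebra.ext (Finsupp.ext hcon))
  funext q
  have := (hU g v inf hg (g⁻¹ • q)).2 rfl
  rwa [smul_inv_smul] at this

omit [MulAction G V] in
theorem ent_inf_mulM {n n' n'' : Type} [Fintype n'] (S : Matrix n'' n' (Kr D V R))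
    (U : Matrix n' n (Kr D V R)) (hU : ∀ i j, Jc (U i j)) (i : n'') (j : n) :
    ent ((S * U) i j) inf inf = ∑ v, ent (S i v) inf inf * ent (U v j) inf inf := by
  rw [Matrix.mul_apply, ent_sum]
  exact Finset.sum_congr rfl fun v _ => ent_inf_mul (hU v j)

theorem nr_rs (T : Tr G V) : RS ({z | NR T z} : Set (Tw D V)) := by
  classical
  refine ⟨{T.root}, fun x => ?_⟩
  have h : ∀ q, near {T.root} x q = some T.root ↔ x q = some T.root := by
    intro q
    unfold near
    rw [Option.filter_eq_some_iff]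
    simp
  exact ⟨fun hx q hq => hx q ((h q).1 hq), fun hx q hq => hx q ((h q).2 hq)⟩

omit [MulAction G V] in
theorem map_dg {L : Type} [CommRing L] {n : Type} [DecidableEq n] (F : n → Set (Tw D V)) :
    ((dg F : Matrix n n (Kr D V L)).map (mapK coA) : Matrix n n (Kr D V (Polynomial L))) =
      dg F := by
  refine Matrix.ext fun i j => ent_ext fun y x => ?_
  rw [Matrix.map_apply, ent_mapK, ent_dg, ent_dg, apply_ite coA, map_one, map_zero]

omit [MulAction G V] in
theorem dg_zero {n : Type} [DecidableEq n] (F : n → Set (Tw D V)) (hF : ∀ i, F i = ∅) :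
    (dg F : Matrix n n (Kr D V R)) = 0 := by
  refine Matrix.ext fun i j => ent_ext fun y x => ?_
  rw [ent_dg, if_neg fun h => ?_]
  · rfl
  · have := h.2.2
    rw [hF] at this
    exact this

theorem lev_inf [Fintype Q] : lev (inf : Tw D V) = 0 := by
  unfold lev
  rw [Finset.card_eq_zero, Finset.filter_eq_empty_iff]
  intro q _
  simp [inf]

theorem eq_inf [Fintype Q] {x : Tw D V} (h : lev x = 0) : x = inf := by
  funext q
  unfold lev at h
  rw [Finset.card_eq_zero, Finset.filter_eq_empty_iff] at h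
  have h2 := h (Finset.mem_univ q)
  change x q = none
  simpa using h2

end

end EndB

open EPA EndB in
theorem endB (hOS : S_OOSS) (hXt : S_Xt) (hXS : S_XtSS) (hRS : S_RS) (hPX : S_PropX) : S_End := by
  intro Γ G Q V L K _ _ _ _ _ _ hL _ _ _ _ D T κ hκ hEP hP n _ _ x hx
  classical
  obtain ⟨u, rfl⟩ := hx
  obtain ⟨x, hxd⟩ : ∃ x : Matrix n n (MonoidAlgebra L Γ), x = (u : Matrix n n (MonoidAlgebra L Γ)) :=
    ⟨_, rfl⟩
  obtain ⟨x', hxd'⟩ : ∃ x : Matrix n n (MonoidAlgebra L Γ),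
    x = ((u⁻¹ : _ˣ) : Matrix n n (MonoidAlgebra L Γ)) := ⟨_, rfl⟩
  have hxx' : x * x' = 1 := by rw [hxd, hxd', Units.mul_inv]
  have hx'x : x' * x = 1 := by rw [hxd, hxd', Units.inv_mul]
  rw [← hxd]
  obtain ⟨-, hSSmul, hind, hco, heps⟩ := hOS Γ G Q V L D T
  obtain ⟨m, _, _, Dm, E', X, X', hDm, hE', hinf1, hinf2, hOX, hOX', hI, hX0, hX0'⟩ :=
    hPX Γ G Q V L hL D T hP n x x' hxx' hx'x
  obtain ⟨φ, hφ⟩ := exists_isPhi (L := L) T
  obtain ⟨-, hadd, hz, -, hxmul, hone, hlast⟩ :=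
    hXt Γ G Q V (Polynomial L) D φ hφ.one hφ.mul hφ.lr hφ.inf
  obtain ⟨-, hbool, -, -, -, hempty, huniv⟩ := hRS Γ G Q V D
  -- structures
  have SS0 : SS T (0 : Kr D V (Polynomial L)) := by
    rw [← ind_empty]
    exact (hind ∅ hempty).2
  have SSM : ∀ {a b c : Type} [Fintype b] {S : Matrix a b (Kr D V (Polynomial L))}
      {U : Matrix b c (Kr D V (Polynomial L))}, (∀ i j, SS T (S i j)) → (∀ i j, SS T (U i j)) →
      ∀ i j, SS T ((S * U) i j) := by
    intro a b c _ S U hS hU i j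
    rw [Matrix.mul_apply]
    exact Finset.sum_induction _ (SS T) (fun a b ha hb => (hSSmul a b ha hb).2.1) SS0
      fun k _ => (hSSmul _ _ (hS i k) (hU k j)).1
  have SSdg : ∀ {a : Type} [DecidableEq a] (F : a → Set (Tw D V)), (∀ i, RS (F i)) →
      ∀ i j, SS T ((dg F : Matrix a a (Kr D V (Polynomial L))) i j) := by
    intro a _ F hF i j
    by_cases hij : i = j
    · subst hij
      rw [dg, Matrix.diagonal_apply_eq]
      exact (hind _ (hF i)).2
    · rw [dg, Matrix.diagonal_apply_ne _ hij]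
      exact SS0
  -- the sets
  obtain ⟨E0, hE0⟩ : ∃ E0 : n ⊕ m → Set (Tw D V), E0 = Sum.elim (fun _ => Set.univ) Dm := ⟨_, rfl⟩
  obtain ⟨C0, hC0⟩ : ∃ C0 : n ⊕ m → Set (Tw D V),
    C0 = Sum.elim (fun _ => ({z | NR T z} : Set (Tw D V))ᶜ) (fun _ => ∅) := ⟨_, rfl⟩
  obtain ⟨N0, hN0⟩ : ∃ N0 : n ⊕ m → Set (Tw D V), N0 = Sum.elim (fun _ => {z | NR T z}) Dm :=
    ⟨_, rfl⟩
  obtain ⟨E1, hE1⟩ : ∃ E1 : n ⊕ m → Set (Tw D V), E1 = fun i => E' i ∪ C0 i := ⟨_, rfl⟩
  rw [← hN0] at hI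
  have hNR : RS ({z | NR T z} : Set (Tw D V)) := nr_rs T
  have hRE0 : ∀ i, RS (E0 i) := by
    rw [hE0]
    rintro (i | i)
    · exact huniv
    · exact (hDm i).1
  have hRC0 : ∀ i, RS (C0 i) := by
    rw [hC0]
    rintro (i | i)
    · exact (hbool _ _ hNR hNR).2.2
    · exact hempty
  have hRE1 : ∀ i, RS (E1 i) := by
    rw [hE1]
    exact fun i => (hbool _ _ (hE' i).1 (hRC0 i)).2.1
  have hNC : ∀ i, N0 i ∩ C0 i = ∅ := by
    rw [hN0, hC0]
    rintro (i | i)
    · exact Set.inter_compl_self _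
    · exact Set.inter_empty _
  have hEC : ∀ i, E' i ∩ C0 i = ∅ := by
    rw [hC0]
    rintro (i | i)
    · rw [Set.eq_empty_iff_forall_notMem]
      rintro z ⟨h1, h2⟩
      exact h2 ((hE' _).2 z h1)
    · exact Set.inter_empty _
  have hNCE : ∀ i, N0 i ∪ C0 i = E0 i := by
    rw [hN0, hC0, hE0]
    rintro (i | i)
    · exact Set.union_compl_self _
    · exact Set.union_empty _
  -- the exact cut over `L[t]`
  obtain ⟨Xh, hXh⟩ : ∃ Y : Matrix (n ⊕ m) (n ⊕ m) (Kr D V (Polynomial L)), Y = X.map (mapK coA) :=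
    ⟨_, rfl⟩
  obtain ⟨Xh', hXh'⟩ : ∃ Y : Matrix (n ⊕ m) (n ⊕ m) (Kr D V (Polynomial L)),
    Y = X'.map (mapK coA) := ⟨_, rfl⟩
  have hIh : IsoM (dg N0) (dg E') Xh Xh' := by
    have h := hI.map (mapK (coA : MonoidAlgebra L Γ →+* MonoidAlgebra (Polynomial L) Γ))
    rw [map_dg, map_dg, ← hXh, ← hXh'] at h
    exact h
  have hIs : IsoM (dg E0) (dg E1) (Xh + dg C0) (Xh' + dg C0) := by
    have h := hIh.add (IsoM.refl (dg_idem (R := Polynomial L) C0))
      (by rw [dg_mul]; exact dg_zero _ hNC)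
      (by rw [dg_mul]; exact dg_zero _ fun i => (Set.inter_comm _ _).trans (hNC i))
      (by rw [dg_mul]; exact dg_zero _ hEC)
      (by rw [dg_mul]; exact dg_zero _ fun i => (Set.inter_comm _ _).trans (hEC i))
    rw [dg_add _ _ fun i => Set.disjoint_iff_inter_eq_empty.2 (hNC i),
      dg_add _ _ fun i => Set.disjoint_iff_inter_eq_empty.2 (hEC i)] at h
    simp only [hNCE] at h
    rw [hE1]
    exact h
  -- the homotopy
  obtain ⟨P, hPd⟩ : ∃ P : Matrix n n (MonoidAlgebra L Γ) → Matrix n n (Kr D V (Polynomial L)),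
    P = fun z => Matrix.of fun i j => xt φ inf inf (coA (z i j)) := ⟨_, rfl⟩
  have hPa : ∀ z i j, P z i j = xt φ inf inf (coA (z i j)) := fun z i j => by rw [hPd]; rfl
  have hJS : ∀ a : MonoidAlgebra (Polynomial L) Γ, JS (inf : Tw D V) inf a := fun a g _ q => Iff.rfl
  have hsum : ∀ {ι : Type} (s : Finset ι) (a : ι → MonoidAlgebra (Polynomial L) Γ),
      ∑ q ∈ s, (xt φ inf inf (a q) : Kr D V (Polynomial L)) = xt φ inf inf (∑ q ∈ s, a q) := by
    intro ι s a
    induction s using Finset.induction_on with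
    | empty => rw [Finset.sum_empty, Finset.sum_empty, hz]
    | insert q s hq ih => rw [Finset.sum_insert hq, Finset.sum_insert hq, hadd, ih]
  have hPmul : ∀ z w, P z * P w = P (z * w) := by
    intro z w
    refine Matrix.ext fun i j => ?_
    rw [Matrix.mul_apply, hPa, Matrix.mul_apply, map_sum, ← hsum]
    refine Finset.sum_congr rfl fun v _ => ?_
    rw [hPa, hPa, hxmul _ _ _ _ _ (hJS _) (hJS _), map_mul]
  have hPone : P 1 = 1 := by
    refine Matrix.ext fun i j => ?_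
    rw [hPa]
    by_cases hij : i = j
    · subst hij
      rw [Matrix.one_apply_eq, Matrix.one_apply_eq, map_one, hone, ← ind_univ]
      congr 1
      ext z
      exact iff_of_true (fun q h => absurd rfl h) trivial
    · rw [Matrix.one_apply_ne hij, Matrix.one_apply_ne hij, map_zero, hz]
  have hPSS : ∀ z i j, SS T (P z i j) := by
    intro z i j
    rw [hPa]
    refine (hXS Γ G Q V L D T φ hφ inf inf _ (hJS _)).1 (fun g _ => rfl) fun g _ => ⟨le_rfl, fun _ => rfl⟩
  have hIA : IsoM (dg E0) (dg E0) (Matrix.fromBlocks (P x') 0 0 (dg Dm))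
      (Matrix.fromBlocks (P x) 0 0 (dg Dm)) := by
    have h1 : IsoM (1 : Matrix n n (Kr D V (Polynomial L))) 1 (P x') (P x) := by
      refine ⟨?_, ?_, ?_, ?_, ?_, ?_⟩
      · rw [hPmul, hxx', hPone]
      · rw [hPmul, hx'x, hPone]
      · rw [mul_one]
      · rw [one_mul]
      · rw [mul_one]
      · rw [one_mul]
    have h2 := h1.sum (IsoM.refl (dg_idem (R := Polynomial L) Dm))
    rw [← dg_univ, ← dg_sum] at h2
    rw [hE0]
    exact h2
  have hAS : ∀ z i j, SS T ((Matrix.fromBlocks (P z) 0 0 (dg Dm) :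
      Matrix (n ⊕ m) (n ⊕ m) (Kr D V (Polynomial L))) i j) := by
    rintro z (i | i) (j | j)
    · exact hPSS z i j
    · exact SS0
    · exact SS0
    · exact SSdg Dm (fun i => (hDm i).1) i j
  have hXS1 : ∀ i j, SS T ((Xh + dg C0 : Matrix (n ⊕ m) (n ⊕ m) (Kr D V (Polynomial L))) i j) := by
    intro i j
    rw [Matrix.add_apply, hXh, Matrix.map_apply]
    exact (hSSmul _ _ (hco _ (hOX i j)) (SSdg C0 hRC0 i j)).2.1
  have hXS1' : ∀ i j, SS T ((Xh' + dg C0 : Matrix (n ⊕ m) (n ⊕ m) (Kr D V (Polynomial L))) i j) := by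
    intro i j
    rw [Matrix.add_apply, hXh', Matrix.map_apply]
    exact (hSSmul _ _ (hco _ (hOX' i j)) (SSdg C0 hRC0 i j)).2.1
  -- the isomorphism
  obtain ⟨f, hf⟩ : ∃ f : Matrix (n ⊕ m) (n ⊕ m) (Kr D V (Polynomial L)),
    f = (Xh + dg C0) * Matrix.fromBlocks (P x') 0 0 (dg Dm) := ⟨_, rfl⟩
  obtain ⟨f', hf'⟩ : ∃ f : Matrix (n ⊕ m) (n ⊕ m) (Kr D V (Polynomial L)),
    f = Matrix.fromBlocks (P x) 0 0 (dg Dm) * (Xh' + dg C0) := ⟨_, rfl⟩
  have hIf : IsoM (dg E0) (dg E1) f f' := by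
    rw [hf, hf']
    exact hIA.comp hIs
  have hfS : ∀ i j, SS T (f i j) := by rw [hf]; exact SSM hXS1 (hAS x')
  have hfS' : ∀ i j, SS T (f' i j) := by rw [hf']; exact SSM (hAS x) hXS1'
  have hinfE0 : ∀ i, (inf : Tw D V) ∈ E0 (Sum.inl i) := by
    rw [hE0]
    exact fun i => trivial
  have hinfE0' : ∀ i, (inf : Tw D V) ∉ E0 (Sum.inr i) := by
    rw [hE0]
    exact fun i h => ((hDm i).2 _ h).2 rfl
  have hNRi : NR T (inf : Tw D V) := fun _ h => Option.some_ne_none _ h.symm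
  have hinfE1' : ∀ i, (inf : Tw D V) ∉ E1 (Sum.inr i) := by
    rw [hE1, hC0]
    exact fun i h => h.elim (hinf2 i) fun h => h
  have hEq : EqB 1 f (dg E0) := by
    intro a' a y z hz1
    obtain rfl := eq_inf (by omega : lev z = 0)
    by_cases hy : y = inf
    · subst hy
      rcases a with j | j
      · rcases a' with i | i
        · rw [hf, ent_inf_mulM _ _ fun i j => (hAS x' i j).reg.jc, Fintype.sum_sum_type]
          have h1 : ∀ v, ent ((Xh + dg C0 : Matrix (n ⊕ m) (n ⊕ m) (Kr D V (Polynomial L))) (Sum.inl i) (Sum.inl v)) inf inf = coA (x i v) := by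
            intro v
            rw [Matrix.add_apply, ent_add, hXh, Matrix.map_apply, ent_mapK, hX0, ent_dg, if_neg,
              add_zero]
            rw [hC0]
            exact fun h => h.2.2 hNRi
          have h2 : ∀ v, ent ((Matrix.fromBlocks (P x') 0 0 (dg Dm) :
              Matrix (n ⊕ m) (n ⊕ m) (Kr D V (Polynomial L))) (Sum.inl v) (Sum.inl j)) inf inf =
              coA (x' v j) := by
            intro v
            rw [Matrix.fromBlocks_apply₁₁, hPa]
            exact (((hlast inf inf _ (hJS _)) inf inf).2.2 rfl).1 ⟨rfl, rfl⟩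
          have h3 : ∀ v, ent ((Matrix.fromBlocks (P x') 0 0 (dg Dm) :
              Matrix (n ⊕ m) (n ⊕ m) (Kr D V (Polynomial L))) (Sum.inr v) (Sum.inl j)) inf inf =
              0 := by
            intro v
            rw [Matrix.fromBlocks_apply₂₁]
            rfl
          simp only [h1, h2, h3, mul_zero, Finset.sum_const_zero, add_zero]
          have h4 : ∑ v, (coA (x i v) * coA (x' v j) : MonoidAlgebra (Polynomial L) Γ) =
              coA ((x * x') i j) := by
            rw [Matrix.mul_apply, map_sum]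
            exact Finset.sum_congr rfl fun v _ => (map_mul _ _ _).symm
          rw [h4, hxx', ent_dg]
          by_cases hij : i = j
          · subst hij
            rw [Matrix.one_apply_eq, map_one, if_pos ⟨rfl, rfl, hinfE0 i⟩]
          · rw [Matrix.one_apply_ne hij, map_zero, if_neg fun h => hij (Sum.inl_injective h.1)]
        · rw [ent_eq_zero_of_notMem' hIf.h4 (hinfE1' i), ent_dg, if_neg]
          rintro ⟨h, -⟩
          cases h
      · rw [ent_eq_zero_of_notMem hIf.h3 (hinfE0' j), ent_dg, if_neg fun h => hinfE0' j h.2.2]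
    · have h1 : ent (f a' a) y inf = 0 := by
        by_contra hne
        refine hy (eq_inf ?_)
        rw [jc_lev (hfS a' a).reg.jc hne, lev_inf]
      rw [h1, ent_dg, if_neg fun h => hy h.2.1]
  have hlev : ∀ i z, lev z < 1 → (z ∈ E0 i ↔ z ∈ E1 i) := by
    intro i z hz1
    obtain rfl := eq_inf (by omega : lev z = 0)
    rcases i with i | i
    · refine iff_of_true (hinfE0 i) ?_
      rw [hE1]
      exact Or.inl (hinf1 i)
    · exact iff_of_false (hinfE0' i) (hinfE1' i)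
  have hkr := hEP (n ⊕ m) E0 E1 f f' hRE0 hRE1 hfS hfS' hIf hlev hEq
  -- the part at `rt`
  obtain ⟨q0⟩ := ‹Nonempty Q›
  have hrt : ¬ NR T (rt T : Tw D V) := fun h => h q0 rfl
  have hrt0 : ∀ i, (rt T : Tw D V) ∈ E0 (Sum.inl i) := by
    rw [hE0]
    exact fun i => trivial
  have hrt0' : ∀ i, (rt T : Tw D V) ∉ E0 (Sum.inr i) := by
    rw [hE0]
    exact fun i h => hrt ((hDm i).2 _ h).1
  have hrt1 : ∀ i, (rt T : Tw D V) ∈ E1 (Sum.inl i) := by
    rw [hE1, hC0]
    exact fun i => Or.inr hrt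
  have hrt1' : ∀ i, (rt T : Tw D V) ∉ E1 (Sum.inr i) := by
    rw [hE1, hC0]
    exact fun i h => h.elim (fun h => hrt ((hE' _).2 _ h)) fun h => h
  obtain ⟨b0, hb0⟩ : ∃ b : n ≃ {i // rt T ∈ E0 i}, ∀ i, (b i).1 = Sum.inl i := by
    refine ⟨Equiv.ofBijective (fun i => ⟨Sum.inl i, hrt0 i⟩) ⟨fun i j h => ?_, fun i => ?_⟩,
      fun i => rfl⟩
    · exact Sum.inl_injective (congrArg Subtype.val h)
    · obtain ⟨i | i, hi⟩ := i
      · exact ⟨i, rfl⟩
      · exact absurd hi (hrt0' i)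
  obtain ⟨b1, hb1⟩ : ∃ b : n ≃ {i // rt T ∈ E1 i}, ∀ i, (b i).1 = Sum.inl i := by
    refine ⟨Equiv.ofBijective (fun i => ⟨Sum.inl i, hrt1 i⟩) ⟨fun i j h => ?_, fun i => ?_⟩,
      fun i => rfl⟩
    · exact Sum.inl_injective (congrArg Subtype.val h)
    · obtain ⟨i | i, hi⟩ := i
      · exact ⟨i, rfl⟩
      · exact absurd hi (hrt1' i)
  obtain ⟨z1, z2⟩ := isoEps hOS Γ G Q V L D T (n ⊕ m) (n ⊕ m) E0 E1 f f' hfS hfS' hIf
  have hkp : KPerm κ := kperm_of_ku hκ
  have h5 := kr_reindex hkp z1 z2 b0 b1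
  rw [hkr] at h5
  have h6 : ((eps T f).submatrix (Subtype.val : {i // rt T ∈ E1 i} → n ⊕ m)
      (Subtype.val : {i // rt T ∈ E0 i} → n ⊕ m)).submatrix b1 b0 = x' := by
    refine Matrix.ext fun i j => ?_
    rw [Matrix.submatrix_apply, Matrix.submatrix_apply, hb0, hb1, hf, heps _ _ _ _ _ hXS1 (hAS x'),
      Matrix.mul_apply, Fintype.sum_sum_type]
    have h1 : ∀ v, eps T (Xh + dg C0 : Matrix (n ⊕ m) (n ⊕ m) (Kr D V (Polynomial L))) (Sum.inl i) (Sum.inl v) =
        (1 : Matrix n n (MonoidAlgebra L Γ)) i v := by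
      intro v
      rw [eps, Matrix.of_apply, Matrix.add_apply, ent_add,
        ent_eq_zero_of_notMem hIh.h3 (by rw [hN0]; exact hrt), zero_add, ent_dg]
      by_cases hiv : i = v
      · subst hiv
        rw [if_pos, map_one, Matrix.one_apply_eq]
        rw [hC0]
        exact ⟨rfl, rfl, hrt⟩
      · rw [if_neg fun h => hiv (Sum.inl_injective h.1), map_zero, Matrix.one_apply_ne hiv]
    have h2 : ∀ v, eps T (Matrix.fromBlocks (P x') 0 0 (dg Dm) :
        Matrix (n ⊕ m) (n ⊕ m) (Kr D V (Polynomial L))) (Sum.inl v) (Sum.inl j) = x' v j := by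
      intro v
      rw [eps, Matrix.of_apply, Matrix.fromBlocks_apply₁₁, hPa,
        (hXS Γ G Q V L D T φ hφ inf inf _ (hJS _)).2.1
          ⟨fun q h => absurd rfl h, fun q h => absurd rfl h⟩, evA_coA]
    have h3 : ∀ v, eps T (Matrix.fromBlocks (P x') 0 0 (dg Dm) :
        Matrix (n ⊕ m) (n ⊕ m) (Kr D V (Polynomial L))) (Sum.inr v) (Sum.inl j) = 0 := by
      intro v
      rw [eps, Matrix.of_apply, Matrix.fromBlocks_apply₂₁]
      exact map_zero _
    simp only [h1, h2, h3, mul_zero, Finset.sum_const_zero, add_zero]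
    rw [← Matrix.mul_apply, Matrix.one_mul]
  rw [h6, kr_square hkp ⟨⟨x', x, hx'x, hxx'⟩, rfl⟩] at h5
  have h7 := κ.mul x x' ⟨⟨x, x', hxx', hx'x⟩, rfl⟩ ⟨⟨x', x, hx'x, hxx'⟩, rfl⟩
  rw [hxx', κ.f_one, h5, mul_one] at h7
  exact h7.symm

end Pool.Agent.QT
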