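import Pool.Agent.Lib.MP_8f66f0_al_Q.Spec

/-!
# Theorem Q: far lifts (`S_Fl`)
-/

set_option autoImplicit false

namespace Pool.Agent.QT

open scoped Pointwise
open Pool.Agent.TQ

section Fl

variable {Γ G Q V : Type} [Group Γ] [Group G] [MulAction Γ Q] [MulAction G V] {D : Coc Γ G Q}
  {R : Type} [CommRing R] [Fintype Q]

private theorem fl_cf_ten (r : R) (g : Γ) (m : Q → RCF (Option V) R) (k : Γ) (y x : Tw D V) :
    (g = k → cf (ten r g m : Kr D V R) k y x = r * ∏ q, ent (m q) (y (g • q)) (x q)) ∧
    (g ≠ k → cf (ten r g m : Kr D V R) k y x = 0) := by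
  have h : ent (ten r g m : Kr D V R) y x =
      MonoidAlgebra.single g (r * ∏ q, ent (m q) (y (g • q)) (x q)) := ent_mkK _ _ _ y x
  constructor
  · rintro rfl
    rw [cf, h, MonoidAlgebra.coeff_single, Finsupp.single_eq_same]
  · intro hgk
    rw [cf, h, MonoidAlgebra.coeff_single, Finsupp.single_eq_of_ne' hgk]

private theorem fl_cf_sum {ι : Type} (s : Finset ι) (f : ι → Kr D V R) (g : Γ) (y x : Tw D V) :
    cf (∑ i ∈ s, f i) g y x = ∑ i ∈ s, cf (f i) g y x := by
  classical
  induction s using Finset.induction_on with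
  | empty => rw [Finset.sum_empty, Finset.sum_empty, cf_zero]
  | insert i s hi ih => rw [Finset.sum_insert hi, Finset.sum_insert hi, cf_add, ih]

private theorem fl_exists (T : Kr D V R) (y x : Tw D V) (h : ent T y x ≠ 0) :
    ∃ g, cf T g y x ≠ 0 := by
  by_contra hcon
  push Not at hcon
  exact h (MonoidAlgebra.ext (Finsupp.ext fun g => hcon g))

omit [Fintype Q] in
/-- The value of `near`. -/
private theorem near_ne (B : Finset V) (x : Tw D V) (q : Q) (h : near B x q ≠ none) :
    near B x q = x q ∧ ∃ v ∈ B, x q = some v := by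
  classical
  have h1 : near B x q = (x q).filter (fun v => decide (v ∈ B)) := by
    rw [near]
  rw [h1] at h ⊢
  cases hx : x q with
  | none =>
    rw [hx] at h
    exact absurd rfl h
  | some v =>
    rw [hx] at h
    by_cases hv : v ∈ B
    · refine ⟨?_, v, hv, rfl⟩
      rw [Option.filter_some, if_pos (by simpa using hv)]
    · exfalso
      rw [Option.filter_some, if_neg (by simpa using hv)] at h
      exact h rfl

omit [Fintype Q] in
private theorem near_none (B : Finset V) (x : Tw D V) (q : Q) :
    near B x q = none ↔ ∀ b ∈ B, x q ≠ some b := by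
  classical
  constructor
  · intro h b hb hx
    have h1 : near B x q = (x q).filter (fun v => decide (v ∈ B)) := by
      rw [near]
    rw [h1, hx, Option.filter_some, if_pos (by simpa using hb)] at h
    exact absurd h (by simp)
  · intro h
    by_contra hne
    obtain ⟨-, v, hv, hx⟩ := near_ne B x q hne
    exact h v hv hx

omit [Fintype Q] in
private theorem near_near (B : Finset V) (x : Tw D V) : near B (near B x) = near B x := by
  funext q
  by_cases h : near B x q = none
  · rw [h, near_none, h]
    intro b _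
    simp
  · have h1 := near_ne B x q h
    by_contra hne
    by_cases h2 : near B (near B x) q = none
    · obtain ⟨v, hv, hx⟩ := h1.2
      exact (near_none B (near B x) q).1 h2 v hv (h1.1.trans hx)
    · exact hne (near_ne B (near B x) q h2).1

private theorem near_lev (B : Finset V) (x : Tw D V) :
    lev (near B x) ≤ lev x ∧ (lev (near B x) = lev x → near B x = x) := by
  have hsub : (Finset.univ.filter fun q => (near B x q).isSome = true) ⊆
      Finset.univ.filter fun q => (x q).isSome = true := by
    intro q hq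
    rw [Finset.mem_filter] at hq ⊢
    refine ⟨hq.1, ?_⟩
    rw [← (near_ne B x q (Option.isSome_iff_ne_none.1 hq.2)).1]
    exact hq.2
  refine ⟨Finset.card_le_card hsub, fun he => ?_⟩
  have h2 := Finset.eq_of_subset_of_card_le hsub he.ge
  funext q
  by_cases hq : near B x q = none
  · rw [hq]
    by_contra hx
    have h3 : q ∈ Finset.univ.filter fun q => (near B x q).isSome = true := by
      rw [h2, Finset.mem_filter]
      exact ⟨Finset.mem_univ q, Option.isSome_iff_ne_none.2 fun h => hx h.symm⟩
    rw [Finset.mem_filter, hq] at h3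
    simp at h3
  · exact (near_ne B x q hq).1

variable (T : Tr G V) (B : Finset V)

/-- The far graph. -/
private def IsFar (T : Tr G V) (B : Finset V) (a : G) (m : RCF (Option V) R) : Prop :=
  ∀ w v : Option V, ((∀ b ∈ B, w ≠ some b) ∧ (∀ b ∈ B, v ≠ some b) ∧
        w = v.map (a • ·) ∧ w.map T.par = (v.map T.par).map (a • ·) → ent m w v = 1) ∧
      (¬ ((∀ b ∈ B, w ≠ some b) ∧ (∀ b ∈ B, v ≠ some b) ∧
        w = v.map (a • ·) ∧ w.map T.par = (v.map T.par).map (a • ·)) → ent m w v = 0)

open Classical in
/-- The local kernels of the far lift. -/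
private noncomputable def LF (m : G → RCF (Option V) R) (l' l : Tw D V) (g : Γ) (q : Q) :
    RCF (Option V) R :=
  if l q = none then m (D.c g q) else sk (l' (g • q)) (l q) 1

private theorem LF_none (m : G → RCF (Option V) R) (l' l : Tw D V) (g : Γ) (q : Q)
    (h : l q = none) : LF m l' l g q = m (D.c g q) := if_pos h

private theorem LF_some (m : G → RCF (Option V) R) (l' l : Tw D V) (g : Γ) (q : Q)
    (h : l q ≠ none) : LF m l' l g q = sk (l' (g • q)) (l q) 1 := if_neg h

/-- A non-zero product of the local entries. -/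
private theorem LF_ne (m : G → RCF (Option V) R) (hm : ∀ a, IsFar T B a (m a)) (l' l : Tw D V)
    (hl' : near B l' = l') (hl : near B l = l) (g : Γ)
    (hj : ∀ q, l' (g • q) = none ↔ l q = none) (y x : Tw D V)
    (h : ∀ q, ent (LF m l' l g q) (y (g • q)) (x q) ≠ 0) :
    l' = near B y ∧ l = near B x ∧ FM T B g y x := by
  have h1 : ∀ q, l q = none → (∀ b ∈ B, y (g • q) ≠ some b) ∧ (∀ b ∈ B, x q ≠ some b) ∧
      y (g • q) = (x q).map (D.c g q • ·) ∧
      (y (g • q)).map T.par = ((x q).map T.par).map (D.c g q • ·) := by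
    intro q hq
    have h2 := h q
    rw [LF_none _ _ _ _ _ hq] at h2
    by_contra hcon
    exact h2 ((hm _ _ _).2 hcon)
  have h2 : ∀ q, l q ≠ none → y (g • q) = l' (g • q) ∧ x q = l q := by
    intro q hq
    have h3 := h q
    rw [LF_some _ _ _ _ _ hq] at h3
    by_contra hcon
    exact h3 (ent_sk_ne hcon _)
  have hlx : l = near B x := by
    funext q
    by_cases hq : l q = none
    · rw [hq, eq_comm, near_none]
      exact (h1 q hq).2.1
    · by_contra hne
      obtain ⟨-, v, hv, hlv⟩ := near_ne B l q (by rw [hl]; exact hq)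
      have hxq := (h2 q hq).2
      by_cases h4 : near B x q = none
      · exact (near_none B x q).1 h4 v hv (hxq.trans hlv)
      · exact hne ((near_ne B x q h4).1.trans hxq).symm
  have hly : l' = near B y := by
    funext q'
    obtain ⟨q, rfl⟩ : ∃ q, g • q = q' := ⟨g⁻¹ • q', smul_inv_smul _ _⟩
    by_cases hq : l q = none
    · rw [(hj q).2 hq, eq_comm, near_none]
      exact (h1 q hq).1
    · by_contra hne
      have hq' : l' (g • q) ≠ none := fun h => hq ((hj q).1 h)
      obtain ⟨-, v, hv, hlv⟩ := near_ne B l' (g • q) (by rw [hl']; exact hq')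
      have hyq := (h2 q hq).1
      by_cases h4 : near B y (g • q) = none
      · exact (near_none B y _).1 h4 v hv (hyq.trans hlv)
      · exact hne ((near_ne B y _ h4).1.trans hyq).symm
  refine ⟨hly, hlx, fun q hq => ?_⟩
  rw [← hlx] at hq
  obtain ⟨h5, -, h6, h7⟩ := h1 q hq
  exact ⟨(near_none B y _).2 h5, h6, h7⟩

/-- The product of the local entries is one if the far parts match. -/
private theorem LF_one (m : G → RCF (Option V) R) (hm : ∀ a, IsFar T B a (m a)) (y x : Tw D V)
    (g : Γ) (hj : ∀ q, near B y (g • q) = none ↔ near B x q = none) (hF : FM T B g y x) (q : Q) :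
    ent (LF m (near B y) (near B x) g q) (y (g • q)) (x q) = 1 := by
  by_cases hq : near B x q = none
  · rw [LF_none _ _ _ _ _ hq]
    obtain ⟨h1, h2, h3⟩ := hF q hq
    exact (hm _ _ _).1 ⟨(near_none B y _).1 h1, (near_none B x _).1 hq, h2, h3⟩
  · rw [LF_some _ _ _ _ _ hq, (near_ne B x q hq).1,
      (near_ne B y (g • q) fun h => hq ((hj q).1 h)).1, ent_sk_eq]

end Fl

theorem fl (h1 : S_LrSk) : S_Fl := by
  classical
  intro Γ G Q V R _ _ _ _ _ _ D T B k S hS
  choose m hm using fun a : G => h1.2.2 G V R T B a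
  have hfar : ∀ a, IsFar T B a (m a) := fun a => (hm a).2
  -- the index set
  let P : Finset (Tw D V) := (Fintype.piFinset fun _ : Q => Finset.insertNone B)
  have hP : ∀ l : Tw D V, l ∈ P ↔ near B l = l := by
    intro l
    have h2 : l ∈ P ↔ ∀ q, l q ∈ Finset.insertNone B := Fintype.mem_piFinset
    rw [h2]
    constructor
    · intro h
      funext q
      by_cases hq : near B l q = none
      · rw [hq]
        by_contra hne
        obtain ⟨v, hv⟩ := Option.ne_none_iff_exists'.1 fun h => hne h.symm
        have h3 := (Finset.mem_insertNone.1 (h q)) v hv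
        exact (near_none B l q).1 hq v h3 hv
      · exact (near_ne B l q hq).1
    · intro h q
      rw [Finset.mem_insertNone]
      intro v hv
      have hv' : l q = some v := hv
      obtain ⟨-, w, hw, hlw⟩ := near_ne B l q (by rw [h, hv']; simp)
      rw [hv', Option.some_inj] at hlw
      rw [hlw]
      exact hw
  let PP : Finset (Tw D V × Tw D V) := P ×ˢ P.filter fun l => lev l = k
  have hPP : ∀ p : Tw D V × Tw D V, p ∈ PP ↔
      near B p.1 = p.1 ∧ near B p.2 = p.2 ∧ lev p.2 = k := by
    intro p
    have h2 : p ∈ PP ↔ p.1 ∈ P ∧ p.2 ∈ P.filter fun l => lev l = k := Finset.mem_product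
    rw [h2, Finset.mem_filter, hP, hP]
  let S' : Kr D V R := ∑ p ∈ PP, ∑ g ∈ (ent S p.1 p.2).coeff.support,
    ten (cf S g p.1 p.2) g (LF m p.1 p.2 g)
  have hcf : ∀ g y x, cf S' g y x = ∑ p ∈ PP, cf S g p.1 p.2 *
      ∏ q, ent (LF m p.1 p.2 g q) (y (g • q)) (x q) := by
    intro g y x
    change cf (∑ p ∈ PP, ∑ g ∈ (ent S p.1 p.2).coeff.support,
      ten (cf S g p.1 p.2) g (LF m p.1 p.2 g) : Kr D V R) g y x = _
    rw [fl_cf_sum]
    refine Finset.sum_congr rfl fun p _ => ?_
    rw [fl_cf_sum]
    by_cases hg : cf S g p.1 p.2 = 0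
    · rw [hg, zero_mul]
      refine Finset.sum_eq_zero fun h hh => ?_
      refine (fl_cf_ten _ _ _ _ _ _).2 ?_
      rintro rfl
      exact (Finsupp.mem_support_iff.1 hh) hg
    · rw [Finset.sum_eq_single g (fun h _ hh => (fl_cf_ten _ _ _ _ _ _).2 hh)
        (fun h => absurd (Finsupp.mem_support_iff.2 hg) h)]
      exact (fl_cf_ten _ _ _ _ _ _).1 rfl
  have hterm : ∀ g y x, ∀ p ∈ PP, cf S g p.1 p.2 *
      ∏ q, ent (LF m p.1 p.2 g q) (y (g • q)) (x q) ≠ 0 →
      p = (near B y, near B x) ∧ FM T B g y x := by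
    intro g y x p hp hne
    obtain ⟨hp1, hp2, -⟩ := (hPP p).1 hp
    have hj := hS g p.1 p.2 (left_ne_zero_of_mul hne)
    obtain ⟨h5, h6, h7⟩ := LF_ne T B m hfar p.1 p.2 hp1 hp2 g hj y x fun q h0 =>
      right_ne_zero_of_mul hne (Finset.prod_eq_zero (Finset.mem_univ q) h0)
    exact ⟨Prod.ext h5 h6, h7⟩
  have hIs : IsFl T B k S S' := by
    intro g y x
    constructor
    · rintro ⟨hF, hlev⟩
      rw [hcf, Finset.sum_eq_single (near B y, near B x)]
      · by_cases h0 : cf S g (near B y) (near B x) = 0
        · change cf S g (near B y) (near B x) * _ = _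
          rw [h0, zero_mul]
        · rw [Finset.prod_eq_one fun q _ => LF_one T B m hfar y x g
            (fun q => hS g _ _ h0 q) hF q, mul_one]
      · intro p hp hpne
        by_contra hne
        exact hpne (hterm g y x p hp hne).1
      · intro hn
        exact absurd ((hPP _).2 ⟨near_near B y, near_near B x, hlev⟩) hn
    · intro hn
      rw [hcf]
      refine Finset.sum_eq_zero fun p hp => ?_
      by_contra hne
      obtain ⟨h5, h6⟩ := hterm g y x p hp hne
      refine hn ⟨h6, ?_⟩
      have h7 := ((hPP p).1 hp).2.2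
      rw [h5] at h7
      exact h7
  have hcfne : ∀ g y x, cf S' g y x ≠ 0 → FM T B g y x ∧ lev (near B x) = k ∧
      cf S g (near B y) (near B x) ≠ 0 := by
    intro g y x hne
    by_cases hc : FM T B g y x ∧ lev (near B x) = k
    · refine ⟨hc.1, hc.2, ?_⟩
      rw [← (hIs g y x).1 hc]
      exact hne
    · exact absurd ((hIs g y x).2 hc) hne
  have hRk : Rk S' := by
    refine AddSubgroup.sum_mem _ fun p hp => AddSubgroup.sum_mem _ fun g hg =>
      AddSubgroup.subset_closure ⟨_, g, _, fun q => ?_, rfl⟩
    have hg' : cf S g p.1 p.2 ≠ 0 := Finsupp.mem_support_iff.1 hg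
    by_cases hq : p.2 q = none
    · rw [LF_none _ _ _ _ _ hq]
      exact (hm _).1
    · rw [LF_some _ _ _ _ _ hq]
      obtain ⟨v, hv⟩ := Option.ne_none_iff_exists'.1 hq
      obtain ⟨w, hw⟩ := Option.ne_none_iff_exists'.1 fun h => hq ((hS g _ _ hg' q).1 h)
      rw [hv, hw]
      exact h1.1 G V R _ w v 1
  refine ⟨S', hIs, hRk, ?_, ?_, ?_⟩
  · intro y x hlt
    by_contra hne
    obtain ⟨g, hg⟩ := fl_exists _ y x hne
    have h2 := (hcfne g y x hg).2.1
    have h3 := (near_lev B x).1
    omega
  · intro y x hlev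
    constructor
    · rintro ⟨hx, hy⟩
      refine MonoidAlgebra.ext (Finsupp.ext fun g => ?_)
      change cf S' g y x = cf S g y x
      by_cases hF : FM T B g y x
      · rw [(hIs g y x).1 ⟨hF, by rw [hx]; exact hlev⟩, hx, hy]
      · rw [(hIs g y x).2 fun h => hF h.1]
        by_contra hne
        apply hF
        have hj := hS g y x fun h => hne h.symm
        intro q hq
        rw [hx] at hq
        have hyq := (hj q).2 hq
        refine ⟨by rw [hy]; exact hyq, ?_, ?_⟩
        · rw [hyq, hq, Option.map_none]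
        · rw [pr, pr, hyq, hq]
          rfl
    · intro hn
      by_contra hne
      obtain ⟨g, hg⟩ := fl_exists _ y x hne
      obtain ⟨hF, hk, hS0⟩ := hcfne g y x hg
      have hx : near B x = x := (near_lev B x).2 (hk.trans hlev.symm)
      refine hn ⟨hx, ?_⟩
      funext q'
      obtain ⟨q, rfl⟩ : ∃ q, g • q = q' := ⟨g⁻¹ • q', smul_inv_smul _ _⟩
      have hj := hS g _ _ hS0 q
      by_cases hq : near B x q = none
      · rw [hj.2 hq, (hF q hq).2.1]
        rw [hx] at hq
        rw [hq]
        rfl
      · exact (near_ne B y _ fun h => hq (hj.1 h)).1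
  · intro hO
    refine ⟨hRk, fun g y x hg => ?_⟩
    obtain ⟨hF, hk, hS0⟩ := hcfne g y x hg
    obtain ⟨h2, h3⟩ := hO g (near B y) (near B x) hk (near_near B x) (near_near B y) hS0
    rw [tw_eq_iff] at h2 h3
    have h4 : ∀ q, near B x q ≠ none → near B x q = x q ∧ near B y (g • q) = y (g • q) := by
      intro q hq
      refine ⟨(near_ne B x q hq).1, (near_ne B y _ fun h => ?_).1⟩
      rw [h2 q, Option.map_eq_none_iff] at h
      exact hq h
    rw [tw_eq_iff, tw_eq_iff]
    refine ⟨fun q => ?_, fun q => ?_⟩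
    · by_cases hq : near B x q = none
      · exact (hF q hq).2.1
      · obtain ⟨h5, h6⟩ := h4 q hq
        rw [← h5, ← h6]
        exact h2 q
    · by_cases hq : near B x q = none
      · exact (hF q hq).2.2
      · obtain ⟨h5, h6⟩ := h4 q hq
        have h7 := h3 q
        rw [pr, pr, h5, h6] at h7
        exact h7

end Pool.Agent.QT
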