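import Pool.Agent.Lib.MP_8f66f0_al_Q.Spec

/-!
# Far lifts and the structure of the family kernels

The coefficient of a far lift at `y`, `x` is the coefficient at the near parts. The coordinates
outside `B` correspond, together with the edges to the parents, and they are not the base vertex;
so the conditions on the near parts give the conditions on the points.
-/

set_option autoImplicit false

namespace Pool.Agent.QT

open scoped Pointwise
open Pool.Agent.TQ Pool.Agent.Wald

section Near

variable {Γ G Q V : Type} [Group Γ] [Group G] [MulAction Γ Q] [MulAction G V] {D : Coc Γ G Q}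

private theorem near_eq_some {B : Finset V} {x : Tw D V} {q : Q} {v : V} :
    near B x q = some v ↔ x q = some v ∧ v ∈ B := by
  unfold near
  rw [Option.filter_eq_some_iff]
  simp

private theorem near_eq_none {B : Finset V} {x : Tw D V} {q : Q} {v : V}
    (h : near B x q = none) (hv : x q = some v) : v ∉ B := fun hB => by
  rw [near_eq_some.2 ⟨hv, hB⟩] at h
  cases h

private theorem near_near (B : Finset V) (x : Tw D V) : near B (near B x) = near B x := by
  funext q
  cases h : near B x q with
  | some v => exact near_eq_some.2 ⟨h, (near_eq_some.1 h).2⟩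
  | none =>
    cases h' : near B (near B x) q with
    | none => rfl
    | some v =>
      rw [(near_eq_some.1 h').1] at h
      cases h

private theorem rr_near [Fintype Q] (T : Tr G V) {B : Finset V} (hB : T.root ∈ B) (x : Tw D V) :
    rr T (near B x) = rr T x := by
  classical
  unfold rr
  congr 1
  ext q
  simp only [Finset.mem_filter, Finset.mem_univ, true_and]
  rw [near_eq_some]
  exact ⟨fun h => h.1, fun h => ⟨h, hB⟩⟩

end Near

/-- The coordinates at a far match. -/
private theorem far_pt {Γ G Q V : Type} [Group Γ] [Group G] [MulAction Γ Q] [MulAction G V]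
    {D : Coc Γ G Q} {T : Tr G V} {B : Finset V} {g : Γ} {y x : Tw D V} (hF : FM T B g y x)
    (h : near B y = g • near B x) : y = g • x := by
  rw [tw_eq_iff] at h ⊢
  intro q
  have hq := h q
  cases hx : near B x q with
  | none => exact (hF q hx).2.1
  | some v =>
    rw [hx, Option.map_some] at hq
    rw [(near_eq_some.1 hq).1, (near_eq_some.1 hx).1, Option.map_some]

/-- The edge labels at a far match. -/
private theorem far_ed {Γ G Q V : Type} [Group Γ] [Group G] [MulAction Γ Q] [MulAction G V]
    {D : Coc Γ G Q} {T : Tr G V} {B : Finset V} (hB : T.root ∈ B) {g : Γ} {y x : Tw D V}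
    (hF : FM T B g y x) (h : ed T (near B y) = g • ed T (near B x)) : ed T y = g • ed T x := by
  classical
  rw [tw_eq_iff] at h ⊢
  intro q
  have hq := h q
  cases hx : near B x q with
  | none =>
    obtain ⟨h1, h2, h3⟩ := hF q hx
    cases hv : x q with
    | none =>
      rw [hv, Option.map_none] at h2
      simp only [ed, hv, h2, Option.map_none]
    | some v =>
      rw [hv, Option.map_some] at h2
      have hvB : v ∉ B := near_eq_none hx hv
      have hwB : D.c g q • v ∉ B := near_eq_none h1 h2
      have hv1 : v ≠ T.root := fun e => hvB (e ▸ hB)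
      have hw1 : D.c g q • v ≠ T.root := fun e => hwB (e ▸ hB)
      simp only [pr, hv, h2, Option.map_some, Option.some.injEq] at h3
      simp only [ed, hv, h2, Option.map_some, if_neg hv1, if_neg hw1, Option.some.injEq]
      rw [h3, Set.smul_set_insert, Set.smul_set_singleton]
  | some v =>
    have hxv := (near_eq_some.1 hx).1
    simp only [ed, hx, hxv, Option.map_some] at hq ⊢
    cases hw : near B y (g • q) with
    | none =>
      rw [hw, Option.map_none] at hq
      cases hq
    | some w =>
      rw [hw] at hq
      rw [(near_eq_some.1 hw).1]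
      exact hq

theorem flSS : S_FlSS := by
  intro Γ G Q V L _ _ _ _ _ _ D T B k S S' hB _ hI hR h0 h1
  have key : ∀ g y x, cf S' g y x ≠ 0 → FM T B g y x ∧ lev (near B x) = k ∧
      cf S' g y x = cf S g (near B y) (near B x) := by
    intro g y x h
    by_cases hc : FM T B g y x ∧ lev (near B x) = k
    · exact ⟨hc.1, hc.2, (hI g y x).1 hc⟩
    · exact absurd ((hI g y x).2 hc) h
  refine ⟨hR, fun g y x h => ?_, fun g y x h => ?_⟩
  · obtain ⟨hF, hl, hc⟩ := key g y x fun e => h (by rw [e, Polynomial.eval_zero])
    exact far_pt hF (h0 g _ _ hl (near_near B x) (near_near B y) (hc ▸ h))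
  · obtain ⟨hF, hl, hc⟩ := key g y x fun e => h (by rw [e, Polynomial.eval_zero])
    have hh := h1 g _ _ hl (near_near B x) (near_near B y) (hc ▸ h)
    rw [rr_near T hB, rr_near T hB] at hh
    exact ⟨hh.1, fun e => far_ed hB hF (hh.2 e)⟩

end Pool.Agent.QT
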