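import Pool.Agent.Lib.MP_8f66f0_al_Q.SpecR

/-!
# Theorem Q: isomorphisms between idempotents
-/

set_option autoImplicit false

namespace Pool.Agent.QT

open scoped Pointwise
open Pool.Agent.TQ Pool.Agent.Wald Pool.Agent.FH

theorem isoSymm : S_isoSymm := by
  intro S _ n n' _ _ e e' f f' h
  exact ⟨h.h2, h.h1, h.h5, h.h6, h.h3, h.h4⟩

theorem isoComp : S_isoComp := by
  intro S _ n n' n'' _ _ _ e e' e'' f f' h h' H K
  refine ⟨?_, ?_, ?_, ?_, ?_, ?_⟩
  · rw [Matrix.mul_assoc, ← Matrix.mul_assoc h' h f, K.h1, H.h4, H.h1]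
  · rw [Matrix.mul_assoc, ← Matrix.mul_assoc f f' h', H.h2, K.h6, K.h2]
  · rw [Matrix.mul_assoc, H.h3]
  · rw [← Matrix.mul_assoc, K.h4]
  · rw [Matrix.mul_assoc, K.h5]
  · rw [← Matrix.mul_assoc, H.h6]

theorem isoSum : S_isoSum := by
  intro S _ n n' m m' _ _ _ _ e e' f f' d d' h h' H K
  refine ⟨?_, ?_, ?_, ?_, ?_, ?_⟩ <;>
    simp only [Matrix.fromBlocks_multiply, Matrix.mul_zero, Matrix.zero_mul, add_zero, zero_add,
      H.h1, H.h2, H.h3, H.h4, H.h5, H.h6, K.h1, K.h2, K.h3, K.h4, K.h5, K.h6]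

theorem isoRe : S_isoRe := by
  intro S _ n n' m m' _ _ _ _ e e' f f' σ σ' H
  refine ⟨?_, ?_, ?_, ?_, ?_, ?_⟩
  · rw [Matrix.submatrix_mul_equiv, H.h1]
  · rw [Matrix.submatrix_mul_equiv, H.h2]
  · rw [Matrix.submatrix_mul_equiv, H.h3]
  · rw [Matrix.submatrix_mul_equiv, H.h4]
  · rw [Matrix.submatrix_mul_equiv, H.h5]
  · rw [Matrix.submatrix_mul_equiv, H.h6]

theorem isoConj : S_isoConj := by
  intro S _ n m _ _ _ _ p w w' hp _ hw
  have h1 : ∀ (k : Type) (A : Matrix (m ⊕ n) k S), w' * (w * A) = A := fun k A => by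
    rw [← Matrix.mul_assoc, hw, Matrix.one_mul]
  have hcr : Matrix.fromCols (0 : Matrix n m S) p * Matrix.fromRows (0 : Matrix m n S) p = p := by
    rw [Matrix.fromCols_mul_fromRows, hp, Matrix.zero_mul, zero_add]
  have hrc : Matrix.fromRows (0 : Matrix m n S) p * Matrix.fromCols (0 : Matrix n m S) p =
      Matrix.fromBlocks 0 0 0 p := by
    rw [Matrix.fromRows_mul_fromCols, hp, Matrix.zero_mul, Matrix.zero_mul, Matrix.mul_zero]
  have hrp : Matrix.fromRows (0 : Matrix m n S) p * p = Matrix.fromRows (0 : Matrix m n S) p := by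
    rw [Matrix.fromRows_mul, hp, Matrix.zero_mul]
  have hpc : p * Matrix.fromCols (0 : Matrix n m S) p = Matrix.fromCols (0 : Matrix n m S) p := by
    rw [Matrix.mul_fromCols, hp, Matrix.mul_zero]
  have hbr : Matrix.fromBlocks (0 : Matrix m m S) 0 0 p * Matrix.fromRows (0 : Matrix m n S) p =
      Matrix.fromRows (0 : Matrix m n S) p := by
    rw [Matrix.fromBlocks_mul_fromRows, hp]
    simp only [Matrix.mul_zero, Matrix.zero_mul, add_zero, zero_add]
  have hcb : Matrix.fromCols (0 : Matrix n m S) p * Matrix.fromBlocks (0 : Matrix m m S) 0 0 p =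
      Matrix.fromCols (0 : Matrix n m S) p := by
    rw [Matrix.fromCols_mul_fromBlocks, hp]
    simp only [Matrix.mul_zero, Matrix.zero_mul, add_zero, zero_add]
  refine ⟨?_, ?_, ?_, ?_, ?_, ?_⟩
  · rw [Matrix.mul_assoc, h1, hcr]
  · rw [Matrix.mul_assoc, ← Matrix.mul_assoc (Matrix.fromRows _ _), hrc, ← Matrix.mul_assoc]
  · rw [Matrix.mul_assoc, hrp]
  · rw [Matrix.mul_assoc, h1, Matrix.mul_assoc, hbr]
  · rw [Matrix.mul_assoc, Matrix.mul_assoc w, h1, ← Matrix.mul_assoc, hcb]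
  · rw [← Matrix.mul_assoc, hpc]

end Pool.Agent.QT
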