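import Pool.Agent.Lib.MP_8f66f0_al_Q.Spec

/-! Key fact 1. -/

set_option autoImplicit false

namespace Pool.Agent.QT

open scoped Pointwise
open Pool.Agent.TQ

section

variable {Γ G Q V : Type} [Group Γ] [Group G] [MulAction Γ Q] [MulAction G V] {D : Coc Γ G Q}

omit [MulAction G V] in
private theorem key_cut_self [DecidableEq Q] (q : Q) (x : Tw D V) : cut q x q = none :=
  Function.update_self (β := fun _ => Option V) q none x

omit [MulAction G V] in
private theorem key_cut_ne [DecidableEq Q] {q q' : Q} (h : q' ≠ q) (x : Tw D V) :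
    cut q x q' = x q' :=
  Function.update_of_ne (β := fun _ => Option V) h none x

omit [MulAction G V] in
private theorem key_lev [Fintype Q] [DecidableEq Q] {x : Tw D V} {q : Q} (h : x q ≠ none) :
    lev (cut q x) < lev x := by
  classical
  refine Finset.card_lt_card ?_
  rw [Finset.ssubset_iff_of_subset]
  · refine ⟨q, ?_, ?_⟩
    · rw [Finset.mem_filter, Option.isSome_iff_ne_none]
      exact ⟨Finset.mem_univ q, h⟩
    · rw [Finset.mem_filter]
      rintro ⟨_, h'⟩
      rw [key_cut_self] at h'
      exact absurd h' (by simp)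
  · intro q' hq'
    rw [Finset.mem_filter] at hq' ⊢
    refine ⟨Finset.mem_univ _, ?_⟩
    by_cases e : q' = q
    · rw [e, Option.isSome_iff_ne_none]
      exact h
    · have h2 := hq'.2
      rw [key_cut_ne e] at h2
      exact h2

omit [MulAction G V] in
private theorem key_near {B : Finset V} {x : Tw D V} (h : near B x ≠ x) :
    ∃ q v, x q = some v ∧ v ∉ B := by
  classical
  by_contra hcon
  push Not at hcon
  refine h (funext fun q => ?_)
  change (x q).filter _ = x q
  cases hq : x q with
  | none => rfl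
  | some v => exact Option.filter_eq_some_iff.2 ⟨rfl, by simpa using hcon q v hq⟩

end

theorem key (h1 : S_RkReg) (h2 : S_RS) : S_Key := by
  classical
  intro Γ G Q V R _ _ _ _ _ _ _ D n _ _ k E f hf hE hEq
  have hR : ∀ i j, Rk ((dg E : Matrix n n (Kr D V R)) i j) := by
    intro i j
    by_cases e : i = j
    · subst e
      rw [dg, Matrix.diagonal_apply_eq]
      exact (h2 Γ G Q V D).1 R (E i) (hE i)
    · rw [dg, Matrix.diagonal_apply_ne _ e]
      exact zero_mem (AddSubgroup.closure _)
  have hP : ∀ i j, Rk (f i j - (dg E : Matrix n n (Kr D V R)) i j) := fun i j =>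
    sub_mem (hf i j) (hR i j)
  have hreg : ∀ i j, Rg (f i j - (dg E : Matrix n n (Kr D V R)) i j) := fun i j =>
    (h1 Γ G Q V R D _ (hP i j)).1
  choose B hB using hreg
  refine ⟨Finset.univ.biUnion fun i => Finset.univ.biUnion fun j => B i j, ?_⟩
  intro B' hB' i j y x hx hn
  have hsub : B i j ⊆ B' := fun v hv => hB' (Finset.mem_biUnion.2
    ⟨i, Finset.mem_univ i, Finset.mem_biUnion.2 ⟨j, Finset.mem_univ j, hv⟩⟩)
  rw [← sub_eq_zero, ← ent_sub]
  -- the coefficients vanish below level k
  have hlow : ∀ g y x, lev x < k →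
      cf (f i j - (dg E : Matrix n n (Kr D V R)) i j) g y x = 0 := by
    intro g y x hxk
    have e : ent (f i j - (dg E : Matrix n n (Kr D V R)) i j) y x = 0 := by
      rw [ent_sub, hEq i j y x hxk, sub_self]
    rw [cf, e]
    rfl
  refine MonoidAlgebra.ext (Finsupp.ext fun g => ?_)
  change cf (f i j - (dg E : Matrix n n (Kr D V R)) i j) g y x = 0
  obtain ⟨q, hq⟩ : ∃ q, (∃ v, v ∉ B i j ∧ x q = some v) ∨
      (∃ w, w ∉ B i j ∧ y (g • q) = some w) := by
    rcases hn with hn | hn
    · obtain ⟨q, v, hv, hv'⟩ := key_near hn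
      exact ⟨q, Or.inl ⟨v, fun h => hv' (hsub h), hv⟩⟩
    · obtain ⟨q, v, hv, hv'⟩ := key_near hn
      refine ⟨g⁻¹ • q, Or.inr ⟨v, fun h => hv' (hsub h), ?_⟩⟩
      rw [smul_inv_smul]
      exact hv
  have h3 := hB i j g y x q hq
  by_cases e : y (g • q) = (x q).map (D.c g q • ·)
  · rw [h3.1 e]
    refine hlow _ _ _ ?_
    rw [← hx]
    refine key_lev fun h0 => ?_
    rcases hq with ⟨v, _, hv⟩ | ⟨w, _, hw⟩
    · rw [h0] at hv
      exact Option.some_ne_none _ hv.symm
    · rw [e, h0] at hw
      exact Option.some_ne_none _ hw.symm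
  · exact h3.2 e

end Pool.Agent.QT
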