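import Pool.Agent.Lib.MP_8f66f0_al_Q.SpecR
import Pool.Agent.Lib.MP_8f66f0_al_Q.RkInd

/-!
# Theorem Q: the finite part of an idempotent at level `k`
-/

set_option autoImplicit false

namespace Pool.Agent.QT

open scoped Pointwise
open Pool.Agent.TQ Pool.Agent.Wald Pool.Agent.FH

section Near

variable {Γ G Q V : Type} [Group Γ] [Group G] [MulAction Γ Q] [MulAction G V] {D : Coc Γ G Q}

omit [MulAction G V] in
private theorem pf_near_some {B : Finset V} {x : Tw D V} {q : Q}
    (h : (near B x q).isSome = true) : (x q).isSome = true := by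
  classical
  unfold near at h
  cases hx : x q with
  | none =>
    rw [hx] at h
    exact absurd h (by simp)
  | some v => rfl

omit [MulAction G V] in
private theorem pf_lev_le [Fintype Q] (B : Finset V) (x : Tw D V) : lev (near B x) ≤ lev x := by
  classical
  refine Finset.card_le_card fun q hq => ?_
  rw [Finset.mem_filter] at hq ⊢
  exact ⟨hq.1, pf_near_some hq.2⟩

omit [MulAction G V] in
private theorem pf_lev_lt [Fintype Q] {B : Finset V} {x : Tw D V} (h : near B x ≠ x) :
    lev (near B x) < lev x := by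
  classical
  obtain ⟨q, hq⟩ := Function.ne_iff.mp h
  refine Finset.card_lt_card (Finset.ssubset_iff_of_subset (fun q' hq' => ?_) |>.mpr ⟨q, ?_, ?_⟩)
  · rw [Finset.mem_filter] at hq' ⊢
    exact ⟨hq'.1, pf_near_some hq'.2⟩
  · rw [Finset.mem_filter]
    refine ⟨Finset.mem_univ _, ?_⟩
    cases hx : x q with
    | none =>
      refine absurd ?_ hq
      unfold near
      rw [hx]
      rfl
    | some v => rfl
  · rw [Finset.mem_filter]
    rintro ⟨-, h'⟩
    refine hq ?_
    unfold near at h' ⊢
    cases hx : x q with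
    | none => rfl
    | some v =>
      rw [hx] at h'
      by_cases hv : v ∈ B
      · simp [hv]
      · exact absurd h' (by simp [hv])

omit [MulAction G V] in
private theorem pf_fin [Fintype Q] (B : Finset V) : {x : Tw D V | near B x = x}.Finite := by
  classical
  refine (Set.Finite.pi' (ι := Q) (κ := fun _ => Option V)
    (t := fun _ => (insert none (Option.some '' (B : Set V)))) fun q =>
    ((B.finite_toSet.image _).insert none)).subset fun x hx q => ?_
  have h : near B x q = x q := congrFun hx q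
  unfold near at h
  cases hx' : x q with
  | none => exact Set.mem_insert _ _
  | some v =>
    refine Set.mem_insert_of_mem _ ⟨v, ?_, rfl⟩
    rw [hx'] at h
    by_contra hv
    rw [Finset.mem_coe] at hv
    rw [Option.filter_some, if_neg (by simpa using hv)] at h
    exact absurd h (by simp)

end Near

private theorem pf_ite {A : Type} [Zero A] [One A] {a b : Prop} {ia : Decidable a} {ib : Decidable b}
    (h : a ↔ b) : (if a then (1 : A) else 0) = if b then 1 else 0 := if_congr h rfl rfl

section Dg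

variable {Γ G Q V : Type} [Group Γ] [Group G] [MulAction Γ Q] [MulAction G V] {D : Coc Γ G Q}
  {R : Type} [CommRing R] {n : Type} [DecidableEq n]

omit [MulAction G V] in
open Classical in
private theorem pf_ent_dg (E : n → Set (Tw D V)) (a' a : n) (y x : Tw D V) :
    ent ((dg E : Matrix n n (Kr D V R)) a' a) y x = if a' = a ∧ y = x ∧ x ∈ E a then 1 else 0 := by
  unfold dg
  by_cases h : a' = a
  · subst h
    rw [Matrix.diagonal_apply_eq, ent_ind]
    exact if_congr ⟨fun h' => ⟨rfl, h'⟩, fun h' => h'.2⟩ rfl rfl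
  · rw [Matrix.diagonal_apply_ne _ h, ent_zero, if_neg fun h' => h h'.1]

end Dg

/-- **PF**. -/
theorem pF (h1 : S_Key) (h2 : S_RS) (h3 : S_Ind) (h4 : S_Lev) (h5 : S_plcE) : S_pF := by
  classical
  intro Γ G Q V L _ _ _ _ _ _ D T k n _ _ p E hp hO hl hr hE hEN hk
  obtain ⟨B₀, hB₀⟩ := h1 Γ G Q V L D n k E p (fun i j => (hO i j).reg) hE hk
  have hK := hB₀ (insert T.root B₀) (Finset.subset_insert _ _)
  have hJ : ∀ i j, Jc (p i j) := fun i j => (hO i j).reg.jc
  have hlev : ∀ i j y x, ent (p i j) y x ≠ 0 → lev y = lev x := fun i j =>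
    h4.1 Γ G Q V L D (p i j) (hJ i j)
  have hny : ∀ i j y x, ent (p i j) y x ≠ 0 → NR T y := by
    intro i j y x h
    by_contra hy
    refine h ?_
    have h' : p i j = ind (NRS T) * p i j := by
      conv_lhs => rw [← hl]
      unfold dg
      rw [Matrix.diagonal_mul]
    rw [h']
    exact ((h3 Γ G Q V L D).2.2.2 (NRS T) (p i j) y x).2.2.2 hy
  have hnx : ∀ i j y x, ent (p i j) y x ≠ 0 → NR T x := by
    intro i j y x h
    by_contra hy
    refine h ?_
    have h' : p i j = p i j * ind (NRS T) := by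
      conv_lhs => rw [← hr]
      unfold dg
      rw [Matrix.mul_diagonal]
    rw [h']
    exact ((h3 Γ G Q V L D).2.2.2 (NRS T) (p i j) y x).2.1 hy
  set B : Finset V := insert T.root B₀ with hB
  let F : Type := {z : Tw D V × n // near B z.1 = z.1 ∧ lev z.1 = k ∧ NR T z.1}
  have hFin : Finite F := by
    refine Set.Finite.to_subtype (s := {z : Tw D V × n | near B z.1 = z.1 ∧ lev z.1 = k ∧ NR T z.1}) ?_
    refine ((pf_fin (D := D) B).prod (Set.finite_univ (α := n))).subset fun z hz => ?_
    exact ⟨hz.1, Set.mem_univ _⟩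
  have iF : Fintype F := Fintype.ofFinite F
  have dF : DecidableEq F := Classical.decEq F
  let pt : F → Tw D V := fun z => z.1.1
  let blk : F → n := fun z => z.1.2
  let q : Matrix F F (MonoidAlgebra L Γ) := fun z' z => ent (p z'.1.2 z.1.2) z'.1.1 z.1.1
  have hinj : ∀ i j : F, pt i = pt j → blk i = blk j → i = j := fun i j h h' =>
    Subtype.ext (Prod.ext h h')
  obtain ⟨hP1, hP2⟩ := h5 Γ G Q V L D F F n n pt blk pt blk q hinj hinj
  have hRS := h2 Γ G Q V D
  refine ⟨B, F, iF, dF, pt, blk, q, fun a => E a ∩ {x | lev (near B x) ≠ k}, Finset.mem_insert_self _ _,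
    fun i => ⟨i.2.2.2, i.2.1, i.2.2.1⟩, hinj, fun a => ⟨?_, fun x hx => hEN a hx.1, fun x hx => hx.2,
    fun x hx => ⟨fun h => h.1, fun h => ⟨h, ?_⟩⟩⟩, ?_, ?_, ?_⟩
  · exact (hRS.2.1 _ _ (hE a) (hRS.2.2.2.1 B fun y => lev y ≠ k)).1
  · exact ne_of_lt (lt_of_le_of_lt (pf_lev_le B x) hx)
  · -- idempotent
    ext1 z'' z
    have key : ∀ a', ent (p z''.1.2 a' * p a' z.1.2) z''.1.1 z.1.1 =
        ∑ z' : F, if z'.1.2 = a' then q z'' z' * q z' z else 0 := by
      intro a'
      let s : Finset (Tw D V) := (Finset.univ.filter fun z' : F => z'.1.2 = a').image pt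
      have hs : ∀ v, ent (p a' z.1.2) v z.1.1 ≠ 0 → v ∈ s := by
        intro v hv
        have hv1 : near B v = v := by
          by_contra hv1
          refine hv ?_
          rw [hK a' z.1.2 v z.1.1 z.2.2.1 (Or.inr hv1), pf_ent_dg, if_neg]
          rintro ⟨-, h, -⟩
          exact hv1 (by rw [h]; exact z.2.1)
        refine Finset.mem_image.mpr ⟨⟨(v, a'), hv1, (hlev _ _ _ _ hv).trans z.2.2.1,
          hny _ _ _ _ hv⟩, Finset.mem_filter.mpr ⟨Finset.mem_univ _, rfl⟩, rfl⟩
      rw [ent_mul_col _ _ _ _ s hs, Finset.sum_image, Finset.sum_filter]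
      · refine Finset.sum_congr rfl fun z' _ => ?_
        by_cases h : z'.1.2 = a'
        · rw [if_pos h, if_pos h]
          subst h
          rfl
        · rw [if_neg h, if_neg h]
      · intro i hi j hj hij
        have hi' := (Finset.mem_filter.mp (Finset.mem_coe.mp hi)).2
        have hj' := (Finset.mem_filter.mp (Finset.mem_coe.mp hj)).2
        exact hinj i j hij (hi'.trans hj'.symm)
    have h : ent ((p * p) z''.1.2 z.1.2) z''.1.1 z.1.1 =
        ∑ a', ent (p z''.1.2 a' * p a' z.1.2) z''.1.1 z.1.1 := by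
      rw [Matrix.mul_apply]
      induction (Finset.univ : Finset n) using Finset.induction_on with
      | empty => rw [Finset.sum_empty, Finset.sum_empty, ent_zero]
      | insert a s ha ih => rw [Finset.sum_insert ha, Finset.sum_insert ha, ent_add, ih]
    rw [hp] at h
    change (q * q) z'' z = ent (p z''.1.2 z.1.2) z''.1.1 z.1.1
    rw [h, Matrix.mul_apply]
    simp only [key]
    rw [Finset.sum_comm]
    refine Finset.sum_congr rfl fun z' _ => ?_
    rw [Finset.sum_ite_eq, if_pos (Finset.mem_univ _)]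
  · -- support
    intro i j γ hγ
    have h := (hO i.1.2 j.1.2).pt γ i.1.1 j.1.1 hγ
    exact Prod.ext h.1 h.2
  · -- agreement
    intro a' a y x hx
    change ent (p a' a) y x = ent ((dg (fun a => E a ∩ {x | lev (near B x) ≠ k}) :
      Matrix n n (Kr D V L)) a' a + plc pt blk pt blk q a' a) y x
    rw [ent_add, pf_ent_dg]
    by_cases hxk : lev x = k
    · by_cases hn : near B x = x ∧ near B y = y
      · rw [if_neg, zero_add]
        · by_cases hz : NR T x ∧ NR T y ∧ lev y = k
          · exact (hP1 ⟨(y, a'), hn.2, hz.2.2, hz.2.1⟩ ⟨(x, a), hn.1, hxk, hz.1⟩).symm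
          · have h0 : ent (p a' a) y x = 0 := by
              by_contra h
              exact hz ⟨hnx _ _ _ _ h, hny _ _ _ _ h, (hlev _ _ _ _ h).trans hxk⟩
            rw [h0]
            by_contra h
            obtain ⟨i', i, -, -, h1, h2⟩ := hP2 a' a y x (Ne.symm h)
            refine hz ⟨?_, ?_, ?_⟩
            · rw [← h2]; exact i.2.2.2
            · rw [← h1]; exact i'.2.2.2
            · rw [← h1]; exact i'.2.2.1
        · rintro ⟨-, -, -, h⟩
          exact h (by rw [hn.1]; exact hxk)
      · have h0 : ent (plc pt blk pt blk q a' a) y x = 0 := by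
          by_contra h
          obtain ⟨i', i, -, -, h1, h2⟩ := hP2 a' a y x h
          refine hn ⟨?_, ?_⟩
          · rw [← h2]; exact i.2.1
          · rw [← h1]; exact i'.2.1
        rw [h0, add_zero, hK a' a y x hxk (not_and_or.mp hn), pf_ent_dg]
        refine pf_ite ⟨fun h => ⟨h.1, h.2.1, h.2.2, ?_⟩, fun h => ⟨h.1, h.2.1, h.2.2.1⟩⟩
        have hx' : near B x ≠ x := by
          intro hx'
          exact hn ⟨hx', by rw [h.2.1]; exact hx'⟩
        exact ne_of_lt (lt_of_lt_of_eq (pf_lev_lt hx') hxk)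
    · have hlt : lev x < k := lt_of_le_of_ne (Nat.lt_succ_iff.mp hx) hxk
      have h0 : ent (plc pt blk pt blk q a' a) y x = 0 := by
        by_contra h
        obtain ⟨i', i, -, -, h1, h2⟩ := hP2 a' a y x h
        exact hxk (by rw [← h2]; exact i.2.2.1)
      rw [h0, add_zero, hk a' a y x hlt, pf_ent_dg]
      refine pf_ite ⟨fun h => ⟨h.1, h.2.1, h.2.2, ?_⟩, fun h => ⟨h.1, h.2.1, h.2.2.1⟩⟩
      exact ne_of_lt (lt_of_le_of_lt (pf_lev_le B x) hlt)

end Pool.Agent.QT
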