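import Pool.Agent.Lib.MP_8f66f0_al_Q.SpecR
import Pool.Agent.Lib.MP_8f66f0_al_Q.RkInd

/-!
# Theorem Q: kernel matrices with finitely many entries; far lifts and the points without `root`
-/

set_option autoImplicit false

namespace Pool.Agent.QT

open scoped Pointwise
open Pool.Agent.TQ Pool.Agent.Wald Pool.Agent.FH

section Plc

variable {Ω A : Type} [Ring A]

private theorem ent_fsum {ι : Type} (s : Finset ι) (f : ι → RCF Ω A) (y x : Ω) :
    ent (∑ i ∈ s, f i) y x = ∑ i ∈ s, ent (f i) y x := by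
  classical
  induction s using Finset.induction_on with
  | empty => rw [Finset.sum_empty, Finset.sum_empty, ent_zero]
  | insert a s ha ih => rw [Finset.sum_insert ha, Finset.sum_insert ha, ent_add, ih]

private theorem sk_fsum {ι : Type} (s : Finset ι) (w v : Ω) (f : ι → A) :
    sk w v (∑ i ∈ s, f i) = ∑ i ∈ s, sk w v (f i) := by
  classical
  refine ent_ext fun y x => ?_
  rw [ent_fsum]
  by_cases h : y = w ∧ x = v
  · obtain ⟨rfl, rfl⟩ := h
    rw [ent_sk_eq]
    exact Finset.sum_congr rfl fun i _ => (ent_sk_eq _ _ _).symm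
  · rw [ent_sk_ne h]
    exact (Finset.sum_eq_zero fun i _ => ent_sk_ne h _).symm

private theorem sk_mul_eq (w v u : Ω) (a b : A) : sk w v a * sk v u b = sk w u (a * b) := by
  classical
  refine ent_ext fun y x => ?_
  rw [ent_mul_col (sk w v a) (sk v u b) y x {v} fun t ht => by
    rw [Finset.mem_singleton]
    by_contra h
    exact ht (ent_sk_ne (fun h' => h h'.1) b)]
  rw [Finset.sum_singleton]
  by_cases hy : y = w
  · by_cases hx : x = u
    · rw [hy, hx, ent_sk_eq, ent_sk_eq, ent_sk_eq]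
    · rw [ent_sk_ne (fun h => hx h.2) b, mul_zero, ent_sk_ne fun h => hx h.2]
  · rw [ent_sk_ne (fun h => hy h.1) a, zero_mul, ent_sk_ne fun h => hy h.1]

private theorem sk_mul_ne {v v' : Ω} (h : v ≠ v') (w u : Ω) (a b : A) :
    sk w v a * sk v' u b = 0 := by
  classical
  refine ent_ext fun y x => ?_
  rw [ent_mul_col (sk w v a) (sk v' u b) y x {v'} fun t ht => by
    rw [Finset.mem_singleton]
    by_contra h
    exact ht (ent_sk_ne (fun h' => h h'.1) b)]
  rw [Finset.sum_singleton, ent_sk_ne (fun h' => h h'.2.symm) a, zero_mul, ent_zero]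

end Plc

theorem plcE : S_plcE := by
  intro Γ G Q V R _ _ _ _ _ D ι ι' n n' _ _ _ _ _ _ pt' blk' pt blk M hi hi'
  constructor
  · intro i' i
    rw [plc, ent_fsum, Finset.sum_eq_single i', ent_fsum, Finset.sum_eq_single i, if_pos ⟨rfl, rfl⟩,
      ent_sk_eq]
    · intro j _ hj
      by_cases hb : blk j = blk i
      · rw [if_pos ⟨rfl, hb⟩]
        exact ent_sk_ne (fun h => hj (hi j i h.2.symm hb)) _
      · rw [if_neg fun h => hb h.2, ent_zero]
    · exact fun h => absurd (Finset.mem_univ _) h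
    · intro j' _ hj'
      rw [ent_fsum]
      refine Finset.sum_eq_zero fun j _ => ?_
      by_cases hb : blk' j' = blk' i' ∧ blk j = blk i
      · rw [if_pos hb]
        exact ent_sk_ne (fun h => hj' (hi' j' i' h.1.symm hb.1)) _
      · rw [if_neg hb, ent_zero]
    · exact fun h => absurd (Finset.mem_univ _) h
  · intro a' a y x h
    rw [plc, ent_fsum] at h
    obtain ⟨i', _, h⟩ := Finset.exists_ne_zero_of_sum_ne_zero h
    rw [ent_fsum] at h
    obtain ⟨i, _, h⟩ := Finset.exists_ne_zero_of_sum_ne_zero h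
    by_cases hb : blk' i' = a' ∧ blk i = a
    · rw [if_pos hb] at h
      by_cases hp : y = pt' i' ∧ x = pt i
      · exact ⟨i', i, hb.1, hb.2, hp.1.symm, hp.2.symm⟩
      · exact absurd (ent_sk_ne hp _) h
    · rw [if_neg hb, ent_zero] at h
      exact absurd rfl h

theorem plcM : S_plcM := by
  intro Γ G Q V R _ _ _ _ _ D ι ι' ι'' n n' n'' _ _ _ _ _ _ _ pt'' blk'' pt' blk' pt blk M N hi
  classical
  refine Matrix.ext fun a'' a => ?_
  rw [Matrix.mul_apply]
  have h1 : ∀ b : n', plc pt'' blk'' pt' blk' M a'' b * plc pt' blk' pt blk N b a =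
      ∑ i'' : ι'', ∑ i : ι, ∑ i' : ι', ∑ j' : ι', (if blk'' i'' = a'' ∧ blk' i' = b then
          (sk (pt'' i'') (pt' i') (M i'' i') : Kr D V R) else 0) *
        (if blk' j' = b ∧ blk i = a then (sk (pt' j') (pt i) (N j' i) : Kr D V R) else 0) := by
    intro b
    rw [plc, plc, Finset.sum_mul]
    refine Finset.sum_congr rfl fun i'' _ => ?_
    rw [Finset.sum_mul]
    refine Eq.trans ?_ Finset.sum_comm
    refine Finset.sum_congr rfl fun i' _ => ?_
    rw [Finset.mul_sum]
    refine Eq.trans ?_ Finset.sum_comm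
    refine Finset.sum_congr rfl fun j' _ => ?_
    rw [Finset.mul_sum]
  simp only [h1]
  refine Finset.sum_comm.trans ?_
  rw [plc]
  refine Finset.sum_congr rfl fun i'' _ => ?_
  refine Finset.sum_comm.trans ?_
  refine Finset.sum_congr rfl fun i _ => ?_
  refine Finset.sum_comm.trans ?_
  have h2 : ∀ i' : ι', (∑ b : n', ∑ j' : ι', (if blk'' i'' = a'' ∧ blk' i' = b then
          (sk (pt'' i'') (pt' i') (M i'' i') : Kr D V R) else 0) *
        (if blk' j' = b ∧ blk i = a then (sk (pt' j') (pt i) (N j' i) : Kr D V R) else 0)) =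
      if blk'' i'' = a'' ∧ blk i = a then
        (sk (pt'' i'') (pt i) (M i'' i' * N i' i) : Kr D V R) else 0 := by
    intro i'
    rw [Finset.sum_eq_single (blk' i'), Finset.sum_eq_single i']
    · by_cases h : blk'' i'' = a'' ∧ blk i = a
      · rw [if_pos h, if_pos ⟨h.1, rfl⟩, if_pos ⟨rfl, h.2⟩, sk_mul_eq]
      · rw [if_neg h]
        by_cases h' : blk'' i'' = a''
        · rw [if_neg (c := blk' i' = blk' i' ∧ blk i = a) fun h'' => h ⟨h', h''.2⟩, mul_zero]
        · rw [if_neg (c := blk'' i'' = a'' ∧ blk' i' = blk' i') fun h'' => h' h''.1, zero_mul]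
    · intro j' _ hj'
      by_cases hb : blk' j' = blk' i' ∧ blk i = a
      · by_cases hb' : blk'' i'' = a'' ∧ blk' i' = blk' i'
        · rw [if_pos hb, if_pos hb']
          exact sk_mul_ne (fun h => hj' (hi j' i' h.symm hb.1)) _ _ _ _
        · rw [if_neg hb', zero_mul]
      · rw [if_neg hb, mul_zero]
    · exact fun h => absurd (Finset.mem_univ _) h
    · intro b _ hb
      refine Finset.sum_eq_zero fun j' _ => ?_
      rw [if_neg (c := blk'' i'' = a'' ∧ blk' i' = b) fun h => hb h.2.symm, zero_mul]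
    · exact fun h => absurd (Finset.mem_univ _) h
  simp only [h2]
  by_cases h : blk'' i'' = a'' ∧ blk i = a
  · simp only [if_pos h]
    rw [Matrix.mul_apply, sk_fsum]
  · simp only [if_neg h]
    rw [Finset.sum_const_zero]

theorem flN : S_flN := by
  intro Γ G Q V R _ _ _ _ _ _ D T B k S F hJ hB hN hF
  classical
  have h1 : ∀ g y x, cf F g y x ≠ 0 →
      lev (near B x) = k ∧ cf S g (near B y) (near B x) ≠ 0 := by
    intro g y x h
    by_cases h' : FM T B g y x ∧ lev (near B x) = k
    · refine ⟨h'.2, ?_⟩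
      rw [← (hF g y x).1 h']
      exact h
    · exact absurd ((hF g y x).2 h') h
  have h2 : ∀ g y x, cf F g y x ≠ 0 → lev (near B y) = k ∧ lev (near B x) = k := by
    intro g y x h
    obtain ⟨h3, h4⟩ := h1 g y x h
    refine ⟨?_, h3⟩
    rw [← h3, lev, lev]
    refine (Finset.card_bij (fun q _ => g • q) ?_ ?_ ?_).symm
    · intro q hq
      rw [Finset.mem_filter] at hq ⊢
      refine ⟨Finset.mem_univ _, ?_⟩
      have h5 := hJ g _ _ h4 q
      rw [← Option.ne_none_iff_isSome] at hq ⊢
      exact fun h6 => hq.2 (h5.1 h6)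
    · exact fun q _ q' _ h6 => smul_left_cancel g h6
    · intro q hq
      refine ⟨g⁻¹ • q, ?_, smul_inv_smul g q⟩
      rw [Finset.mem_filter] at hq ⊢
      refine ⟨Finset.mem_univ _, ?_⟩
      have h5 := hJ g _ _ h4 (g⁻¹ • q)
      rw [smul_inv_smul] at h5
      rw [← Option.ne_none_iff_isSome] at hq ⊢
      exact fun h6 => hq.2 (h5.2 h6)
  have h3 : ∀ z : Tw D V, NR T (near B z) → z ∈ NRS T := by
    intro z hz q hq
    refine hz q ?_
    change (z q).filter _ = _
    rw [hq]
    exact Option.filter_some_pos (by simpa using hB)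
  have h4 : ∀ y x, ent F y x ≠ 0 → y ∈ NRS T ∧ x ∈ NRS T := by
    intro y x h
    obtain ⟨g, hg⟩ : ∃ g, cf F g y x ≠ 0 := by
      by_contra hcon
      push Not at hcon
      exact h (MonoidAlgebra.ext (Finsupp.ext fun g => hcon g))
    have h5 := hN g _ _ (h1 g y x hg).2
    exact ⟨h3 y h5.1, h3 x h5.2⟩
  refine ⟨h2, ent_ext fun y x => ?_, ent_ext fun y x => ?_⟩
  · rw [ent_mul_row (ind (NRS T)) F y x {y} fun v hv => by
      rw [Finset.mem_singleton]
      by_contra h
      rw [ent_ind, if_neg fun h' => h h'.1.symm] at hv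
      exact hv rfl]
    rw [Finset.sum_singleton]
    by_cases h : ent F y x = 0
    · rw [h, mul_zero]
    · rw [ent_ind, if_pos ⟨rfl, (h4 y x h).1⟩, one_mul]
  · rw [ent_mul_col F (ind (NRS T)) y x {x} fun v hv => by
      rw [Finset.mem_singleton]
      by_contra h
      rw [ent_ind, if_neg fun h' => h h'.1] at hv
      exact hv rfl]
    rw [Finset.sum_singleton]
    by_cases h : ent F y x = 0
    · rw [h, zero_mul]
    · rw [ent_ind, if_pos ⟨rfl, (h4 y x h).2⟩, mul_one]

end Pool.Agent.QT
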