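import Pool.Agent.Lib.MP_8f66f0_al_Q.SpecR
import Pool.Agent.Lib.MP_8f66f0_al_Q.Iso

/-!
# Theorem Q: Proposition X
-/

set_option autoImplicit false

namespace Pool.Agent.QT

open scoped Pointwise
open Pool.Agent.TQ Pool.Agent.Wald Pool.Agent.FH

section Aux

variable {Γ G Q V L : Type} [Group Γ] [Group G] [MulAction Γ Q] [MulAction G V] [Fintype Q]
  [CommRing L] {D : Coc Γ G Q} {T : Tr G V}

omit [MulAction G V] [Fintype Q] in
private theorem PropX_sum {ι : Type} (s : Finset ι) (S : ι → Kr D V L) (y x : Tw D V) :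
    ent (∑ i ∈ s, S i) y x = ∑ i ∈ s, ent (S i) y x := by
  classical
  induction s using Finset.induction_on with
  | empty => rw [Finset.sum_empty, Finset.sum_empty, ent_zero]
  | insert a s ha ih => rw [Finset.sum_insert ha, Finset.sum_insert ha, ent_add, ih]

/-- the part at `inf` -/
private noncomputable def PropX_ev {n' n : Type} (M : Matrix n' n (Kr D V L)) :
    Matrix n' n (MonoidAlgebra L Γ) := M.map fun S => ent S inf inf

omit [Fintype Q] [MulAction G V] in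
private theorem PropX_row {U : Kr D V L} (hU : Jc U) {v : Tw D V} (h : ent U v inf ≠ 0) : v = inf := by
  obtain ⟨g, hg⟩ : ∃ g, cf U g v inf ≠ 0 := by
    by_contra hcon
    push Not at hcon
    exact h (MonoidAlgebra.ext (Finsupp.ext hcon))
  funext q
  have h1 := (hU g v inf hg (g⁻¹ • q)).2 rfl
  rw [smul_inv_smul] at h1
  exact h1

omit [Fintype Q] [MulAction G V] in
private theorem PropX_ev_mul {n'' n' n : Type} [Fintype n'] (S : Matrix n'' n' (Kr D V L))
    (U : Matrix n' n (Kr D V L)) (hU : ∀ i j, Jc (U i j)) :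
    PropX_ev (S * U) = PropX_ev S * PropX_ev U := by
  funext i j
  change ent ((S * U) i j) inf inf = (PropX_ev S * PropX_ev U) i j
  rw [Matrix.mul_apply, Matrix.mul_apply, PropX_sum]
  refine Finset.sum_congr rfl fun k _ => ?_
  rw [ent_mul_col (S i k) (U k j) inf inf {inf} fun v hv => by
    rw [Finset.mem_singleton]; exact PropX_row (hU k j) hv, Finset.sum_singleton]
  rfl

omit [Fintype Q] [MulAction G V] in
private theorem PropX_ev_dg {n : Type} [DecidableEq n] (E : n → Set (Tw D V)) [DecidablePred fun i =>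
    (inf : Tw D V) ∈ E i] :
    PropX_ev (dg E : Matrix n n (Kr D V L)) =
      Matrix.diagonal fun i => if (inf : Tw D V) ∈ E i then 1 else 0 := by
  classical
  funext i j
  change ent (dg E i j) inf inf = _
  rw [dg]
  by_cases h : i = j
  · subst h
    rw [Matrix.diagonal_apply_eq, Matrix.diagonal_apply_eq, ent_ind]
    by_cases h1 : (inf : Tw D V) ∈ E i
    · rw [if_pos ⟨rfl, h1⟩, if_pos h1]
    · rw [if_neg fun h' => h1 h'.2, if_neg h1]
  · rw [Matrix.diagonal_apply_ne _ h, Matrix.diagonal_apply_ne _ h, ent_zero]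

private theorem PropX_lev {x : Tw D V} (h : lev x < 1) : x = inf := by
  funext q
  have h1 : lev x = 0 := by omega
  unfold lev at h1
  rw [Finset.card_eq_zero, Finset.filter_eq_empty_iff] at h1
  have h2 := h1 (Finset.mem_univ q)
  change x q = none
  simpa using h2

private theorem PropX_lev_inf : lev (inf : Tw D V) = 0 := by
  unfold lev
  rw [Finset.card_eq_zero, Finset.filter_eq_empty_iff]
  intro q _
  simp [inf]

private theorem PropX_eqB {n' n : Type} {S U : Matrix n' n (Kr D V L)} (hS : ∀ i j, Jc (S i j))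
    (hU : ∀ i j, Jc (U i j)) (h : PropX_ev S = PropX_ev U) : EqB 1 S U := by
  intro a' a y x hx
  obtain rfl := PropX_lev hx
  by_cases hy : y = inf
  · subst hy
    exact congrFun (congrFun h a') a
  · have h1 : ent (S a' a) y inf = 0 := by
      by_contra hne
      exact hy (PropX_row (hS a' a) hne)
    have h2 : ent (U a' a) y inf = 0 := by
      by_contra hne
      exact hy (PropX_row (hU a' a) hne)
    rw [h1, h2]

private theorem PropX_ev_eqB {n' n : Type} {S U : Matrix n' n (Kr D V L)} (h : EqB 1 S U) :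
    PropX_ev S = PropX_ev U := by
  funext a' a
  exact h a' a inf inf (by rw [PropX_lev_inf]; exact one_pos)

omit [Fintype Q] in
private theorem PropX_RS : RS (NRS T : Set (Tw D V)) := by
  refine ⟨{T.root}, fun x => ?_⟩
  have h : ∀ q, near {T.root} x q = some T.root ↔ x q = some T.root := by
    intro q
    unfold near
    rw [Option.filter_eq_some_iff]
    simp
  constructor
  · intro hx q hq
    exact hx q ((h q).1 hq)
  · intro hx q hq
    exact hx q ((h q).2 hq)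

end Aux

section Main

/-- the structure `OO` is closed under matrix products -/
private theorem PropX_OO {Γ G Q V L : Type} [Group Γ] [Group G] [MulAction Γ Q] [MulAction G V]
    [Fintype Q] [CommRing L] {D : Coc Γ G Q} {T : Tr G V}
    (hoo : ∀ S U : Kr D V L, OO T S → OO T U → OO T (S * U) ∧ OO T (S + U) ∧ OO T (-S))
    (h0 : OO T (0 : Kr D V L)) {n'' n' n : Type} [Fintype n'] (S : Matrix n'' n' (Kr D V L))
    (U : Matrix n' n (Kr D V L)) (hS : ∀ i j, OO T (S i j)) (hU : ∀ i j, OO T (U i j)) (i : n'')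
    (j : n) : OO T ((S * U) i j) := by
  rw [Matrix.mul_apply]
  exact Finset.sum_induction _ (OO T) (fun a b ha hb => (hoo a b ha hb).2.1) h0
    fun k _ => (hoo _ _ (hS i k) (hU k j)).1

/-- the reindexing of the target -/
private def PropX_equiv (n m m' : Type) : n ⊕ (m ⊕ (n ⊕ m')) ≃ ((n ⊕ n) ⊕ m') ⊕ m where
  toFun
    | Sum.inl a => Sum.inl (Sum.inl (Sum.inl a))
    | Sum.inr (Sum.inl c) => Sum.inr c
    | Sum.inr (Sum.inr (Sum.inl a)) => Sum.inl (Sum.inl (Sum.inr a))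
    | Sum.inr (Sum.inr (Sum.inr b)) => Sum.inl (Sum.inr b)
  invFun
    | Sum.inl (Sum.inl (Sum.inl a)) => Sum.inl a
    | Sum.inr c => Sum.inr (Sum.inl c)
    | Sum.inl (Sum.inl (Sum.inr a)) => Sum.inr (Sum.inr (Sum.inl a))
    | Sum.inl (Sum.inr b) => Sum.inr (Sum.inr (Sum.inr b))
  left_inv x := by
    rcases x with a | c | a | b <;> rfl
  right_inv x := by
    rcases x with ((a | a) | b) | c <;> rfl

theorem propX (hrtop : S_rtop) (hrstep : S_rstep) (hxxW : S_xxW) (hOOSS : S_OOSS) : S_PropX := by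
  intro Γ G Q V L _ _ _ _ _ _ _ _ _ D T hP n _ _ x x' hxx' hx'x
  obtain ⟨hoo, -, hind, -, -⟩ := hOOSS Γ G Q V L D T
  have h0 : OO T (0 : Kr D V L) := by
    have := (hind ∅ ⟨∅, fun _ => Iff.rfl⟩).1
    rwa [ind_empty] at this
  have hjc : ∀ {S : Kr D V L}, OO T S → Jc S := fun h => Rk.jc h.reg
  have hNR : RS (NRS T : Set (Tw D V)) := PropX_RS
  have hdg : ∀ {m : Type} [DecidableEq m] (E : m → Set (Tw D V)), (∀ i, RS (E i)) →
      ∀ i j, OO T ((dg E : Matrix m m (Kr D V L)) i j) := by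
    intro m _ E hE i j
    unfold dg
    by_cases h : i = j
    · subst h
      rw [Matrix.diagonal_apply_eq]
      exact (hind _ (hE i)).1
    · rw [Matrix.diagonal_apply_ne _ h]
      exact h0
  -- downward induction
  have hRP : RP Γ G Q V L D T 1 := by
    have key : ∀ j k : ℕ, 1 ≤ k → k + j = Fintype.card Q + 1 → RP Γ G Q V L D T k := by
      intro j
      induction j with
      | zero =>
        intro k _ hk
        exact hrtop Γ G Q V L D T k (by omega)
      | succ j ih =>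
        intro k hk1 hk
        exact hrstep Γ G Q V L D T k hP hk1 (ih (k + 1) (by omega) (by omega))
    exact key (Fintype.card Q) 1 le_rfl (by omega)
  obtain ⟨W, W', hW, hW', hWW', hW'W, hPW, hWP, hPW', hW'P, hWe, hW'e⟩ :=
    hxxW Γ G Q V L D T n x x' hxx' hx'x
  obtain ⟨P, hPdef⟩ : ∃ P : Matrix n n (Kr D V L), P = dg (fun _ => NRS T) := ⟨_, rfl⟩
  have hPP : P * P = P := by rw [hPdef]; exact dg_idem _
  have hP2 : (dg (fun _ => NRS T) : Matrix (n ⊕ n) (n ⊕ n) (Kr D V L)) = Matrix.fromBlocks P 0 0 P := by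
    rw [hPdef, ← dg_sum]
    congr 1
    funext i
    rcases i with i | i <;> rfl
  rw [hP2] at hWW' hW'W hPW hWP hPW' hW'P
  obtain ⟨R, hR⟩ : ∃ R : Matrix (n ⊕ n) n (Kr D V L),
    R = Matrix.fromRows P (0 : Matrix n n (Kr D V L)) := ⟨_, rfl⟩
  obtain ⟨C, hC⟩ : ∃ C : Matrix n (n ⊕ n) (Kr D V L),
    C = Matrix.fromCols P (0 : Matrix n n (Kr D V L)) := ⟨_, rfl⟩
  obtain ⟨P₂, hP₂⟩ : ∃ P₂ : Matrix (n ⊕ n) (n ⊕ n) (Kr D V L), P₂ = Matrix.fromBlocks P 0 0 P :=
    ⟨_, rfl⟩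
  obtain ⟨P₀, hP₀⟩ : ∃ P₀ : Matrix (n ⊕ n) (n ⊕ n) (Kr D V L), P₀ = Matrix.fromBlocks P 0 0 0 :=
    ⟨_, rfl⟩
  rw [← hP₂] at hWW' hW'W hPW hWP hPW' hW'P
  obtain ⟨f, hf⟩ : ∃ f : Matrix (n ⊕ n) n (Kr D V L), f = W * R := ⟨_, rfl⟩
  obtain ⟨f', hf'⟩ : ∃ f' : Matrix n (n ⊕ n) (Kr D V L), f' = C * W' := ⟨_, rfl⟩
  obtain ⟨p, hp⟩ : ∃ p : Matrix (n ⊕ n) (n ⊕ n) (Kr D V L), p = W * P₀ * W' := ⟨_, rfl⟩
  have hr1 : P₂ * R = R := by
    rw [hP₂, hR, Matrix.fromBlocks_mul_fromRows]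
    simp only [hPP, Matrix.mul_zero, Matrix.zero_mul, add_zero]
  have hcr : C * R = P := by
    rw [hC, hR, Matrix.fromCols_mul_fromRows, hPP, Matrix.zero_mul, add_zero]
  have hrc : R * C = P₀ := by
    rw [hC, hR, hP₀, Matrix.fromRows_mul_fromCols]
    simp only [hPP, Matrix.mul_zero, Matrix.zero_mul]
  have hRP' : R * P = R := by
    rw [hR, Matrix.fromRows_mul, hPP, Matrix.zero_mul]
  have hPC : P * C = C := by
    rw [hC, Matrix.mul_fromCols, hPP, Matrix.mul_zero]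
  have iso1 : IsoM P p f f' := by
    have e1 : f' * f = P := by
      rw [hf, hf', Matrix.mul_assoc, ← Matrix.mul_assoc W', hW'W, hr1, hcr]
    have e2 : f * f' = p := by
      rw [hf, hf', hp, Matrix.mul_assoc, ← Matrix.mul_assoc R, hrc, Matrix.mul_assoc]
    have e3 : f * P = f := by
      rw [hf, Matrix.mul_assoc, hRP']
    have e6 : P * f' = f' := by
      rw [hf', ← Matrix.mul_assoc, hPC]
    refine ⟨e1, e2, e3, ?_, ?_, e6⟩
    · rw [← e2, Matrix.mul_assoc, e1, e3]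
    · rw [← e2, ← Matrix.mul_assoc, e1, e6]
  have hfoo : ∀ i j, OO T (f i j) := by
    intro i j
    rw [hf]
    refine PropX_OO hoo h0 _ _ hW ?_ i j
    rw [hR]
    rintro (a | a) b
    · rw [Matrix.fromRows_apply_inl, hPdef]
      exact hdg _ (fun _ => hNR) a b
    · rw [Matrix.fromRows_apply_inr]
      exact h0
  have hf'oo : ∀ i j, OO T (f' i j) := by
    intro i j
    rw [hf']
    refine PropX_OO hoo h0 _ _ ?_ hW' i j
    rw [hC]
    rintro a (b | b)
    · rw [Matrix.fromCols_apply_inl, hPdef]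
      exact hdg _ (fun _ => hNR) a b
    · rw [Matrix.fromCols_apply_inr]
      exact h0
  have hpoo : ∀ i j, OO T (p i j) := by
    intro i j
    rw [← iso1.h2]
    exact PropX_OO hoo h0 _ _ hfoo hf'oo i j
  have hpp : p * p = p := iso1.idem'
  have hPp : (dg (fun _ => NRS T) : Matrix (n ⊕ n) (n ⊕ n) (Kr D V L)) * p = p := by
    rw [hP2, ← hP₂, hp, Matrix.mul_assoc, ← Matrix.mul_assoc P₂, hPW]
  have hpP : p * (dg (fun _ => NRS T) : Matrix (n ⊕ n) (n ⊕ n) (Kr D V L)) = p := by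
    rw [hP2, ← hP₂, hp, Matrix.mul_assoc, hW'P]
  obtain ⟨E, hE⟩ : ∃ E : n ⊕ n → Set (Tw D V), E = Sum.elim (fun _ => NRS T) fun _ => ∅ :=
    ⟨_, rfl⟩
  have hERS : ∀ a, RS (E a) := by
    rw [hE]
    rintro (a | a)
    · exact hNR
    · exact ⟨∅, fun _ => Iff.rfl⟩
  have hENR : ∀ a, E a ⊆ NRS T := by
    rw [hE]
    rintro (a | a)
    · exact subset_rfl
    · exact Set.empty_subset _
  have hinf : (inf : Tw D V) ∈ (NRS T : Set (Tw D V)) := fun q h => by
    exact Option.some_ne_none _ h.symm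
  have hevP : PropX_ev P = 1 := by
    classical
    rw [hPdef, PropX_ev_dg]
    simp only [hinf, if_true]
    exact Matrix.diagonal_one
  have hevP₀ : PropX_ev P₀ = Matrix.fromBlocks 1 0 0 0 := by
    rw [hP₀]
    unfold PropX_ev
    rw [Matrix.fromBlocks_map]
    congr 1
  have hevW : PropX_ev W = Matrix.fromBlocks x 0 0 x' := by
    funext c' c
    exact hWe c' c
  have hevW' : PropX_ev W' = Matrix.fromBlocks x' 0 0 x := by
    funext c' c
    exact hW'e c' c
  have hEqp : EqB 1 p (dg E) := by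
    refine PropX_eqB (fun i j => hjc (hpoo i j)) (fun i j => hjc (hdg E hERS i j)) ?_
    have h1 : (dg E : Matrix (n ⊕ n) (n ⊕ n) (Kr D V L)) = P₀ := by
      rw [hE, dg_sum, hP₀, hPdef]
      congr 1
      unfold dg
      simp only [ind_empty]
      exact Matrix.diagonal_zero
    have hP₀oo : ∀ i j, Jc (P₀ i j) := fun i j => by
      rw [← h1]
      exact hjc (hdg E hERS i j)
    rw [h1, hp, PropX_ev_mul _ _ fun i j => hjc (hW' i j), PropX_ev_mul _ _ hP₀oo, hevP₀, hevW,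
      hevW']
    simp only [Matrix.fromBlocks_multiply, Matrix.mul_zero, Matrix.zero_mul, add_zero,
      Matrix.mul_one, hxx']
  obtain ⟨m, m', _, _, _, _, Pm, E'', X₂, X₂', hPm, hE'', hE1, hE2, hX₂, hX₂', iso2, hX₂e⟩ :=
    hRP (n ⊕ n) p E hpp hpoo hPp hpP hERS hENR hEqp
  have hmem : ∀ b, (inf : Tw D V) ∉ Pm b := fun b hb => by
    have := (hPm b).2.2 _ hb
    rw [PropX_lev_inf] at this
    omega
  have hlev1 : lev (inf : Tw D V) < 1 := by rw [PropX_lev_inf]; exact one_pos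
  obtain ⟨Fm, hFm⟩ : ∃ Fm : Matrix ((n ⊕ n) ⊕ m) (n ⊕ m) (Kr D V L),
    Fm = Matrix.fromBlocks f 0 0 (dg Pm) := ⟨_, rfl⟩
  obtain ⟨Fm', hFm'⟩ : ∃ Fm' : Matrix (n ⊕ m) ((n ⊕ n) ⊕ m) (Kr D V L),
    Fm' = Matrix.fromBlocks f' 0 0 (dg Pm) := ⟨_, rfl⟩
  have iso3 : IsoM (Matrix.fromBlocks P 0 0 (dg Pm)) (Matrix.fromBlocks p 0 0 (dg Pm)) Fm Fm' := by
    rw [hFm, hFm']
    exact iso1.sum (IsoM.refl (dg_idem Pm))
  have hfb : ∀ {a b c d : Type} (M : Matrix a b (Kr D V L)) (N : Matrix c d (Kr D V L)),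
      (∀ i j, OO T (M i j)) → (∀ i j, OO T (N i j)) →
      ∀ i j, OO T (Matrix.fromBlocks M 0 0 N i j) := by
    rintro a b c d M N hM hN (i | i) (j | j)
    · exact hM i j
    · exact h0
    · exact h0
    · exact hN i j
  have hPmoo : ∀ i j, OO T ((dg Pm : Matrix m m (Kr D V L)) i j) := hdg Pm fun b => (hPm b).1
  have hFmoo : ∀ i j, OO T (Fm i j) := by
    rw [hFm]
    exact hfb _ _ hfoo hPmoo
  have hFm'oo : ∀ i j, OO T (Fm' i j) := by
    rw [hFm']
    exact hfb _ _ hf'oo hPmoo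
  obtain ⟨X₃, hX₃⟩ : ∃ X₃ : Matrix ((n ⊕ n) ⊕ m') (n ⊕ m) (Kr D V L), X₃ = X₂ * Fm := ⟨_, rfl⟩
  obtain ⟨X₃', hX₃'⟩ : ∃ X₃' : Matrix (n ⊕ m) ((n ⊕ n) ⊕ m') (Kr D V L), X₃' = Fm' * X₂' :=
    ⟨_, rfl⟩
  have iso4 : IsoM (Matrix.fromBlocks P 0 0 (dg Pm)) (dg E'') X₃ X₃' := by
    rw [hX₃, hX₃']
    exact iso3.comp iso2
  have hX₃oo : ∀ i j, OO T (X₃ i j) := by
    rw [hX₃]
    exact PropX_OO hoo h0 _ _ hX₂ hFmoo
  have hX₃'oo : ∀ i j, OO T (X₃' i j) := by
    rw [hX₃']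
    exact PropX_OO hoo h0 _ _ hFm'oo hX₂'
  -- the level zero part
  have hevf : PropX_ev f = Matrix.fromRows x (0 : Matrix n n (MonoidAlgebra L Γ)) := by
    have hRj : ∀ i j, Jc (R i j) := by
      rw [hR]
      rintro (i | i) j
      · rw [Matrix.fromRows_apply_inl, hPdef]
        exact hjc (hdg _ (fun _ => hNR) i j)
      · rw [Matrix.fromRows_apply_inr]
        exact hjc h0
    have hevR : PropX_ev R = Matrix.fromRows (1 : Matrix n n (MonoidAlgebra L Γ))
        (0 : Matrix n n (MonoidAlgebra L Γ)) := by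
      rw [hR]
      funext i j
      rcases i with i | i
      · exact congrFun (congrFun hevP i) j
      · rfl
    rw [hf, PropX_ev_mul _ _ hRj, hevW, hevR, Matrix.fromBlocks_mul_fromRows]
    simp only [Matrix.mul_zero, Matrix.zero_mul, add_zero, Matrix.mul_one]
  have hevPm : PropX_ev (dg Pm : Matrix m m (Kr D V L)) = 0 := by
    classical
    rw [PropX_ev_dg]
    simp only [hmem, if_false]
    exact Matrix.diagonal_zero
  have hevX₃ : PropX_ev X₃ = Matrix.fromBlocks (Matrix.fromRows x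
      (0 : Matrix n n (MonoidAlgebra L Γ))) 0 0 (0 : Matrix m' m (MonoidAlgebra L Γ)) := by
    have e1 : PropX_ev X₂ = PropX_ev (Matrix.fromBlocks (dg E) 0 0 0) := PropX_ev_eqB hX₂e
    have e2 : PropX_ev (Matrix.fromBlocks (dg E) 0 0 0 :
        Matrix ((n ⊕ n) ⊕ m') ((n ⊕ n) ⊕ m) (Kr D V L)) =
        Matrix.fromBlocks (Matrix.fromBlocks 1 0 0 0) 0 0 0 := by
      have e3 : PropX_ev (dg E : Matrix (n ⊕ n) (n ⊕ n) (Kr D V L)) =
          Matrix.fromBlocks 1 0 0 0 := by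
        rw [hE, dg_sum, ← hevP₀, hP₀, hPdef]
        congr 2
        unfold dg
        simp only [ind_empty]
        exact Matrix.diagonal_zero
      rw [← e3]
      unfold PropX_ev
      rw [Matrix.fromBlocks_map]
      congr 1
    have e4 : PropX_ev Fm = Matrix.fromBlocks (Matrix.fromRows x
        (0 : Matrix n n (MonoidAlgebra L Γ))) 0 0 (0 : Matrix m m (MonoidAlgebra L Γ)) := by
      rw [← hevf, ← hevPm, hFm]
      unfold PropX_ev
      rw [Matrix.fromBlocks_map]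
      congr 1
    rw [hX₃, PropX_ev_mul _ _ fun i j => hjc (hFmoo i j), e1, e2, e4, Matrix.fromBlocks_multiply,
      Matrix.fromBlocks_mul_fromRows]
    simp only [Matrix.mul_zero, Matrix.zero_mul, add_zero, Matrix.one_mul]
  have hy : ∀ i j, PropX_ev X₃' (Sum.inl i) (Sum.inl (Sum.inl j)) = x' i j := by
    obtain ⟨y, hy⟩ : ∃ y : Matrix n n (MonoidAlgebra L Γ),
      y = fun i j => PropX_ev X₃' (Sum.inl i) (Sum.inl (Sum.inl j)) := ⟨_, rfl⟩
    have h1 : y * x = 1 := by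
      have h2 : PropX_ev X₃' * PropX_ev X₃ = PropX_ev (Matrix.fromBlocks P 0 0 (dg Pm)) := by
        rw [← PropX_ev_mul _ _ fun i j => hjc (hX₃oo i j), iso4.h1]
      funext i j
      have h3 := congrFun (congrFun h2 (Sum.inl i)) (Sum.inl j)
      have h4 : PropX_ev (Matrix.fromBlocks P 0 0 (dg Pm) : Matrix (n ⊕ m) (n ⊕ m) (Kr D V L))
          (Sum.inl i) (Sum.inl j) = (1 : Matrix n n (MonoidAlgebra L Γ)) i j :=
        congrFun (congrFun hevP i) j
      rw [h4, hevX₃, Matrix.mul_apply, Fintype.sum_sum_type, Fintype.sum_sum_type] at h3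
      rw [← h3, Matrix.mul_apply, hy]
      have h5 : ∀ k, PropX_ev X₃' (Sum.inl i) (Sum.inl (Sum.inr k)) *
          (Matrix.fromBlocks (Matrix.fromRows x (0 : Matrix n n (MonoidAlgebra L Γ))) 0 0
            (0 : Matrix m' m (MonoidAlgebra L Γ))) (Sum.inl (Sum.inr k)) (Sum.inl j) = 0 :=
        fun k => mul_zero _
      have h6 : ∀ k, PropX_ev X₃' (Sum.inl i) (Sum.inr k) *
          (Matrix.fromBlocks (Matrix.fromRows x (0 : Matrix n n (MonoidAlgebra L Γ))) 0 0
            (0 : Matrix m' m (MonoidAlgebra L Γ))) (Sum.inr k) (Sum.inl j) = 0 :=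
        fun k => mul_zero _
      simp only [h5, h6, Finset.sum_const_zero, add_zero]
      rfl
    have h2 : y = x' := by
      calc y = y * (x * x') := by rw [hxx', Matrix.mul_one]
        _ = x' := by rw [← Matrix.mul_assoc, h1, Matrix.one_mul]
    intro i j
    rw [← h2, hy]
  -- padding
  obtain ⟨a, ha⟩ : ∃ a : n ⊕ (m ⊕ (n ⊕ m')) ≃ (n ⊕ m) ⊕ (n ⊕ m'),
    a = (Equiv.sumAssoc n m (n ⊕ m')).symm := ⟨_, rfl⟩
  obtain ⟨b, hb⟩ : ∃ b : n ⊕ (m ⊕ (n ⊕ m')) ≃ ((n ⊕ n) ⊕ m') ⊕ m, b = PropX_equiv n m m' :=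
    ⟨_, rfl⟩
  have iso5 : IsoM (Matrix.fromBlocks (Matrix.fromBlocks P 0 0 (dg Pm)) 0 0
      (0 : Matrix (n ⊕ m') (n ⊕ m') (Kr D V L)))
      (Matrix.fromBlocks (dg E'') 0 0 (0 : Matrix m m (Kr D V L)))
      (Matrix.fromBlocks X₃ 0 0 0) (Matrix.fromBlocks X₃' 0 0 0) :=
    iso4.sum ⟨Matrix.mul_zero _, Matrix.mul_zero _, Matrix.mul_zero _, Matrix.mul_zero _,
      Matrix.mul_zero _, Matrix.mul_zero _⟩
  have iso6 := iso5.submatrix a b
  have hdg0 : ∀ (k : Type) [DecidableEq k],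
      (dg (fun _ => ∅) : Matrix k k (Kr D V L)) = 0 := by
    intro k _
    unfold dg
    simp only [ind_empty]
    exact Matrix.diagonal_zero
  have hdgre : ∀ {k l : Type} [DecidableEq k] [DecidableEq l] (F : k → Set (Tw D V)) (e : l ≃ k),
      (dg F : Matrix k k (Kr D V L)).submatrix e e = dg (fun i => F (e i)) := by
    intro k l _ _ F e
    unfold dg
    exact Matrix.submatrix_diagonal_equiv _ _
  obtain ⟨Dm, hDm⟩ : ∃ Dm : m ⊕ (n ⊕ m') → Set (Tw D V), Dm = Sum.elim Pm fun _ => ∅ := ⟨_, rfl⟩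
  obtain ⟨E', hE'⟩ : ∃ E' : n ⊕ (m ⊕ (n ⊕ m')) → Set (Tw D V),
    E' = fun c => Sum.elim E'' (fun _ => ∅) (b c) := ⟨_, rfl⟩
  have es : (Matrix.fromBlocks (Matrix.fromBlocks P 0 0 (dg Pm)) 0 0
      (0 : Matrix (n ⊕ m') (n ⊕ m') (Kr D V L))).submatrix a a =
      dg (Sum.elim (fun _ => {z | NR T z}) Dm) := by
    rw [hPdef, ← dg_sum, ← hdg0 (n ⊕ m'), ← dg_sum, hdgre]
    congr 1
    funext c
    rw [ha, hDm]
    rcases c with c | c | c <;> rfl
  have et : (Matrix.fromBlocks (dg E'') 0 0 (0 : Matrix m m (Kr D V L))).submatrix b b =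
      dg E' := by
    rw [← hdg0 m, ← dg_sum, hdgre, hE']
  rw [es, et] at iso6
  refine ⟨m ⊕ (n ⊕ m'), inferInstance, inferInstance, Dm, E',
    (Matrix.fromBlocks X₃ 0 0 0).submatrix b a, (Matrix.fromBlocks X₃' 0 0 0).submatrix a b,
    ?_, ?_, ?_, ?_, ?_, ?_, iso6, ?_, ?_⟩
  · rw [hDm]
    rintro (c | c)
    · refine ⟨(hPm c).1, fun z hz => ⟨(hPm c).2.1 hz, fun h => ?_⟩⟩
      rw [h] at hz
      exact hmem c hz
    · exact ⟨⟨∅, fun _ => Iff.rfl⟩, fun z hz => hz.elim⟩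
  · intro c
    rw [hE']
    change RS (Sum.elim E'' (fun _ => ∅) (b c)) ∧ ∀ z ∈ Sum.elim E'' (fun _ => ∅) (b c), NR T z
    rcases b c with c' | c'
    · exact ⟨(hE'' c').1, fun z hz => (hE'' c').2 hz⟩
    · exact ⟨⟨∅, fun _ => Iff.rfl⟩, fun z hz => hz.elim⟩
  · intro i
    rw [hE', hb]
    change inf ∈ E'' (Sum.inl (Sum.inl i))
    rw [hE1 _ _ hlev1, hE]
    exact hinf
  · intro i
    rw [hE', hb]
    rcases i with i | i | i
    · exact fun h => h.elim
    · change inf ∉ E'' (Sum.inl (Sum.inr i))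
      rw [hE1 _ _ hlev1, hE]
      exact fun h => h.elim
    · change inf ∉ E'' (Sum.inr i)
      intro h
      have := hE2 i _ h
      rw [PropX_lev_inf] at this
      omega
  · intro i j
    exact hfb X₃ 0 hX₃oo (fun _ _ => h0) (b i) (a j)
  · intro i j
    exact hfb X₃' 0 hX₃'oo (fun _ _ => h0) (a i) (b j)
  · intro i j
    rw [ha, hb]
    exact congrFun (congrFun hevX₃ (Sum.inl (Sum.inl i))) (Sum.inl j)
  · intro i j
    rw [ha, hb]
    exact hy i j

end Main

end Pool.Agent.QT
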