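import Pool.Agent.Lib.MP_8f66f0_al_Q.Spec

/-! The regular kernels form a subring. -/

set_option autoImplicit false

namespace Pool.Agent.QT

open scoped Pointwise
open Pool.Agent.TQ

theorem rkMul (h1 : S_Ten) (h2 : S_LrMul) (h3 : S_LrSk) : S_RkMul := by
  intro Γ G Q V R _ _ _ _ _ _ D
  refine ⟨fun S U hS hU => ?_, ?_⟩
  · unfold Rk at hS hU ⊢
    induction hS using AddSubgroup.closure_induction with
    | zero =>
      rw [zero_mul]
      exact zero_mem _
    | add S S' _ _ ih ih' =>
      rw [add_mul]
      exact add_mem ih ih'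
    | neg S _ ih =>
      rw [neg_mul]
      exact neg_mem ih
    | mem S hS =>
      induction hU using AddSubgroup.closure_induction with
      | zero =>
        rw [mul_zero]
        exact zero_mem _
      | add U U' _ _ ih ih' =>
        rw [mul_add]
        exact add_mem ih ih'
      | neg U _ ih =>
        rw [mul_neg]
        exact neg_mem ih
      | mem U hU =>
        obtain ⟨r, g, m, hm, rfl⟩ := hS
        obtain ⟨s, h, n, hn, rfl⟩ := hU
        refine AddSubgroup.subset_closure ⟨r * s, g * h, fun q => m (h • q) * n q, fun q => ?_,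
          h1 Γ G Q V R D r s g h m n⟩
        rw [D.c_mul]
        exact h2 G V R _ _ _ _ (hm _) (hn q)
  · unfold Rk
    refine AddSubgroup.subset_closure ⟨1, 1, fun _ => 1, fun q => ?_, ?_⟩
    · rw [D.c_one]
      exact h3.2.1 G V R
    · classical
      refine ent_ext fun y x => ?_
      have e0 : ent (ten (1 : R) (1 : Γ) (fun _ : Q => (1 : RCF (Option V) R)) : Kr D V R) y x =
          MonoidAlgebra.single 1 (1 * ∏ q : Q, ent (1 : RCF (Option V) R) (y ((1 : Γ) • q)) (x q)) :=
        ent_mkK _ _ _ y x
      rw [e0, ent_one]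
      by_cases h : y = x
      · rw [if_pos h, h]
        have e : (∏ q : Q, ent (1 : RCF (Option V) R) (x ((1 : Γ) • q)) (x q)) = 1 := by
          refine Finset.prod_eq_one fun q _ => ?_
          rw [one_smul, ent_one, if_pos rfl]
        rw [e, mul_one]
        rfl
      · rw [if_neg h]
        obtain ⟨q, hq⟩ := Function.ne_iff.1 h
        have e : (∏ q : Q, ent (1 : RCF (Option V) R) (y ((1 : Γ) • q)) (x q)) = 0 := by
          refine Finset.prod_eq_zero (Finset.mem_univ q) ?_
          rw [one_smul, ent_one, if_neg hq]
        rw [e, mul_zero, MonoidAlgebra.single_zero]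

end Pool.Agent.QT
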