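import Pool.Agent.Lib.MP_8f66f0_al_Q.SpecR
import Pool.Agent.Lib.MP_8f66f0_al_Q.Rk

/-!
# Theorem Q: the step of the exact cut
-/

set_option autoImplicit false

namespace Pool.Agent.QT

open scoped Pointwise
open Pool.Agent.TQ Pool.Agent.Wald Pool.Agent.FH Matrix

section Aux

variable {Γ G Q V L : Type} [Group Γ] [Group G] [MulAction Γ Q] [MulAction G V] [Fintype Q]
  [CommRing L] {D : Coc Γ G Q} {T : Tr G V}

/-- Matrices over `OO`. -/
private def Om (T : Tr G V) {n' n : Type} (M : Matrix n' n (Kr D V L)) : Prop :=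
  ∀ a' a, OO T (M a' a)

private theorem oo_zero : OO T (0 : Kr D V L) := ⟨Rk.zero, fun g y x h => absurd (cf_zero g y x) h⟩

private theorem rs_univ : RS (Set.univ : Set (Tw D V)) :=
  ⟨∅, fun _ => iff_of_true trivial trivial⟩

private theorem rs_empty : RS (∅ : Set (Tw D V)) := ⟨∅, fun _ => iff_of_false id id⟩

private theorem oo_one (hO : S_OOSS) (hI : S_Ind) : OO T (1 : Kr D V L) := by
  rw [← (hI Γ G Q V L D).2.1]
  exact ((hO Γ G Q V L D T).2.2.1 _ rs_univ).1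

/-- The subring `OO`. -/
private def oor (hO : S_OOSS) (hI : S_Ind) (D : Coc Γ G Q) (T : Tr G V) (L : Type) [CommRing L] :
    Subring (Kr D V L) where
  carrier := {S | OO T S}
  mul_mem' := fun {S U} hS hU => ((hO Γ G Q V L D T).1 S U hS hU).1
  one_mem' := oo_one hO hI
  add_mem' := fun {S U} hS hU => ((hO Γ G Q V L D T).1 S U hS hU).2.1
  zero_mem' := oo_zero
  neg_mem' := fun {S} hS => ((hO Γ G Q V L D T).1 S S hS hS).2.2

private theorem Om.mul (hO : S_OOSS) (hI : S_Ind) {n n' n'' : Type} [Fintype n']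
    {S : Matrix n'' n' (Kr D V L)} {U : Matrix n' n (Kr D V L)} (hS : Om T S) (hU : Om T U) :
    Om T (S * U) := by
  intro a b
  rw [Matrix.mul_apply]
  exact (oor hO hI D T L).sum_mem fun j _ => (oor hO hI D T L).mul_mem (hS a j) (hU j b)

private theorem Om.add (hO : S_OOSS) (hI : S_Ind) {n n' : Type}
    {S U : Matrix n' n (Kr D V L)} (hS : Om T S) (hU : Om T U) : Om T (S + U) :=
  fun a b => (oor hO hI D T L).add_mem (hS a b) (hU a b)

private theorem Om.sub (hO : S_OOSS) (hI : S_Ind) {n n' : Type}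
    {S U : Matrix n' n (Kr D V L)} (hS : Om T S) (hU : Om T U) : Om T (S - U) :=
  fun a b => (oor hO hI D T L).sub_mem (hS a b) (hU a b)

private theorem Om.neg (hO : S_OOSS) (hI : S_Ind) {n n' : Type}
    {S : Matrix n' n (Kr D V L)} (hS : Om T S) : Om T (-S) :=
  fun a b => (oor hO hI D T L).neg_mem (hS a b)

private theorem Om.zero {n n' : Type} : Om T (0 : Matrix n' n (Kr D V L)) := fun _ _ => oo_zero

private theorem Om.one (hO : S_OOSS) (hI : S_Ind) {n : Type} [DecidableEq n] :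
    Om T (1 : Matrix n n (Kr D V L)) := by
  intro a b
  rw [Matrix.one_apply]
  split
  · exact oo_one hO hI
  · exact oo_zero

private theorem Om.dg (hO : S_OOSS) {n : Type} [DecidableEq n] {E : n → Set (Tw D V)}
    (hE : ∀ a, RS (E a)) : Om T (QT.dg E : Matrix n n (Kr D V L)) := by
  intro a b
  rw [QT.dg, Matrix.diagonal_apply]
  split
  · exact ((hO Γ G Q V L D T).2.2.1 _ (hE a)).1
  · exact oo_zero

private theorem Om.blocks {n n' m m' : Type} {A : Matrix n' n (Kr D V L)}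
    {B : Matrix n' m (Kr D V L)} {C : Matrix m' n (Kr D V L)} {F : Matrix m' m (Kr D V L)}
    (hA : Om T A) (hB : Om T B) (hC : Om T C) (hF : Om T F) : Om T (fromBlocks A B C F) := by
  rintro (a | a) (b | b)
  · exact hA a b
  · exact hB a b
  · exact hC a b
  · exact hF a b

private theorem Om.rows {n n' m' : Type} {A : Matrix n' n (Kr D V L)}
    {C : Matrix m' n (Kr D V L)} (hA : Om T A) (hC : Om T C) : Om T (fromRows A C) := by
  rintro (a | a) b
  · exact hA a b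
  · exact hC a b

private theorem Om.cols {n n' m : Type} {A : Matrix n' n (Kr D V L)}
    {B : Matrix n' m (Kr D V L)} (hA : Om T A) (hB : Om T B) : Om T (fromCols A B) := by
  rintro a (b | b)
  · exact hA a b
  · exact hB a b

private theorem Om.jc {n n' : Type} {A : Matrix n' n (Kr D V L)} (hA : Om T A) :
    ∀ i j, Jc (A i j) := fun i j => (hA i j).reg.jc

/-! ### Agreement below a level -/

private theorem eqb_refl {n n' : Type} (k : ℕ) (S : Matrix n' n (Kr D V L)) : EqB k S S :=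
  fun _ _ _ _ _ => rfl

private theorem EqB.symm' {n n' : Type} {k : ℕ} {S U : Matrix n' n (Kr D V L)}
    (h : EqB k S U) : EqB k U S := fun a' a y x hx => (h a' a y x hx).symm

private theorem EqB.trans' {n n' : Type} {k : ℕ} {S U W : Matrix n' n (Kr D V L)}
    (h : EqB k S U) (h' : EqB k U W) : EqB k S W :=
  fun a' a y x hx => (h a' a y x hx).trans (h' a' a y x hx)

private theorem EqB.add' {n n' : Type} {k : ℕ} {S U S' U' : Matrix n' n (Kr D V L)}
    (h : EqB k S U) (h' : EqB k S' U') : EqB k (S + S') (U + U') := fun a' a y x hx => by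
  rw [Matrix.add_apply, Matrix.add_apply, ent_add, ent_add, h a' a y x hx, h' a' a y x hx]

private theorem EqB.sub' {n n' : Type} {k : ℕ} {S U S' U' : Matrix n' n (Kr D V L)}
    (h : EqB k S U) (h' : EqB k S' U') : EqB k (S - S') (U - U') := fun a' a y x hx => by
  rw [Matrix.sub_apply, Matrix.sub_apply, ent_sub, ent_sub, h a' a y x hx, h' a' a y x hx]

private theorem EqB.mono' {n n' : Type} {k k' : ℕ} (hk : k ≤ k') {S U : Matrix n' n (Kr D V L)}
    (h : EqB k' S U) : EqB k S U := fun a' a y x hx => h a' a y x (hx.trans_le hk)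

private theorem EqB.blocks' {n n' m m' : Type} {k : ℕ} {A A' : Matrix n' n (Kr D V L)}
    {B B' : Matrix n' m (Kr D V L)} {C C' : Matrix m' n (Kr D V L)}
    {F F' : Matrix m' m (Kr D V L)} (hA : EqB k A A') (hB : EqB k B B') (hC : EqB k C C')
    (hF : EqB k F F') : EqB k (fromBlocks A B C F) (fromBlocks A' B' C' F') := by
  rintro (a | a) (b | b)
  · exact hA a b
  · exact hB a b
  · exact hC a b
  · exact hF a b

private theorem EqB.rows' {n n' m' : Type} {k : ℕ} {A A' : Matrix n' n (Kr D V L)}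
    {C C' : Matrix m' n (Kr D V L)} (hA : EqB k A A') (hC : EqB k C C') :
    EqB k (fromRows A C) (fromRows A' C') := by
  rintro (a | a) b
  · exact hA a b
  · exact hC a b

private theorem EqB.re' {n n' m m' : Type} {k : ℕ} {S U : Matrix n' n (Kr D V L)}
    (h : EqB k S U) (σ' : m' → n') (σ : m → n) : EqB k (S.submatrix σ' σ) (U.submatrix σ' σ) :=
  fun a' a y x hx => h (σ' a') (σ a) y x hx

private theorem EqB.mul' (hL : S_Lev) {n n' n'' : Type} [Fintype n'] {k : ℕ}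
    {S S' : Matrix n'' n' (Kr D V L)} {U U' : Matrix n' n (Kr D V L)} (hS : EqB k S S')
    (hU : EqB k U U') (h : Om T U) (h' : Om T U') : EqB k (S * U) (S' * U') :=
  hL.2 Γ G Q V L D n n' n'' k S S' U U' h.jc h'.jc hS hU

private theorem blk1 {S : Type} [Ring S] {a a' b b' c c' : Type} [Fintype b] [Fintype b']
    (Z : Matrix a b S) (Y : Matrix b c S) (W : Matrix b' c' S) :
    (fromBlocks Z 0 0 0 : Matrix (a ⊕ a') (b ⊕ b') S) * fromBlocks Y 0 0 W =
      fromBlocks (Z * Y) 0 0 0 := by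
  rw [Matrix.fromBlocks_multiply]
  simp only [Matrix.mul_zero, Matrix.zero_mul, add_zero]

private theorem blk2 {S : Type} [Ring S] {a a' b b' c : Type} [Fintype b] [Fintype b']
    (A : Matrix a b S) (B : Matrix a b' S) (C : Matrix a' b S) (F : Matrix a' b' S)
    (Y : Matrix b c S) (Z : Matrix b' c S) :
    fromBlocks A B C F * fromRows Y Z = fromRows (A * Y + B * Z) (C * Y + F * Z) := by
  apply Matrix.ext
  rintro (i | i) j
  · simp [Matrix.mul_apply, Fintype.sum_sum_type]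
  · simp [Matrix.mul_apply, Fintype.sum_sum_type]

/-! ### Diagonal matrices -/

private theorem dg_mul (hI : S_Ind) {n : Type} [Fintype n] [DecidableEq n]
    (E E' : n → Set (Tw D V)) :
    (dg E : Matrix n n (Kr D V L)) * dg E' = dg fun a => E a ∩ E' a := by
  rw [dg, dg, dg, Matrix.diagonal_mul_diagonal]
  congr 1
  funext a
  exact (hI Γ G Q V L D).1 _ _

private theorem dg_idem (hI : S_Ind) {n : Type} [Fintype n] [DecidableEq n]
    (E : n → Set (Tw D V)) : (dg E : Matrix n n (Kr D V L)) * dg E = dg E := by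
  rw [dg_mul hI]
  congr 1
  funext a
  exact Set.inter_self _

private theorem dg_sum {n m : Type} [DecidableEq n] [DecidableEq m]
    (E : n → Set (Tw D V)) (E' : m → Set (Tw D V)) :
    (dg (Sum.elim E E') : Matrix (n ⊕ m) (n ⊕ m) (Kr D V L)) = fromBlocks (dg E) 0 0 (dg E') := by
  rw [dg, dg, dg, Matrix.fromBlocks_diagonal]
  congr 1
  funext a
  cases a <;> rfl

private theorem dg_empty (hI : S_Ind) {n : Type} [DecidableEq n] :
    (dg (fun _ => (∅ : Set (Tw D V))) : Matrix n n (Kr D V L)) = 0 := by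
  rw [dg, (hI Γ G Q V L D).2.2.1, Matrix.diagonal_zero]

private theorem dg_re {n m : Type} [DecidableEq n] [DecidableEq m] (σ : m ≃ n)
    (E : n → Set (Tw D V)) :
    (dg E : Matrix n n (Kr D V L)).submatrix σ σ = dg fun a => E (σ a) := by
  rw [dg, dg, Matrix.submatrix_diagonal_equiv]
  rfl

end Aux

theorem rtop (hI : S_Ind) (hO : S_OOSS) : S_rtop := by
  intro Γ G Q V L _ _ _ _ _ _ D T k hk n _ _ p E hpp hpO hPp hpP hE hEP hpE
  classical
  have hlev : ∀ x : Tw D V, lev x < k := fun x =>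
    (Finset.card_le_univ _).trans_lt hk
  have hp : p = dg E := by
    apply Matrix.ext
    intro a b
    exact ent_ext fun y x => hpE a b y x (hlev x)
  have hEO : Om T (dg E : Matrix n n (Kr D V L)) := Om.dg hO hE
  have h0 : ∀ (M : Matrix Empty Empty (Kr D V L)), M = 0 := fun M => Subsingleton.elim _ _
  have hid : (fromBlocks (dg E) 0 0 0 : Matrix (n ⊕ Empty) (n ⊕ Empty) (Kr D V L)) *
      fromBlocks (dg E) 0 0 0 = fromBlocks (dg E) 0 0 0 := by
    rw [Matrix.fromBlocks_multiply]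
    simp only [Matrix.mul_zero, Matrix.zero_mul, add_zero]
    rw [dg_idem hI]
  refine ⟨Empty, Empty, inferInstance, inferInstance, inferInstance, inferInstance, fun b => b.elim,
    Sum.elim E fun b => b.elim, fromBlocks (dg E) 0 0 0, fromBlocks (dg E) 0 0 0,
    fun b => b.elim, ?_, fun a x _ => Iff.rfl, fun b => b.elim, ?_, ?_, ?_, eqb_refl _ _⟩
  · rintro (a | a)
    · exact ⟨hE a, hEP a⟩
    · exact a.elim
  · exact Om.blocks hEO Om.zero Om.zero Om.zero
  · exact Om.blocks hEO Om.zero Om.zero Om.zero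
  · rw [hp, dg_sum, h0 (dg _)]
    exact ⟨hid, hid, hid, hid, hid, hid⟩

theorem rstep (hab : S_ab) (hww : S_ww) (hc : S_isoConj) (hs : S_isoSum) (hco : S_isoComp)
    (hre : S_isoRe) (hO : S_OOSS) (hI : S_Ind) (hL : S_Lev) : S_rstep := by
  intro Γ G Q V L _ _ _ _ _ _ _ D T k hPSF hk hRP n _ _ p E hpp hpO hPp hpP hE hEP hpE
  classical
  obtain ⟨d₁, d₂, _, _, _, _, P₁, P₂, E₁, α, β, hP1, hP2, hE1, hαO, hβO, hPα, hαP, hPβ, hβP, hβα,
    hαβ, hαp, hα, hβ⟩ := hab Γ G Q V L D T k hPSF hk n p E hpp hpO hPp hpP hE hEP hpE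
  have hpO' : Om T p := hpO
  have hαO' : Om T α := hαO
  have hβO' : Om T β := hβO
  -- the idempotent of the source
  let p1 : Matrix (n ⊕ d₁) (n ⊕ d₁) (Kr D V L) := fromBlocks p 0 0 (dg P₁)
  have hp1O : Om T p1 := Om.blocks hpO' Om.zero Om.zero (Om.dg hO fun b => (hP1 b).1)
  have hp1 : p1 * p1 = p1 := by
    simp only [p1, Matrix.fromBlocks_multiply, Matrix.mul_zero, Matrix.zero_mul, add_zero,
      zero_add, hpp, dg_idem hI]
  -- the projection to `NRS`
  let π : (m : Type) → [Fintype m] → [DecidableEq m] → Matrix m m (Kr D V L) :=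
    fun m _ _ => dg (fun _ => NRS T)
  have hπs : ∀ (m m' : Type) [Fintype m] [DecidableEq m] [Fintype m'] [DecidableEq m'],
      π (m ⊕ m') = fromBlocks (π m) 0 0 (π m') := by
    intro m m' _ _ _ _
    rw [← dg_sum]
    change dg _ = dg _
    congr 1
    funext a
    cases a <;> rfl
  have hπd : ∀ (m : Type) [Fintype m] [DecidableEq m] (F : m → Set (Tw D V)),
      (∀ b, F b ⊆ NRS T) → π m * dg F = dg F ∧ dg F * π m = dg F := by
    intro m _ _ F hF
    refine ⟨?_, ?_⟩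
    · change dg _ * dg _ = _
      rw [dg_mul hI]
      congr 1
      funext a
      exact Set.inter_eq_right.2 (hF a)
    · change dg _ * dg _ = _
      rw [dg_mul hI]
      congr 1
      funext a
      exact Set.inter_eq_left.2 (hF a)
  have hπp1 : π (n ⊕ d₁) * p1 = p1 := by
    rw [hπs, Matrix.fromBlocks_multiply]
    simp only [Matrix.mul_zero, Matrix.zero_mul, add_zero, zero_add]
    rw [(hπd d₁ P₁ fun b => (hP1 b).2.1).1]
    change fromBlocks (dg (fun _ => NRS T) * p) 0 0 _ = _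
    rw [hPp]
  have hp1π : p1 * π (n ⊕ d₁) = p1 := by
    rw [hπs, Matrix.fromBlocks_multiply]
    simp only [Matrix.mul_zero, Matrix.zero_mul, add_zero, zero_add]
    rw [(hπd d₁ P₁ fun b => (hP1 b).2.1).2]
    change fromBlocks (p * dg (fun _ => NRS T)) 0 0 _ = _
    rw [hpP]
  change π (n ⊕ d₂) * α = α at hPα
  change α * π (n ⊕ d₁) = α at hαP
  change π (n ⊕ d₁) * β = β at hPβ
  change β * π (n ⊕ d₂) = β at hβP
  -- the invertible matrix
  let w : Matrix ((n ⊕ d₂) ⊕ (n ⊕ d₁)) ((n ⊕ d₂) ⊕ (n ⊕ d₁)) (Kr D V L) :=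
    fromBlocks (1 - α * β) (α + α - α * β * α) (-β) (1 - β * α)
  let w' : Matrix ((n ⊕ d₂) ⊕ (n ⊕ d₁)) ((n ⊕ d₂) ⊕ (n ⊕ d₁)) (Kr D V L) :=
    fromBlocks (1 - α * β) (α * β * α - α - α) β (1 - β * α)
  obtain ⟨hw1, hw2⟩ := hww (Kr D V L) (n ⊕ d₂) (n ⊕ d₁) α β
  change w * w' = 1 at hw1
  change w' * w = 1 at hw2
  have hαβO : Om T (α * β) := hαO'.mul hO hI hβO'
  have hβαO : Om T (β * α) := hβO'.mul hO hI hαO'
  have hwO : Om T w := Om.blocks (Om.sub hO hI (Om.one hO hI) hαβO)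
    (Om.sub hO hI (Om.add hO hI hαO' hαO') (hαβO.mul hO hI hαO')) (Om.neg hO hI hβO')
    (Om.sub hO hI (Om.one hO hI) hβαO)
  have hwO' : Om T w' := Om.blocks (Om.sub hO hI (Om.one hO hI) hαβO)
    (Om.sub hO hI (Om.sub hO hI (hαβO.mul hO hI hαO') hαO') hαO') hβO'
    (Om.sub hO hI (Om.one hO hI) hβαO)
  have e1 : π (n ⊕ d₂) * (α * β) = α * β := by rw [← Matrix.mul_assoc, hPα]
  have e2 : α * β * π (n ⊕ d₂) = α * β := by rw [Matrix.mul_assoc, hβP]
  have e3 : π (n ⊕ d₂) * (α * β * α) = α * β * α := by rw [← Matrix.mul_assoc, e1]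
  have e4 : α * β * α * π (n ⊕ d₁) = α * β * α := by rw [Matrix.mul_assoc, hαP]
  have e5 : π (n ⊕ d₁) * (β * α) = β * α := by rw [← Matrix.mul_assoc, hPβ]
  have e6 : β * α * π (n ⊕ d₁) = β * α := by rw [Matrix.mul_assoc, hαP]
  have hπw : π ((n ⊕ d₂) ⊕ (n ⊕ d₁)) * w = w * π ((n ⊕ d₂) ⊕ (n ⊕ d₁)) := by
    rw [hπs, Matrix.fromBlocks_multiply, Matrix.fromBlocks_multiply]
    simp only [Matrix.mul_zero, Matrix.zero_mul, add_zero, zero_add, Matrix.mul_sub,
      Matrix.sub_mul, Matrix.mul_add, Matrix.add_mul, Matrix.mul_one, Matrix.one_mul,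
      Matrix.mul_neg, Matrix.neg_mul, e1, e2, e3, e4, e5, e6, hPα, hαP, hPβ, hβP, neg_zero,
      sub_zero]
  have hπw' : π ((n ⊕ d₂) ⊕ (n ⊕ d₁)) * w' = w' * π ((n ⊕ d₂) ⊕ (n ⊕ d₁)) := by
    rw [hπs, Matrix.fromBlocks_multiply, Matrix.fromBlocks_multiply]
    simp only [Matrix.mul_zero, Matrix.zero_mul, add_zero, zero_add, Matrix.mul_sub,
      Matrix.sub_mul, Matrix.mul_add, Matrix.add_mul, Matrix.mul_one, Matrix.one_mul,
      Matrix.mul_neg, Matrix.neg_mul, e1, e2, e3, e4, e5, e6, hPα, hαP, hPβ, hβP, neg_zero,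
      sub_zero]
  -- the idempotent of the target
  let e0 : Matrix ((n ⊕ d₂) ⊕ (n ⊕ d₁)) ((n ⊕ d₂) ⊕ (n ⊕ d₁)) (Kr D V L) := fromBlocks 0 0 0 p1
  have he0 : e0 * e0 = e0 := by
    simp only [e0, Matrix.fromBlocks_multiply, Matrix.mul_zero, Matrix.zero_mul, add_zero,
      zero_add, hp1]
  have he0O : Om T e0 := Om.blocks Om.zero Om.zero Om.zero hp1O
  have hπe0 : π ((n ⊕ d₂) ⊕ (n ⊕ d₁)) * e0 = e0 := by
    rw [hπs]
    simp only [e0, Matrix.fromBlocks_multiply, Matrix.mul_zero, Matrix.zero_mul, add_zero,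
      zero_add, hπp1]
  have he0π : e0 * π ((n ⊕ d₂) ⊕ (n ⊕ d₁)) = e0 := by
    rw [hπs]
    simp only [e0, Matrix.fromBlocks_multiply, Matrix.mul_zero, Matrix.zero_mul, add_zero,
      zero_add, hp1π]
  let p2 : Matrix ((n ⊕ d₂) ⊕ (n ⊕ d₁)) ((n ⊕ d₂) ⊕ (n ⊕ d₁)) (Kr D V L) := w * e0 * w'
  have hp2O : Om T p2 := (hwO.mul hO hI he0O).mul hO hI hwO'
  have hp2 : p2 * p2 = p2 := by
    change w * e0 * w' * (w * e0 * w') = w * e0 * w'
    calc w * e0 * w' * (w * e0 * w') = w * (e0 * (w' * w) * e0) * w' := by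
          simp only [Matrix.mul_assoc]
      _ = w * e0 * w' := by rw [hw2, Matrix.mul_one, he0]
  have hπp2 : π ((n ⊕ d₂) ⊕ (n ⊕ d₁)) * p2 = p2 := by
    change π ((n ⊕ d₂) ⊕ (n ⊕ d₁)) * (w * e0 * w') = w * e0 * w'
    rw [Matrix.mul_assoc w, ← Matrix.mul_assoc, hπw, Matrix.mul_assoc w,
      ← Matrix.mul_assoc (π ((n ⊕ d₂) ⊕ (n ⊕ d₁))), hπe0]
  have hp2π : p2 * π ((n ⊕ d₂) ⊕ (n ⊕ d₁)) = p2 := by
    change w * e0 * w' * π ((n ⊕ d₂) ⊕ (n ⊕ d₁)) = w * e0 * w'
    rw [Matrix.mul_assoc, ← hπw', ← Matrix.mul_assoc, Matrix.mul_assoc w, he0π]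
  -- below level `k + 1`
  have hβα' : EqB (k + 1) (β * α) p1 := hβα
  have hαp' : EqB (k + 1) (α * p1) α := hαp
  have hαp1O : Om T (α * p1) := hαO'.mul hO hI hp1O
  have c0 : EqB (k + 1) (α * β * α) α := by
    rw [Matrix.mul_assoc]
    exact ((eqb_refl _ α).mul' hL hβα' hβαO hp1O).trans' hαp'
  have c1 : EqB (k + 1) ((1 - β * α) * p1) 0 := by
    have h1 : EqB (k + 1) ((1 - β * α) * p1) ((1 - p1) * p1) :=
      ((eqb_refl _ 1).sub' hβα').mul' hL (eqb_refl _ p1) hp1O hp1O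
    rwa [Matrix.sub_mul 1 p1, Matrix.one_mul, hp1, sub_self] at h1
  have c2 : EqB (k + 1) ((α + α - α * β * α) * p1) α := by
    have h1 : (α + α - α * β * α) * p1 = α * p1 + α * p1 - α * β * (α * p1) := by
      rw [Matrix.sub_mul, Matrix.add_mul, Matrix.mul_assoc (α * β)]
    have h2 : EqB (k + 1) (α * β * (α * p1)) (α * β * α) :=
      (eqb_refl _ (α * β)).mul' hL hαp' hαp1O hαO'
    have h3 := (hαp'.add' hαp').sub' (h2.trans' c0)
    rwa [add_sub_cancel_right, ← h1] at h3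
  have c3 : EqB (k + 1) (α * (1 - β * α)) 0 := by
    have h1 : α * (1 - β * α) = α - α * β * α := by
      rw [Matrix.mul_sub, Matrix.mul_one, Matrix.mul_assoc]
    have h2 := (eqb_refl (k + 1) α).sub' c0
    rwa [sub_self, ← h1] at h2
  let Y : Matrix ((n ⊕ d₂) ⊕ (n ⊕ d₁)) (n ⊕ d₁) (Kr D V L) := w * fromRows 0 p1
  let Y' : Matrix (n ⊕ d₁) ((n ⊕ d₂) ⊕ (n ⊕ d₁)) (Kr D V L) := fromCols 0 p1 * w'
  have hYe : EqB (k + 1) Y (fromRows α 0) := by
    have h1 : Y = fromRows ((α + α - α * β * α) * p1) ((1 - β * α) * p1) := by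
      refine (blk2 (1 - α * β) (α + α - α * β * α) (-β) (1 - β * α) 0 p1).trans ?_
      rw [Matrix.mul_zero, Matrix.mul_zero, zero_add, zero_add]
    rw [h1]
    exact c2.rows' c1
  have hYO : Om T Y := hwO.mul hO hI (Om.rows Om.zero hp1O)
  have hYO' : Om T Y' := (Om.cols Om.zero hp1O).mul hO hI hwO'
  have hp2e : EqB (k + 1) p2 (dg (Sum.elim (Sum.elim E₁ P₂) fun _ => ∅)) := by
    have h1 : w * e0 = fromBlocks 0 ((α + α - α * β * α) * p1) 0 ((1 - β * α) * p1) := by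
      change fromBlocks _ _ _ _ * fromBlocks _ _ _ _ = _
      rw [Matrix.fromBlocks_multiply]
      simp only [Matrix.mul_zero, Matrix.zero_mul, add_zero, zero_add]
    have h2 : EqB (k + 1) (w * e0) (fromBlocks 0 α 0 0) := by
      rw [h1]
      exact (eqb_refl _ _).blocks' c2 (eqb_refl _ _) c1
    have h3 : EqB (k + 1) p2 (fromBlocks 0 α 0 0 * w') := h2.mul' hL (eqb_refl _ _) hwO' hwO'
    have h4 : (fromBlocks 0 α 0 0 : Matrix ((n ⊕ d₂) ⊕ (n ⊕ d₁)) ((n ⊕ d₂) ⊕ (n ⊕ d₁))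
        (Kr D V L)) * w' = fromBlocks (α * β) (α * (1 - β * α)) 0 0 := by
      change fromBlocks _ _ _ _ * fromBlocks _ _ _ _ = _
      rw [Matrix.fromBlocks_multiply]
      simp only [Matrix.mul_zero, Matrix.zero_mul, add_zero, zero_add]
    rw [h4] at h3
    refine h3.trans' ?_
    rw [dg_sum, dg_empty hI]
    exact EqB.blocks' hαβ c3 (eqb_refl _ _) (eqb_refl _ _)
  obtain ⟨m, m', _, _, _, _, PP, E3, X2, X2', hPP, hE3, hE3l, hE3r, hX2O, hX2O', hX2, hX2e⟩ :=
    hRP ((n ⊕ d₂) ⊕ (n ⊕ d₁)) p2 (Sum.elim (Sum.elim E₁ P₂) fun _ => ∅) hp2 hp2O hπp2 hp2π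
      (by
        rintro ((a | a) | a)
        · exact (hE1 a).1
        · exact (hP2 a).1
        · exact rs_empty)
      (by
        rintro ((a | a) | a)
        · exact (hE1 a).2.1
        · exact (hP2 a).2.1
        · exact Set.empty_subset _) hp2e
  have hX2O1 : Om T X2 := hX2O
  have hX2O2 : Om T X2' := hX2O'
  have hPPO : Om T (dg PP : Matrix m m (Kr D V L)) := Om.dg hO fun b => (hPP b).1
  have hY : IsoM p1 p2 Y Y' := hc (Kr D V L) (n ⊕ d₁) (n ⊕ d₂) p1 w w' hp1 hw1 hw2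
  have hid : IsoM (dg PP : Matrix m m (Kr D V L)) (dg PP) (dg PP) (dg PP) := by
    have h1 := dg_idem (L := L) hI PP
    exact ⟨h1, h1, h1, h1, h1, h1⟩
  have hsum := hs (Kr D V L) _ _ _ _ p1 p2 Y Y' (dg PP) (dg PP) (dg PP) (dg PP) hY hid
  have hcomp := hco (Kr D V L) _ _ _ _ _ _ _ _ _ _ hsum hX2
  let σ : n ⊕ (d₁ ⊕ m) ≃ (n ⊕ d₁) ⊕ m := (Equiv.sumAssoc n d₁ m).symm
  let σ' : n ⊕ (d₂ ⊕ ((n ⊕ d₁) ⊕ m')) ≃ ((n ⊕ d₂) ⊕ (n ⊕ d₁)) ⊕ m' :=
    (Equiv.sumAssoc n d₂ ((n ⊕ d₁) ⊕ m')).symm.trans (Equiv.sumAssoc (n ⊕ d₂) (n ⊕ d₁) m').symm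
  have hfin := hre (Kr D V L) _ _ _ _ _ _ _ _ σ σ' hcomp
  have hsrc : (fromBlocks p1 0 0 (dg PP)).submatrix σ σ =
      fromBlocks p 0 0 (dg (Sum.elim P₁ PP)) := by
    rw [dg_sum]
    apply Matrix.ext
    rintro (a | (a | a)) (b | (b | b)) <;> rfl
  have htgt : (dg E3 : Matrix _ _ (Kr D V L)).submatrix σ' σ' = dg fun c => E3 (σ' c) :=
    dg_re σ' E3
  rw [hsrc, htgt] at hfin
  refine ⟨d₁ ⊕ m, d₂ ⊕ ((n ⊕ d₁) ⊕ m'), inferInstance, inferInstance, inferInstance,
    inferInstance, Sum.elim P₁ PP, fun c => E3 (σ' c), _, _, ?_, fun c => hE3 (σ' c), ?_, ?_, ?_,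
    ?_, hfin, ?_⟩
  · rintro (b | b)
    · exact hP1 b
    · exact ⟨(hPP b).1, (hPP b).2.1, fun x hx => (Nat.le_succ k).trans ((hPP b).2.2 x hx)⟩
  · intro a x hx
    exact (hE3l (Sum.inl (Sum.inl a)) x (hx.trans (Nat.lt_succ_self k))).trans
      ((hE1 a).2.2 x hx)
  · rintro (b | (b | b)) x hx
    · by_contra hlt
      push Not at hlt
      have h1 := (hE3l (Sum.inl (Sum.inr b)) x (hlt.trans (Nat.lt_succ_self k))).1 hx
      exact absurd ((hP2 b).2.2 x h1) (not_le.2 hlt)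
    · by_contra hlt
      push Not at hlt
      exact (hE3l (Sum.inr b) x (hlt.trans (Nat.lt_succ_self k))).1 hx
    · exact (Nat.le_succ k).trans (hE3r b x hx)
  · intro c' c
    exact (hX2O1.mul hO hI (Om.blocks hYO Om.zero Om.zero hPPO)) (σ' c') (σ c)
  · intro c c'
    exact ((Om.blocks hYO' Om.zero Om.zero hPPO).mul hO hI hX2O2) (σ c) (σ' c')
  · have hEO : Om T (dg E : Matrix n n (Kr D V L)) := Om.dg hO hE
    have hE1O : Om T (dg E₁ : Matrix n n (Kr D V L)) := Om.dg hO fun a => (hE1 a).1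
    have hE1e : EqB k (dg E₁ : Matrix n n (Kr D V L)) (dg E) := by
      intro a' a y x hx
      rw [dg, dg, Matrix.diagonal_apply, Matrix.diagonal_apply]
      split
      · rename_i h
        subst h
        have h1 := (hE1 a').2.2 x hx
        have hi := (hI Γ G Q V L D).2.2.2
        by_cases hxE : x ∈ E a'
        · have h2 := (hi (E₁ a') 1 y x).1 (h1.2 hxE)
          have h3 := (hi (E a') 1 y x).1 hxE
          rw [one_mul] at h2 h3
          rw [h2, h3]
        · have h2 := (hi (E₁ a') 1 y x).2.1 (fun h => hxE (h1.1 h))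
          have h3 := (hi (E a') 1 y x).2.1 hxE
          rw [one_mul] at h2 h3
          rw [h2, h3]
      · rfl
    have h1 : EqB k Y (fromRows (fromBlocks (dg E) 0 0 0) 0) :=
      (hYe.mono' (Nat.le_succ k)).trans' (hα.rows' (eqb_refl _ _))
    have h2 : EqB k (X2 * fromBlocks Y 0 0 (dg PP))
        (fromBlocks (dg (Sum.elim (Sum.elim E₁ P₂) fun _ => ∅) *
          fromRows (fromBlocks (dg E) 0 0 0) 0) 0 0 0) := by
      have h := (hX2e.mono' (Nat.le_succ k)).mul' hL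
        (h1.blocks' (eqb_refl k (0 : Matrix _ m (Kr D V L))) (eqb_refl k 0)
          (eqb_refl k (dg PP : Matrix m m (Kr D V L))))
        (Om.blocks hYO Om.zero Om.zero hPPO)
        (Om.blocks (Om.rows (Om.blocks hEO Om.zero Om.zero Om.zero) Om.zero) Om.zero Om.zero hPPO)
      rw [blk1] at h
      exact h
    have h3 : (dg (Sum.elim (Sum.elim E₁ P₂) fun _ => ∅) : Matrix ((n ⊕ d₂) ⊕ (n ⊕ d₁))
        ((n ⊕ d₂) ⊕ (n ⊕ d₁)) (Kr D V L)) * fromRows (fromBlocks (dg E) 0 0 0) 0 =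
        fromRows (fromBlocks (dg E₁ * dg E) 0 0 0 : Matrix (n ⊕ d₂) (n ⊕ d₁) (Kr D V L)) 0 := by
      rw [dg_sum, dg_sum, dg_empty hI]
      refine (blk2 _ _ _ _ _ _).trans ?_
      rw [Matrix.fromBlocks_multiply]
      simp only [Matrix.mul_zero, Matrix.zero_mul, add_zero]
    rw [h3] at h2
    have h4 : EqB k (dg E₁ * dg E : Matrix n n (Kr D V L)) (dg E) := by
      have h5 := hE1e.mul' hL (eqb_refl k (dg E : Matrix n n (Kr D V L))) hEO hEO
      rwa [dg_idem hI] at h5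
    refine (h2.re' σ' σ).trans' ?_
    rintro (a | (a | (a | a))) (b | (b | b)) <;> first | exact h4 a b | exact fun _ _ _ => rfl

end Pool.Agent.QT
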