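import Pool.Agent.Lib.MP_8f66f0_al_Q.XxWw
import Pool.Agent.Lib.MP_8f66f0_al_Q.Plc
import Pool.Agent.Lib.MP_8f66f0_al_Q.OOSS
import Pool.Agent.Lib.MP_8f66f0_al_Q.Iso

/-!
# Theorem Q: the invertible matrix with the level zero part `diag(x, x')`
-/

set_option autoImplicit false

namespace Pool.Agent.QT

open scoped Pointwise
open Pool.Agent.TQ Pool.Agent.Wald Pool.Agent.FH

section Oo

variable {Γ G Q V L : Type} [Group Γ] [Group G] [MulAction Γ Q] [MulAction G V] [Fintype Q]
  [CommRing L] {D : Coc Γ G Q} {T : Tr G V}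

private theorem oo_zero : OO T (0 : Kr D V L) := ⟨Rk.zero, fun g y x h => absurd (cf_zero g y x) h⟩

private theorem oo_sub {S U : Kr D V L} (hS : OO T S) (hU : OO T U) : OO T (S - U) := by
  rw [sub_eq_add_neg]
  exact hS.add hU.neg

private theorem oo_sum {ι : Type} {s : Finset ι} {S : ι → Kr D V L} (h : ∀ i ∈ s, OO T (S i)) :
    OO T (∑ i ∈ s, S i) := by
  classical
  induction s using Finset.induction_on with
  | empty => rw [Finset.sum_empty]; exact oo_zero
  | insert a s ha ih =>
    rw [Finset.sum_insert ha]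
    exact (h a (Finset.mem_insert_self _ _)).add (ih fun i hi => h i (Finset.mem_insert_of_mem hi))

private theorem oo_mul {n n' n'' : Type} [Fintype n'] {M : Matrix n'' n' (Kr D V L)}
    {N : Matrix n' n (Kr D V L)} (hM : ∀ i j, OO T (M i j)) (hN : ∀ i j, OO T (N i j)) :
    ∀ i j, OO T ((M * N) i j) := fun i j => by
  rw [Matrix.mul_apply]
  exact oo_sum fun v _ => (hM i v).mul (hN v j)

omit [Fintype Q] in
private theorem rs_nrs : RS (NRS T : Set (Tw D V)) := by
  classical
  refine ⟨{T.root}, fun x => ?_⟩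
  have h : ∀ q, near {T.root} x q = some T.root ↔ x q = some T.root := by
    intro q
    rw [near]
    cases hx : x q with
    | none => simp
    | some v =>
      by_cases hv : v = T.root
      · subst hv
        simp [Option.filter]
      · simp [Option.filter, hv]
  exact forall_congr' fun q => not_congr (h q).symm

private theorem oo_ind {E : Set (Tw D V)} (hE : RS E) : OO T (ind E : Kr D V L) := by
  refine ⟨Rk.ind hE, fun g y x h => ?_⟩
  obtain ⟨rfl, rfl⟩ := cf_ind_ne h
  rw [one_smul, one_smul]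
  exact ⟨rfl, rfl⟩

private theorem oo_dg {n : Type} [DecidableEq n] {E : n → Set (Tw D V)} (hE : ∀ i, RS (E i)) :
    ∀ i j, OO T ((dg E : Matrix n n (Kr D V L)) i j) := fun i j => by
  rw [dg, Matrix.diagonal_apply]
  split
  · exact oo_ind (hE i)
  · exact oo_zero

/-- The part at infinity. -/
private noncomputable def e0 {n n' : Type} (M : Matrix n' n (Kr D V L)) :
    Matrix n' n (MonoidAlgebra L Γ) := fun i j => ent (M i j) inf inf

omit [MulAction G V] [Fintype Q] in
private theorem eq_inf {S : Kr D V L} (hS : Jc S) {v : Tw D V} (h : ent S v inf ≠ 0) : v = inf := by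
  obtain ⟨g, hg⟩ : ∃ g, cf S g v inf ≠ 0 := by
    by_contra hcon
    push Not at hcon
    exact h (MonoidAlgebra.ext (Finsupp.ext fun g => hcon g))
  funext q
  have h1 := (hS g v inf hg (g⁻¹ • q)).2 rfl
  rw [smul_inv_smul] at h1
  exact h1

private theorem e0_mul {n n' n'' : Type} [Fintype n'] (M : Matrix n'' n' (Kr D V L))
    {N : Matrix n' n (Kr D V L)} (hN : ∀ i j, OO T (N i j)) : e0 (M * N) = e0 M * e0 N := by
  classical
  refine Matrix.ext fun i j => ?_
  rw [e0, Matrix.mul_apply, Matrix.mul_apply, ent_sum]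
  refine Finset.sum_congr rfl fun v _ => ?_
  rw [ent_mul_col _ _ _ _ {inf} fun z hz => by
    rw [Finset.mem_singleton]
    exact eq_inf (hN v j).reg.jc hz, Finset.sum_singleton]
  rfl

omit [Fintype Q] in
private theorem e0_dg {n : Type} [DecidableEq n] :
    e0 (dg (fun _ => NRS T) : Matrix n n (Kr D V L)) = 1 := by
  classical
  refine Matrix.ext fun i j => ?_
  rw [e0, dg, Matrix.diagonal_apply, Matrix.one_apply]
  split
  · rw [ent_ind, if_pos]
    exact ⟨rfl, fun q h => Option.some_ne_none _ h.symm⟩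
  · rw [ent_zero]

omit [MulAction G V] [Fintype Q] in
private theorem dg_mul_self {n n' : Type} [Fintype n] [DecidableEq n] {E : Set (Tw D V)}
    {M : Matrix n n' (Kr D V L)} (h : ∀ i j, ind E * M i j = M i j) :
    (dg (fun _ => E) : Matrix n n (Kr D V L)) * M = M := by
  refine Matrix.ext fun i j => ?_
  rw [dg, Matrix.diagonal_mul]
  exact h i j

omit [MulAction G V] [Fintype Q] in
private theorem mul_dg_self {n n' : Type} [Fintype n] [DecidableEq n] {E : Set (Tw D V)}
    {M : Matrix n' n (Kr D V L)} (h : ∀ i j, M i j * ind E = M i j) :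
    M * (dg (fun _ => E) : Matrix n n (Kr D V L)) = M := by
  refine Matrix.ext fun i j => ?_
  rw [dg, Matrix.mul_diagonal]
  exact h i j

end Oo

theorem xxW (hFl : S_Fl) : S_xxW := by
  classical
  intro Γ G Q V L _ _ _ _ _ _ D T n _ _ x x' h1 h2
  have hinf : NR T (inf : Tw D V) := fun q h => Option.some_ne_none _ h.symm
  have hnear : near {T.root} (inf : Tw D V) = inf := rfl
  have hlev : lev (inf : Tw D V) = 0 := by
    rw [lev, Finset.card_eq_zero, Finset.filter_eq_empty_iff]
    intro q _ h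
    exact absurd h (by simp [inf])
  have hsk : ∀ (a : MonoidAlgebra L Γ) g y z, cf (sk inf inf a : Kr D V L) g y z ≠ 0 →
      y = inf ∧ z = inf := by
    intro a g y z h
    by_contra h'
    refine h ?_
    rw [cf, ent_sk_ne h']
    rfl
  have hgi : ∀ g : Γ, (inf : Tw D V) = g • inf := fun g => by
    rw [tw_eq_iff]
    intro q
    rfl
  have hF : ∀ a : MonoidAlgebra L Γ, ∃ F : Kr D V L, OO T F ∧ ent F inf inf = a ∧
      ind (NRS T) * F = F ∧ F * ind (NRS T) = F := by
    intro a
    have hJ : Jc (sk inf inf a : Kr D V L) := by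
      intro g y z h q
      obtain ⟨rfl, rfl⟩ := hsk a g y z h
      exact ⟨fun _ => rfl, fun _ => rfl⟩
    obtain ⟨F, f1, f2, f3, f4, f5⟩ := hFl Γ G Q V L D T {T.root} 0 (sk inf inf a) hJ
    have f6 := flN Γ G Q V L D T {T.root} 0 (sk inf inf a) F hJ (Finset.mem_singleton_self _)
      (fun g y z h => by
        obtain ⟨rfl, rfl⟩ := hsk a g y z h
        exact ⟨hinf, hinf⟩) f1
    refine ⟨F, f5 fun g y z _ _ _ h => ?_, ?_, f6.2.1, f6.2.2⟩
    · obtain ⟨rfl, rfl⟩ := hsk a g y z h
      have hp : pr T (inf : Tw D V) = (inf : Tw D V) := rfl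
      rw [hp]
      exact ⟨hgi g, hgi g⟩
    · rw [(f4 inf inf hlev).1 ⟨hnear, hnear⟩, ent_sk_eq]
  choose F hF1 hF2 hF3 hF4 using hF
  let e : Matrix n n (Kr D V L) := dg fun _ => NRS T
  let X : Matrix n n (Kr D V L) := fun i j => F (x i j)
  let Y : Matrix n n (Kr D V L) := fun i j => F (x' i j)
  have oe : ∀ i j, OO T (e i j) := oo_dg fun _ => rs_nrs
  have oX : ∀ i j, OO T (X i j) := fun i j => hF1 _
  have oY : ∀ i j, OO T (Y i j) := fun i j => hF1 _
  have ee : e * e = e := dg_idem _
  have l1 : ∀ M : Matrix n n (Kr D V L), (∀ i j, ind (NRS T) * M i j = M i j) → e * M = M :=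
    fun M hM => dg_mul_self hM
  have l2 : ∀ M : Matrix n n (Kr D V L), (∀ i j, M i j * ind (NRS T) = M i j) → M * e = M :=
    fun M hM => mul_dg_self hM
  have eX : e * X = X := l1 X fun i j => hF3 _
  have Xe : X * e = X := l2 X fun i j => hF4 _
  have eY : e * Y = Y := l1 Y fun i j => hF3 _
  have Ye : Y * e = Y := l2 Y fun i j => hF4 _
  obtain ⟨⟨p1, p2, p3, p4⟩, q1, q2, q3, q4⟩ := xx (Matrix n n (Kr D V L)) e X Y ee eX Xe eY Ye
  set a : Matrix n n (Kr D V L) := e - Y * X with ha
  set b : Matrix n n (Kr D V L) := e - X * Y with hb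
  have oa : ∀ i j, OO T (a i j) := fun i j => oo_sub (oe i j) (oo_mul oY oX i j)
  have ob : ∀ i j, OO T (b i j) := fun i j => oo_sub (oe i j) (oo_mul oX oY i j)
  have oc : ∀ i j, OO T ((Y * (e + b)) i j) := oo_mul oY fun i j => (oe i j).add (ob i j)
  have ea : e * a = a := by rw [ha, mul_sub, ee, ← mul_assoc, eY]
  have ae : a * e = a := by rw [ha, sub_mul, ee, mul_assoc, Xe]
  have eb : e * b = b := by rw [hb, mul_sub, ee, ← mul_assoc, eX]
  have be : b * e = b := by rw [hb, sub_mul, ee, mul_assoc, Ye]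
  have ec : e * (Y * (e + b)) = Y * (e + b) := by rw [← mul_assoc, eY]
  have ce : Y * (e + b) * e = Y * (e + b) := by rw [mul_assoc, add_mul, ee, be]
  have z0 : ∀ {M N : Matrix n n (Kr D V L)}, e0 (M - N) = e0 M - e0 N := fun {M N} => rfl
  have zX : e0 X = x := Matrix.ext fun i j => hF2 _
  have zY : e0 Y = x' := Matrix.ext fun i j => hF2 _
  have ze : e0 e = 1 := e0_dg
  have za : e0 a = 0 := by rw [ha, z0, e0_mul Y oX, zX, zY, ze, h2, sub_self]
  have zb : e0 b = 0 := by rw [hb, z0, e0_mul X oY, zX, zY, ze, h1, sub_self]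
  have zc : e0 (Y * (e + b)) = x' := by
    rw [e0_mul (T := T) Y (N := e + b) fun i j => (oe i j).add (ob i j), zY]
    have : e0 (e + b) = e0 e + e0 b := rfl
    rw [this, ze, zb, add_zero, mul_one]
  have hE : (dg (fun _ : n ⊕ n => NRS T) : Matrix (n ⊕ n) (n ⊕ n) (Kr D V L)) =
      Matrix.fromBlocks e 0 0 e := by
    have := dg_sum (R := L) (Γ := Γ) (D := D) (fun _ : n => (NRS T : Set (Tw D V)))
      (fun _ : n => (NRS T : Set (Tw D V)))
    rw [← this]
    congr 1
    funext i
    cases i <;> rfl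
  refine ⟨Matrix.fromBlocks X b (-a) (Y * (e + b)), Matrix.fromBlocks (Y * (e + b)) (-a) b X,
    ?_, ?_, ?_, ?_, ?_, ?_, ?_, ?_, ?_, ?_⟩
  · rintro (i | i) (j | j)
    · exact oX i j
    · exact ob i j
    · exact (oa i j).neg
    · exact oc i j
  · rintro (i | i) (j | j)
    · exact oc i j
    · exact (oa i j).neg
    · exact ob i j
    · exact oX i j
  · rw [hE, Matrix.fromBlocks_multiply, p1, p2, p3, p4]
  · rw [hE, Matrix.fromBlocks_multiply, q1, q2, q3, q4]
  · rw [hE, Matrix.fromBlocks_multiply]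
    simp only [Matrix.zero_mul, add_zero, zero_add, Matrix.mul_neg, eX, eb, ea, ec, neg_zero]
  · rw [hE, Matrix.fromBlocks_multiply]
    simp only [Matrix.mul_zero, add_zero, zero_add, Matrix.neg_mul, Xe, be, ae, ce, neg_zero]
  · rw [hE, Matrix.fromBlocks_multiply]
    simp only [Matrix.zero_mul, add_zero, zero_add, Matrix.mul_neg, eX, eb, ea, ec, neg_zero]
  · rw [hE, Matrix.fromBlocks_multiply]
    simp only [Matrix.mul_zero, add_zero, zero_add, Matrix.neg_mul, Xe, be, ae, ce, neg_zero]
  · have na : e0 (-a) = 0 := by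
      have : e0 (-a) = - e0 a := rfl
      rw [this, za, neg_zero]
    rintro (i | i) (j | j)
    · exact congrFun (congrFun zX i) j
    · exact congrFun (congrFun zb i) j
    · exact congrFun (congrFun na i) j
    · exact congrFun (congrFun zc i) j
  · have na : e0 (-a) = 0 := by
      have : e0 (-a) = - e0 a := rfl
      rw [this, za, neg_zero]
    rintro (i | i) (j | j)
    · exact congrFun (congrFun zc i) j
    · exact congrFun (congrFun na i) j
    · exact congrFun (congrFun zb i) j
    · exact congrFun (congrFun zX i) j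

end Pool.Agent.QT
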