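import Pool.Agent.Lib.MP_8f66f0_al_Q.SpecR

/-!
# Theorem Q: two invertible matrices
-/

set_option autoImplicit false

namespace Pool.Agent.QT

open scoped Pointwise
open Pool.Agent.TQ Pool.Agent.Wald Pool.Agent.FH

theorem xx : S_xx := by
  intro S _ e X Y he hX hX' hY hY'
  have e1 : ∀ Z, e * (e * Z) = e * Z := fun Z => by rw [← mul_assoc, he]
  have e2 : ∀ Z, e * (X * Z) = X * Z := fun Z => by rw [← mul_assoc, hX]
  have e3 : ∀ Z, X * (e * Z) = X * Z := fun Z => by rw [← mul_assoc, hX']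
  have e4 : ∀ Z, e * (Y * Z) = Y * Z := fun Z => by rw [← mul_assoc, hY]
  have e5 : ∀ Z, Y * (e * Z) = Y * Z := fun Z => by rw [← mul_assoc, hY']
  refine ⟨⟨?_, ?_, ?_, ?_⟩, ?_, ?_, ?_, ?_⟩ <;>
    (simp only [mul_add, add_mul, mul_sub, sub_mul, mul_neg, neg_mul, neg_sub, mul_assoc, he, hX,
      hX', hY, hY', e1, e2, e3, e4, e5]
     abel)

theorem ww : S_ww := by
  intro S _ m n _ _ _ _ α β
  refine ⟨?_, ?_⟩ <;>
    (rw [Matrix.fromBlocks_multiply, ← Matrix.fromBlocks_one]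
     refine congr (congr (congr (congrArg Matrix.fromBlocks ?_) ?_) ?_) ?_ <;>
      (simp only [Matrix.mul_add, Matrix.add_mul, Matrix.mul_sub, Matrix.sub_mul, Matrix.mul_neg,
        Matrix.neg_mul, neg_neg, neg_sub, Matrix.mul_assoc, Matrix.mul_one, Matrix.one_mul]
       abel))

end Pool.Agent.QT
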