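import Pool.Agent.Lib.MP_8f66f0_al_Q.Ab
import Pool.Agent.Lib.MP_8f66f0_al_Q.Fl
import Pool.Agent.Lib.MP_8f66f0_al_Q.IsoM
import Pool.Agent.Lib.MP_8f66f0_al_Q.Key
import Pool.Agent.Lib.MP_8f66f0_al_Q.Local
import Pool.Agent.Lib.MP_8f66f0_al_Q.OOSS
import Pool.Agent.Lib.MP_8f66f0_al_Q.PF
import Pool.Agent.Lib.MP_8f66f0_al_Q.Plc
import Pool.Agent.Lib.MP_8f66f0_al_Q.PropX
import Pool.Agent.Lib.MP_8f66f0_al_Q.RkMul
import Pool.Agent.Lib.MP_8f66f0_al_Q.RkReg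
import Pool.Agent.Lib.MP_8f66f0_al_Q.Rstep
import Pool.Agent.Lib.MP_8f66f0_al_Q.Ten
import Pool.Agent.Lib.MP_8f66f0_al_Q.XxW
import Pool.Agent.Lib.MP_8f66f0_al_Q.XxWw

/-!
# Theorem Q: the exact cut, assembly
-/

set_option autoImplicit false

namespace Pool.Agent.QT

theorem rAll (hTen : S_Ten) (hRS : S_RS) (hInd : S_Ind) : S_PropX := by
  have hMul : S_RkMul := rkMul hTen lrMul lrSk
  have hOOSS : S_OOSS := ooss hMul rkReg hRS
  have hKey : S_Key := key rkReg hRS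
  have hFl : S_Fl := fl lrSk
  have hpF : S_pF := pF hKey hRS hInd levThm plcE
  have hab : S_ab := ab hpF hFl levThm hRS plcM flN
  have hrtop : S_rtop := rtop hInd hOOSS
  have hrstep : S_rstep := rstep hab ww isoConj isoSum isoComp isoRe hOOSS hInd levThm
  exact propX hrtop hrstep (xxW hFl) hOOSS

end Pool.Agent.QT
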