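import Pool.Agent.Lib.MP_8f66f0_al_Q.Spec
import Pool.Agent.Lib.MP_8f66f0_al_Q.Iso

/-!
# Theorem Q: regular sets and diagonal kernels
-/

set_option autoImplicit false

namespace Pool.Agent.QT

open scoped Pointwise
open Pool.Agent.TQ Pool.Agent.Wald

section Near

variable {Γ G Q V : Type} [Group Γ] [Group G] [MulAction Γ Q] {D : Coc Γ G Q}

open Classical in
private theorem near_some (B : Finset V) (x : Tw D V) (q : Q) (v : V) (hv : v ∈ B) :
    near B x q = some v ↔ x q = some v := by
  rw [near]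
  cases hx : x q with
  | none => simp
  | some w =>
    by_cases hw : w ∈ B
    · simp [Option.filter, hw]
    · have : w ≠ v := fun h => hw (h ▸ hv)
      simp [Option.filter, hw, this]

open Classical in
private theorem near_near {B B' : Finset V} (h : B ⊆ B') (x : Tw D V) :
    near B (near B' x) = near B x := by
  funext q
  rw [near, near, near]
  cases x q with
  | none => rfl
  | some w =>
    by_cases hw : w ∈ B'
    · simp [Option.filter, hw]
    · have : w ∉ B := fun h' => hw (h h')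
      simp [Option.filter, hw, this]

private theorem rs_big {E : Set (Tw D V)} (hE : RS E) :
    ∃ B₀ : Finset V, ∀ B, B₀ ⊆ B → ∀ x, x ∈ E ↔ near B x ∈ E := by
  obtain ⟨B₀, h0⟩ := hE
  refine ⟨B₀, fun B hB x => ?_⟩
  rw [h0 x, h0 (near B x), near_near hB]

private theorem rs_exts [Fintype Q] (l : Tw D V) : RS {x : Tw D V | Exts l x} := by
  classical
  refine ⟨(Finset.univ.image fun q => l q).eraseNone, fun x => ?_⟩
  refine forall_congr' fun q => ?_
  refine forall_congr' fun hq => ?_
  obtain ⟨v, hv⟩ := Option.ne_none_iff_exists'.1 hq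
  rw [hv]
  refine (near_some _ x q v ?_).symm
  exact Finset.mem_eraseNone.2 (Finset.mem_image.2 ⟨q, Finset.mem_univ q, hv⟩)

end Near

theorem rsB : S_RS := by
  classical
  intro Γ G Q V _ _ _ _ _ D
  refine ⟨fun R _ E hE => Rk.ind hE, fun E E' hE hE' => ?_, fun E hE => rs_big hE,
    fun B P => ⟨B, fun x => ?_⟩, rs_exts, ⟨∅, fun x => Iff.rfl⟩, ⟨∅, fun x => Iff.rfl⟩⟩
  · obtain ⟨B, hB⟩ := rs_big hE
    obtain ⟨B', hB'⟩ := rs_big hE'
    have h1 := hB (B ∪ B') Finset.subset_union_left
    have h2 := hB' (B ∪ B') Finset.subset_union_right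
    exact ⟨⟨B ∪ B', fun x => and_congr (h1 x) (h2 x)⟩, ⟨B ∪ B', fun x => or_congr (h1 x) (h2 x)⟩,
      ⟨B ∪ B', fun x => not_congr (h1 x)⟩⟩
  · change P (near B x) ↔ P (near B (near B x))
    rw [near_near (Finset.Subset.refl B)]

theorem indB : S_Ind := by
  intro Γ G Q V R _ _ _ _ _ D
  exact ⟨fun E E' => ind_mul E E', ind_univ, ind_empty, fun E S y x =>
    ⟨(ent_mul_ind E S y x).1, (ent_mul_ind E S y x).2, (ent_ind_mul E S y x).1,
      (ent_ind_mul E S y x).2⟩⟩

end Pool.Agent.QT
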