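import Pool.Agent.Lib.MP_8f66f0_al_Q.Spec
import Pool.Agent.Lib.MP_8f66f0_al_Q.Ten

/-!
# Theorem Q: the full extension in the family
-/

set_option autoImplicit false

namespace Pool.Agent.QT

open scoped Pointwise
open Pool.Agent.TQ Pool.Agent.Wald

section

variable {Γ G Q V : Type} [Group Γ] [Group G] [MulAction Γ Q] [MulAction G V] {D : Coc Γ G Q}
  [Fintype Q]

open Classical in
private theorem xs_cf {R : Type} [CommRing R] (φ : G → RCF (Option V) R) (l' l : Tw D V)
    (a : MonoidAlgebra R Γ) (g : Γ) (y x : Tw D V) :
    cf (xt φ l' l a : Kr D V R) g y x = a.coeff g *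
      ∏ q, ent (if l q = none then φ (D.c g q) else sk (l' (g • q)) (l q) 1) (y (g • q)) (x q) := by
  let F : Kr D V R →+ R :=
    { toFun := fun S => cf S g y x
      map_zero' := cf_zero g y x
      map_add' := fun S U => cf_add S U g y x }
  change F (xt φ l' l a) = _
  rw [xt, map_sum]
  have h1 : ∀ k ∈ a.coeff.support, F (ten (a.coeff k) k fun q =>
      if l q = none then φ (D.c k q) else sk (l' (k • q)) (l q) 1) =
      if k = g then a.coeff g * ∏ q, ent (if l q = none then φ (D.c g q)
        else sk (l' (g • q)) (l q) 1) (y (g • q)) (x q) else 0 := by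
    intro k _
    change cf (ten _ k _ : Kr D V R) g y x = _
    rw [cf_ten]
    by_cases hk : k = g
    · subst hk
      rw [if_pos rfl]
    · rw [if_neg hk, if_neg hk]
  rw [Finset.sum_congr rfl h1, Finset.sum_ite_eq']
  by_cases hg : g ∈ a.coeff.support
  · rw [if_pos hg]
  · rw [if_neg hg, Finsupp.notMem_support_iff.1 hg, zero_mul]

/-- The factors of a nonzero coefficient. -/
private theorem xs_ne {L : Type} [CommRing L] (φ : G → RCF (Option V) (Polynomial L))
    (l' l : Tw D V) (a : MonoidAlgebra (Polynomial L) Γ) (c : L) (g : Γ) (y x : Tw D V)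
    (h : (cf (xt φ l' l a : Kr D V (Polynomial L)) g y x).eval c ≠ 0) :
    (a.coeff g).eval c ≠ 0 ∧
      (∀ q, l q = none → (ent (φ (D.c g q)) (y (g • q)) (x q)).eval c ≠ 0) ∧
      ∀ q, l q ≠ none → y (g • q) = l' (g • q) ∧ x q = l q := by
  classical
  rw [xs_cf, Polynomial.eval_mul, Polynomial.eval_prod] at h
  have h1 : ∀ q, (ent (if l q = none then φ (D.c g q) else sk (l' (g • q)) (l q) 1)
      (y (g • q)) (x q)).eval c ≠ 0 := by
    intro q h0
    exact h (by rw [Finset.prod_eq_zero (Finset.mem_univ q) h0, mul_zero])
  refine ⟨fun h0 => h (by rw [h0, zero_mul]), fun q hq => ?_, fun q hq => ?_⟩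
  · have h2 := h1 q
    rw [if_pos hq] at h2
    exact h2
  · have h2 := h1 q
    rw [if_neg hq] at h2
    by_contra h3
    rw [ent_sk_ne h3, Polynomial.eval_zero] at h2
    exact h2 rfl

private theorem xs_rr (T : Tr G V) (z : Tw D V) [DecidablePred fun q : Q => z q = some T.root] :
    rr T z = (Finset.univ.filter fun q => z q = some T.root).card := by
  rw [rr]
  refine congrArg Finset.card (Finset.ext fun q => ?_)
  simp only [Finset.mem_filter]

private theorem xs_none {L : Type} [CommRing L] {T : Tr G V}
    {φ : G → RCF (Option V) (Polynomial L)} (hφ : IsPhi T φ) (a : G) (w : Option V)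
    (h : ent (φ a) w none ≠ 0) : w = none := by
  obtain ⟨B, hB⟩ := hφ.lr a
  by_contra hw
  exact h ((hB w none (Or.inr fun b _ => by simp)).2 hw)

end

theorem xtSS (h1 : S_Xt) : S_XtSS := by
  classical
  intro Γ G Q V L _ _ _ _ _ _ D T φ hφ l' l a hJS
  obtain ⟨-, -, -, hreg, -, -, hlev⟩ := h1 Γ G Q V (Polynomial L) D φ hφ.one hφ.mul hφ.lr hφ.inf
  refine ⟨fun ha0 ha1 => ⟨hreg l' l a hJS, fun g y x h => ?_, fun g y x h => ?_⟩, ?_, ?_⟩
  · obtain ⟨k0, k1, k2⟩ := xs_ne φ l' l a 0 g y x h
    rw [tw_eq_iff]
    intro q
    by_cases hq : l q = none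
    · exact hφ.zero _ _ _ (k1 q hq)
    · rw [(k2 q hq).1, (k2 q hq).2]
      exact (tw_eq_iff g l l').1 (ha0 g k0) q
  · obtain ⟨k0, k1, k2⟩ := xs_ne φ l' l a 1 g y x h
    obtain ⟨r1, r2⟩ := ha1 g k0
    have hg : a.coeff g ≠ 0 := fun h0 => k0 (by rw [h0, Polynomial.eval_zero])
    have hJ := hJS g hg
    -- the coordinates at infinity of `l`
    have hn : ∀ q, l q = none → x q = none → y (g • q) = none := by
      intro q hq hx
      have h2 := k1 q hq
      rw [hx] at h2
      exact xs_none hφ _ _ fun h3 => h2 (by rw [h3, Polynomial.eval_zero])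
    have hv : ∀ q v, l q = none → x q = some v → v ≠ T.root → ∃ w', y (g • q) = some w' ∧
        w' ≠ T.root ∧ ({w', T.par w'} : Set V) = D.c g q • ({v, T.par v} : Set V) := by
      intro q v hq hx hvr
      have h2 := k1 q hq
      rw [hx] at h2
      exact hφ.eval1 _ _ _ h2 hvr
    have hroot : ∀ q, l q = none → y (g • q) = some T.root → x q = some T.root := by
      intro q hq hy
      rcases hx : x q with _ | v
      · rw [hn q hq hx] at hy
        exact absurd hy (by simp)
      · by_cases hvr : v = T.root
        · rw [hvr]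
        · obtain ⟨w', e1, e2, -⟩ := hv q v hq hx hvr
          rw [e1] at hy
          exact absurd (Option.some.inj hy) e2
    -- the numbers of the coordinates `root`
    have hrr : ∀ z : Tw D V, rr T z = (Finset.univ.filter fun q => z (g • q) = some T.root).card := by
      intro z
      rw [xs_rr]
      refine Finset.card_nbij' (fun q => g⁻¹ • q) (fun q => g • q) ?_ ?_ ?_ ?_
      · intro q hq
        have h2 := (Finset.mem_filter.1 (Finset.mem_coe.1 hq)).2
        refine Finset.mem_coe.2 (Finset.mem_filter.2 ⟨Finset.mem_univ _, ?_⟩)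
        rw [smul_inv_smul]
        exact h2
      · intro q hq
        exact Finset.mem_coe.2 (Finset.mem_filter.2 ⟨Finset.mem_univ _,
          (Finset.mem_filter.1 (Finset.mem_coe.1 hq)).2⟩)
      · intro q _
        exact smul_inv_smul g q
      · intro q _
        exact inv_smul_smul g q
    let A : Finset Q := Finset.univ.filter fun q => l q = none ∧ x q = some T.root
    let A' : Finset Q := Finset.univ.filter fun q => l q = none ∧ y (g • q) = some T.root
    have hA : A' ⊆ A := by
      intro q hq
      obtain ⟨-, e1, e2⟩ := Finset.mem_filter.1 hq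
      exact Finset.mem_filter.2 ⟨Finset.mem_univ _, e1, hroot q e1 e2⟩
    have hx : rr T x = A.card + rr T l := by
      rw [xs_rr, xs_rr, ← Finset.card_union_of_disjoint]
      · congr 1
        ext q
        simp only [A, Finset.mem_filter, Finset.mem_univ, true_and, Finset.mem_union]
        constructor
        · intro hq
          by_cases hlq : l q = none
          · exact Or.inl ⟨hlq, hq⟩
          · exact Or.inr (by rw [← (k2 q hlq).2]; exact hq)
        · rintro (⟨-, hq⟩ | hq)
          · exact hq
          · have hlq : l q ≠ none := by rw [hq]; simp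
            rw [(k2 q hlq).2]
            exact hq
      · rw [Finset.disjoint_left]
        intro q hq hq'
        have e1 := (Finset.mem_filter.1 hq).2.1
        have e2 := (Finset.mem_filter.1 hq').2
        rw [e1] at e2
        exact absurd e2 (by simp)
    have hy : rr T y = A'.card + rr T l' := by
      rw [hrr y, hrr l', ← Finset.card_union_of_disjoint]
      · congr 1
        ext q
        simp only [A', Finset.mem_filter, Finset.mem_univ, true_and, Finset.mem_union]
        constructor
        · intro hq
          by_cases hlq : l q = none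
          · exact Or.inl ⟨hlq, hq⟩
          · exact Or.inr (by rw [← (k2 q hlq).1]; exact hq)
        · rintro (⟨-, hq⟩ | hq)
          · exact hq
          · have hlq : l q ≠ none := fun h0 => by
              rw [(hJ q).2 h0] at hq
              exact absurd hq (by simp)
            rw [(k2 q hlq).1]
            exact hq
      · rw [Finset.disjoint_left]
        intro q hq hq'
        have e1 := (Finset.mem_filter.1 hq).2.1
        have e2 := (Finset.mem_filter.1 hq').2
        rw [(hJ q).2 e1] at e2
        exact absurd e2 (by simp)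
    have hAc := Finset.card_le_card hA
    refine ⟨by omega, fun heq => ?_⟩
    have hAA : A' = A := Finset.eq_of_subset_of_card_le hA (by omega)
    have hed := (tw_eq_iff g _ _).1 (r2 (by omega))
    rw [tw_eq_iff]
    intro q
    by_cases hq : l q = none
    · change (y (g • q)).map _ = ((x q).map _).map _
      rcases hxq : x q with _ | v
      · rw [hn q hq hxq]
        rfl
      · by_cases hvr : v = T.root
        · have hqA : q ∈ A := Finset.mem_filter.2 ⟨Finset.mem_univ _, hq, by rw [hxq, hvr]⟩
          rw [← hAA] at hqA
          rw [(Finset.mem_filter.1 hqA).2.2, hvr]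
          simp
        · obtain ⟨w', e1, e2, e3⟩ := hv q v hq hxq hvr
          rw [e1]
          simp only [Option.map_some, if_neg hvr, if_neg e2, e3]
    · have e1 := hed q
      change (l' (g • q)).map _ = ((l q).map _).map _ at e1
      change (y (g • q)).map _ = ((x q).map _).map _
      rw [(k2 q hq).1, (k2 q hq).2]
      exact e1
  · rintro ⟨hl, hl'⟩
    apply MonoidAlgebra.ext
    ext g
    rw [evA, MonoidAlgebra.coeff_mapRingHom, MonoidAlgebra.coeff_mapRingHom]
    change (cf (xt φ l' l a : Kr D V (Polynomial L)) g (rt T) (rt T)).eval 1 = (a.coeff g).eval 1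
    rw [xs_cf, Polynomial.eval_mul, Polynomial.eval_prod]
    by_cases hg : a.coeff g = 0
    · rw [hg, Polynomial.eval_zero, zero_mul]
    · have hJ := hJS g hg
      rw [Finset.prod_eq_one, mul_one]
      intro q _
      by_cases hq : l q = none
      · rw [if_pos hq]
        exact hφ.root1 _
      · rw [if_neg hq]
        have e1 : l q = some T.root := (hl q hq).symm
        have e2 : l' (g • q) = some T.root := (hl' (g • q) fun h0 => hq ((hJ q).1 h0)).symm
        rw [e1, e2]
        change (ent (sk (some T.root) (some T.root) (1 : Polynomial L)) (some T.root)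
          (some T.root)).eval 1 = 1
        rw [ent_sk_eq, Polynomial.eval_one]
  · intro hcon
    have h2 : ent (xt φ l' l a : Kr D V (Polynomial L)) (rt T) (rt T) = 0 := by
      by_contra h3
      exact hcon ((hlev l' l a hJS (rt T) (rt T)).1 h3)
    rw [h2, map_zero]

end Pool.Agent.QT
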