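import Pool.Agent.Lib.MP_8f66f0_al_Q.QC
import Pool.Agent.Lib.MP_8f66f0_al_Q.RAll
import Pool.Agent.Lib.MP_8f66f0_al_Q.EPstep
import Pool.Agent.Lib.MP_8f66f0_al_Q.EPbase
import Pool.Agent.Lib.MP_8f66f0_al_Q.SetsB
import Pool.Agent.Lib.MP_8f66f0_al_Q.FlSS
import Pool.Agent.Lib.MP_8f66f0_al_Q.XtSS
import Pool.Agent.Lib.MP_8f66f0_al_Q.Xt
import Pool.Agent.Lib.MP_8f66f0_al_Q.EndB

/-!
# Theorem Q: the assembly
-/

set_option autoImplicit false

namespace Pool.Agent.QT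

/-- Theorem Q. -/
theorem qcB : S_QC := by
  have hTen : S_Ten := fun _ _ _ _ _ _ _ _ _ _ _ _ r s g h m n => ten_mul r s g h m n
  have hMul : S_RkMul := rkMul hTen lrMul lrSk
  have hOS : S_OOSS := ooss hMul rkReg rsB
  have hKey : S_Key := key rkReg rsB
  have hFl : S_Fl := fl lrSk
  have hXS : S_XtSS := xtSS xtThm
  have hPX : S_PropX := rAll hTen rsB indB
  exact qc (EPbase hKey levThm)
    (Sp.epStep hKey levThm hOS hFl flSS (epa hOS xtThm hXS) (isoEps hOS))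
    (endB hOS xtThm hXS rsB hPX)

end Pool.Agent.QT
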