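import Pool.Agent.Lib.MP_8f66f0_al_Q.Spec
import Pool.Agent.Lib.MP_8f66f0_al_TQ.KrH
import Pool.Agent.Lib.MP_8f66f0_al_HierZ.ClassS

/-!
# Theorem Q: the theorem in the cocycle format, from the principle EP
-/

set_option autoImplicit false

namespace Pool.Agent.QT

open scoped Pointwise
open Pool.Agent.TQ Pool.Agent.Wald Pool.Agent.Hier Pool.Agent.WaldL Pool.Agent.TreeC
open Pool.Agent.FH (KU)

section Fix

variable {Γ G Q W W' : Type} [Group Γ] [Group G] [MulAction Γ Q] {D : Coc Γ G Q} [MulAction G W]
  [MulAction G W']

/-- Equivariant partial maps of the values. -/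
def bnd (F : W → Option W') (x : Tw D W) : Tw D W' := fun q => (x q).bind F

theorem smul_bnd (F : W → Option W') (hF : ∀ (a : G) (w : W), F (a • w) = (F w).map (a • ·)) (g : Γ)
    (x : Tw D W) : g • bnd F x = bnd F (g • x) := by
  symm
  rw [tw_eq_iff]
  intro q
  change ((g • x) (g • q)).bind F = ((x q).bind F).map _
  rw [tw_smul]
  cases x q with
  | none => rfl
  | some w => exact hF _ _

end Fix

theorem qc (h1 : S_EPbase) (h2 : S_EPstep) (h3 : S_End) : S_QC := by
  intro Γ G Q V _ _ _ _ _ _ T D hcell hsets hSS L _ _ hL K _ κ hκ n _ _ A hA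
  classical
  have : Fintype Q := Fintype.ofFinite Q
  have hpt : ∀ (C : Subgroup Γ) (x : Tw D V), (∃ q, x q ≠ none) → (∀ g ∈ C, g • x = x) → KS C := by
    intro C x ⟨q, hq⟩ hx
    refine hcell C (bnd (fun v => some {v}) x) ⟨q, ?_⟩ ?_ ?_
    · change (x q).bind _ ≠ none
      cases h : x q with
      | none => exact absurd h hq
      | some v => simp
    · intro q s hs
      change (x q).bind _ = some s at hs
      cases h : x q with
      | none => rw [h] at hs; cases hs
      | some v =>
        rw [h] at hs
        exact Or.inl ⟨v, (Option.some.inj hs).symm⟩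
    · intro g hg
      rw [smul_bnd _ (fun a w => by simp), hx g hg]
  have hed : ∀ (C : Subgroup Γ) (x : Tw D V), (∀ q, x q ≠ none) → x ≠ rt T →
      (∀ g ∈ C, g • ed T x = ed T x) → KS C := by
    intro C x hx hxr hC
    have hF : ∀ (a : G) (w : Set V), (if a • w = ∅ then none else some (a • w)) =
        (if w = ∅ then none else some w).map (a • ·) := by
      intro a w
      by_cases hw : w = ∅
      · rw [if_pos hw, if_pos (by rw [hw, Set.smul_set_empty])]
        rfl
      · rw [if_neg hw, if_neg (by rwa [Set.smul_set_eq_empty])]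
        rfl
    obtain ⟨q, hq⟩ : ∃ q, x q ≠ some T.root := by
      by_contra hcon
      push Not at hcon
      exact hxr (funext hcon)
    refine hcell C (bnd (fun s => if s = ∅ then none else some s) (ed T x)) ⟨q, ?_⟩ ?_ ?_
    · change ((x q).map _).bind _ ≠ none
      cases h : x q with
      | none => exact absurd h (hx q)
      | some v =>
        have hv : v ≠ T.root := fun h' => hq (by rw [h, h'])
        rw [Option.map_some, Option.bind_some, if_neg hv, if_neg (Set.insert_nonempty _ _).ne_empty]
        exact Option.some_ne_none _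
    · intro q s hs
      change ((x q).map _).bind _ = some s at hs
      cases h : x q with
      | none => exact absurd h (hx q)
      | some v =>
        rw [h, Option.map_some, Option.bind_some] at hs
        by_cases hv : v = T.root
        · rw [if_pos hv, if_pos rfl] at hs
          cases hs
        · rw [if_neg hv, if_neg (Set.insert_nonempty _ _).ne_empty] at hs
          exact Or.inr ⟨v, hv, (Option.some.inj hs).symm⟩
    · intro g hg
      rw [smul_bnd _ hF, hC g hg]
  have hH : HypE D T κ := by
    refine ⟨hκ, ?_, fun x hx => ?_, fun x hx hxr => ?_, fun J hJ hJ' => ?_⟩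
    · intro m _ _ B B' hB hB'
      have hS := kt_coA hL hSS
      have h4 := hS K (nDiv (pullK (evA 0) κ) (pullK (evA 1) κ)) (fun m _ _ B hB => by
        change κ.f ((B.map coA).map (evA 0)) * (κ.f ((B.map coA).map (evA 1)))⁻¹ = 1
        have h4 : ∀ c : L, (B.map coA).map (evA c) = B := fun c =>
          Matrix.ext fun i j => evA_coA c (B i j)
        rw [h4, h4, mul_inv_cancel]) m B ⟨⟨B, B', hB, hB'⟩, rfl⟩
      change κ.f (B.map (evA 0)) * (κ.f (B.map (evA 1)))⁻¹ = 1 at h4
      rw [mul_inv_eq_one] at h4
      exact h4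
    · obtain ⟨q⟩ := ‹Nonempty Q›
      exact (hpt _ x ⟨q, hx q⟩ fun g hg => hg).1
    · exact (hed _ x hx hxr fun g hg => hg).1
    · refine (hsets _ J hJ hJ' fun g hg j hj => ?_).1
      have h5 : g • J = J := hg
      rw [← h5]
      exact Set.smul_mem_smul_set hj
  have hEP : ∀ j, j < Fintype.card Q → EP D T κ (Fintype.card Q - j) := by
    intro j
    induction j with
    | zero => exact fun _ => h1 Γ G Q V L K hL D T κ hH
    | succ j ih =>
      intro hj
      refine h2 Γ G Q V L K hL D T κ _ hH (by omega) (by omega) ?_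
      have h5 := ih (by omega)
      rwa [show Fintype.card Q - (j + 1) + 1 = Fintype.card Q - j by omega]
  have hc : 0 < Fintype.card Q := Fintype.card_pos
  have hE1 : EP D T κ 1 := by
    have h5 := hEP (Fintype.card Q - 1) (by omega)
    rwa [show Fintype.card Q - (Fintype.card Q - 1) = 1 by omega] at h5
  exact h3 Γ G Q V L K hL D T κ hκ hE1 (fun l _ hl C hC =>
    kk_projSF Pool.Agent.WaldP.psf_all (hpt C l hl fun g hg => (hC g hg).1).1 L hL) n A hA

end Pool.Agent.QT
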