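import Pool.Agent.Lib.MP_8f66f0_al_Q.Spec

/-! Regular kernels are regular at every coordinate; levels. -/

set_option autoImplicit false

namespace Pool.Agent.QT

open scoped Pointwise
open Pool.Agent.TQ

section

variable {Γ G Q V : Type} [Group Γ] [Group G] [MulAction Γ Q] [MulAction G V] {D : Coc Γ G Q}
  {R : Type} [CommRing R]

omit [MulAction G V] in
private theorem rg_ent_ten [Fintype Q] (r : R) (g : Γ) (m : Q → RCF (Option V) R) (y x : Tw D V) :
    ent (ten r g m : Kr D V R) y x =
      MonoidAlgebra.single g (r * ∏ q, ent (m q) (y (g • q)) (x q)) :=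
  ent_mkK _ _ _ y x

omit [MulAction G V] in
private theorem rg_cut_self [DecidableEq Q] (q : Q) (x : Tw D V) : cut q x q = none :=
  Function.update_self (β := fun _ => Option V) q none x

omit [MulAction G V] in
private theorem rg_cut_ne [DecidableEq Q] {q q' : Q} (h : q' ≠ q) (x : Tw D V) :
    cut q x q' = x q' :=
  Function.update_of_ne (β := fun _ => Option V) h none x

omit [MulAction G V] in
private theorem rg_cf_ten_eq [Fintype Q] (r : R) (g : Γ) (m : Q → RCF (Option V) R) (y x : Tw D V) :
    cf (ten r g m : Kr D V R) g y x = r * ∏ q, ent (m q) (y (g • q)) (x q) := by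
  classical
  rw [cf, rg_ent_ten, MonoidAlgebra.coeff_single, Finsupp.single_eq_same]

omit [MulAction G V] in
private theorem rg_cf_ten_ne [Fintype Q] (r : R) {g h : Γ} (hg : h ≠ g) (m : Q → RCF (Option V) R)
    (y x : Tw D V) : cf (ten r g m : Kr D V R) h y x = 0 := by
  classical
  rw [cf, rg_ent_ten, MonoidAlgebra.coeff_single, Finsupp.single_eq_of_ne hg]

private theorem rg_ent_sum {Ω A ι : Type} [Ring A] (s : Finset ι) (F : ι → RCF Ω A) (y x : Ω) :
    ent (∑ i ∈ s, F i) y x = ∑ i ∈ s, ent (F i) y x := by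
  classical
  induction s using Finset.induction_on with
  | empty => rw [Finset.sum_empty, Finset.sum_empty, ent_zero]
  | insert i s hi ih => rw [Finset.sum_insert hi, Finset.sum_insert hi, ent_add, ih]

end

theorem rkReg : S_RkReg := by
  classical
  intro Γ G Q V R _ _ _ _ _ _ _ D S hS
  unfold Rk at hS
  induction hS using AddSubgroup.closure_induction with
  | zero =>
    refine ⟨⟨∅, fun g y x q _ => ⟨fun _ => ?_, fun _ => cf_zero g y x⟩⟩, ?_, ∅, ?_⟩
    · rw [cf_zero, cf_zero]
    · intro g y x h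
      exact absurd (cf_zero g y x) h
    · intro g y x h
      exact absurd (cf_zero g y x) h
  | add S U _ _ ih ih' =>
    obtain ⟨⟨B, hB⟩, hJ, s, hs⟩ := ih
    obtain ⟨⟨B', hB'⟩, hJ', s', hs'⟩ := ih'
    have hor : ∀ g y x, cf (S + U) g y x ≠ 0 → cf S g y x ≠ 0 ∨ cf U g y x ≠ 0 := by
      intro g y x h
      by_contra hcon
      push Not at hcon
      exact h (by rw [cf_add, hcon.1, hcon.2, add_zero])
    refine ⟨⟨B ∪ B', fun g y x q h => ?_⟩, ?_, s ∪ s', ?_⟩
    · have h1 := hB g y x q (h.imp
        (fun ⟨v, hv, e⟩ => ⟨v, fun h' => hv (Finset.mem_union_left _ h'), e⟩)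
        (fun ⟨v, hv, e⟩ => ⟨v, fun h' => hv (Finset.mem_union_left _ h'), e⟩))
      have h2 := hB' g y x q (h.imp
        (fun ⟨v, hv, e⟩ => ⟨v, fun h' => hv (Finset.mem_union_right _ h'), e⟩)
        (fun ⟨v, hv, e⟩ => ⟨v, fun h' => hv (Finset.mem_union_right _ h'), e⟩))
      exact ⟨fun e => by rw [cf_add, cf_add, h1.1 e, h2.1 e],
        fun e => by rw [cf_add, h1.2 e, h2.2 e, add_zero]⟩
    · intro g y x h
      rcases hor g y x h with h | h
      · exact hJ g y x h
      · exact hJ' g y x h
    · intro g y x h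
      rcases hor g y x h with h | h
      · exact Finset.mem_union_left _ (hs g y x h)
      · exact Finset.mem_union_right _ (hs' g y x h)
  | neg S _ ih =>
    obtain ⟨⟨B, hB⟩, hJ, s, hs⟩ := ih
    have hne : ∀ g y x, cf (-S) g y x ≠ 0 → cf S g y x ≠ 0 := by
      intro g y x h h0
      exact h (by rw [cf_neg, h0, neg_zero])
    refine ⟨⟨B, fun g y x q h => ?_⟩, fun g y x h => hJ g y x (hne g y x h),
      s, fun g y x h => hs g y x (hne g y x h)⟩
    have h1 := hB g y x q h
    exact ⟨fun e => by rw [cf_neg, cf_neg, h1.1 e], fun e => by rw [cf_neg, h1.2 e, neg_zero]⟩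
  | mem S hS =>
    obtain ⟨r, g₀, m, hm, rfl⟩ := hS
    choose B hB using hm
    have hg : ∀ g y x, cf (ten r g₀ m : Kr D V R) g y x ≠ 0 → g = g₀ := by
      intro g y x h
      by_contra hne
      exact h (rg_cf_ten_ne r hne m y x)
    refine ⟨⟨Finset.univ.biUnion B, fun g y x q h => ?_⟩, ?_, {g₀}, ?_⟩
    · by_cases hgg : g = g₀
      swap
      · exact ⟨fun _ => by rw [rg_cf_ten_ne r hgg, rg_cf_ten_ne r hgg],
          fun _ => rg_cf_ten_ne r hgg m y x⟩
      subst hgg
      have hf : (∀ b ∈ B q, y (g • q) ≠ some b) ∨ (∀ b ∈ B q, x q ≠ some b) := by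
        rcases h with ⟨v, hv, e⟩ | ⟨v, hv, e⟩
        · refine Or.inr fun b hb e' => hv ?_
          rw [e] at e'
          rw [Option.some.inj e']
          exact Finset.mem_biUnion.2 ⟨q, Finset.mem_univ q, hb⟩
        · refine Or.inl fun b hb e' => hv ?_
          rw [e] at e'
          rw [Option.some.inj e']
          exact Finset.mem_biUnion.2 ⟨q, Finset.mem_univ q, hb⟩
      refine ⟨fun e => ?_, fun e => ?_⟩
      · rw [rg_cf_ten_eq, rg_cf_ten_eq]
        refine congrArg (r * ·) (Finset.prod_congr rfl fun q' _ => ?_)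
        by_cases hq : q' = q
        · subst hq
          rw [rg_cut_self, rg_cut_self]
          exact (hB q' _ _ hf).1 e
        · rw [rg_cut_ne hq, rg_cut_ne fun h' => hq (MulAction.injective g h')]
      · rw [rg_cf_ten_eq, Finset.prod_eq_zero (Finset.mem_univ q) ((hB q _ _ hf).2 e), mul_zero]
    · intro g y x h q
      have hgg := hg g y x h
      subst hgg
      rw [rg_cf_ten_eq] at h
      have h1 : ent (m q) (y (g • q)) (x q) ≠ 0 := by
        intro h0
        exact h (by rw [Finset.prod_eq_zero (Finset.mem_univ q) h0, mul_zero])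
      constructor
      · intro e
        by_contra hx
        refine h1 ((hB q _ _ (Or.inl fun b _ e' => by
          rw [e] at e'
          exact Option.some_ne_none _ e'.symm)).2 ?_)
        rw [e]
        intro e'
        exact hx (Option.map_eq_none_iff.1 e'.symm)
      · intro e
        by_contra hy
        refine h1 ((hB q _ _ (Or.inr fun b _ e' => by
          rw [e] at e'
          exact Option.some_ne_none _ e'.symm)).2 ?_)
        rw [e]
        exact hy
    · intro g y x h
      rw [hg g y x h]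
      exact Finset.mem_singleton_self _

theorem levThm : S_Lev := by
  classical
  have A : ∀ (Γ G Q V R : Type) [Group Γ] [Group G] [MulAction Γ Q] [MulAction G V] [CommRing R]
      [Fintype Q] (D : Coc Γ G Q) (S : Kr D V R), Jc S → ∀ y x, ent S y x ≠ 0 → lev y = lev x := by
    intro Γ G Q V R _ _ _ _ _ _ D S hS y x h
    obtain ⟨g, hg⟩ : ∃ g, cf S g y x ≠ 0 := by
      by_contra hcon
      push Not at hcon
      refine h (MonoidAlgebra.ext (Finsupp.ext fun g => ?_))
      exact hcon g
    have h1 := hS g y x hg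
    unfold lev
    refine (Finset.card_bij (fun q _ => g • q) ?_ ?_ ?_).symm
    · intro q hq
      rw [Finset.mem_filter] at hq ⊢
      refine ⟨Finset.mem_univ _, ?_⟩
      have h2 := hq.2
      rw [Option.isSome_iff_ne_none] at h2 ⊢
      exact fun e => h2 ((h1 q).1 e)
    · intro q _ q' _ e
      exact MulAction.injective g e
    · intro q hq
      refine ⟨g⁻¹ • q, ?_, smul_inv_smul g q⟩
      rw [Finset.mem_filter] at hq ⊢
      refine ⟨Finset.mem_univ _, ?_⟩
      have h2 := hq.2
      rw [Option.isSome_iff_ne_none] at h2 ⊢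
      intro e
      have h3 := (h1 (g⁻¹ • q)).2 e
      rw [smul_inv_smul] at h3
      exact h2 h3
  refine ⟨A, ?_⟩
  intro Γ G Q V R _ _ _ _ _ _ D n n' n'' _ k S S' U U' hU hU' hS hUU a'' a y x hx
  rw [Matrix.mul_apply, Matrix.mul_apply, rg_ent_sum, rg_ent_sum]
  refine Finset.sum_congr rfl fun a' _ => ?_
  rw [ent_mul_col (S a'' a') (U a' a) y x
      ((ent_col (U a' a) x).toFinset ∪ (ent_col (U' a' a) x).toFinset) fun v hv =>
        Finset.mem_union_left _ ((Set.Finite.mem_toFinset _).2 hv),
    ent_mul_col (S' a'' a') (U' a' a) y x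
      ((ent_col (U a' a) x).toFinset ∪ (ent_col (U' a' a) x).toFinset) fun v hv =>
        Finset.mem_union_right _ ((Set.Finite.mem_toFinset _).2 hv)]
  refine Finset.sum_congr rfl fun v _ => ?_
  rw [← hUU a' a v x hx]
  by_cases h0 : ent (U a' a) v x = 0
  · rw [h0, mul_zero, mul_zero]
  · rw [hS a'' a' y v (by rw [A Γ G Q V R D (U a' a) (hU a' a) v x h0]; exact hx)]

end Pool.Agent.QT
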