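import Pool.Agent.Lib.MP_8f66f0_al_Q.Spec

/-!
# Theorem Q: regular sets and diagonal kernels

`rsThm : S_RS`, `indThm : S_Ind`.
-/

set_option autoImplicit false

namespace Pool.Agent.QT

open scoped Pointwise
open Pool.Agent.TQ Pool.Agent.Wald

section Ind

variable {Γ G Q V R : Type} [Group Γ] [Group G] [MulAction Γ Q] [MulAction G V] [CommRing R]
  {D : Coc Γ G Q}

open Classical in
private theorem ent_ind (E : Set (Tw D V)) (y x : Tw D V) :
    ent (ind E : Kr D V R) y x = if y = x ∧ x ∈ E then 1 else 0 := by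
  rw [ind, ent_mkK]

private theorem ent_ind_ne {E : Set (Tw D V)} {y x : Tw D V}
    (h : ent (ind E : Kr D V R) y x ≠ 0) : y = x ∧ x ∈ E := by
  classical
  rw [ent_ind] at h
  by_contra hc
  exact h (if_neg hc)

private theorem mul_ind (E : Set (Tw D V)) (S : Kr D V R) (y x : Tw D V) :
    ent (S * ind E) y x = ent S y x * ent (ind E : Kr D V R) x x := by
  rw [ent_mul_col S (ind E) y x {x} fun v hv => by
    rw [Finset.mem_singleton]; exact (ent_ind_ne hv).1, Finset.sum_singleton]

private theorem ind_mul (E : Set (Tw D V)) (S : Kr D V R) (y x : Tw D V) :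
    ent (ind E * S) y x = ent (ind E : Kr D V R) y y * ent S y x := by
  rw [ent_mul_row (ind E) S y x {y} fun v hv => by
    rw [Finset.mem_singleton]; exact (ent_ind_ne hv).1.symm, Finset.sum_singleton]

private theorem ind_self_mem {E : Set (Tw D V)} {x : Tw D V} (h : x ∈ E) :
    ent (ind E : Kr D V R) x x = 1 := by
  classical
  rw [ent_ind, if_pos ⟨rfl, h⟩]

private theorem ind_self_not {E : Set (Tw D V)} {x : Tw D V} (h : x ∉ E) :
    ent (ind E : Kr D V R) x x = 0 := by
  classical
  rw [ent_ind, if_neg fun h' => h h'.2]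

end Ind

theorem indThm : S_Ind := by
  classical
  intro Γ G Q V R _ _ _ _ _ D
  refine ⟨fun E E' => ent_ext fun y x => ?_, ent_ext fun y x => ?_, ent_ext fun y x => ?_,
    fun E S y x => ⟨fun h => ?_, fun h => ?_, fun h => ?_, fun h => ?_⟩⟩
  · rw [mul_ind]
    by_cases hx' : x ∈ E'
    · rw [ind_self_mem hx', mul_one, ent_ind, ent_ind]
      by_cases hyx : y = x ∧ x ∈ E
      · rw [if_pos hyx, if_pos ⟨hyx.1, hyx.2, hx'⟩]
      · rw [if_neg hyx, if_neg fun h => hyx ⟨h.1, h.2.1⟩]
    · rw [ind_self_not hx', mul_zero, ent_ind, if_neg fun h => hx' h.2.2]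
  · rw [ent_ind, ent_one]
    by_cases hyx : y = x
    · rw [if_pos ⟨hyx, Set.mem_univ _⟩, if_pos hyx]
    · rw [if_neg fun h => hyx h.1, if_neg hyx]
  · rw [ent_ind, ent_zero, if_neg fun h => h.2]
  · rw [mul_ind, ind_self_mem h, mul_one]
  · rw [mul_ind, ind_self_not h, mul_zero]
  · rw [ind_mul, ind_self_mem h, one_mul]
  · rw [ind_mul, ind_self_not h, zero_mul]

section Near

variable {Γ G Q V : Type} [Group Γ] [Group G] [MulAction Γ Q] [MulAction G V] {D : Coc Γ G Q}

private theorem near_eq_some {B : Finset V} {x : Tw D V} {q : Q} {v : V} :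
    near B x q = some v ↔ x q = some v ∧ v ∈ B := by
  classical
  change (x q).filter (fun v => decide (v ∈ B)) = some v ↔ _
  rw [Option.filter_eq_some_iff]
  simp

private theorem opt_ext {W : Type} {a b : Option W} (h : ∀ v, a = some v ↔ b = some v) : a = b := by
  cases a with
  | none =>
    cases b with
    | none => rfl
    | some w => exact absurd ((h w).2 rfl) (by simp)
  | some w => exact ((h w).1 rfl).symm

private theorem near_near_sub {B₀ B : Finset V} (h : B₀ ⊆ B) (x : Tw D V) :
    near B₀ (near B x) = near B₀ x := by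
  funext q
  refine opt_ext fun v => ?_
  rw [near_eq_some, near_eq_some, near_eq_some]
  exact ⟨fun h' => ⟨h'.1.1, h'.2⟩, fun h' => ⟨⟨h'.1, h h'.2⟩, h'.2⟩⟩

private theorem rs_larger {E : Set (Tw D V)} {B₀ : Finset V} (hE : ∀ x, x ∈ E ↔ near B₀ x ∈ E)
    (B : Finset V) (hB : B₀ ⊆ B) (x : Tw D V) : x ∈ E ↔ near B x ∈ E := by
  rw [hE x, hE (near B x), near_near_sub hB]

end Near

section Loc

variable {V R : Type} [CommRing R]


open Classical in
/-- The diagonal local kernel of the set of the `v` with near part `o`. -/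
private noncomputable def dk (B : Finset V) (o : Option V) : RCF (Option V) R :=
  mkK (fun w v => if w = v ∧ v.filter (fun u => decide (u ∈ B)) = o then 1 else 0)
    (fun w => (Set.finite_singleton w).subset fun v hv => by
      by_contra h
      exact hv (if_neg fun h' => h (by rw [h'.1]; rfl)))
    (fun v => (Set.finite_singleton v).subset fun w hw => by
      by_contra h
      exact hw (if_neg fun h' => h (by rw [h'.1]; rfl)))

open Classical in
private theorem ent_dk (B : Finset V) (o w v : Option V) :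
    ent (dk B o : RCF (Option V) R) w v =
      if w = v ∧ v.filter (fun u => decide (u ∈ B)) = o then 1 else 0 := by
  rw [dk, ent_mkK]

private theorem filter_none_of {B : Finset V} [DecidablePred (· ∈ B)] {v : Option V}
    (h : ∀ b ∈ B, v ≠ some b) : v.filter (fun u => decide (u ∈ B)) = none := by
  cases v with
  | none => rfl
  | some u =>
    rw [Option.filter_eq_none_iff]
    intro a ha
    rw [Option.some_inj] at ha
    subst ha
    simp only [decide_eq_true_eq]
    exact fun hu => h u hu rfl

private theorem lr_dk {G : Type} [Group G] [MulAction G V] (B : Finset V) (o : Option V) :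
    Lr (1 : G) (dk B o : RCF (Option V) R) := by
  classical
  refine ⟨B, fun w v h => ?_⟩
  have h1 : v.map ((1 : G) • ·) = v := by
    cases v with
    | none => rfl
    | some u => simp
  rw [h1]
  constructor
  · rintro rfl
    have h2 : ∀ b ∈ B, w ≠ some b := by
      rcases h with h | h
      · exact h
      · exact h
    rw [ent_dk, ent_dk, filter_none_of h2]
    simp
  · intro hne
    rw [ent_dk, if_neg fun h' => hne h'.1]

end Loc

section Rk

variable {Γ G Q V R : Type} [Group Γ] [Group G] [MulAction Γ Q] [MulAction G V] [CommRing R]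
  {D : Coc Γ G Q}

private theorem ent_fsum {Ω A ι : Type} [Ring A] (s : Finset ι) (F : ι → RCF Ω A) (y x : Ω) :
    ent (∑ i ∈ s, F i) y x = ∑ i ∈ s, ent (F i) y x := by
  classical
  induction s using Finset.induction_on with
  | empty => rw [Finset.sum_empty, Finset.sum_empty, ent_zero]
  | insert a s ha ih => rw [Finset.sum_insert ha, Finset.sum_insert ha, ent_add, ih]

open Classical in
private theorem ent_ten_dk [Fintype Q] (B : Finset V) (l y x : Tw D V) :
    ent (ten 1 (1 : Γ) (fun q => dk B (l q)) : Kr D V R) y x =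
      if y = x ∧ near B x = l then 1 else 0 := by
  rw [ten, ent_mkK]
  by_cases h : y = x ∧ near B x = l
  · rw [if_pos h, MonoidAlgebra.one_def]
    congr 1
    rw [one_mul]
    refine Finset.prod_eq_one fun q _ => ?_
    rw [ent_dk, if_pos]
    refine ⟨?_, ?_⟩
    · rw [one_smul, h.1]
    · rw [← h.2]
      rfl
  · rw [if_neg h]
    have h1 : ∃ q, ¬ (y q = x q ∧ near B x q = l q) := by
      by_contra hc
      push Not at hc
      exact h ⟨funext fun q => (hc q).1, funext fun q => (hc q).2⟩
    obtain ⟨q, hq⟩ := h1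
    rw [Finset.prod_eq_zero (Finset.mem_univ q), mul_zero, MonoidAlgebra.single_zero]
    rw [ent_dk, if_neg]
    rw [one_smul]
    exact hq

private theorem rk_ind [Fintype Q] (E : Set (Tw D V)) (hE : RS E) : Rk (ind E : Kr D V R) := by
  classical
  obtain ⟨B, hB⟩ := hE
  let S : Finset (Tw D V) :=
    Fintype.piFinset (fun _ : Q => insert none (B.map ⟨some, Option.some_injective V⟩))
  have hS : ∀ x : Tw D V, near B x ∈ S := by
    intro x
    refine (Fintype.mem_piFinset (f := fun q => near B x q)).2 fun q => ?_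
    rw [Finset.mem_insert]
    rcases h : near B x q with _ | v
    · exact Or.inl rfl
    · refine Or.inr (Finset.mem_map.2 ⟨v, ?_, rfl⟩)
      exact (near_eq_some.1 h).2
  have key : (ind E : Kr D V R) =
      ∑ l ∈ S.filter (· ∈ E), ten 1 (1 : Γ) (fun q => dk B (l q)) := by
    refine ent_ext fun y x => ?_
    rw [ent_fsum, ent_ind]
    simp only [ent_ten_dk]
    by_cases hyx : y = x
    · simp only [hyx, true_and]
      rw [Finset.sum_ite_eq]
      by_cases hx : x ∈ E
      · rw [if_pos hx, if_pos (Finset.mem_filter.2 ⟨hS x, (hB x).1 hx⟩)]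
      · rw [if_neg hx, if_neg fun h => hx ((hB x).2 (Finset.mem_filter.1 h).2)]
    · rw [if_neg fun h => hyx h.1]
      refine (Finset.sum_eq_zero fun l _ => ?_).symm
      rw [if_neg fun h => hyx h.1]
  unfold Rk
  rw [key]
  refine AddSubgroup.sum_mem _ fun l _ => AddSubgroup.subset_closure ?_
  refine ⟨1, 1, fun q => dk B (l q), fun q => ?_, rfl⟩
  rw [D.c_one]
  exact lr_dk B (l q)

end Rk

theorem rsThm : S_RS := by
  classical
  intro Γ G Q V _ _ _ _ _ D
  refine ⟨fun R _ E hE => rk_ind E hE, ?_, ?_, ?_, ?_, ?_, ?_⟩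
  · rintro E E' ⟨B, hB⟩ ⟨B', hB'⟩
    refine ⟨⟨B ∪ B', fun x => ?_⟩, ⟨B ∪ B', fun x => ?_⟩, ⟨B, fun x => ?_⟩⟩
    · rw [Set.mem_inter_iff, Set.mem_inter_iff, rs_larger hB (B ∪ B') Finset.subset_union_left x,
        rs_larger hB' (B ∪ B') Finset.subset_union_right x]
    · rw [Set.mem_union, Set.mem_union, rs_larger hB (B ∪ B') Finset.subset_union_left x,
        rs_larger hB' (B ∪ B') Finset.subset_union_right x]
    · rw [Set.mem_compl_iff, Set.mem_compl_iff, hB x]
  · rintro E ⟨B, hB⟩
    exact ⟨B, fun B' hB' x => rs_larger hB B' hB' x⟩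
  · intro B P
    refine ⟨B, fun x => ?_⟩
    rw [Set.mem_ofPred_eq, Set.mem_ofPred_eq, near_near_sub (Finset.Subset.refl B)]
  · intro l
    refine ⟨Finset.univ.biUnion fun q => (l q).toFinset, fun x => ?_⟩
    rw [Set.mem_ofPred_eq, Set.mem_ofPred_eq]
    unfold Exts
    refine forall_congr' fun q => ?_
    rcases h : l q with _ | v
    · simp
    · refine imp_congr_right fun _ => ?_
      rw [near_eq_some]
      refine ⟨fun hx => ⟨hx, ?_⟩, fun hx => hx.1⟩
      rw [Finset.mem_biUnion]
      exact ⟨q, Finset.mem_univ q, by rw [h]; simp⟩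
  · exact ⟨∅, fun x => Iff.rfl⟩
  · exact ⟨∅, fun x => Iff.rfl⟩

end Pool.Agent.QT
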