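import Pool.Agent.Lib.MP_8f66f0_al_Q.Defs
import Pool.Agent.Lib.MP_8f66f0_al_TQ.Kr
import Pool.Agent.Lib.MP_8f66f0_al_FH.ASpec

/-!
# Theorem Q: the statements (everything except the exact cut, see SpecR)

The proof is note 3354 of the problem MP_8f66f0_al; the sections are quoted as (1), (2), (4), (6).
Each module proves `theorem name : S_name` from the earlier statements, which may be taken as
hypotheses.
-/

set_option autoImplicit false

namespace Pool.Agent.QT

open scoped Pointwise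
open Pool.Agent.TQ Pool.Agent.Wald Pool.Agent.Hier Pool.Agent.WaldL Pool.Agent.TreeC
open Pool.Agent.FH (KU)

section Local

/-- **LrMul**. Local kernels compose. If `m`, `n` have the sets `B`, `C`, take
`C ∪ b⁻¹ B` and `B ∪ a C`. (Column `v` outside `C`: `n (u, v) = [u = b v] n∞`.) -/
def S_LrMul : Prop :=
  ∀ (G V R : Type) [Group G] [MulAction G V] [CommRing R] (a b : G) (m n : RCF (Option V) R),
    Lr a m → Lr b n → Lr (a * b) (m * n)

/-- **LrSk**. Elementary local kernels; the identity; the far part of the graph which respects the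
parents. -/
def S_LrSk : Prop :=
  (∀ (G V R : Type) [Group G] [MulAction G V] [CommRing R] (a : G) (w v : V) (r : R),
    Lr a (sk (some w) (some v) r : RCF (Option V) R)) ∧
  (∀ (G V R : Type) [Group G] [MulAction G V] [CommRing R], Lr (1 : G) (1 : RCF (Option V) R)) ∧
  (∀ (G V R : Type) [Group G] [MulAction G V] [CommRing R] (T : Tr G V) (B : Finset V) (a : G),
    ∃ m : RCF (Option V) R, Lr a m ∧
      ∀ w v : Option V, ((∀ b ∈ B, w ≠ some b) ∧ (∀ b ∈ B, v ≠ some b) ∧
        w = v.map (a • ·) ∧ w.map T.par = (v.map T.par).map (a • ·) → ent m w v = 1) ∧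
      (¬ ((∀ b ∈ B, w ≠ some b) ∧ (∀ b ∈ B, v ≠ some b) ∧
        w = v.map (a • ·) ∧ w.map T.par = (v.map T.par).map (a • ·)) → ent m w v = 0))

/-- **Phi** (helper22). The homotopy on one tree, (2): `φ a = U⁻¹ (permutation a) U`, with
`U e_v = e_v - t e_(par v)`. -/
def S_Phi : Prop :=
  ∀ (G V L : Type) [Group G] [MulAction G V] [CommRing L] (T : Tr G V),
    ∃ φ : G → RCF (Option V) (Polynomial L), IsPhi T φ

end Local

section Tensor

/-- **Ten** (helper22). -/
def S_Ten : Prop :=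
  ∀ (Γ G Q V R : Type) [Group Γ] [Group G] [MulAction Γ Q] [MulAction G V] [CommRing R]
    [Fintype Q] (D : Coc Γ G Q) (r s : R) (g h : Γ) (m n : Q → RCF (Option V) R),
    (ten r g m : Kr D V R) * ten s h n = ten (r * s) (g * h) fun q => m (h • q) * n q

/-- **RkMul**. The regular kernels form a subring. (`Ten`, `LrMul`; `1 = ten 1 1 1`.) -/
def S_RkMul : Prop :=
  ∀ (Γ G Q V R : Type) [Group Γ] [Group G] [MulAction Γ Q] [MulAction G V] [CommRing R]
    [Fintype Q] (D : Coc Γ G Q),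
    (∀ S U : Kr D V R, Rk S → Rk U → Rk (S * U)) ∧ Rk (1 : Kr D V R)

/-- **RkReg**. Regular kernels are regular at every coordinate. (Each `ten` is; the conditions
are closed under sums, with the union of the sets `B`.) -/
def S_RkReg : Prop :=
  ∀ (Γ G Q V R : Type) [Group Γ] [Group G] [MulAction Γ Q] [MulAction G V] [CommRing R]
    [Fintype Q] [DecidableEq Q] (D : Coc Γ G Q) (S : Kr D V R), Rk S → Rg S ∧ Jc S ∧ Fing S

/-- **Key** (key fact 1). A matrix of regular kernels which is the diagonal matrix of regular sets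
below level `k` is so at level `k` outside the finite set of the points with all finite coordinates
in `B`. (By `RkReg` for the entries of `f - dg E`: move a coordinate outside `B` to infinity; the
level drops; `Jc` shows that source and target have the same level.) -/
def S_Key : Prop :=
  ∀ (Γ G Q V R : Type) [Group Γ] [Group G] [MulAction Γ Q] [MulAction G V] [CommRing R]
    [Fintype Q] [DecidableEq Q] (D : Coc Γ G Q) (n : Type) [Fintype n] [DecidableEq n] (k : ℕ)
    (E : n → Set (Tw D V)) (f : Matrix n n (Kr D V R)), (∀ i j, Rk (f i j)) → (∀ i, RS (E i)) →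
    EqB k f (dg E) → ∃ B₀ : Finset V, ∀ B : Finset V, B₀ ⊆ B → ∀ i j y x, lev x = k →
      (near B x ≠ x ∨ near B y ≠ y) → ent (f i j) y x = ent ((dg E : Matrix n n (Kr D V R)) i j) y x

/-- **Lev**. Levels of regular kernels: source and target have the same level, and the product is
compatible with agreement below level `k`. (`Jc`: the finite coordinates correspond.) -/
def S_Lev : Prop :=
  (∀ (Γ G Q V R : Type) [Group Γ] [Group G] [MulAction Γ Q] [MulAction G V] [CommRing R]
    [Fintype Q] (D : Coc Γ G Q) (S : Kr D V R), Jc S → ∀ y x, ent S y x ≠ 0 → lev y = lev x) ∧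
  (∀ (Γ G Q V R : Type) [Group Γ] [Group G] [MulAction Γ Q] [MulAction G V] [CommRing R]
    [Fintype Q] (D : Coc Γ G Q) (n n' n'' : Type) [Fintype n'] (k : ℕ)
    (S S' : Matrix n'' n' (Kr D V R)) (U U' : Matrix n' n (Kr D V R)),
    (∀ i j, Jc (U i j)) → (∀ i j, Jc (U' i j)) → EqB k S S' → EqB k U U' → EqB k (S * U) (S' * U'))

end Tensor

section Sets

/-- **RS**. Regular sets: the indicator kernel is regular, boolean operations, larger `B`. -/
def S_RS : Prop :=
  ∀ (Γ G Q V : Type) [Group Γ] [Group G] [MulAction Γ Q] [MulAction G V] [Fintype Q]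
    (D : Coc Γ G Q),
    (∀ (R : Type) [CommRing R] (E : Set (Tw D V)), RS E → Rk (ind E : Kr D V R)) ∧
    (∀ E E' : Set (Tw D V), RS E → RS E' → RS (E ∩ E') ∧ RS (E ∪ E') ∧ RS Eᶜ) ∧
    (∀ E : Set (Tw D V), RS E → ∃ B₀ : Finset V, ∀ B, B₀ ⊆ B → ∀ x, x ∈ E ↔ near B x ∈ E) ∧
    (∀ (B : Finset V) (P : Tw D V → Prop), RS {x : Tw D V | P (near B x)}) ∧
    (∀ l : Tw D V, RS {x : Tw D V | Exts l x}) ∧ RS (∅ : Set (Tw D V)) ∧
    RS (Set.univ : Set (Tw D V))

/-- **Ind**. Products of diagonal kernels and matrices. -/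
def S_Ind : Prop :=
  ∀ (Γ G Q V R : Type) [Group Γ] [Group G] [MulAction Γ Q] [MulAction G V] [CommRing R]
    (D : Coc Γ G Q),
    (∀ E E' : Set (Tw D V), (ind E : Kr D V R) * ind E' = ind (E ∩ E')) ∧
    (ind Set.univ : Kr D V R) = 1 ∧ (ind ∅ : Kr D V R) = 0 ∧
    (∀ (E : Set (Tw D V)) (S : Kr D V R) (y x : Tw D V),
      (x ∈ E → ent (S * ind E) y x = ent S y x) ∧ (x ∉ E → ent (S * ind E) y x = 0) ∧
      (y ∈ E → ent (ind E * S) y x = ent S y x) ∧ (y ∉ E → ent (ind E * S) y x = 0))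

end Sets

section Structures

/-- **OOSS**. The structured kernels form subrings which contain the diagonal kernels of regular
sets; `OO` over `L` gives `SS` over `L[t]`; and the part at `t = 1` and `rt` is multiplicative on
matrices over `SS` (the row of `rt` has only the entry at `rt`, because `rr rt` is maximal). -/
def S_OOSS : Prop :=
  ∀ (Γ G Q V L : Type) [Group Γ] [Group G] [MulAction Γ Q] [MulAction G V] [CommRing L]
    [Fintype Q] (D : Coc Γ G Q) (T : Tr G V),
    (∀ S U : Kr D V L, OO T S → OO T U → OO T (S * U) ∧ OO T (S + U) ∧ OO T (-S)) ∧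
    (∀ S U : Kr D V (Polynomial L), SS T S → SS T U → SS T (S * U) ∧ SS T (S + U) ∧ SS T (-S)) ∧
    (∀ E : Set (Tw D V), RS E → OO T (ind E : Kr D V L) ∧ SS T (ind E : Kr D V (Polynomial L))) ∧
    (∀ S : Kr D V L, OO T S → SS T (mapK coA S)) ∧
    (∀ (n n' n'' : Type) [Fintype n'] (S : Matrix n'' n' (Kr D V (Polynomial L)))
      (U : Matrix n' n (Kr D V (Polynomial L))), (∀ i j, SS T (S i j)) → (∀ i j, SS T (U i j)) →
      eps T (S * U) = eps T S * eps T U)

end Structures

section Lift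

/-- **Fl**. Far lifts: existence, regularity, levels, structures. Regularity: the far lift is the
finite sum over `l'`, `l` with all finite coordinates in `B`, `lev l = k`, and over the `g` with
`cf S g l' l ≠ 0`, of the `ten (cf S g l' l) g m` with `m q` = the far graph of `c g q` (`LrSk`) if
`l q = none`, and `sk (l' (g q)) (l q) 1` otherwise. -/
def S_Fl : Prop :=
  ∀ (Γ G Q V R : Type) [Group Γ] [Group G] [MulAction Γ Q] [MulAction G V] [CommRing R]
    [Fintype Q] (D : Coc Γ G Q) (T : Tr G V) (B : Finset V) (k : ℕ) (S : Kr D V R), Jc S →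
    ∃ S' : Kr D V R, IsFl T B k S S' ∧ Rk S' ∧
      (∀ y x, lev x < k → ent S' y x = 0) ∧
      (∀ y x, lev x = k → (near B x = x ∧ near B y = y → ent S' y x = ent S y x) ∧
        (¬ (near B x = x ∧ near B y = y) → ent S' y x = 0)) ∧
      ((∀ g y x, lev x = k → near B x = x → near B y = y → cf S g y x ≠ 0 →
        y = g • x ∧ pr T y = g • pr T x) → OO T S')

/-- **FlSS**. Far lifts and the structure `SS`. (`T.root ∈ B`, so the far coordinates are not
`root`, and the edges to the parents are respected there.) -/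
def S_FlSS : Prop :=
  ∀ (Γ G Q V L : Type) [Group Γ] [Group G] [MulAction Γ Q] [MulAction G V] [CommRing L]
    [Fintype Q] (D : Coc Γ G Q) (T : Tr G V) (B : Finset V) (k : ℕ)
    (S S' : Kr D V (Polynomial L)), T.root ∈ B → Jc S → IsFl T B k S S' → Rk S' →
    (∀ g y x, lev x = k → near B x = x → near B y = y → (cf S g y x).eval 0 ≠ 0 → y = g • x) →
    (∀ g y x, lev x = k → near B x = x → near B y = y → (cf S g y x).eval 1 ≠ 0 →
      rr T y ≤ rr T x ∧ (rr T y = rr T x → ed T y = g • ed T x)) → SS T S'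

end Lift

section Ext

/-- **Xt**. The full extension: entries, regularity, additivity, multiplicativity, unit, levels. -/
def S_Xt : Prop :=
  ∀ (Γ G Q V R : Type) [Group Γ] [Group G] [MulAction Γ Q] [MulAction G V] [CommRing R]
    [Fintype Q] (D : Coc Γ G Q) (φ : G → RCF (Option V) R), φ 1 = 1 →
    (∀ a b, φ (a * b) = φ a * φ b) → (∀ a, Lr a (φ a)) → (∀ a, ent (φ a) none none = 1) →
    (∀ (l' l : Tw D V) (a : MonoidAlgebra R Γ) (g : Γ) (y x : Tw D V), a.coeff g = 0 →
      cf (xt φ l' l a : Kr D V R) g y x = 0) ∧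
    (∀ (l' l : Tw D V) (a b : MonoidAlgebra R Γ),
      (xt φ l' l (a + b) : Kr D V R) = xt φ l' l a + xt φ l' l b) ∧
    (∀ l' l : Tw D V, (xt φ l' l (0 : MonoidAlgebra R Γ) : Kr D V R) = 0) ∧
    (∀ (l' l : Tw D V) (a : MonoidAlgebra R Γ), JS l' l a → Rk (xt φ l' l a : Kr D V R)) ∧
    (∀ (l'' l' l : Tw D V) (a b : MonoidAlgebra R Γ), JS l'' l' a → JS l' l b →
      (xt φ l'' l' a : Kr D V R) * xt φ l' l b = xt φ l'' l (a * b)) ∧
    (∀ l : Tw D V, (xt φ l l (1 : MonoidAlgebra R Γ) : Kr D V R) = ind {x | Exts l x}) ∧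
    (∀ (l' l : Tw D V) (a : MonoidAlgebra R Γ), JS l' l a → ∀ y x,
      (ent (xt φ l' l a : Kr D V R) y x ≠ 0 → Exts l x ∧ Exts l' y) ∧
      (lev x < lev l → ent (xt φ l' l a : Kr D V R) y x = 0) ∧
      (lev x = lev l → (x = l ∧ y = l' → ent (xt φ l' l a : Kr D V R) y x = a) ∧
        (¬ (x = l ∧ y = l') → ent (xt φ l' l a : Kr D V R) y x = 0)))

/-- **XtSS**. The full extension in the family: structure and the part at `rt`. -/
def S_XtSS : Prop :=
  ∀ (Γ G Q V L : Type) [Group Γ] [Group G] [MulAction Γ Q] [MulAction G V] [CommRing L]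
    [Fintype Q] (D : Coc Γ G Q) (T : Tr G V) (φ : G → RCF (Option V) (Polynomial L)),
    IsPhi T φ → ∀ (l' l : Tw D V) (a : MonoidAlgebra (Polynomial L) Γ), JS l' l a →
    ((∀ g, (a.coeff g).eval 0 ≠ 0 → l' = g • l) →
      (∀ g, (a.coeff g).eval 1 ≠ 0 → rr T l' ≤ rr T l ∧ (rr T l' = rr T l → ed T l' = g • ed T l)) →
      SS T (xt φ l' l a)) ∧
    ((Exts l (rt T) ∧ Exts l' (rt T)) →
      evA 1 (ent (xt φ l' l a : Kr D V (Polynomial L)) (rt T) (rt T)) = evA 1 a) ∧
    (¬ (Exts l (rt T) ∧ Exts l' (rt T)) →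
      evA 1 (ent (xt φ l' l a : Kr D V (Polynomial L)) (rt T) (rt T)) = 0)

end Ext

section EP

/-- The hypotheses on the invariant and on the group. -/
structure HypE {Γ G Q V L K : Type} [Group Γ] [Group G] [MulAction Γ Q] [MulAction G V]
    [CommRing L] [CommGroup K] [Fintype Q] (D : Coc Γ G Q) (T : Tr G V)
    (κ : K1Fun (MonoidAlgebra L Γ) K) : Prop where
  ku : KU κ
  /-- homotopy invariance -/
  hom : ∀ (n : Type) [Fintype n] [DecidableEq n]
    (A A' : Matrix n n (MonoidAlgebra (Polynomial L) Γ)), A * A' = 1 → A' * A = 1 →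
    κ.f (A.map (evA 0)) = κ.f (A.map (evA 1))
  /-- stabilizers of vertices of the product -/
  pts : ∀ x : Tw D V, (∀ q, x q ≠ none) → KK (MulAction.stabilizer Γ x)
  /-- stabilizers of the edge labels -/
  eds : ∀ x : Tw D V, (∀ q, x q ≠ none) → x ≠ rt T → KK (MulAction.stabilizer Γ (ed T x))
  /-- setwise stabilizers -/
  sets : ∀ J : Set Q, J.Nonempty → J ≠ Set.univ → KK (MulAction.stabilizer Γ J)

/-- **The principle EP(k).** -/
def EP {Γ G Q V L K : Type} [Group Γ] [Group G] [MulAction Γ Q] [MulAction G V]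
    [CommRing L] [CommGroup K] [Fintype Q] (D : Coc Γ G Q) (T : Tr G V)
    (κ : K1Fun (MonoidAlgebra L Γ) K) (k : ℕ) : Prop :=
  ∀ (n : Type) [Fintype n] [DecidableEq n] (E E' : n → Set (Tw D V))
    (f f' : Matrix n n (Kr D V (Polynomial L))), (∀ i, RS (E i)) → (∀ i, RS (E' i)) →
    (∀ i j, SS T (f i j)) → (∀ i j, SS T (f' i j)) → IsoM (dg E) (dg E') f f' →
    (∀ i x, lev x < k → (x ∈ E i ↔ x ∈ E' i)) → EqB k f (dg E) →
    ∀ [Fintype {i // rt T ∈ E i}] [Fintype {i // rt T ∈ E' i}],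
      kr κ ((eps T f).submatrix (Subtype.val : {i // rt T ∈ E' i} → n)
        (Subtype.val : {i // rt T ∈ E i} → n)) = 1

/-- **EPbase**. (4), `k = |Q|`. Matrices over `L[t][Γ]`: the finite part `Z` of `f` at the top
level; `Z(0)` respects the points (Lemma K `kr_lab` with labels in `Tw D V`), `Z(1)` is triangular
for `rr`; pieces with `rr < |Q|`: `kr_lab` with the labels `ed`; the piece `rr = |Q|` is `eps f` (up to
the identity part, `rt` may be assumed to be near). -/
def S_EPbase : Prop :=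
  ∀ (Γ G Q V L K : Type) [Group Γ] [Group G] [MulAction Γ Q] [MulAction G V]
    [CommRing L] [IsDomain L] (_ : Pool.Agent.Ind.IsEuc L) [CommGroup K] [Fintype Q]
    [DecidableEq Q] (D : Coc Γ G Q) (T : Tr G V) (κ : K1Fun (MonoidAlgebra L Γ) K),
    HypE D T κ → EP D T κ (Fintype.card Q)

/-- **EPstep**. (4), `EP(k+1)` implies `EP(k)`. With `B` large (`Key` for `f`, `f'`, `dg E'`; the
sets of `RS`; `root ∈ B`) and `F` = the points of level `k` with all coordinates in `B`, with block index: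
`Z̃' p' p = xt φ p'.1 p.1 (f' p'.2 p.2 at p'.1, p.1)` on the blocks `F`, from
`M₊ p = {x | Exts p.1 x}` if `p.1 ∈ E' p.2` (else `∅`) to `M₋`; `h = fromBlocks f 0 0 Z̃'`;
`mv p a = [a = p.2] ind {x | near B x = p.1}`; `w = mv * (far lift of f)`, `u = (far lift of f') * mvᵀ`;
`a = (1 - u)(1 + w)(1 - u)` on the source; `b` = identity outside the far sets, `mvᵀ` from
`{near B x = p.1}`, `p.1 ∈ E p.2` in the block `p` to the block `p.2`, and `- mv` from
`{near B x = p.1}`, `p.1 ∈ E' p.2`, in the block `p.2` to the block `p`. Then `b h a` is the identity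
below level `k + 1`. `kr (eps Z̃') = 1` by `kr_lab` with the labels `{q | p.1 q ≠ none}`. -/
def S_EPstep : Prop :=
  ∀ (Γ G Q V L K : Type) [Group Γ] [Group G] [MulAction Γ Q] [MulAction G V]
    [CommRing L] [IsDomain L] (_ : Pool.Agent.Ind.IsEuc L) [CommGroup K] [Fintype Q]
    [DecidableEq Q] (D : Coc Γ G Q) (T : Tr G V) (κ : K1Fun (MonoidAlgebra L Γ) K) (k : ℕ),
    HypE D T κ → 0 < k → k < Fintype.card Q → EP D T κ (k + 1) → EP D T κ k

end EP

section Cut

/-- **PropX** (5), see SpecR. -/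
def S_PropX : Prop :=
  ∀ (Γ G Q V L : Type) [Group Γ] [Group G] [MulAction Γ Q] [MulAction G V]
    [CommRing L] [IsDomain L] (_ : Pool.Agent.Ind.IsEuc L) [Fintype Q]
    [DecidableEq Q] (D : Coc Γ G Q) (T : Tr G V),
    (∀ l : Tw D V, NR T l → (∃ q, l q ≠ none) → ∀ C : Subgroup Γ,
      (∀ g ∈ C, g • l = l ∧ g • pr T l = pr T l) → ProjSF (MonoidAlgebra L C)) →
    ∀ (n : Type) [Fintype n] [DecidableEq n] (x x' : Matrix n n (MonoidAlgebra L Γ)),
      x * x' = 1 → x' * x = 1 →
      ∃ (m : Type) (_ : Fintype m) (_ : DecidableEq m) (Dm : m → Set (Tw D V))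
        (E' : n ⊕ m → Set (Tw D V)) (X X' : Matrix (n ⊕ m) (n ⊕ m) (Kr D V L)),
        (∀ i, RS (Dm i) ∧ ∀ z ∈ Dm i, NR T z ∧ z ≠ inf) ∧
        (∀ i, RS (E' i) ∧ ∀ z ∈ E' i, NR T z) ∧
        (∀ i, inf ∈ E' (Sum.inl i)) ∧ (∀ i, inf ∉ E' (Sum.inr i)) ∧
        (∀ i j, OO T (X i j)) ∧ (∀ i j, OO T (X' i j)) ∧
        IsoM (dg (Sum.elim (fun _ => {z | NR T z}) Dm)) (dg E') X X' ∧
        (∀ i j, ent (X (Sum.inl i) (Sum.inl j)) inf inf = x i j) ∧
        (∀ i j, ent (X' (Sum.inl i) (Sum.inl j)) inf inf = x' i j)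

end Cut

section End

/-- **End** (6). `f = (X + 1)(Φ(x') + 1)` on `n ⊕ m`, `Φ(x') i j = xt φ inf inf (x' i j)` (constants
to `L[t]`), from `univ` on `n` and `Dm` on `m` to `E'` and the complement of `{NR}` on `n`. `EP 1`. -/
def S_End : Prop :=
  ∀ (Γ G Q V L K : Type) [Group Γ] [Group G] [MulAction Γ Q] [MulAction G V]
    [CommRing L] [IsDomain L] (_ : Pool.Agent.Ind.IsEuc L) [CommGroup K] [Fintype Q] [Nonempty Q]
    [DecidableEq Q] (D : Coc Γ G Q) (T : Tr G V) (κ : K1Fun (MonoidAlgebra L Γ) K),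
    KU κ → EP D T κ 1 → (∀ l : Tw D V, NR T l → (∃ q, l q ≠ none) → ∀ C : Subgroup Γ,
      (∀ g ∈ C, g • l = l ∧ g • pr T l = pr T l) → ProjSF (MonoidAlgebra L C)) →
    ∀ (n : Type) [Fintype n] [DecidableEq n] (x : Matrix n n (MonoidAlgebra L Γ)), IsUnit x →
      κ.f x = 1

/-- **QC**. Theorem Q in the cocycle format. (`HypE` from the hypotheses: a subgroup which fixes
`x`, `ed x`, or `l` and `pr l` fixes a partial cell; `hom` from `SS Γ`; `ProjSF` by `kk_projSF`.) -/
def S_QC : Prop :=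
  ∀ (Γ G Q V : Type) [Group Γ] [Group G] [MulAction Γ Q] [MulAction G V] [Finite Q] [Nonempty Q]
    (T : Tr G V) (D : Coc Γ G Q),
    (∀ (C : Subgroup Γ) (c : Tw D (Set V)), (∃ q, c q ≠ none) →
      (∀ q s, c q = some s → (∃ v, s = {v}) ∨ (∃ v, v ≠ T.root ∧ s = {v, T.par v})) →
      (∀ g ∈ C, g • c = c) → KS C) →
    (∀ (C : Subgroup Γ) (J : Set Q), J.Nonempty → J ≠ Set.univ →
      (∀ g ∈ C, ∀ j ∈ J, g • j ∈ J) → KS C) → Pool.Agent.Hier.SS Γ → KK Γ

end End

end Pool.Agent.QT
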