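import Pool.Agent.Lib.MP_8f66f0_al_Q.Spec
import Pool.Agent.Lib.MP_8f66f0_al_FH.Stb

/-!
# Theorem Q: the exact cut (statements)

Part R of Theorem Q, (5). The aim is `S_PropX` of `Spec.lean`: an invertible matrix `x` over `L[Γ]` is
the level `0` part of an isomorphism `X : P^n + D → E'` in `OO`, `P` the points without a coordinate
`root`. `S_Key`, `S_Fl`, `S_Lev`, `S_RS`, `S_Ind`, `S_OOSS` of `Spec.lean` may be used (see also `Rk`,
`RkInd`, `Ten`).
-/

set_option autoImplicit false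

namespace Pool.Agent.QT

open scoped Pointwise
open Pool.Agent.TQ Pool.Agent.Wald Pool.Agent.FH

section Gen

/-- **Iso 1**. -/
def S_isoSymm : Prop :=
  ∀ (S : Type) [Ring S] (n n' : Type) [Fintype n] [Fintype n'] (e : Matrix n n S)
    (e' : Matrix n' n' S) (f : Matrix n' n S) (f' : Matrix n n' S), IsoM e e' f f' → IsoM e' e f' f

/-- **Iso 2**. Composition. -/
def S_isoComp : Prop :=
  ∀ (S : Type) [Ring S] (n n' n'' : Type) [Fintype n] [Fintype n'] [Fintype n'']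
    (e : Matrix n n S) (e' : Matrix n' n' S) (e'' : Matrix n'' n'' S) (f : Matrix n' n S)
    (f' : Matrix n n' S) (h : Matrix n'' n' S) (h' : Matrix n' n'' S),
    IsoM e e' f f' → IsoM e' e'' h h' → IsoM e e'' (h * f) (f' * h')

/-- **Iso 3**. Direct sum. -/
def S_isoSum : Prop :=
  ∀ (S : Type) [Ring S] (n n' m m' : Type) [Fintype n] [Fintype n'] [Fintype m] [Fintype m']
    (e : Matrix n n S) (e' : Matrix n' n' S) (f : Matrix n' n S) (f' : Matrix n n' S)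
    (d : Matrix m m S) (d' : Matrix m' m' S) (h : Matrix m' m S) (h' : Matrix m m' S),
    IsoM e e' f f' → IsoM d d' h h' →
    IsoM (Matrix.fromBlocks e 0 0 d) (Matrix.fromBlocks e' 0 0 d') (Matrix.fromBlocks f 0 0 h)
      (Matrix.fromBlocks f' 0 0 h')

/-- **Iso 4**. Reindexing. -/
def S_isoRe : Prop :=
  ∀ (S : Type) [Ring S] (n n' m m' : Type) [Fintype n] [Fintype n'] [Fintype m] [Fintype m']
    (e : Matrix n n S) (e' : Matrix n' n' S) (f : Matrix n' n S) (f' : Matrix n n' S)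
    (σ : m ≃ n) (σ' : m' ≃ n'), IsoM e e' f f' →
    IsoM (e.submatrix σ σ) (e'.submatrix σ' σ') (f.submatrix σ' σ) (f'.submatrix σ σ')

/-- **Iso 5**. Conjugation of `0 + p`: `w`, `w'` inverse to each other; `p` is isomorphic to
`w (0 + p) w'`. (`IsoM` unfolds to `(p [0 1] w') (w [0; 1] p) = p` etc.) -/
def S_isoConj : Prop :=
  ∀ (S : Type) [Ring S] (n m : Type) [Fintype n] [DecidableEq n] [Fintype m] [DecidableEq m]
    (p : Matrix n n S) (w w' : Matrix (m ⊕ n) (m ⊕ n) S), p * p = p → w * w' = 1 → w' * w = 1 →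
    IsoM p (w * Matrix.fromBlocks 0 0 0 p * w') (w * Matrix.fromRows (0 : Matrix m n S) p)
      (Matrix.fromCols (0 : Matrix n m S) p * w')

/-- **XX**. The invertible matrix with the corner `X₀` (over the corner `e`). -/
def S_xx : Prop :=
  ∀ (S : Type) [Ring S] (e X Y : S), e * e = e → e * X = X → X * e = X → e * Y = Y → Y * e = Y →
    let a := e - Y * X
    let b := e - X * Y
    (X * (Y * (e + b)) + b * b = e ∧ X * (-a) + b * X = 0 ∧ (-a) * (Y * (e + b)) + Y * (e + b) * b = 0 ∧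
      (-a) * (-a) + Y * (e + b) * X = e) ∧
    (Y * (e + b) * X + (-a) * (-a) = e ∧ Y * (e + b) * b + (-a) * (Y * (e + b)) = 0 ∧
      b * X + X * (-a) = 0 ∧ b * b + X * (Y * (e + b)) = e)

/-- **W**. The matrix `e₁₂(α) e₂₁(-β) e₁₂(α)` is invertible. -/
def S_ww : Prop :=
  ∀ (S : Type) [Ring S] (m n : Type) [Fintype n] [DecidableEq n] [Fintype m] [DecidableEq m]
    (α : Matrix m n S) (β : Matrix n m S),
    Matrix.fromBlocks (1 - α * β) (α + α - α * β * α) (-β) (1 - β * α) *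
        Matrix.fromBlocks (1 - α * β) (α * β * α - α - α) β (1 - β * α) = 1 ∧
      Matrix.fromBlocks (1 - α * β) (α * β * α - α - α) β (1 - β * α) *
        Matrix.fromBlocks (1 - α * β) (α + α - α * β * α) (-β) (1 - β * α) = 1

end Gen

section World

variable {Γ G Q V : Type} [Group Γ] [Group G] [MulAction Γ Q] [MulAction G V] {D : Coc Γ G Q}
  [Fintype Q] {R : Type} [CommRing R]

/-- Far lifts of matrices. -/
def IsFlM (T : Tr G V) (B : Finset V) (k : ℕ) {n' n : Type} (S F : Matrix n' n (Kr D V R)) : Prop :=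
  ∀ a' a, IsFl T B k (S a' a) (F a' a)

/-- The kernel matrix with the entries `M i' i` at the points `pt' i'`, `pt i` in the blocks `blk' i'`,
`blk i`. -/
noncomputable def plc {ι ι' n n' : Type} [Fintype ι] [Fintype ι'] [DecidableEq n] [DecidableEq n']
    (pt' : ι' → Tw D V) (blk' : ι' → n') (pt : ι → Tw D V) (blk : ι → n)
    (M : Matrix ι' ι (MonoidAlgebra R Γ)) : Matrix n' n (Kr D V R) :=
  fun a' a => ∑ i', ∑ i, if blk' i' = a' ∧ blk i = a then sk (pt' i') (pt i) (M i' i) else 0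

/-- The points without coordinate `root`. -/
def NRS (T : Tr G V) : Set (Tw D V) := {x | NR T x}

/-- The pair (point, parents) as a label. -/
def lbl (T : Tr G V) (x : Tw D V) : Tw D V × Tw D V := (x, pr T x)

/-- The equality as an equivariant relation. -/
def eqr (Γ X : Type) [Group Γ] [MulAction Γ X] : Eqr Γ X where
  rel x y := x = y
  refl _ := rfl
  symm h := h.symm
  trans h h' := h.trans h'
  inv g h := by rw [h]

end World

/-- **FlN**. Far lifts live on the points with `lev (near B x) = k`; if `root ∈ B` and the given kernel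
lives on points without `root`, so does the far lift. -/
def S_flN : Prop :=
  ∀ (Γ G Q V R : Type) [Group Γ] [Group G] [MulAction Γ Q] [MulAction G V] [Fintype Q]
    [CommRing R] (D : Coc Γ G Q) (T : Tr G V) (B : Finset V) (k : ℕ) (S F : Kr D V R),
    Jc S → T.root ∈ B → (∀ g y x, cf S g y x ≠ 0 → NR T y ∧ NR T x) → IsFl T B k S F →
    (∀ g y x, cf F g y x ≠ 0 → lev (near B y) = k ∧ lev (near B x) = k) ∧
      ind (NRS T) * F = F ∧ F * ind (NRS T) = F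

/-- **PlcE**. The entries of `plc`. -/
def S_plcE : Prop :=
  ∀ (Γ G Q V R : Type) [Group Γ] [Group G] [MulAction Γ Q] [MulAction G V]
    [CommRing R] (D : Coc Γ G Q) (ι ι' n n' : Type) [Fintype ι] [Fintype ι'] [DecidableEq ι]
    [DecidableEq ι'] [DecidableEq n] [DecidableEq n'] (pt' : ι' → Tw D V) (blk' : ι' → n')
    (pt : ι → Tw D V) (blk : ι → n) (M : Matrix ι' ι (MonoidAlgebra R Γ)),
    (∀ i j, pt i = pt j → blk i = blk j → i = j) →
    (∀ i j, pt' i = pt' j → blk' i = blk' j → i = j) →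
    (∀ i' i, ent (plc pt' blk' pt blk M (blk' i') (blk i)) (pt' i') (pt i) = M i' i) ∧
    ∀ a' a y x, ent (plc pt' blk' pt blk M a' a) y x ≠ 0 →
      ∃ i' i, blk' i' = a' ∧ blk i = a ∧ pt' i' = y ∧ pt i = x

/-- **PlcM**. `plc` is multiplicative. -/
def S_plcM : Prop :=
  ∀ (Γ G Q V R : Type) [Group Γ] [Group G] [MulAction Γ Q] [MulAction G V]
    [CommRing R] (D : Coc Γ G Q) (ι ι' ι'' n n' n'' : Type) [Fintype ι] [Fintype ι'] [Fintype ι'']
    [DecidableEq n] [DecidableEq n'] [DecidableEq n''] [Fintype n'] (pt'' : ι'' → Tw D V)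
    (blk'' : ι'' → n'') (pt' : ι' → Tw D V) (blk' : ι' → n') (pt : ι → Tw D V) (blk : ι → n)
    (M : Matrix ι'' ι' (MonoidAlgebra R Γ)) (N : Matrix ι' ι (MonoidAlgebra R Γ)),
    (∀ i j, pt' i = pt' j → blk' i = blk' j → i = j) →
    plc pt'' blk'' pt' blk' M * plc pt' blk' pt blk N = plc pt'' blk'' pt blk (M * N)

/-- **PF**. The finite part of an idempotent at level `k`. (Take `B` from `S_Key` and `S_RS` with
`root ∈ B`, `F = {(x, a) | near B x = x, lev x = k, NR T x}`,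
`pF (y, a') (x, a) = ent (p a' a) y x` and `E₁ a = {x ∈ E a | lev (near B x) ≠ k}`. `pF` is idempotent
because `p * p = p`, and the mixed products `dg E₁ * plc _`, `plc _ * dg E₁` are `0`.) -/
def S_pF : Prop :=
  ∀ (Γ G Q V L : Type) [Group Γ] [Group G] [MulAction Γ Q] [MulAction G V] [Fintype Q]
    [CommRing L] (D : Coc Γ G Q) (T : Tr G V) (k : ℕ)
    (n : Type) [Fintype n] [DecidableEq n] (p : Matrix n n (Kr D V L)) (E : n → Set (Tw D V)),
    p * p = p → (∀ a' a, OO T (p a' a)) → dg (fun _ => NRS T) * p = p →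
    p * dg (fun _ => NRS T) = p → (∀ a, RS (E a)) → (∀ a, E a ⊆ NRS T) → EqB k p (dg E) →
    ∃ (B : Finset V) (F : Type) (_ : Fintype F) (_ : DecidableEq F) (pt : F → Tw D V) (blk : F → n)
      (pF : Matrix F F (MonoidAlgebra L Γ)) (E₁ : n → Set (Tw D V)),
      T.root ∈ B ∧ (∀ i, NR T (pt i) ∧ near B (pt i) = pt i ∧ lev (pt i) = k) ∧
      (∀ i j, pt i = pt j → blk i = blk j → i = j) ∧
      (∀ a, RS (E₁ a) ∧ E₁ a ⊆ NRS T ∧ (∀ x ∈ E₁ a, lev (near B x) ≠ k) ∧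
        ∀ x, lev x < k → (x ∈ E₁ a ↔ x ∈ E a)) ∧
      pF * pF = pF ∧
      SupR (eqr Γ (Tw D V × Tw D V)).rel (fun i => lbl T (pt i)) (fun i => lbl T (pt i)) pF ∧
      EqB (k + 1) p (dg E₁ + plc pt blk pt blk pF)

/-- **Ab**. The two far lifts. (`S_pF`, then `FH.stb` with the labels `lbl T (pt i)` and the relation
`eqr` gives `d₁ = n₁`, `d₂ = n₂`, `i₁ : n₁ → F`, `i₂ : n₂ → F`, `u : F ⊕ n₁ ← n₂`, `v`; put
`P₁ b = {x | NR T x ∧ Exts (pt (i₁ b)) x}`, `P₂ b = {x | NR T x ∧ Exts (pt (i₂ b)) x}`,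
`α = fromBlocks (dg E₁) 0 0 0 + far lift of plc v`, `β = fromBlocks (dg E₁) 0 0 0 + far lift of plc u`
with the points `Sum.elim pt (pt ∘ i₁)`, `pt ∘ i₂` and the blocks `Sum.elim (inl ∘ blk) inr`, `inr`.
Up to level `k` (`S_Fl`) a far lift of `plc` is `plc`, and the mixed products are `0`.) -/
def S_ab : Prop :=
  ∀ (Γ G Q V L : Type) [Group Γ] [Group G] [MulAction Γ Q] [MulAction G V] [Fintype Q]
    [CommRing L] [IsDomain L] (D : Coc Γ G Q) (T : Tr G V) (k : ℕ),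
    (∀ l : Tw D V, NR T l → (∃ q, l q ≠ none) → ∀ C : Subgroup Γ,
      (∀ g ∈ C, g • l = l ∧ g • pr T l = pr T l) → ProjSF (MonoidAlgebra L C)) → 1 ≤ k →
    ∀ (n : Type) [Fintype n] [DecidableEq n] (p : Matrix n n (Kr D V L)) (E : n → Set (Tw D V)),
    p * p = p → (∀ a' a, OO T (p a' a)) → dg (fun _ => NRS T) * p = p →
    p * dg (fun _ => NRS T) = p → (∀ a, RS (E a)) → (∀ a, E a ⊆ NRS T) → EqB k p (dg E) →
    ∃ (d₁ d₂ : Type) (_ : Fintype d₁) (_ : DecidableEq d₁) (_ : Fintype d₂) (_ : DecidableEq d₂)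
      (P₁ : d₁ → Set (Tw D V)) (P₂ : d₂ → Set (Tw D V)) (E₁ : n → Set (Tw D V))
      (α : Matrix (n ⊕ d₂) (n ⊕ d₁) (Kr D V L)) (β : Matrix (n ⊕ d₁) (n ⊕ d₂) (Kr D V L)),
      (∀ b, RS (P₁ b) ∧ P₁ b ⊆ NRS T ∧ ∀ x ∈ P₁ b, k ≤ lev x) ∧
      (∀ b, RS (P₂ b) ∧ P₂ b ⊆ NRS T ∧ ∀ x ∈ P₂ b, k ≤ lev x) ∧
      (∀ a, RS (E₁ a) ∧ E₁ a ⊆ NRS T ∧ ∀ x, lev x < k → (x ∈ E₁ a ↔ x ∈ E a)) ∧
      (∀ b a, OO T (α b a)) ∧ (∀ a b, OO T (β a b)) ∧
      dg (fun _ => NRS T) * α = α ∧ α * dg (fun _ => NRS T) = α ∧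
      dg (fun _ => NRS T) * β = β ∧ β * dg (fun _ => NRS T) = β ∧
      EqB (k + 1) (β * α) (Matrix.fromBlocks p 0 0 (dg P₁)) ∧
      EqB (k + 1) (α * β) (dg (Sum.elim E₁ P₂)) ∧
      EqB (k + 1) (α * Matrix.fromBlocks p 0 0 (dg P₁)) α ∧
      EqB k α (Matrix.fromBlocks (dg E) 0 0 0) ∧ EqB k β (Matrix.fromBlocks (dg E) 0 0 0)

/-- The statement `R(k)`: an idempotent which agrees with `dg E` below level `k` is, after the addition
of a regular set of levels `≥ k`, isomorphic to a regular set, by an isomorphism which is the identity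
below level `k`. -/
def RP (Γ G Q V L : Type) [Group Γ] [Group G] [MulAction Γ Q] [MulAction G V] [Fintype Q]
    [CommRing L] (D : Coc Γ G Q) (T : Tr G V) (k : ℕ) : Prop :=
  ∀ (n : Type) [Fintype n] [DecidableEq n] (p : Matrix n n (Kr D V L)) (E : n → Set (Tw D V)),
    p * p = p → (∀ a' a, OO T (p a' a)) → dg (fun _ => NRS T) * p = p →
    p * dg (fun _ => NRS T) = p → (∀ a, RS (E a)) → (∀ a, E a ⊆ NRS T) → EqB k p (dg E) →
    ∃ (m m' : Type) (_ : Fintype m) (_ : DecidableEq m) (_ : Fintype m') (_ : DecidableEq m')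
      (P : m → Set (Tw D V)) (E' : n ⊕ m' → Set (Tw D V)) (X : Matrix (n ⊕ m') (n ⊕ m) (Kr D V L))
      (X' : Matrix (n ⊕ m) (n ⊕ m') (Kr D V L)),
      (∀ b, RS (P b) ∧ P b ⊆ NRS T ∧ ∀ x ∈ P b, k ≤ lev x) ∧ (∀ c, RS (E' c) ∧ E' c ⊆ NRS T) ∧
      (∀ a x, lev x < k → (x ∈ E' (Sum.inl a) ↔ x ∈ E a)) ∧
      (∀ b, ∀ x ∈ E' (Sum.inr b), k ≤ lev x) ∧
      (∀ c' c, OO T (X c' c)) ∧ (∀ c c', OO T (X' c c')) ∧
      IsoM (Matrix.fromBlocks p 0 0 (dg P)) (dg E') X X' ∧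
      EqB k X (Matrix.fromBlocks (dg E) 0 0 0)

/-- **Rtop**. The levels are `≤ |Q|`; `p = dg E`, `m = m' = Empty`. -/
def S_rtop : Prop :=
  ∀ (Γ G Q V L : Type) [Group Γ] [Group G] [MulAction Γ Q] [MulAction G V] [Fintype Q]
    [CommRing L] (D : Coc Γ G Q) (T : Tr G V) (k : ℕ), Fintype.card Q < k → RP Γ G Q V L D T k

/-- **Rstep**. From `S_ab`, with `w = e₁₂(α) e₂₁(-β) e₁₂(α)` (`S_ww`), `p₁ = fromBlocks p 0 0 (dg P₁)`,
`p₂ = w (0 + p₁) w'`: `EqB (k + 1) p₂ (dg (Sum.elim (Sum.elim E₁ P₂) fun _ => ∅))`, `RP (k + 1)` for `p₂`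
gives `X₂`, and `X = X₂ (w [0; p₁] + 1)` (`S_isoConj`, `S_isoSum`, `S_isoComp`), reindexed by
`(n ⊕ d₁) ⊕ m ≃ n ⊕ (d₁ ⊕ m)`, `((n ⊕ d₂) ⊕ (n ⊕ d₁)) ⊕ m' ≃ n ⊕ (d₂ ⊕ ((n ⊕ d₁) ⊕ m'))`. -/
def S_rstep : Prop :=
  ∀ (Γ G Q V L : Type) [Group Γ] [Group G] [MulAction Γ Q] [MulAction G V] [Fintype Q]
    [CommRing L] [IsDomain L] (D : Coc Γ G Q) (T : Tr G V) (k : ℕ),
    (∀ l : Tw D V, NR T l → (∃ q, l q ≠ none) → ∀ C : Subgroup Γ,
      (∀ g ∈ C, g • l = l ∧ g • pr T l = pr T l) → ProjSF (MonoidAlgebra L C)) →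
    1 ≤ k → RP Γ G Q V L D T (k + 1) → RP Γ G Q V L D T k

/-- **XxW**. The invertible matrix over `n ⊕ n` with the level `0` part `diag(x, x')`: `S_xx` for
`e = dg (NRS T)`, `X a' a` = the far lift (`B = {root}`, `k = 0`) of `sk inf inf (x a' a)`, `Y` the same
for `x'`; `W = fromBlocks X b (-a) (Y (e + b))`, `W' = fromBlocks (Y (e + b)) (-a) b X`. -/
def S_xxW : Prop :=
  ∀ (Γ G Q V L : Type) [Group Γ] [Group G] [MulAction Γ Q] [MulAction G V] [Fintype Q]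
    [CommRing L] (D : Coc Γ G Q) (T : Tr G V) (n : Type) [Fintype n] [DecidableEq n]
    (x x' : Matrix n n (MonoidAlgebra L Γ)), x * x' = 1 → x' * x = 1 →
    ∃ W W' : Matrix (n ⊕ n) (n ⊕ n) (Kr D V L),
      (∀ c' c, OO T (W c' c)) ∧ (∀ c' c, OO T (W' c' c)) ∧
      W * W' = dg (fun _ => NRS T) ∧ W' * W = dg (fun _ => NRS T) ∧
      dg (fun _ => NRS T) * W = W ∧ W * dg (fun _ => NRS T) = W ∧
      dg (fun _ => NRS T) * W' = W' ∧ W' * dg (fun _ => NRS T) = W' ∧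
      (∀ c' c, ent (W c' c) inf inf = Matrix.fromBlocks x 0 0 x' c' c) ∧
      (∀ c' c, ent (W' c' c) inf inf = Matrix.fromBlocks x' 0 0 x c' c)

end Pool.Agent.QT
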